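import Mathlib

/-! # Asymptotics of the parameters -/

namespace DK

open Filter Topology

/-- the depth used for the emptiness of boxes -/
def jz (k n : ℕ) : ℕ := k * (Nat.log 2 n + 1) + k + 4

lemma jz_pow (k n : ℕ) : 16 * (2 ^ k * n ^ k) ≤ 2 ^ jz k n := by
  have h1 : n ≤ 2 ^ (Nat.log 2 n + 1) := (Nat.lt_pow_succ_log_self (by norm_num) n).le
  have h2 : n ^ k ≤ 2 ^ (k * (Nat.log 2 n + 1)) := by
    rw [mul_comm, pow_mul]
    exact Nat.pow_le_pow_left h1 k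
  have h3 : 2 ^ jz k n = 16 * (2 ^ k * 2 ^ (k * (Nat.log 2 n + 1))) := by
    unfold jz
    rw [pow_add, pow_add]; ring
  rw [h3]
  exact Nat.mul_le_mul_left _ (Nat.mul_le_mul_left _ h2)

lemma tendsto_root {r : ℝ} (hr : 0 < r) : Tendsto (fun n : ℕ => (n : ℝ) ^ r) atTop atTop :=
  (tendsto_rpow_atTop hr).comp tendsto_natCast_atTop_atTop

lemma ev_real (k a b : ℕ) :
    ∀ᶠ X : ℝ in atTop, (4 : ℝ) ^ a * (X ^ k + 2) ^ b * Real.exp (-(X / 42) / 2) ≤ 1 := by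
  have h1 := (Real.tendsto_pow_mul_exp_neg_atTop_nhds_zero (k * b)).comp
    (tendsto_id.atTop_div_const (show (0 : ℝ) < 84 by norm_num))
  have h2 := h1.const_mul ((4 : ℝ) ^ a * 3 ^ b * 84 ^ (k * b))
  rw [mul_zero] at h2
  have h3 := h2.eventually (gt_mem_nhds (show (0 : ℝ) < 1 by norm_num))
  filter_upwards [h3, eventually_ge_atTop (1 : ℝ)] with X hX hX1
  simp only [Function.comp, id] at hX
  refine le_trans ?_ hX.le
  have e1 : -(X / 42) / 2 = -(X / 84) := by ring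
  rw [e1]
  have h4 : X ^ k + 2 ≤ 3 * X ^ k := by
    have : (1 : ℝ) ≤ X ^ k := one_le_pow₀ hX1
    linarith
  have h5 : (X ^ k + 2) ^ b ≤ (3 * X ^ k) ^ b := by
    apply pow_le_pow_left₀ (by positivity) h4
  have e2 : (4 : ℝ) ^ a * 3 ^ b * 84 ^ (k * b) * ((X / 84) ^ (k * b) * Real.exp (-(X / 84))) =
      4 ^ a * (3 * X ^ k) ^ b * Real.exp (-(X / 84)) := by
    rw [div_pow, mul_pow, ← pow_mul]
    field_simp
  rw [e2]
  gcongr

lemma ev_hE {k : ℕ} (hk : k ≠ 0) (a b : ℕ) :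
    ∀ᶠ n : ℕ in atTop, (4 : ℝ) ^ a * ((n + 2 : ℕ) : ℝ) ^ b *
      Real.exp (-((n : ℝ) ^ (1 / (k : ℝ)) / 42) / 2) ≤ 1 := by
  have hr : (0 : ℝ) < 1 / (k : ℝ) := by positivity
  filter_upwards [(tendsto_root hr).eventually (ev_real k a b)] with n hn
  have e : ((n : ℝ) ^ (1 / (k : ℝ))) ^ k = n := by
    rw [← Real.rpow_natCast, ← Real.rpow_mul (Nat.cast_nonneg n), one_div,
      inv_mul_cancel₀ (by exact_mod_cast hk), Real.rpow_one]
  rw [e] at hn
  push_cast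
  exact hn

lemma ev_jz (k : ℕ) (A : ℝ) : ∀ᶠ n : ℕ in atTop, (jz k n : ℝ) + A ≤ (n : ℝ) ^ (1 / 8 : ℝ) := by
  have h1 := isLittleO_log_rpow_atTop (show (0 : ℝ) < 1 / 8 by norm_num)
  have hl2 : 0 < Real.log 2 := Real.log_pos (by norm_num)
  have hc : 0 < Real.log 2 / (2 * (k + 1)) := by positivity
  have h2 := tendsto_natCast_atTop_atTop.eventually (h1.def hc) (α := ℕ)
  have h3 := (tendsto_root (show (0 : ℝ) < 1 / 8 by norm_num)).eventually
    (eventually_ge_atTop (2 * (k + k + 4 + |A|)))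
  filter_upwards [h2, h3, eventually_ge_atTop 1] with n hn1 hn2 hn3
  have hnr : (1 : ℝ) ≤ n := by exact_mod_cast hn3
  rw [Real.norm_of_nonneg (Real.log_nonneg hnr), Real.norm_of_nonneg (by positivity)] at hn1
  have h4 : (Nat.log 2 n : ℝ) ≤ Real.log n / Real.log 2 := by
    have := Real.natLog_le_logb n 2
    rwa [Real.logb] at this
  have h5 : (Nat.log 2 n : ℝ) * (2 * (k + 1)) ≤ (n : ℝ) ^ (1 / 8 : ℝ) := by
    rw [le_div_iff₀ hl2] at h4
    have h6 : Real.log n ≤ Real.log 2 * ((n : ℝ) ^ (1 / 8 : ℝ) / (2 * (k + 1))) := by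
      calc _ ≤ _ := hn1
        _ = _ := by ring
    have h7 : (Nat.log 2 n : ℝ) ≤ (n : ℝ) ^ (1 / 8 : ℝ) / (2 * (k + 1)) := by
      have := h4.trans h6
      rw [mul_comm] at this
      exact le_of_mul_le_mul_left this hl2
    rwa [le_div_iff₀ (by positivity)] at h7
  unfold jz
  push_cast
  have h8 : (0 : ℝ) ≤ (Nat.log 2 n : ℝ) := Nat.cast_nonneg _
  have h9 := le_abs_self A
  nlinarith

end DK
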