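import Pool.Agent.Work.MP_d500f7_co.K.Core
import Pool.Agent.Work.MP_d500f7_co.K.Asym

/-! # Choice of the parameters -/

namespace DK

open Finset Filter

variable {ι : Type} [Fintype ι] [DecidableEq ι] {L : ℕ}

/-- constants -/
noncomputable def CT (ι : Type) [Fintype ι] : ℝ :=
  30 ^ Fintype.card ι * Cc ι * 2 ^ Fintype.card ι + 1

noncomputable def CA (ι : Type) [Fintype ι] : ℝ :=
  2 * (2 ^ Fintype.card ι * (2 ^ Fintype.card ι + Fintype.card ι * CT ι)) +
    2 * (16 ^ Fintype.card ι * CT ι)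

noncomputable def CB (ι : Type) [Fintype ι] : ℝ :=
  16 * 4 ^ Fintype.card ι * Real.sqrt (CT ι) + 3 * 8 ^ Fintype.card ι * Real.sqrt (CT ι)

lemma CT_ge : 1 ≤ CT ι := by
  unfold CT
  have := Cc_pos (ι := ι)
  have : 0 ≤ 30 ^ Fintype.card ι * Cc ι * 2 ^ Fintype.card ι := by positivity
  linarith

lemma CA_nonneg : 0 ≤ CA ι := by
  unfold CA
  have := CT_ge (ι := ι)
  positivity

lemma CB_nonneg : 0 ≤ CB ι := by
  unfold CB
  positivity

lemma card_erase_o (o : ι) : (univ.erase o).card + 1 = Fintype.card ι := by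
  rw [Finset.card_erase_of_mem (mem_univ o), Finset.card_univ]
  have : 0 < Fintype.card ι := Fintype.card_pos_iff.2 ⟨o⟩
  omega

lemma n_add_le {n : ℕ} (hn : 1 ≤ n) (a b : ℕ) (hab : a ≤ b) :
    ((n : ℝ) + 1) ^ a ≤ 2 ^ b * (n : ℝ) ^ a := by
  have hnr : (1 : ℝ) ≤ n := by exact_mod_cast hn
  calc ((n : ℝ) + 1) ^ a ≤ (2 * n) ^ a := pow_le_pow_left₀ (by linarith) (by linarith) a
    _ = 2 ^ a * (n : ℝ) ^ a := mul_pow _ _ _
    _ ≤ _ := by
      have : (2 : ℝ) ^ a ≤ 2 ^ b := pow_le_pow_right₀ (by norm_num) hab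
      exact mul_le_mul_of_nonneg_right this (by positivity)

/-- size of `Th` -/
lemma Th_le {o : ι} (hj : 1 ≤ (univ.erase o).card) {n : ℕ} (hn : 1 ≤ n) {X K : ℝ} (hX1 : 1 ≤ X)
    (hX : X ^ Fintype.card ι = n) (hK0 : 0 ≤ K) (hKX : K ≤ X) :
    (Th K n o + 1) * X ≤ CT ι * (n : ℝ) ^ (univ.erase o).card := by
  set j := (univ.erase o).card with hjdef
  have hk := card_erase_o o
  rw [← hjdef] at hk
  have hnr : (1 : ℝ) ≤ n := by exact_mod_cast hn
  have h1 : K ^ j * X ≤ n := by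
    calc K ^ j * X ≤ X ^ j * X := by gcongr
      _ = n := by rw [← pow_succ, hk, hX]
  have h2 : ((n : ℝ) + 1) ^ (j - 1) ≤ 2 ^ Fintype.card ι * (n : ℝ) ^ (j - 1) :=
    n_add_le hn _ _ (by omega)
  have h3 : X ≤ (n : ℝ) ^ j := by
    calc X = X ^ 1 := (pow_one X).symm
      _ ≤ X ^ Fintype.card ι := pow_le_pow_right₀ hX1 (by omega)
      _ = (n : ℝ) ^ 1 := by rw [hX, pow_one]
      _ ≤ (n : ℝ) ^ j := pow_le_pow_right₀ hnr hj
  have hCc := Cc_pos (ι := ι)
  unfold Th CT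
  rw [← hjdef]
  have e : (n : ℝ) ^ j = n * (n : ℝ) ^ (j - 1) := by
    rw [← pow_succ']; congr 1; omega
  have h4 : 30 ^ Fintype.card ι * Cc ι * (K ^ j * ((n : ℝ) + 1) ^ (j - 1)) * X ≤
      30 ^ Fintype.card ι * Cc ι * 2 ^ Fintype.card ι * (n : ℝ) ^ j := by
    calc 30 ^ Fintype.card ι * Cc ι * (K ^ j * ((n : ℝ) + 1) ^ (j - 1)) * X =
        30 ^ Fintype.card ι * Cc ι * ((K ^ j * X) * ((n : ℝ) + 1) ^ (j - 1)) := by ring
      _ ≤ 30 ^ Fintype.card ι * Cc ι * (n * (2 ^ Fintype.card ι * (n : ℝ) ^ (j - 1))) := by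
          gcongr
      _ = _ := by rw [e]; ring
  linarith

/-- the right side -/
theorem Rhs_le {o : ι} (hj : 1 ≤ (univ.erase o).card) {n : ℕ} (hn : 1 ≤ n) {X : ℝ} (hX1 : 42 ≤ X)
    (hX : X ^ Fintype.card ι = n) {c τ M : ℝ} (hc : 0 < c) (hτ : 0 < τ)
    (hM : M = c * Real.sqrt ((n : ℝ) ^ (univ.erase o).card * X)) :
    Rhs ι (X / 42) n o M ((X / 42) / (2 * M)) (τ * (n : ℝ) ^ (univ.erase o).card / M) ≤
      (2 * τ + CA ι * (42 * c ^ 2 / τ) + CB ι * c) * (n : ℝ) ^ (univ.erase o).card := by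
  set j := (univ.erase o).card with hjdef
  set P : ℝ := (n : ℝ) ^ j with hP
  set K : ℝ := X / 42 with hK
  have hk := card_erase_o o
  rw [← hjdef] at hk
  have hnr : (1 : ℝ) ≤ n := by exact_mod_cast hn
  have hP0 : 0 < P := by positivity
  have hX0 : 0 < X := by linarith
  have hK1 : 1 ≤ K := by rw [hK, le_div_iff₀ (by norm_num)]; linarith
  have hK0 : 0 ≤ K := by linarith
  have hKX : K ≤ X := by rw [hK, div_le_iff₀ (by norm_num)]; linarith
  have hM0 : 0 < M := by rw [hM]; positivity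
  have hMsq : M ^ 2 = c ^ 2 * (P * X) := by
    rw [hM, mul_pow, Real.sq_sqrt (by positivity)]
  have hTh0 := Th_nonneg hK0 n o
  have hTX := Th_le hj hn (by linarith) hX hK0 hKX
  rw [← hjdef, ← hP] at hTX
  set T := Th K n o + 1 with hT
  have hT1 : 1 ≤ T := by rw [hT]; linarith
  have hTP : T ≤ CT ι * P := by
    calc T = T * 1 := (mul_one T).symm
      _ ≤ T * X := by gcongr; linarith
      _ ≤ _ := hTX
  have hCT := CT_ge (ι := ι)
  -- `√T M`
  have hTM : Real.sqrt T * M ≤ Real.sqrt (CT ι) * c * P := by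
    have h1 : (Real.sqrt T * M) ^ 2 ≤ (Real.sqrt (CT ι) * c * P) ^ 2 := by
      rw [mul_pow, Real.sq_sqrt (by linarith), hMsq, mul_pow, mul_pow,
        Real.sq_sqrt (by linarith)]
      calc T * (c ^ 2 * (P * X)) = c ^ 2 * P * (T * X) := by ring
        _ ≤ c ^ 2 * P * (CT ι * P) := by gcongr
        _ = _ := by ring
    exact le_of_sq_le_sq h1 (by positivity)
  -- first term
  have u1 : 2 * (τ * P / M) * M = 2 * τ * P := by field_simp
  -- second term
  have hden : 2 * (τ * P / M) * (K / (2 * M)) = τ / (42 * c ^ 2) := by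
    have e1 : 2 * (τ * P / M) * (K / (2 * M)) = τ * P * K / M ^ 2 := by field_simp
    rw [e1, hMsq, hK]
    field_simp
  have hnum : 2 * (2 ^ Fintype.card ι * (((n : ℝ) + 1) ^ j + Fintype.card ι * T)) +
      2 * (16 ^ Fintype.card ι * T) ≤ CA ι * P := by
    have h1 : ((n : ℝ) + 1) ^ j ≤ 2 ^ Fintype.card ι * P := n_add_le hn j _ (by omega)
    unfold CA
    have h2 : (2 : ℝ) ^ Fintype.card ι * (((n : ℝ) + 1) ^ j + Fintype.card ι * T) ≤
        2 ^ Fintype.card ι * (2 ^ Fintype.card ι * P + Fintype.card ι * (CT ι * P)) := by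
      gcongr
    have h3 : (16 : ℝ) ^ Fintype.card ι * T ≤ 16 ^ Fintype.card ι * (CT ι * P) := by gcongr
    calc _ ≤ 2 * (2 ^ Fintype.card ι * (2 ^ Fintype.card ι * P +
          Fintype.card ι * (CT ι * P))) + 2 * (16 ^ Fintype.card ι * (CT ι * P)) := by linarith
      _ = _ := by ring
  have u2 : (2 * (2 ^ Fintype.card ι * (((n : ℝ) + 1) ^ j + Fintype.card ι * T)) +
      2 * (16 ^ Fintype.card ι * T)) / (2 * (τ * P / M) * (K / (2 * M))) ≤
      CA ι * (42 * c ^ 2 / τ) * P := by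
    rw [hden]
    have hpos : 0 < τ / (42 * c ^ 2) := by positivity
    rw [div_le_iff₀ hpos]
    refine hnum.trans (le_of_eq ?_)
    field_simp
  -- third term
  have u3 : 2 * (Real.sqrt (4 * 16 ^ Fintype.card ι * T) *
      Real.sqrt (8 * M ^ 2 + 4 * M / (K / (2 * M)))) ≤
      16 * 4 ^ Fintype.card ι * Real.sqrt (CT ι) * c * P := by
    have h1 : 8 * M ^ 2 + 4 * M / (K / (2 * M)) ≤ (4 * M) ^ 2 := by
      have e1 : 4 * M / (K / (2 * M)) = 8 * M ^ 2 / K := by field_simp; ring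
      rw [e1]
      have h2 : 8 * M ^ 2 / K ≤ 8 * M ^ 2 := div_le_self (by positivity) hK1
      nlinarith
    have h2 : Real.sqrt (8 * M ^ 2 + 4 * M / (K / (2 * M))) ≤ 4 * M :=
      (Real.sqrt_le_sqrt h1).trans (le_of_eq (Real.sqrt_sq (by positivity)))
    have h3 : Real.sqrt (4 * 16 ^ Fintype.card ι * T) = 2 * 4 ^ Fintype.card ι * Real.sqrt T := by
      rw [show (4 : ℝ) * 16 ^ Fintype.card ι * T = (2 * 4 ^ Fintype.card ι) ^ 2 * T by
        rw [mul_pow, ← pow_mul, mul_comm (Fintype.card ι) 2, pow_mul]; norm_num,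
        Real.sqrt_mul (by positivity), Real.sqrt_sq (by positivity)]
    rw [h3]
    calc 2 * (2 * 4 ^ Fintype.card ι * Real.sqrt T *
        Real.sqrt (8 * M ^ 2 + 4 * M / (K / (2 * M)))) ≤
        2 * (2 * 4 ^ Fintype.card ι * Real.sqrt T * (4 * M)) := by gcongr
      _ = 16 * 4 ^ Fintype.card ι * (Real.sqrt T * M) := by ring
      _ ≤ 16 * 4 ^ Fintype.card ι * (Real.sqrt (CT ι) * c * P) := by gcongr
      _ = _ := by ring
  -- fourth term
  have u4 : 2 ^ Fintype.card ι * (4 ^ Fintype.card ι * (M * (2 * Real.sqrt (Th K n o) + 1))) ≤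
      3 * 8 ^ Fintype.card ι * Real.sqrt (CT ι) * c * P := by
    have h1 : Real.sqrt (Th K n o) ≤ Real.sqrt T := Real.sqrt_le_sqrt (by rw [hT]; linarith)
    have h2 : 1 ≤ Real.sqrt T := by rw [Real.one_le_sqrt]; exact hT1
    have e8 : (8 : ℝ) ^ Fintype.card ι = 2 ^ Fintype.card ι * 4 ^ Fintype.card ι := by
      rw [← mul_pow]; norm_num
    calc 2 ^ Fintype.card ι * (4 ^ Fintype.card ι * (M * (2 * Real.sqrt (Th K n o) + 1))) ≤
        2 ^ Fintype.card ι * (4 ^ Fintype.card ι * (M * (3 * Real.sqrt T))) := by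
          gcongr; linarith
      _ = 3 * 8 ^ Fintype.card ι * (Real.sqrt T * M) := by rw [e8]; ring
      _ ≤ 3 * 8 ^ Fintype.card ι * (Real.sqrt (CT ι) * c * P) := by gcongr
      _ = _ := by ring
  unfold Rhs CB
  rw [← hjdef, ← hT, u1]
  calc _ ≤ 2 * τ * P + CA ι * (42 * c ^ 2 / τ) * P +
        16 * 4 ^ Fintype.card ι * Real.sqrt (CT ι) * c * P +
        3 * 8 ^ Fintype.card ι * Real.sqrt (CT ι) * c * P := by linarith
    _ = _ := by ring

end DK
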