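import Pool.Agent.Work.MP_d500f7_co.K.Lv

/-!
# Matrix Azuma inequality, elementary moment form

Proof:
`H = fromBlocks 0 M Mᵀ 0` (symmetric, index `α ⊕ β`).  For symmetric `X, E` with `|E v|² ≤ σ |v|²`
and `i + j = m` even: `tr(E X^i E X^j) ≤ 2 tr(E² X^m) ≤ 2 σ tr(X^m)` (spectral theorem for `X`:
`∑_{ab} E'_{ab}² λ_a^i λ_b^j`, `|λ_a^i λ_b^j| ≤ λ_a^m + λ_b^m`).  With
`g_p(t) = (tr (S + t E)^{2p} + tr (S - t E)^{2p}) / (2 (2p)!)`: `g_p(0) = tr S^{2p}/(2p)!`,
`g_p'(0) = 0`, `g_p'' ≤ 2 σ g_{p-1}`, so by induction on `p` (twice `monotoneOn_of_deriv_nonneg`)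
`g_p(1) ≤ ∑_{q ≤ p} (2σ)^q/(2q)! · tr S^{2(p-q)}/(2(p-q))! ≤ ∑_q σ^q/q! · tr S^{2(p-q)}/(2(p-q))!`.
Hence, by induction on `m` (flip digit `m` of coordinate `c`), `E_P tr H_m^{2p}/(2p)! ≤
(|α|+|β|) V^p/p!` for all `p`, `V = ∑_{t<m} σ t`, so `E_P tr H_m^{2p} ≤ (|α|+|β|) (2 p V)^p`.
Finally `¬ OpLe S b → b^p ≤ tr H^{2p}` and Markov with `b = 6 p V` (`3^{-p} ≤ e^{-p}`); `V = 0` apart.
-/

namespace DK

open Finset Matrix

variable {ι : Type} [Fintype ι] [DecidableEq ι] {L : ℕ}

section trace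

variable {n : Type} [Fintype n] [DecidableEq n]

lemma az_spec {X : Matrix n n ℝ} (hX : Xᵀ = X) :
    ∃ (U : Matrix n n ℝ) (d : n → ℝ), Uᵀ * U = 1 ∧ U * Uᵀ = 1 ∧ X = U * diagonal d * Uᵀ := by
  have hH : X.IsHermitian := by
    unfold Matrix.IsHermitian
    rw [Matrix.conjTranspose_eq_transpose_of_trivial]; exact hX
  have h1 : (hH.eigenvectorUnitary : Matrix n n ℝ)ᵀ * (hH.eigenvectorUnitary : Matrix n n ℝ) = 1 := by
    have := Unitary.coe_star_mul_self hH.eigenvectorUnitary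
    rwa [Matrix.star_eq_conjTranspose, Matrix.conjTranspose_eq_transpose_of_trivial] at this
  refine ⟨(hH.eigenvectorUnitary : Matrix n n ℝ), hH.eigenvalues, h1,
    mul_eq_one_comm.1 h1, ?_⟩
  · have := hH.spectral_theorem
    rw [Unitary.conjStarAlgAut_apply] at this
    rw [← Matrix.conjTranspose_eq_transpose_of_trivial, ← Matrix.star_eq_conjTranspose]
    exact this

lemma az_pow {U : Matrix n n ℝ} {d : n → ℝ} (h1 : Uᵀ * U = 1) (h2 : U * Uᵀ = 1) (k : ℕ) :
    (U * diagonal d * Uᵀ) ^ k = U * diagonal (fun a => d a ^ k) * Uᵀ := by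
  induction k with
  | zero => simp [h2]
  | succ k ih =>
    rw [pow_succ, ih]
    calc U * diagonal (fun a => d a ^ k) * Uᵀ * (U * diagonal d * Uᵀ)
        = U * (diagonal (fun a => d a ^ k) * (Uᵀ * U) * diagonal d) * Uᵀ := by
          simp only [Matrix.mul_assoc]
      _ = U * diagonal (fun a => d a ^ (k + 1)) * Uᵀ := by
          rw [h1, Matrix.mul_one, Matrix.diagonal_mul_diagonal]
          simp only [pow_succ]

lemma az_trace_pow {U : Matrix n n ℝ} {d : n → ℝ} (h1 : Uᵀ * U = 1) (h2 : U * Uᵀ = 1) (k : ℕ) :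
    ((U * diagonal d * Uᵀ) ^ k).trace = ∑ a, d a ^ k := by
  rw [az_pow h1 h2, Matrix.trace_mul_comm, ← Matrix.mul_assoc, h1, Matrix.one_mul,
    Matrix.trace_diagonal]

/-- the real inequality -/
lemma az_real (x y : ℝ) {i j m : ℕ} (h : i + j = 2 * m) : x ^ i * y ^ j ≤ x ^ (2 * m) + y ^ (2 * m) := by
  have hx : 0 ≤ x ^ (2 * m) := by rw [pow_mul]; positivity
  have hy : 0 ≤ y ^ (2 * m) := by rw [pow_mul]; positivity
  calc x ^ i * y ^ j ≤ |x ^ i * y ^ j| := le_abs_self _
    _ = |x| ^ i * |y| ^ j := by rw [abs_mul, abs_pow, abs_pow]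
    _ ≤ x ^ (2 * m) + y ^ (2 * m) := by
      rcases le_total |x| |y| with hxy | hxy
      · calc |x| ^ i * |y| ^ j ≤ |y| ^ i * |y| ^ j := by gcongr
          _ = |y| ^ (2 * m) := by rw [← pow_add, h]
          _ = y ^ (2 * m) := by rw [pow_mul, sq_abs, ← pow_mul]
          _ ≤ _ := by linarith
      · calc |x| ^ i * |y| ^ j ≤ |x| ^ i * |x| ^ j := by gcongr
          _ = |x| ^ (2 * m) := by rw [← pow_add, h]
          _ = x ^ (2 * m) := by rw [pow_mul, sq_abs, ← pow_mul]
          _ ≤ _ := by linarith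

lemma az_trace_ineq {X E : Matrix n n ℝ} (hX : Xᵀ = X) (hE : Eᵀ = E) {σ : ℝ}
    (hop : ∀ v : n → ℝ, ∑ a, (E *ᵥ v) a ^ 2 ≤ σ * ∑ a, v a ^ 2) {i j m : ℕ}
    (h : i + j = 2 * m) :
    (E * X ^ i * (E * X ^ j)).trace ≤ 2 * σ * (X ^ (2 * m)).trace := by
  obtain ⟨U, d, h1, h2, rfl⟩ := az_spec hX
  rw [az_trace_pow h1 h2, az_pow h1 h2, az_pow h1 h2]
  set F : Matrix n n ℝ := Uᵀ * E * U with hF
  have hFT : ∀ a b, F b a = F a b := by
    intro a b
    have : Fᵀ = F := by
      rw [hF, Matrix.transpose_mul, Matrix.transpose_mul, Matrix.transpose_transpose, hE,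
        Matrix.mul_assoc]
    have := congrFun (congrFun this a) b
    simpa [Matrix.transpose_apply] using this
  have e1 : (E * (U * diagonal (fun a => d a ^ i) * Uᵀ) * (E * (U * diagonal (fun a => d a ^ j) * Uᵀ))).trace
      = (F * diagonal (fun a => d a ^ i) * (F * diagonal (fun a => d a ^ j))).trace := by
    have : E * (U * diagonal (fun a => d a ^ i) * Uᵀ) * (E * (U * diagonal (fun a => d a ^ j) * Uᵀ))
        = (E * U * diagonal (fun a => d a ^ i) * Uᵀ * E * U * diagonal (fun a => d a ^ j)) * Uᵀ := by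
      simp only [Matrix.mul_assoc]
    rw [this, Matrix.trace_mul_comm, hF]
    simp only [Matrix.mul_assoc]
  have e2 : (F * diagonal (fun a => d a ^ i) * (F * diagonal (fun a => d a ^ j))).trace =
      ∑ a, ∑ b, F a b ^ 2 * (d b ^ i * d a ^ j) := by
    unfold Matrix.trace
    refine Finset.sum_congr rfl (fun a _ => ?_)
    rw [Matrix.diag_apply, Matrix.mul_apply]
    refine Finset.sum_congr rfl (fun b _ => ?_)
    rw [Matrix.mul_diagonal, Matrix.mul_diagonal, hFT a b]
    ring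
  have hrow : ∀ a, ∑ b, F a b ^ 2 ≤ σ := by
    intro a
    have hv := hop (U *ᵥ Pi.single a 1)
    have s1 : ∑ b, (U *ᵥ (Pi.single a 1 : n → ℝ)) b ^ 2 = 1 := by
      have := congrFun (congrFun h1 a) a
      rw [Matrix.mul_apply, Matrix.one_apply_eq] at this
      refine (Finset.sum_congr rfl (fun b _ => ?_)).trans this
      rw [Matrix.mulVec_single_one, Matrix.transpose_apply, Matrix.col_apply]
      ring
    have s2 : ∑ b, (E *ᵥ (U *ᵥ (Pi.single a 1 : n → ℝ))) b ^ 2 = ∑ b, F a b ^ 2 := by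
      have hg : Fᵀ * F = (E * U)ᵀ * (E * U) := by
        rw [hF, Matrix.transpose_mul, Matrix.transpose_mul, Matrix.transpose_transpose, Matrix.transpose_mul]
        calc Uᵀ * (Eᵀ * U) * (Uᵀ * E * U) = Uᵀ * Eᵀ * (U * Uᵀ) * (E * U) := by
              simp only [Matrix.mul_assoc]
          _ = _ := by rw [h2, Matrix.mul_one]
      have := congrFun (congrFun hg a) a
      rw [Matrix.mul_apply, Matrix.mul_apply] at this
      rw [Matrix.mulVec_mulVec]
      calc ∑ b, ((E * U) *ᵥ (Pi.single a 1 : n → ℝ)) b ^ 2 = ∑ b, (E * U)ᵀ a b * (E * U) b a := by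
            refine Finset.sum_congr rfl (fun b _ => ?_)
            rw [Matrix.mulVec_single_one, Matrix.transpose_apply, Matrix.col_apply]
            ring
        _ = ∑ b, Fᵀ a b * F b a := this.symm
        _ = _ := by
            refine Finset.sum_congr rfl (fun b _ => ?_)
            rw [Matrix.transpose_apply, hFT a b]; ring
    rw [s1, s2, mul_one] at hv
    exact hv
  have hcol : ∀ b, ∑ a, F a b ^ 2 ≤ σ := by
    intro b
    calc ∑ a, F a b ^ 2 = ∑ a, F b a ^ 2 := Finset.sum_congr rfl (fun a _ => by rw [hFT a b])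
      _ ≤ σ := hrow b
  have hd : ∀ a, 0 ≤ d a ^ (2 * m) := fun a => by rw [pow_mul]; positivity
  rw [e1, e2]
  calc ∑ a, ∑ b, F a b ^ 2 * (d b ^ i * d a ^ j)
      ≤ ∑ a, ∑ b, F a b ^ 2 * (d b ^ (2 * m) + d a ^ (2 * m)) := by
        refine Finset.sum_le_sum (fun a _ => Finset.sum_le_sum (fun b _ => ?_))
        exact mul_le_mul_of_nonneg_left (az_real _ _ h) (sq_nonneg _)
    _ = ∑ b, (∑ a, F a b ^ 2) * d b ^ (2 * m) + ∑ a, (∑ b, F a b ^ 2) * d a ^ (2 * m) := by
        simp only [mul_add, Finset.sum_add_distrib, Finset.sum_mul]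
        rw [Finset.sum_comm]
    _ ≤ ∑ b, σ * d b ^ (2 * m) + ∑ a, σ * d a ^ (2 * m) := by
        refine add_le_add (Finset.sum_le_sum (fun b _ => ?_)) (Finset.sum_le_sum (fun a _ => ?_))
        · exact mul_le_mul_of_nonneg_right (hcol b) (hd b)
        · exact mul_le_mul_of_nonneg_right (hrow a) (hd a)
    _ = 2 * σ * ∑ a, d a ^ (2 * m) := by
        rw [← Finset.mul_sum]; ring

end trace


/-! ### derivatives -/

section deriv

variable {n : Type} [Fintype n] [DecidableEq n]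

lemma az_deriv_entry (S E : Matrix n n ℝ) (k : ℕ) (t : ℝ) (i j : n) :
    HasDerivAt (fun t : ℝ => ((S + t • E) ^ k) i j)
      ((∑ r ∈ range k, (S + t • E) ^ r * (E * (S + t • E) ^ (k - 1 - r))) i j) t := by
  induction k generalizing i j with
  | zero =>
    simp only [pow_zero, range_zero, sum_empty, Matrix.zero_apply]
    exact hasDerivAt_const _ _
  | succ k ih =>
    have h1 : ∀ l, HasDerivAt (fun t : ℝ => (S + t • E) l j) (E l j) t := by
      intro l
      have : HasDerivAt (fun t : ℝ => S l j + t * E l j) (1 * E l j) t :=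
        ((hasDerivAt_id t).mul_const (E l j)).const_add (S l j)
      rw [one_mul] at this
      exact this
    have h2 := HasDerivAt.fun_sum (u := univ) (fun l _ => (ih i l).mul (h1 l))
    have e1 : (fun t : ℝ => ((S + t • E) ^ (k + 1)) i j) =
        fun t : ℝ => ∑ l, ((S + t • E) ^ k) i l * (S + t • E) l j := by
      funext t
      rw [pow_succ, Matrix.mul_apply]
    rw [e1]
    have e2 : ((∑ r ∈ range (k + 1), (S + t • E) ^ r * (E * (S + t • E) ^ (k + 1 - 1 - r))) i j) =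
        ∑ l, ((∑ r ∈ range k, (S + t • E) ^ r * (E * (S + t • E) ^ (k - 1 - r))) i l *
          (S + t • E) l j + ((S + t • E) ^ k) i l * E l j) := by
      have e3 : ∑ r ∈ range (k + 1), (S + t • E) ^ r * (E * (S + t • E) ^ (k + 1 - 1 - r)) =
          (∑ r ∈ range k, (S + t • E) ^ r * (E * (S + t • E) ^ (k - 1 - r))) * (S + t • E) +
            (S + t • E) ^ k * E := by
        rw [Finset.sum_range_succ, Finset.sum_mul]
        congr 1
        · refine Finset.sum_congr rfl (fun r hr => ?_)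
          have : k + 1 - 1 - r = (k - 1 - r) + 1 := by
            have := Finset.mem_range.1 hr; omega
          rw [this, pow_succ]
          simp only [Matrix.mul_assoc]
        · have : k + 1 - 1 - k = 0 := by omega
          rw [this, pow_zero, Matrix.mul_one]
      rw [e3, Matrix.add_apply, Matrix.mul_apply, Matrix.mul_apply, ← Finset.sum_add_distrib]
    rw [e2]
    exact h2

lemma az_deriv_trace (A S E : Matrix n n ℝ) (k : ℕ) (t : ℝ) :
    HasDerivAt (fun t : ℝ => (A * (S + t • E) ^ k).trace)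
      (∑ r ∈ range k, (A * ((S + t • E) ^ r * (E * (S + t • E) ^ (k - 1 - r)))).trace) t := by
  have h1 : (fun t : ℝ => (A * (S + t • E) ^ k).trace) =
      fun t : ℝ => ∑ i, ∑ l, A i l * ((S + t • E) ^ k) l i := by
    funext t
    unfold Matrix.trace
    refine Finset.sum_congr rfl (fun i _ => ?_)
    rw [Matrix.diag_apply, Matrix.mul_apply]
  have h2 : ∑ r ∈ range k, (A * ((S + t • E) ^ r * (E * (S + t • E) ^ (k - 1 - r)))).trace =
      ∑ i, ∑ l, A i l *
        (∑ r ∈ range k, (S + t • E) ^ r * (E * (S + t • E) ^ (k - 1 - r))) l i := by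
    rw [← Matrix.trace_sum, ← Finset.mul_sum]
    unfold Matrix.trace
    refine Finset.sum_congr rfl (fun i _ => ?_)
    rw [Matrix.diag_apply, Matrix.mul_apply]
  rw [h1, h2]
  exact HasDerivAt.fun_sum (fun i _ => HasDerivAt.fun_sum (fun l _ =>
    (az_deriv_entry S E k t l i).const_mul (A i l)))

lemma az_deriv1 (S E : Matrix n n ℝ) (k : ℕ) (t : ℝ) :
    HasDerivAt (fun t : ℝ => ((S + t • E) ^ k).trace)
      (k * (E * (S + t • E) ^ (k - 1)).trace) t := by
  have h := az_deriv_trace 1 S E k t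
  simp only [Matrix.one_mul] at h
  have e : ∑ r ∈ range k, ((S + t • E) ^ r * (E * (S + t • E) ^ (k - 1 - r))).trace =
      k * (E * (S + t • E) ^ (k - 1)).trace := by
    rw [Finset.sum_congr rfl (g := fun _ => (E * (S + t • E) ^ (k - 1)).trace), Finset.sum_const,
      card_range, nsmul_eq_mul]
    intro r hr
    have hr' := Finset.mem_range.1 hr
    rw [Matrix.trace_mul_comm, Matrix.mul_assoc, ← pow_add]
    have : k - 1 - r + r = k - 1 := by omega
    rw [this]
  rw [e] at h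
  exact h

lemma az_twice {h h' h'' : ℝ → ℝ} (h1 : ∀ t, HasDerivAt h (h' t) t)
    (h2 : ∀ t, HasDerivAt h' (h'' t) t) (h0 : h 0 = 0) (h0' : h' 0 = 0)
    (hnn : ∀ t, 0 ≤ t → 0 ≤ h'' t) : ∀ t, 0 ≤ t → 0 ≤ h t := by
  have m1 : MonotoneOn h' (Set.Ici 0) := by
    refine monotoneOn_of_deriv_nonneg (convex_Ici 0)
      (fun t _ => (h2 t).continuousAt.continuousWithinAt)
      (fun t _ => (h2 t).differentiableAt.differentiableWithinAt) (fun t ht => ?_)
    rw [(h2 t).deriv]
    rw [interior_Ici] at ht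
    exact hnn t (le_of_lt ht)
  have m2 : MonotoneOn h (Set.Ici 0) := by
    refine monotoneOn_of_deriv_nonneg (convex_Ici 0)
      (fun t _ => (h1 t).continuousAt.continuousWithinAt)
      (fun t _ => (h1 t).differentiableAt.differentiableWithinAt) (fun t ht => ?_)
    rw [(h1 t).deriv]
    rw [interior_Ici] at ht
    have := m1 (Set.mem_Ici.2 le_rfl) (Set.mem_Ici.2 (le_of_lt ht)) (le_of_lt ht)
    rwa [h0'] at this
  intro t ht
  have := m2 (Set.mem_Ici.2 le_rfl) (Set.mem_Ici.2 ht) ht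
  rwa [h0] at this

/-- abstract comparison -/
lemma az_abstract {σ : ℝ} (hσ : 0 ≤ σ) (g g1 g2 : ℕ → ℝ → ℝ)
    (h1 : ∀ p t, HasDerivAt (g p) (g1 p t) t) (h2 : ∀ p t, HasDerivAt (g1 p) (g2 p t) t)
    (hz : ∀ p, g1 p 0 = 0) (hc : ∀ t, g 0 t = g 0 0) (hg0 : ∀ p, 0 ≤ g p 0)
    (hstep : ∀ p t, g2 (p + 1) t ≤ 2 * σ * g p t) (p : ℕ) :
    ∀ t, 0 ≤ t → g p t ≤ ∑ q ∈ range (p + 1), σ ^ q * g (p - q) 0 / q.factorial * t ^ (2 * q) := by
  induction p with
  | zero =>
    intro t _
    simp [hc t]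
  | succ p ih =>
    set a : ℕ → ℝ := fun q => σ ^ q * g (p + 1 - q) 0 / q.factorial with ha
    set c1 : ℝ → ℝ := fun t => ∑ q ∈ range (p + 1 + 1), a q * ((2 * q : ℕ) * t ^ (2 * q - 1))
      with hc1
    set c2 : ℝ → ℝ := fun t => ∑ q ∈ range (p + 1 + 1),
      a q * ((2 * q : ℕ) * ((2 * q - 1 : ℕ) * t ^ (2 * q - 1 - 1))) with hc2
    have d0 : ∀ t, HasDerivAt (fun t : ℝ => ∑ q ∈ range (p + 1 + 1), a q * t ^ (2 * q)) (c1 t) t :=
      fun t => HasDerivAt.fun_sum (fun q _ => (hasDerivAt_pow (2 * q) t).const_mul (a q))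
    have d1 : ∀ t, HasDerivAt c1 (c2 t) t :=
      fun t => HasDerivAt.fun_sum (fun q _ =>
        ((hasDerivAt_pow (2 * q - 1) t).const_mul ((2 * q : ℕ) : ℝ)).const_mul (a q))
    have key := az_twice (h := fun t => (∑ q ∈ range (p + 1 + 1), a q * t ^ (2 * q)) - g (p + 1) t)
      (h' := fun t => c1 t - g1 (p + 1) t) (h'' := fun t => c2 t - g2 (p + 1) t)
      (fun t => (d0 t).sub (h1 (p + 1) t)) (fun t => (d1 t).sub (h2 (p + 1) t)) ?_ ?_ ?_
    · intro t ht
      have := key t ht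
      linarith
    · rw [Finset.sum_range_succ']
      have : ∑ q ∈ range (p + 1), a (q + 1) * (0 : ℝ) ^ (2 * (q + 1)) = 0 := by
        refine Finset.sum_eq_zero (fun q _ => ?_)
        rw [zero_pow (by omega), mul_zero]
      rw [this, ha]
      simp
    · simp only [hz, sub_zero, hc1]
      refine Finset.sum_eq_zero (fun q _ => ?_)
      rcases Nat.eq_zero_or_pos q with rfl | hq
      · simp
      · rw [zero_pow (by omega)]; ring
    · intro t ht
      have hi := ih t ht
      have hs := hstep p t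
      have hcc : 2 * σ * ∑ q ∈ range (p + 1), σ ^ q * g (p - q) 0 / q.factorial * t ^ (2 * q) ≤
          c2 t := by
        rw [hc2]
        simp only
        rw [Finset.mul_sum, Finset.sum_range_succ' _ (p + 1)]
        simp only [Nat.cast_zero, zero_mul, mul_zero, add_zero]
        refine Finset.sum_le_sum (fun q hq => ?_)
        have hq' := Finset.mem_range.1 hq
        have e1 : 2 * (q + 1) - 1 = 2 * q + 1 := by omega
        have e2 : 2 * q + 1 - 1 = 2 * q := by omega
        have e3 : p + 1 - (q + 1) = p - q := by omega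
        rw [ha]
        simp only
        rw [e1, e2, e3, Nat.factorial_succ]
        have hf : (0 : ℝ) < q.factorial := by positivity
        have e4 : σ ^ (q + 1) * g (p - q) 0 / (((q + 1) * q.factorial : ℕ) : ℝ) *
            (((2 * (q + 1) : ℕ) : ℝ) * (((2 * q + 1 : ℕ) : ℝ) * t ^ (2 * q))) =
            (2 * q + 1) * (2 * σ * (σ ^ q * g (p - q) 0 / q.factorial * t ^ (2 * q))) := by
          push_cast
          field_simp
          ring
        rw [e4]
        have hnn : 0 ≤ 2 * σ * (σ ^ q * g (p - q) 0 / q.factorial * t ^ (2 * q)) := by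
          have := hg0 (p - q)
          positivity
        have hq0 : (0 : ℝ) ≤ q := Nat.cast_nonneg q
        nlinarith [mul_nonneg hq0 hnn]
      have := mul_le_mul_of_nonneg_left hi (by positivity : 0 ≤ 2 * σ)
      linarith

lemma az_trace_even_nonneg {X : Matrix n n ℝ} (hX : Xᵀ = X) (p : ℕ) :
    0 ≤ (X ^ (2 * p)).trace := by
  obtain ⟨U, d, h1, h2, rfl⟩ := az_spec hX
  rw [az_trace_pow h1 h2]
  exact Finset.sum_nonneg (fun a _ => by rw [pow_mul]; positivity)

/-- one Rademacher step for the trace moments -/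
lemma az_step {S E : Matrix n n ℝ} (hS : Sᵀ = S) (hE : Eᵀ = E) {σ : ℝ} (hσ : 0 ≤ σ)
    (hop : ∀ v : n → ℝ, ∑ a, (E *ᵥ v) a ^ 2 ≤ σ * ∑ a, v a ^ 2) (p : ℕ) :
    (((S + E) ^ (2 * p)).trace + ((S - E) ^ (2 * p)).trace) / (2 * (2 * p).factorial) ≤
      ∑ q ∈ range (p + 1), σ ^ q / q.factorial *
        ((S ^ (2 * (p - q))).trace / (2 * (p - q)).factorial) := by
  set g : ℕ → ℝ → ℝ := fun p t =>
    (((S + t • E) ^ (2 * p)).trace + ((S + t • (-E)) ^ (2 * p)).trace) / (2 * (2 * p).factorial)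
    with hg
  set g1 : ℕ → ℝ → ℝ := fun p t =>
    (((2 * p : ℕ) : ℝ) * (E * (S + t • E) ^ (2 * p - 1)).trace +
      ((2 * p : ℕ) : ℝ) * ((-E) * (S + t • (-E)) ^ (2 * p - 1)).trace) / (2 * (2 * p).factorial)
    with hg1
  set g2 : ℕ → ℝ → ℝ := fun p t =>
    (((2 * p : ℕ) : ℝ) * (∑ r ∈ range (2 * p - 1),
        (E * ((S + t • E) ^ r * (E * (S + t • E) ^ (2 * p - 1 - 1 - r)))).trace) +
      ((2 * p : ℕ) : ℝ) * (∑ r ∈ range (2 * p - 1),
        ((-E) * ((S + t • (-E)) ^ r * ((-E) * (S + t • (-E)) ^ (2 * p - 1 - 1 - r)))).trace)) /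
        (2 * (2 * p).factorial) with hg2
  have h1 : ∀ p t, HasDerivAt (g p) (g1 p t) t := fun p t =>
    ((az_deriv1 S E (2 * p) t).add (az_deriv1 S (-E) (2 * p) t)).div_const _
  have h2 : ∀ p t, HasDerivAt (g1 p) (g2 p t) t := fun p t =>
    (((az_deriv_trace E S E (2 * p - 1) t).const_mul _).add
      ((az_deriv_trace (-E) S (-E) (2 * p - 1) t).const_mul _)).div_const _
  have hg00 : ∀ p, g p 0 = (S ^ (2 * p)).trace / (2 * p).factorial := by
    intro p
    simp only [hg, zero_smul, add_zero]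
    have hf : (0 : ℝ) < (2 * p).factorial := by positivity
    field_simp
    ring
  have hz : ∀ p, g1 p 0 = 0 := by
    intro p
    simp only [hg1, zero_smul, add_zero, Matrix.neg_mul, Matrix.trace_neg]
    ring
  have hc : ∀ t, g 0 t = g 0 0 := by
    intro t
    simp only [hg, Nat.mul_zero, pow_zero]
  have hg0 : ∀ p, 0 ≤ g p 0 := by
    intro p
    rw [hg00]
    exact div_nonneg (az_trace_even_nonneg hS p) (by positivity)
  have hnegop : ∀ v : n → ℝ, ∑ a, ((-E) *ᵥ v) a ^ 2 ≤ σ * ∑ a, v a ^ 2 := by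
    intro v
    have := hop v
    simp only [Matrix.neg_mulVec, Pi.neg_apply, neg_sq]
    exact this
  have hnegE : (-E)ᵀ = -E := by rw [Matrix.transpose_neg, hE]
  have hsum : ∀ F : Matrix n n ℝ, Fᵀ = F → (∀ v : n → ℝ, ∑ a, (F *ᵥ v) a ^ 2 ≤ σ * ∑ a, v a ^ 2) →
      ∀ (p : ℕ) (t : ℝ), ∑ r ∈ range (2 * (p + 1) - 1),
        (F * ((S + t • F) ^ r * (F * (S + t • F) ^ (2 * (p + 1) - 1 - 1 - r)))).trace ≤
        (2 * p + 1) * (2 * σ * ((S + t • F) ^ (2 * p)).trace) := by
    intro F hF hFop p t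
    have hX : (S + t • F)ᵀ = S + t • F := by
      rw [Matrix.transpose_add, Matrix.transpose_smul, hS, hF]
    calc ∑ r ∈ range (2 * (p + 1) - 1),
        (F * ((S + t • F) ^ r * (F * (S + t • F) ^ (2 * (p + 1) - 1 - 1 - r)))).trace
        ≤ ∑ _r ∈ range (2 * (p + 1) - 1), 2 * σ * ((S + t • F) ^ (2 * p)).trace := by
          refine Finset.sum_le_sum (fun r hr => ?_)
          have hr' := Finset.mem_range.1 hr
          rw [← Matrix.mul_assoc]
          exact az_trace_ineq hX hF hFop (by omega)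
      _ = _ := by
          rw [Finset.sum_const, card_range, nsmul_eq_mul]
          have : 2 * (p + 1) - 1 = 2 * p + 1 := by omega
          rw [this]
          push_cast
          ring
  have hstep : ∀ p t, g2 (p + 1) t ≤ 2 * σ * g p t := by
    intro p t
    have s1 := hsum E hE hop p t
    have s2 := hsum (-E) hnegE hnegop p t
    have hf : (0 : ℝ) < (2 * p).factorial := by positivity
    have hfac : (((2 * (p + 1)).factorial : ℕ) : ℝ) = (2 * p + 2) * (2 * p + 1) * (2 * p).factorial := by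
      have : 2 * (p + 1) = 2 * p + 1 + 1 := by ring
      rw [this, Nat.factorial_succ, Nat.factorial_succ]
      push_cast; ring
    simp only [hg2, hg]
    rw [hfac, div_le_iff₀ (by positivity)]
    have e : 2 * σ * ((((S + t • E) ^ (2 * p)).trace + ((S + t • (-E)) ^ (2 * p)).trace) /
        (2 * (2 * p).factorial)) * (2 * ((2 * p + 2) * (2 * p + 1) * (2 * p).factorial)) =
        (2 * p + 2) * ((2 * p + 1) * (2 * σ * ((S + t • E) ^ (2 * p)).trace) +
          (2 * p + 1) * (2 * σ * ((S + t • (-E)) ^ (2 * p)).trace)) := by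
      field_simp
    rw [e]
    have : ((2 * (p + 1) : ℕ) : ℝ) = 2 * p + 2 := by push_cast; ring
    rw [this, ← mul_add]
    exact mul_le_mul_of_nonneg_left (add_le_add s1 s2) (by positivity)
  have main := az_abstract hσ g g1 g2 h1 h2 hz hc hg0 hstep p 1 zero_le_one
  have eL : g p 1 = (((S + E) ^ (2 * p)).trace + ((S - E) ^ (2 * p)).trace) /
      (2 * (2 * p).factorial) := by
    simp only [hg, one_smul, sub_eq_add_neg]
  rw [← eL]
  refine main.trans (le_of_eq (Finset.sum_congr rfl (fun q _ => ?_)))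
  rw [hg00, one_pow, mul_one]
  ring

end deriv

/-! ### from operator bounds to traces and back -/

section op

variable {n : Type} [Fintype n] [DecidableEq n]

lemma az_norm {U : Matrix n n ℝ} (h1 : Uᵀ * U = 1) (w : n → ℝ) :
    ∑ a, (U *ᵥ w) a ^ 2 = ∑ a, w a ^ 2 := by
  have e : ∀ w : n → ℝ, ∑ a, w a ^ 2 = w ⬝ᵥ w := by
    intro w
    unfold dotProduct
    exact Finset.sum_congr rfl (fun a _ => by ring)
  rw [e, e, Matrix.dotProduct_mulVec, ← Matrix.mulVec_transpose, Matrix.mulVec_mulVec, h1,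
    Matrix.one_mulVec]

lemma az_op_of_trace {X : Matrix n n ℝ} (hX : Xᵀ = X) {b : ℝ} (hb : 0 ≤ b) {p : ℕ}
    (htr : (X ^ (2 * p)).trace < b ^ p) (v : n → ℝ) :
    ∑ a, (X *ᵥ v) a ^ 2 ≤ b * ∑ a, v a ^ 2 := by
  obtain ⟨U, d, h1, h2, rfl⟩ := az_spec hX
  rw [az_trace_pow h1 h2] at htr
  have hd : ∀ a, d a ^ 2 ≤ b := by
    intro a
    have h3 : (d a ^ 2) ^ p < b ^ p := by
      refine lt_of_le_of_lt ?_ htr
      rw [← pow_mul]
      exact Finset.single_le_sum (f := fun a => d a ^ (2 * p))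
        (fun a _ => by rw [pow_mul]; positivity) (Finset.mem_univ a)
    exact (lt_of_pow_lt_pow_left₀ p hb h3).le
  rw [← Matrix.mulVec_mulVec, ← Matrix.mulVec_mulVec, az_norm h1]
  have h3 := az_norm (U := Uᵀ) (by rw [Matrix.transpose_transpose]; exact h2) v
  rw [← h3, Finset.mul_sum]
  refine Finset.sum_le_sum (fun a _ => ?_)
  rw [Matrix.mulVec_diagonal, mul_pow]
  exact mul_le_mul_of_nonneg_right (hd a) (sq_nonneg _)

end op

section blocks

variable {α β : Type} [Fintype α] [Fintype β]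

/-- the symmetric dilation -/
def azH (M : Matrix α β ℝ) : Matrix (α ⊕ β) (α ⊕ β) ℝ := Matrix.fromBlocks 0 M Mᵀ 0

omit [Fintype α] [Fintype β] in
lemma azH_transpose (M : Matrix α β ℝ) : (azH M)ᵀ = azH M := by
  unfold azH
  rw [Matrix.fromBlocks_transpose]
  simp

omit [Fintype α] [Fintype β] in
lemma azH_sum {κ : Type} (s : Finset κ) (x : κ → ℝ) (M : κ → Matrix α β ℝ) :
    azH (∑ t ∈ s, x t • M t) = ∑ t ∈ s, x t • azH (M t) := by
  ext i j
  unfold azH
  rw [Matrix.sum_apply]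
  rcases i with i | i <;> rcases j with j | j <;>
    simp [Matrix.fromBlocks, Matrix.sum_apply, Matrix.transpose_apply]

lemma azH_norm (M : Matrix α β ℝ) (w : α ⊕ β → ℝ) :
    ∑ a, (azH M *ᵥ w) a ^ 2 =
      ∑ i, (M *ᵥ (fun j => w (Sum.inr j))) i ^ 2 + ∑ j, (Mᵀ *ᵥ (fun i => w (Sum.inl i))) j ^ 2 := by
  unfold azH
  rw [Fintype.sum_sum_type]
  congr 1
  · refine Finset.sum_congr rfl (fun i _ => ?_)
    congr 1
    simp [Matrix.mulVec, dotProduct, Fintype.sum_sum_type]
  · refine Finset.sum_congr rfl (fun i _ => ?_)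
    congr 1
    simp [Matrix.mulVec, dotProduct, Fintype.sum_sum_type]

lemma az_form (M : Matrix α β ℝ) (u : α → ℝ) (v : β → ℝ) :
    ∑ i, ∑ j, u i * M i j * v j = ∑ i, u i * (M *ᵥ v) i := by
  refine Finset.sum_congr rfl (fun i _ => ?_)
  unfold Matrix.mulVec dotProduct
  rw [Finset.mul_sum]
  exact Finset.sum_congr rfl (fun j _ => by ring)

lemma az_form' (M : Matrix α β ℝ) (u : α → ℝ) (v : β → ℝ) :
    ∑ i, ∑ j, u i * M i j * v j = ∑ j, v j * (Mᵀ *ᵥ u) j := by
  rw [Finset.sum_comm]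
  refine Finset.sum_congr rfl (fun j _ => ?_)
  unfold Matrix.mulVec dotProduct
  rw [Finset.mul_sum]
  refine Finset.sum_congr rfl (fun i _ => ?_)
  change u i * M i j * v j = v j * (M i j * u i)
  ring

/-- from the square of a sum of squares -/
lemma az_cancel {x σ y : ℝ} (hx : 0 ≤ x) (hσ : 0 ≤ σ) (hy : 0 ≤ y) (h : x ^ 2 ≤ σ * x * y) :
    x ≤ σ * y := by
  rcases hx.lt_or_eq with h0 | h0
  · have : x * x ≤ x * (σ * y) := by nlinarith
    exact le_of_mul_le_mul_left this h0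
  · rw [← h0]; positivity

lemma az_opLe_right {M : Matrix α β ℝ} {σ : ℝ} (hσ : 0 ≤ σ) (h : OpLe M σ) (v : β → ℝ) :
    ∑ i, (M *ᵥ v) i ^ 2 ≤ σ * ∑ j, v j ^ 2 := by
  have h1 := h (M *ᵥ v) v
  rw [az_form] at h1
  have e : ∑ i, (M *ᵥ v) i * (M *ᵥ v) i = ∑ i, (M *ᵥ v) i ^ 2 :=
    Finset.sum_congr rfl (fun a _ => by ring)
  rw [e] at h1
  exact az_cancel (Finset.sum_nonneg (fun _ _ => sq_nonneg _)) hσ
    (Finset.sum_nonneg (fun _ _ => sq_nonneg _)) h1

lemma az_opLe_left {M : Matrix α β ℝ} {σ : ℝ} (hσ : 0 ≤ σ) (h : OpLe M σ) (u : α → ℝ) :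
    ∑ j, (Mᵀ *ᵥ u) j ^ 2 ≤ σ * ∑ i, u i ^ 2 := by
  have h1 := h u (Mᵀ *ᵥ u)
  rw [az_form'] at h1
  have e : ∑ i, (Mᵀ *ᵥ u) i * (Mᵀ *ᵥ u) i = ∑ i, (Mᵀ *ᵥ u) i ^ 2 :=
    Finset.sum_congr rfl (fun a _ => by ring)
  rw [e] at h1
  refine az_cancel (Finset.sum_nonneg (fun _ _ => sq_nonneg _)) hσ
    (Finset.sum_nonneg (fun _ _ => sq_nonneg _)) (h1.trans (le_of_eq (by ring)))

lemma azH_op {M : Matrix α β ℝ} {σ : ℝ} (hσ : 0 ≤ σ) (h : OpLe M σ) (w : α ⊕ β → ℝ) :
    ∑ a, (azH M *ᵥ w) a ^ 2 ≤ σ * ∑ a, w a ^ 2 := by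
  rw [azH_norm, Fintype.sum_sum_type]
  have h1 := az_opLe_right hσ h (fun j => w (Sum.inr j))
  have h2 := az_opLe_left hσ h (fun i => w (Sum.inl i))
  linarith

lemma opLe_of_azH {M : Matrix α β ℝ} {b : ℝ}
    (h : ∀ w : α ⊕ β → ℝ, ∑ a, (azH M *ᵥ w) a ^ 2 ≤ b * ∑ a, w a ^ 2) : OpLe M b := by
  intro u v
  have h1 := h (Sum.elim (fun _ => 0) v)
  rw [azH_norm, Fintype.sum_sum_type] at h1
  simp only [Sum.elim_inl, Sum.elim_inr] at h1
  have h2 : ∑ i, (M *ᵥ v) i ^ 2 ≤ b * ∑ j, v j ^ 2 := by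
    have h3 : 0 ≤ ∑ j, (Mᵀ *ᵥ (fun _ : α => (0 : ℝ))) j ^ 2 :=
      Finset.sum_nonneg (fun _ _ => sq_nonneg _)
    simp only [ne_eq, OfNat.ofNat_ne_zero, not_false_eq_true, zero_pow, sum_const_zero,
      zero_add] at h1
    linarith
  rw [az_form]
  calc (∑ i, u i * (M *ᵥ v) i) ^ 2 ≤ (∑ i, u i ^ 2) * ∑ i, (M *ᵥ v) i ^ 2 :=
        Finset.sum_mul_sq_le_sq_mul_sq _ _ _
    _ ≤ (∑ i, u i ^ 2) * (b * ∑ j, v j ^ 2) :=
        mul_le_mul_of_nonneg_left h2 (Finset.sum_nonneg (fun _ _ => sq_nonneg _))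
    _ = b * (∑ i, u i ^ 2) * ∑ j, v j ^ 2 := by ring

end blocks

/-! ### the moment bound -/

section moment

variable {n : Type} [Fintype n] [DecidableEq n]

lemma az_moment (c : ι) (A : ℕ → Om ι L → Matrix n n ℝ) (σ : ℕ → ℝ) (hσ : ∀ t, 0 ≤ σ t)
    (m : ℕ) (hm : m ≤ L) (hA : ∀ t, t < m → Meas (vc L c t) (A t))
    (hT : ∀ t, t < m → ∀ ω, (A t ω)ᵀ = A t ω)
    (hop : ∀ t, t < m → ∀ ω, ∀ v : n → ℝ, ∑ a, (A t ω *ᵥ v) a ^ 2 ≤ σ t * ∑ a, v a ^ 2) (p : ℕ) :
    Ex (Pw ι L) (fun ω => ((∑ t ∈ range m, dg c t ω • A t ω) ^ (2 * p)).trace /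
        (2 * p).factorial) ≤
      Fintype.card n * ((∑ t ∈ range m, σ t) ^ p / p.factorial) := by
  induction m generalizing p with
  | zero =>
    simp only [range_zero, sum_empty]
    rw [Ex_const Pw_sum]
    rcases Nat.eq_zero_or_pos p with rfl | hp
    · simp
    · rw [zero_pow (by omega), zero_pow (by omega)]
      simp
  | succ m ih =>
    have ih' := ih (by omega) (fun t ht => hA t (by omega)) (fun t ht => hT t (by omega))
      (fun t ht => hop t (by omega))
    set H : Om ι L → Matrix n n ℝ := fun ω => ∑ t ∈ range m, dg c t ω • A t ω with hH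
    have hmL : m < L := by omega
    have hHm : Meas (vc L c m) H := by
      intro ω ω' hr
      simp only [hH]
      refine Finset.sum_congr rfl (fun t ht => ?_)
      have ht' := Finset.mem_range.1 ht
      rw [(meas_dg (v := vc L c m) (c := c) (i := t) (by rw [vc_self]; exact ht')) ω ω' hr,
        ((hA t (by omega)).mono (vc_mono c ht'.le)) ω ω' hr]
    have hHT : ∀ ω, (H ω)ᵀ = H ω := by
      intro ω
      simp only [hH]
      rw [Matrix.transpose_sum]
      refine Finset.sum_congr rfl (fun t ht => ?_)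
      have ht' := Finset.mem_range.1 ht
      rw [Matrix.transpose_smul, hT t (by omega)]
    have hflip : ∀ G : Om ι L → ℝ, Ex (Pw ι L) (fun ω => G (flipd c ⟨m, hmL⟩ ω)) = Ex (Pw ι L) G := by
      intro G
      unfold Ex
      rw [← Equiv.sum_comp (flipd_invol (L := L) c ⟨m, hmL⟩).toPerm (fun ω => Pw ι L ω * G ω)]
      refine Finset.sum_congr rfl (fun ω _ => ?_)
      simp only [Function.Involutive.coe_toPerm]
      rfl
    set F : Om ι L → ℝ := fun ω => ((∑ t ∈ range (m + 1), dg c t ω • A t ω) ^ (2 * p)).trace /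
        (2 * p).factorial with hF
    have hFe : ∀ ω, F ω = ((H ω + dg c m ω • A m ω) ^ (2 * p)).trace / (2 * p).factorial := by
      intro ω
      simp only [hF, hH, Finset.sum_range_succ]
    have hrel : ∀ ω, rel (vc L c m) ω (flipd c ⟨m, hmL⟩ ω) := fun ω =>
      rel_setd (v := vc L c m) (c := c) (i := ⟨m, hmL⟩) (by rw [vc_self]) _ ω
    have hFf : ∀ ω, F (flipd c ⟨m, hmL⟩ ω) =
        ((H ω - dg c m ω • A m ω) ^ (2 * p)).trace / (2 * p).factorial := by
      intro ω
      have e2 : dg c m (flipd c ⟨m, hmL⟩ ω) = - dg c m ω := dg_flipd c ⟨m, hmL⟩ ω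
      rw [hFe, ← hHm _ _ (hrel ω), ← (hA m (by omega)) _ _ (hrel ω), e2, neg_smul, sub_eq_add_neg]
    have havg : Ex (Pw ι L) F = Ex (Pw ι L) (fun ω =>
        (((H ω + A m ω) ^ (2 * p)).trace + ((H ω - A m ω) ^ (2 * p)).trace) /
          (2 * (2 * p).factorial)) := by
      have h1 : Ex (Pw ι L) F = (1 / 2) * (Ex (Pw ι L) F +
          Ex (Pw ι L) (fun ω => F (flipd c ⟨m, hmL⟩ ω))) := by
        rw [hflip F]; ring
      rw [h1, ← Ex_add, ← Ex_const_mul]
      refine Ex_congr _ (fun ω => ?_)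
      rw [hFe, hFf]
      rcases dg_eq_or c m ω with h | h
      · rw [h, one_smul]
        field_simp
      · rw [h, neg_smul, one_smul, sub_neg_eq_add, ← sub_eq_add_neg]
        field_simp
        ring
    have hpt : ∀ ω, (((H ω + A m ω) ^ (2 * p)).trace + ((H ω - A m ω) ^ (2 * p)).trace) /
          (2 * (2 * p).factorial) ≤ ∑ q ∈ range (p + 1), σ m ^ q / q.factorial *
            (((H ω) ^ (2 * (p - q))).trace / (2 * (p - q)).factorial) := fun ω =>
      az_step (hHT ω) (hT m (by omega) ω) (hσ m) (hop m (by omega) ω) p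
    have hsum : Ex (Pw ι L) F ≤ ∑ q ∈ range (p + 1), σ m ^ q / q.factorial *
        (Fintype.card n * ((∑ t ∈ range m, σ t) ^ (p - q) / (p - q).factorial)) := by
      rw [havg]
      refine (Ex_mono (fun ω => (Pw_pos ω).le) hpt).trans ?_
      rw [Ex_sum]
      refine Finset.sum_le_sum (fun q _ => ?_)
      rw [Ex_const_mul]
      refine mul_le_mul_of_nonneg_left (ih' (p - q)) ?_
      have := hσ m
      positivity
    refine hsum.trans (le_of_eq ?_)
    rw [Finset.sum_range_succ σ m, add_comm (∑ t ∈ range m, σ t) (σ m), add_pow, Finset.sum_div,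
      Finset.mul_sum]
    refine Finset.sum_congr rfl (fun q hq => ?_)
    have hq' : q ≤ p := by have := Finset.mem_range.1 hq; omega
    rw [Nat.cast_choose ℝ hq']
    have f1 : (0 : ℝ) < q.factorial := by positivity
    have f2 : (0 : ℝ) < p.factorial := by positivity
    have f3 : (0 : ℝ) < (p - q).factorial := by positivity
    field_simp

end moment

theorem matrix_azuma {α β : Type} [Fintype α] [Fintype β] (c : ι) {m : ℕ} (hm : m ≤ L)
    (D : ℕ → Om ι L → Matrix α β ℝ) (hD : ∀ t, t < m → Meas (vc L c t) (D t))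
    (σ : ℕ → ℝ) (hσ : ∀ t, 0 ≤ σ t) (hop : ∀ t, t < m → ∀ ω, OpLe (D t ω) (σ t))
    {p : ℕ} (hp : 1 ≤ p) :
    Ex (Pw ι L) (ind (fun ω => ¬ OpLe (∑ t ∈ range m, dg c t ω • D t ω)
        (6 * p * ∑ t ∈ range m, σ t))) ≤
      (Fintype.card α + Fintype.card β) * Real.exp (-(p : ℝ)) := by
  classical
  set V : ℝ := ∑ t ∈ range m, σ t with hV
  have hV0 : 0 ≤ V := Finset.sum_nonneg (fun t _ => hσ t)
  set M : Om ι L → Matrix α β ℝ := fun ω => ∑ t ∈ range m, dg c t ω • D t ω with hM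
  have hpR : (1 : ℝ) ≤ p := by exact_mod_cast hp
  rcases hV0.lt_or_eq with hVpos | hVz
  · -- the main case
    have hmom := az_moment c (fun t ω => azH (D t ω)) σ hσ m hm
      (fun t ht => (hD t ht).compX azH) (fun t _ ω => azH_transpose _)
      (fun t ht ω v => azH_op (hσ t) (hop t ht ω) v) p
    rw [← hV] at hmom
    have hH : ∀ ω, ∑ t ∈ range m, dg c t ω • azH (D t ω) = azH (M ω) := fun ω =>
      (azH_sum (range m) (fun t => dg c t ω) (fun t => D t ω)).symm
    simp only [hH] at hmom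
    have hb : (0 : ℝ) < (6 * p * V) ^ p := by positivity
    have hmk := markov (w := Pw ι L) (fun ω => (Pw_pos ω).le)
      (g := fun ω => ((azH (M ω)) ^ (2 * p)).trace)
      (fun ω => az_trace_even_nonneg (azH_transpose _) p) hb
      (fun ω => ¬ OpLe (M ω) (6 * p * V)) (fun ω hω => by
        by_contra hcon
        rw [not_le] at hcon
        exact hω (opLe_of_azH (fun w => az_op_of_trace (azH_transpose _) (by positivity) hcon w)))
    refine hmk.trans ?_
    have hfp : (0 : ℝ) < (2 * p).factorial := by positivity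
    have hEx : Ex (Pw ι L) (fun ω => ((azH (M ω)) ^ (2 * p)).trace) ≤
        (Fintype.card α + Fintype.card β) * ((2 * p) ^ p * V ^ p) := by
      have e1 : Ex (Pw ι L) (fun ω => ((azH (M ω)) ^ (2 * p)).trace) =
          Ex (Pw ι L) (fun ω => ((azH (M ω)) ^ (2 * p)).trace / (2 * p).factorial) *
            (2 * p).factorial := by
        rw [← Ex_mul_const]
        refine Ex_congr _ (fun ω => ?_)
        field_simp
      have hfac : (((2 * p).factorial : ℕ) : ℝ) ≤ (2 * p) ^ p * p.factorial := by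
        have h1 := Nat.factorial_mul_ascFactorial p p
        have h2 := Nat.ascFactorial_le_pow_add p p
        have h3 : (2 * p).factorial ≤ (2 * p) ^ p * p.factorial := by
          have e : 2 * p = p + p := by ring
          rw [e, ← h1, mul_comm]
          exact Nat.mul_le_mul_right _ h2
        exact_mod_cast h3
      rw [e1]
      have hcard : ((Fintype.card (α ⊕ β) : ℕ) : ℝ) = Fintype.card α + Fintype.card β := by
        rw [Fintype.card_sum]; push_cast; ring
      rw [hcard] at hmom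
      calc Ex (Pw ι L) (fun ω => ((azH (M ω)) ^ (2 * p)).trace / (2 * p).factorial) *
            (2 * p).factorial
          ≤ ((Fintype.card α + Fintype.card β) * (V ^ p / p.factorial)) *
              ((2 * p) ^ p * p.factorial) := by
            refine mul_le_mul hmom hfac hfp.le (by positivity)
        _ = _ := by
            have f2 : (0 : ℝ) < p.factorial := by positivity
            field_simp
    rw [div_le_iff₀ hb]
    refine hEx.trans ?_
    rw [mul_assoc]
    refine mul_le_mul_of_nonneg_left ?_ (by positivity)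
    have h3 : Real.exp (-(p : ℝ)) = (Real.exp (-1)) ^ p := by
      rw [← Real.exp_nat_mul]; congr 1; ring
    have h4 : (1 / 3 : ℝ) ≤ Real.exp (-1) := by
      rw [Real.exp_neg, ← one_div]
      have := Real.exp_one_lt_d9
      exact one_div_le_one_div_of_le (Real.exp_pos 1) (by linarith)
    rw [h3, ← mul_pow, ← mul_pow]
    refine pow_le_pow_left₀ (by positivity) ?_ p
    have : 0 < (p : ℝ) * V := by positivity
    nlinarith
  · -- all coefficients vanish
    have hz : ∀ ω, OpLe (M ω) (6 * p * V) := by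
      intro ω
      have hσz : ∀ t ∈ range m, σ t = 0 := by
        rw [← Finset.sum_eq_zero_iff_of_nonneg (fun t _ => hσ t)]
        exact hVz.symm
      have hDz : ∀ t ∈ range m, D t ω = 0 := by
        intro t ht
        have h1 := hop t (Finset.mem_range.1 ht) ω
        rw [hσz t ht] at h1
        ext i j
        have h2 := h1 (Pi.single i 1) (Pi.single j 1)
        rw [az_form] at h2
        simp only [zero_mul] at h2
        have h3 : (∑ a, (Pi.single i 1 : α → ℝ) a * (D t ω *ᵥ (Pi.single j 1 : β → ℝ)) a) =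
            D t ω i j := by
          rw [Finset.sum_eq_single i]
          · rw [Pi.single_eq_same, one_mul, Matrix.mulVec_single_one]; rfl
          · intro a _ ha
            rw [Pi.single_eq_of_ne ha, zero_mul]
          · intro h; exact absurd (Finset.mem_univ i) h
        rw [h3] at h2
        exact pow_eq_zero_iff (two_ne_zero) |>.1 (le_antisymm h2 (sq_nonneg _))
      have hMz : M ω = 0 := by
        simp only [hM]
        exact Finset.sum_eq_zero (fun t ht => by rw [hDz t ht, smul_zero])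
      rw [hMz]
      intro u v
      simp only [Matrix.zero_apply, mul_zero, zero_mul, sum_const_zero, ne_eq,
        OfNat.ofNat_ne_zero, not_false_eq_true, zero_pow]
      positivity
    have h0 : Ex (Pw ι L) (ind (fun ω => ¬ OpLe (M ω) (6 * p * V))) = 0 := by
      rw [Ex_congr (h := fun _ => (0 : ℝ)) _
        (fun ω => ind_of_not (E := fun ω => ¬ OpLe (M ω) (6 * p * V)) (not_not.2 (hz ω))),
        Ex_const Pw_sum]
    rw [h0]
    positivity

end DK
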