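import Pool.Agent.Work.MP_d500f7_co.K.Lv

namespace DK

open Finset

variable {ι : Type} [Fintype ι] [DecidableEq ι] {L : ℕ}

/-- density with respect to the uniform weight -/
noncomputable def dens (w : Om ι L → ℝ) (ω : Om ι L) : ℝ := w ω / Pw ι L ω

lemma Pw_mul_dens (w : Om ι L → ℝ) (ω : Om ι L) : Pw ι L ω * dens w ω = w ω :=
  mul_div_cancel₀ _ (Pw_pos ω).ne'

lemma Ex_eq_dens (w g : Om ι L → ℝ) : Ex w g = Ex (Pw ι L) (fun ω => dens w ω * g ω) := by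
  unfold Ex
  refine Finset.sum_congr rfl (fun ω _ => ?_)
  rw [← mul_assoc, Pw_mul_dens]

lemma dens_pos {w : Om ι L → ℝ} (hw : IsPr w) (ω : Om ι L) : 0 < dens w ω :=
  div_pos (hw.pos ω) (Pw_pos ω)

lemma dens_le {w : Om ι L → ℝ} {K : ℝ} (hK : ∀ ω, w ω ≤ Real.exp K * Pw ι L ω) (ω : Om ι L) :
    dens w ω ≤ Real.exp K := by
  unfold dens
  rw [div_le_iff₀ (Pw_pos ω)]
  exact hK ω

lemma Ex_dens {w : Om ι L → ℝ} (hw : IsPr w) : Ex (Pw ι L) (dens w) = 1 := by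
  have h := Ex_eq_dens w (fun _ => (1 : ℝ))
  rw [Ex_const hw.one] at h
  simpa using h.symm

/-- the martingale of densities -/
noncomputable def rr (c : ι) (w : Om ι L → ℝ) (s : ℕ) (ω : Om ι L) : ℝ :=
  CE (Pw ι L) (vc L c s) (dens w) ω

lemma rr_pos {w : Om ι L → ℝ} (hw : IsPr w) (c : ι) (s : ℕ) (ω : Om ι L) : 0 < rr c w s ω :=
  CE_pos Pw_pos _ (dens_pos hw) ω

lemma meas_rr (c : ι) (w : Om ι L → ℝ) (s : ℕ) : Meas (vc L c s) (rr c w s) := meas_CE _ _ _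

lemma rr_full (c : ι) (w : Om ι L → ℝ) (ω : Om ι L) : rr c w L ω = dens w ω :=
  CE_of_meas Pw_pos (meas_full (vc_full c) _) ω

lemma Ex_rr {w : Om ι L → ℝ} (hw : IsPr w) (c : ι) (s : ℕ) : Ex (Pw ι L) (rr c w s) = 1 := by
  unfold rr
  have := Ex_CE (w := Pw ι L) Pw_pos (vc L c s) (dens w)
  rw [this, Ex_dens hw]

lemma CE_dens {w : Om ι L → ℝ} (hw : IsPr w) (v : ι → ℕ) (g : Om ι L → ℝ) (ω : Om ι L) :
    CE (Pw ι L) v (fun ω => g ω * dens w ω) ω = CE w v g ω * CE (Pw ι L) v (dens w) ω := by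
  refine CE_unique (w := Pw ι L) Pw_pos (v := v)
    (k := fun ω => CE w v g ω * CE (Pw ι L) v (dens w) ω)
    ((meas_CE _ _ _).mul (meas_CE _ _ _)) (fun h hh => ?_) ω
  have e1 := Ex_mul_CE (w := Pw ι L) Pw_pos (hh.mul (meas_CE w v g)) (dens w)
  have e2 := Ex_mul_CE hw.pos hh g
  rw [Ex_eq_dens, Ex_eq_dens w] at e2
  calc Ex (Pw ι L) (fun ω => h ω * (CE w v g ω * CE (Pw ι L) v (dens w) ω))
      = Ex (Pw ι L) (fun ω => h ω * CE w v g ω * CE (Pw ι L) v (dens w) ω) :=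
        Ex_congr _ (fun ω => by ring)
    _ = Ex (Pw ι L) (fun ω => h ω * CE w v g ω * dens w ω) := e1
    _ = Ex (Pw ι L) (fun ω => dens w ω * (h ω * CE w v g ω)) := Ex_congr _ (fun ω => by ring)
    _ = Ex (Pw ι L) (fun ω => dens w ω * (h ω * g ω)) := e2
    _ = Ex (Pw ι L) (fun ω => h ω * (g ω * dens w ω)) := Ex_congr _ (fun ω => by ring)

lemma rr_succ {w : Om ι L → ℝ} (hw : IsPr w) (c : ι) {s : ℕ} (hs : s < L) (ω : Om ι L) :
    rr c w (s + 1) ω = rr c w s ω * (1 + dg c s ω * bb w c s ω) := by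
  have h := haar_step (v := vc L c s) (c := c) (by rw [vc_self]; exact hs) (dens w) ω
  rw [vc_succ, vc_self] at h
  have h2 := CE_dens hw (vc L c s) (dg c s) ω
  unfold rr bb
  rw [h, h2]
  ring

/-- `(√(1+b) + √(1-b))/2 ≤ exp(-b²/8)` -/
lemma sqrt_avg_le {b : ℝ} (hb : |b| ≤ 1) :
    (Real.sqrt (1 + b) + Real.sqrt (1 - b)) / 2 ≤ Real.exp (-(b ^ 2 / 8)) := by
  obtain ⟨h1, h2⟩ := abs_le.1 hb
  have hp : 0 ≤ 1 + b := by linarith
  have hm : 0 ≤ 1 - b := by linarith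
  have e1 := Real.sq_sqrt hp
  have e2 := Real.sq_sqrt hm
  have n1 := Real.sqrt_nonneg (1 + b)
  have n2 := Real.sqrt_nonneg (1 - b)
  set p := Real.sqrt (1 + b)
  set q := Real.sqrt (1 - b)
  have hpq : p * q ≤ 1 - b ^ 2 / 2 := by
    have hpq2 : (p * q) ^ 2 = 1 - b ^ 2 := by rw [mul_pow, e1, e2]; ring
    have hb2 : b ^ 2 ≤ 1 := by nlinarith
    have hnn : 0 ≤ 1 - b ^ 2 / 2 := by linarith
    refine le_of_pow_le_pow_left₀ two_ne_zero hnn ?_
    rw [hpq2]; nlinarith [sq_nonneg (b ^ 2)]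
  have hsq : ((p + q) / 2) ^ 2 ≤ Real.exp (-(b ^ 2 / 8)) ^ 2 := by
    have e3 : ((p + q) / 2) ^ 2 = (1 + p * q) / 2 := by
      have : ((p + q) / 2) ^ 2 = (p ^ 2 + q ^ 2 + 2 * (p * q)) / 4 := by ring
      rw [this, e1, e2]; ring
    have e4 : Real.exp (-(b ^ 2 / 8)) ^ 2 = Real.exp (-(b ^ 2 / 4)) := by
      rw [← Real.exp_nat_mul]; congr 1; push_cast; ring
    rw [e3, e4]
    have := Real.add_one_le_exp (-(b ^ 2 / 4))
    linarith
  exact le_of_pow_le_pow_left₀ two_ne_zero (Real.exp_pos _).le hsq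


/-- the supermartingale -/
noncomputable def ZZ (c : ι) (w : Om ι L → ℝ) (s : ℕ) (ω : Om ι L) : ℝ :=
  Real.exp (∑ i ∈ range s, (bb w c i ω) ^ 2 / 8) * Real.sqrt (rr c w s ω) *
    Real.sqrt (rr c w 0 ω)

lemma sqrt_split {y b : ℝ} (hy : y = 1 ∨ y = -1) :
    Real.sqrt (1 + y * b) = (Real.sqrt (1 + b) + Real.sqrt (1 - b)) / 2 +
      y * ((Real.sqrt (1 + b) - Real.sqrt (1 - b)) / 2) := by
  rcases hy with rfl | rfl
  · rw [one_mul, one_mul]; ring
  · rw [neg_one_mul, ← sub_eq_add_neg]; ring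

lemma meas_expsum (c : ι) (w : Om ι L → ℝ) (s : ℕ) :
    Meas (vc L c s) (fun ω => Real.exp (∑ i ∈ range s, (bb w c i ω) ^ 2 / 8)) := by
  refine Meas.comp (g := fun ω => ∑ i ∈ range s, (bb w c i ω) ^ 2 / 8) ?_ Real.exp
  refine Meas.sum (range s) (fun i hi => ?_)
  exact ((meas_bb w c i).mono (vc_mono c (mem_range.1 hi).le)).comp (fun x => x ^ 2 / 8)

lemma ZZ_step {w : Om ι L → ℝ} (hw : IsPr w) (c : ι) {s : ℕ} (hs : s < L) :
    Ex (Pw ι L) (ZZ c w (s + 1)) ≤ Ex (Pw ι L) (ZZ c w s) := by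
  set E : Om ι L → ℝ := fun ω => Real.exp (∑ i ∈ range s, (bb w c i ω) ^ 2 / 8) with hE
  set H : Om ι L → ℝ := fun ω => E ω * Real.exp ((bb w c s ω) ^ 2 / 8) *
    Real.sqrt (rr c w s ω) * Real.sqrt (rr c w 0 ω) with hH
  set p : Om ι L → ℝ := fun ω => (Real.sqrt (1 + bb w c s ω) + Real.sqrt (1 - bb w c s ω)) / 2
    with hp
  set q : Om ι L → ℝ := fun ω => (Real.sqrt (1 + bb w c s ω) - Real.sqrt (1 - bb w c s ω)) / 2
    with hq
  have mE : Meas (vc L c s) E := meas_expsum c w s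
  have mH : Meas (vc L c s) H :=
    ((mE.mul ((meas_bb w c s).comp (fun x => Real.exp (x ^ 2 / 8)))).mul
      ((meas_rr c w s).comp Real.sqrt)).mul
      (((meas_rr c w 0).mono (vc_mono c (Nat.zero_le s))).comp Real.sqrt)
  have mq : Meas (vc L c s) q :=
    (meas_bb w c s).comp (fun x => (Real.sqrt (1 + x) - Real.sqrt (1 - x)) / 2)
  have e1 : Ex (Pw ι L) (ZZ c w (s + 1)) =
      Ex (Pw ι L) (fun ω => H ω * p ω) + Ex (Pw ι L) (fun ω => dg c s ω * (H ω * q ω)) := by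
    rw [← Ex_add]
    refine Ex_congr _ (fun ω => ?_)
    have h1 : ZZ c w (s + 1) ω = H ω * Real.sqrt (1 + dg c s ω * bb w c s ω) := by
      unfold ZZ
      rw [rr_succ hw c hs, Real.sqrt_mul (rr_pos hw c s ω).le, Finset.sum_range_succ, Real.exp_add]
      simp only [hH, hE]
      ring
    rw [h1, sqrt_split (dg_eq_or c s ω)]
    simp only [hp, hq]
    ring
  have hz : Ex (Pw ι L) (fun ω => dg c s ω * (H ω * q ω)) = 0 :=
    Ex_dg_mul_eq_zero (v := vc L c s) (c := c) hs (by rw [vc_self]) (mH.mul mq)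
  rw [e1, hz, add_zero]
  refine Ex_mono (fun ω => (Pw_pos ω).le) (fun ω => ?_)
  have hb := sqrt_avg_le (abs_bb_le hw c s ω)
  have hHnn : 0 ≤ H ω := by
    simp only [hH, hE]; positivity
  calc H ω * p ω ≤ H ω * Real.exp (-((bb w c s ω) ^ 2 / 8)) :=
        mul_le_mul_of_nonneg_left hb hHnn
    _ = ZZ c w s ω := by
        simp only [hH, hE, ZZ]
        rw [Real.exp_neg]
        have : Real.exp ((bb w c s ω) ^ 2 / 8) ≠ 0 := (Real.exp_pos _).ne'
        field_simp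

lemma ZZ_le_one {w : Om ι L → ℝ} (hw : IsPr w) (c : ι) (s : ℕ) (hs : s ≤ L) :
    Ex (Pw ι L) (ZZ c w s) ≤ 1 := by
  induction s with
  | zero =>
    have : Ex (Pw ι L) (ZZ c w 0) = Ex (Pw ι L) (rr c w 0) := by
      refine Ex_congr _ (fun ω => ?_)
      unfold ZZ
      rw [Finset.sum_range_zero, Real.exp_zero, one_mul,
        Real.mul_self_sqrt (rr_pos hw c 0 ω).le]
    rw [this, Ex_rr hw]
  | succ s ih => exact (ZZ_step hw c (by omega)).trans (ih (by omega))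

lemma sum_div_eight (c : ι) (w : Om ι L → ℝ) (ω : Om ι L) :
    ∑ i ∈ range L, (bb w c i ω) ^ 2 / 8 = nbb w c ω / 8 := by
  unfold nbb; rw [Finset.sum_div]

theorem nbb_exp (c : ι) {w : Om ι L → ℝ} (hw : IsPr w) {K : ℝ}
    (hK : ∀ ω, w ω ≤ Real.exp K * Pw ι L ω) :
    Ex w (fun ω => Real.exp (nbb w c ω / 16)) ≤ Real.exp (K / 4) := by
  set p : Om ι L → ℝ := fun ω => Real.sqrt (dens w ω) with hp
  set q : Om ι L → ℝ := fun ω => Real.sqrt (rr c w 0 ω) with hq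
  have pp : ∀ ω, 0 < p ω := fun ω => Real.sqrt_pos.2 (dens_pos hw ω)
  have qp : ∀ ω, 0 < q ω := fun ω => Real.sqrt_pos.2 (rr_pos hw c 0 ω)
  have p2 : ∀ ω, p ω ^ 2 = dens w ω := fun ω => Real.sq_sqrt (dens_pos hw ω).le
  have q2 : ∀ ω, q ω ^ 2 = rr c w 0 ω := fun ω => Real.sq_sqrt (rr_pos hw c 0 ω).le
  have mq : Meas (vc L c 0) q := (meas_rr c w 0).comp Real.sqrt
  have ple : ∀ ω, p ω ≤ Real.exp (K / 2) := by
    intro ω
    rw [hp]
    apply Real.sqrt_le_iff.2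
    refine ⟨(Real.exp_pos _).le, ?_⟩
    rw [← Real.exp_nat_mul]
    have : ((2 : ℕ) : ℝ) * (K / 2) = K := by push_cast; ring
    rw [this]
    exact dens_le hK ω
  -- first factor
  set g : Om ι L → ℝ := fun ω => Real.sqrt (Real.exp (nbb w c ω / 8) * p ω * q ω) with hg
  set h : Om ι L → ℝ := fun ω => Real.sqrt (p ω ^ 3 / q ω) with hh
  have hgsq : Ex (Pw ι L) (fun ω => g ω ^ 2) ≤ 1 := by
    have e : Ex (Pw ι L) (fun ω => g ω ^ 2) = Ex (Pw ι L) (ZZ c w L) := by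
      refine Ex_congr _ (fun ω => ?_)
      have hnn : 0 ≤ Real.exp (nbb w c ω / 8) * p ω * q ω :=
        mul_nonneg (mul_nonneg (Real.exp_pos _).le (pp ω).le) (qp ω).le
      simp only [hg]
      rw [Real.sq_sqrt hnn]
      unfold ZZ
      rw [sum_div_eight, rr_full]
    rw [e]; exact ZZ_le_one hw c L le_rfl
  have hhsq : Ex (Pw ι L) (fun ω => h ω ^ 2) ≤ Real.exp (K / 2) := by
    have e : ∀ ω, h ω ^ 2 ≤ Real.exp (K / 2) * (1 / q ω * dens w ω) := by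
      intro ω
      simp only [hh]
      rw [Real.sq_sqrt (div_nonneg (pow_nonneg (pp ω).le 3) (qp ω).le)]
      have e1 : p ω ^ 3 / q ω = p ω * (1 / q ω * dens w ω) := by
        rw [← p2 ω]; ring
      rw [e1]
      refine mul_le_mul_of_nonneg_right (ple ω) ?_
      exact mul_nonneg (one_div_nonneg.2 (qp ω).le) (dens_pos hw ω).le
    have m1 : Meas (vc L c 0) (fun ω => 1 / q ω) := mq.comp (fun x => 1 / x)
    have e2 := Ex_mul_CE (w := Pw ι L) Pw_pos m1 (dens w)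
    have e3 : Ex (Pw ι L) (fun ω => 1 / q ω * CE (Pw ι L) (vc L c 0) (dens w) ω) = Ex (Pw ι L) q := by
      refine Ex_congr _ (fun ω => ?_)
      have : CE (Pw ι L) (vc L c 0) (dens w) ω = q ω ^ 2 := (q2 ω).symm
      rw [this]
      have := (qp ω).ne'
      field_simp
    have e4 : Ex (Pw ι L) q ≤ 1 := by
      have h1 := Ex_abs_le_sqrt (isPr_Pw (L := L)) q
      have h2 : Ex (Pw ι L) (fun ω => q ω ^ 2) = 1 := by
        rw [← Ex_rr hw c 0]; exact Ex_congr _ q2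
      rw [h2, Real.sqrt_one] at h1
      exact (Ex_mono (fun ω => (Pw_pos ω).le) (fun ω => le_abs_self _)).trans h1
    calc Ex (Pw ι L) (fun ω => h ω ^ 2)
        ≤ Ex (Pw ι L) (fun ω => Real.exp (K / 2) * (1 / q ω * dens w ω)) :=
          Ex_mono (fun ω => (Pw_pos ω).le) e
      _ = Real.exp (K / 2) * Ex (Pw ι L) q := by rw [Ex_const_mul, ← e2, e3]
      _ ≤ Real.exp (K / 2) * 1 := mul_le_mul_of_nonneg_left e4 (Real.exp_pos _).le
      _ = Real.exp (K / 2) := mul_one _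
  have hcs := Ex_mul_sq_le (w := Pw ι L) (fun ω => (Pw_pos ω).le) g h
  have hprod : Ex (Pw ι L) (fun ω => g ω * h ω) = Ex w (fun ω => Real.exp (nbb w c ω / 16)) := by
    rw [Ex_eq_dens w]
    refine Ex_congr _ (fun ω => ?_)
    have hnn : 0 ≤ Real.exp (nbb w c ω / 8) * p ω * q ω :=
      mul_nonneg (mul_nonneg (Real.exp_pos _).le (pp ω).le) (qp ω).le
    simp only [hg, hh]
    rw [← Real.sqrt_mul hnn]
    have e1 : Real.exp (nbb w c ω / 8) * p ω * q ω * (p ω ^ 3 / q ω) =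
        (dens w ω * Real.exp (nbb w c ω / 16)) ^ 2 := by
      have e2 : Real.exp (nbb w c ω / 8) = Real.exp (nbb w c ω / 16) ^ 2 := by
        rw [← Real.exp_nat_mul]; congr 1; push_cast; ring
      rw [e2, ← p2 ω]
      have := (qp ω).ne'
      field_simp
    rw [e1, Real.sqrt_sq]
    exact mul_nonneg (dens_pos hw ω).le (Real.exp_pos _).le
  rw [hprod] at hcs
  have hnn : 0 ≤ Ex w (fun ω => Real.exp (nbb w c ω / 16)) :=
    Ex_nonneg hw.nonneg (fun ω => (Real.exp_pos _).le)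
  have h1 : (Ex w (fun ω => Real.exp (nbb w c ω / 16))) ^ 2 ≤ Real.exp (K / 4) ^ 2 := by
    have e : Real.exp (K / 4) ^ 2 = Real.exp (K / 2) := by
      rw [← Real.exp_nat_mul]; congr 1; push_cast; ring
    rw [e]
    calc _ ≤ _ := hcs
      _ ≤ 1 * Real.exp (K / 2) :=
        mul_le_mul hgsq hhsq (Ex_nonneg (fun ω => (Pw_pos ω).le) (fun ω => sq_nonneg _))
          zero_le_one
      _ = Real.exp (K / 2) := one_mul _
  exact le_of_pow_le_pow_left₀ two_ne_zero (Real.exp_pos _).le h1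

/-- tail of the sum of the squares of the biases -/
theorem nbb_tail (c : ι) {w : Om ι L → ℝ} (hw : IsPr w) {K : ℝ}
    (hK : ∀ ω, w ω ≤ Real.exp K * Pw ι L ω) :
    Ex w (ind (fun ω => 20 * K < nbb w c ω)) ≤ Real.exp (-K) := by
  have h1 := nbb_exp c hw hK
  have h2 := markov hw.nonneg (g := fun ω => Real.exp (nbb w c ω / 16))
    (fun ω => (Real.exp_pos _).le) (Real.exp_pos (5 * K / 4))
    (fun ω => 20 * K < nbb w c ω) (by
      intro ω h
      apply Real.exp_le_exp.2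
      linarith)
  refine h2.trans ?_
  rw [div_le_iff₀ (Real.exp_pos _)]
  calc _ ≤ Real.exp (K / 4) := h1
    _ = Real.exp (-K) * Real.exp (5 * K / 4) := by
        rw [← Real.exp_add]; congr 1; ring

lemma nbb_nonneg (w : Om ι L → ℝ) (c : ι) (ω : Om ι L) : 0 ≤ nbb w c ω :=
  Finset.sum_nonneg (fun _ _ => sq_nonneg _)

lemma nbb_le_L {w : Om ι L → ℝ} (hw : IsPr w) (c : ι) (ω : Om ι L) : nbb w c ω ≤ L := by
  unfold nbb
  calc _ ≤ ∑ _t ∈ range L, (1 : ℝ) := Finset.sum_le_sum (fun t _ => by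
        have := abs_bb_le hw c t ω
        rw [← sq_abs]
        exact pow_le_one₀ (abs_nonneg _) this)
    _ = L := by simp

end DK
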