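import Pool.Agent.Work.MP_d500f7_co.K.Ima
import Pool.Agent.Work.MP_d500f7_co.K.Beta

/-! # Bessel type inequalities for the tilted measure -/

namespace DK

open Finset

variable {ι : Type} [Fintype ι] [DecidableEq ι] {L : ℕ}

lemma et_orth {w : Om ι L → ℝ} (hw : ∀ ω, 0 < w ω) (c : ι) (t : ℕ) {h : Om ι L → ℝ}
    (hh : Meas (vc L c t) h) : Ex w (fun ω => h ω * et w c t ω) = 0 := by
  have h1 := Ex_mul_CE hw hh (dg c t)
  have h2 : Ex w (fun ω => h ω * et w c t ω) =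
      Ex w (fun ω => h ω * dg c t ω) - Ex w (fun ω => h ω * CE w (vc L c t) (dg c t) ω) := by
    rw [← Ex_sub]
    exact Ex_congr _ (fun ω => by unfold et bb; ring)
  rw [h2, h1, sub_self]

lemma et_sq_le {w : Om ι L → ℝ} (hw : ∀ ω, 0 < w ω) (c : ι) (t : ℕ) {h : Om ι L → ℝ}
    (hh : Meas (vc L c t) h) (h0 : ∀ ω, 0 ≤ h ω) :
    Ex w (fun ω => h ω * et w c t ω ^ 2) ≤ Ex w h := by
  have h1 := Ex_mul_CE hw (hh.mul (meas_bb w c t)) (dg c t)
  have e : Ex w (fun ω => h ω * et w c t ω ^ 2) =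
      Ex w h - 2 * Ex w (fun ω => h ω * bb w c t ω * dg c t ω)
        + Ex w (fun ω => h ω * bb w c t ω * CE w (vc L c t) (dg c t) ω) := by
    rw [← Ex_const_mul, ← Ex_sub, ← Ex_add]
    refine Ex_congr _ (fun ω => ?_)
    have h2 := dg_mul_self c t ω
    unfold et bb
    linear_combination (h ω) * h2
  rw [e, h1]
  have h3 : 0 ≤ Ex w (fun ω => h ω * bb w c t ω ^ 2) :=
    Ex_nonneg (fun ω => (hw ω).le) (fun ω => mul_nonneg (h0 ω) (sq_nonneg _))
  have h4 : Ex w (fun ω => h ω * bb w c t ω * CE w (vc L c t) (dg c t) ω) =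
      Ex w (fun ω => h ω * bb w c t ω ^ 2) := Ex_congr _ (fun ω => by unfold bb; ring)
  rw [← h1, h4]
  linarith

lemma meas_et {w : Om ι L → ℝ} (c : ι) {t m : ℕ} (h : t < m) : Meas (vc L c m) (et w c t) :=
  (meas_dg (by rw [vc_self]; exact h)).sub ((meas_bb w c t).mono (vc_mono c h.le))

/-- orthogonality of the centred digits -/
theorem bessel_sum {w : Om ι L → ℝ} (hw : IsPr w) (c : ι) (Z : ℕ → Om ι L → ℝ) (m : ℕ)
    (hZ : ∀ t, t < m → Meas (vc L c t) (Z t)) :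
    Ex w (fun ω => (∑ t ∈ range m, et w c t ω * Z t ω) ^ 2) ≤
      ∑ t ∈ range m, Ex w (fun ω => Z t ω ^ 2) := by
  induction m with
  | zero => simp [Ex]
  | succ m ih =>
    have ih' := ih (fun t ht => hZ t (by omega))
    have hN : Meas (vc L c m) (fun ω => ∑ t ∈ range m, et w c t ω * Z t ω) := by
      refine Meas.sum _ (fun t ht => ?_)
      rw [mem_range] at ht
      exact (meas_et c ht).mul ((hZ t (by omega)).mono (vc_mono c ht.le))
    have hZm := hZ m (by omega)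
    have h1 := et_orth hw.pos c m (hN.mul hZm)
    have h2 := et_sq_le hw.pos c m (hZm.pow 2) (fun ω => sq_nonneg _)
    rw [Finset.sum_range_succ]
    have e : Ex w (fun ω => (∑ t ∈ range (m + 1), et w c t ω * Z t ω) ^ 2) =
        Ex w (fun ω => (∑ t ∈ range m, et w c t ω * Z t ω) ^ 2)
        + 2 * Ex w (fun ω => (∑ t ∈ range m, et w c t ω * Z t ω) * Z m ω * et w c m ω)
        + Ex w (fun ω => Z m ω ^ 2 * et w c m ω ^ 2) := by
      rw [← Ex_const_mul, ← Ex_add, ← Ex_add]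
      refine Ex_congr _ (fun ω => ?_)
      rw [Finset.sum_range_succ]
      ring
    rw [e, h1]
    linarith

/-- lossless Bessel inequality in one variable -/
theorem lb {w : Om ι L → ℝ} (hw : IsPr w) (c : ι) (h : Om ι L → ℝ) (m : ℕ) :
    ∑ t ∈ range m, Ex w (fun ω => CE w (vc L c t) (fun ω => et w c t ω * h ω) ω ^ 2) ≤
      Ex w (fun ω => h ω ^ 2) := by
  set M : ℕ → Om ι L → ℝ := fun t => CE w (vc L c t) (fun ω => et w c t ω * h ω) with hM
  set X := ∑ t ∈ range m, Ex w (fun ω => M t ω ^ 2) with hX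
  have hX0 : 0 ≤ X := Finset.sum_nonneg (fun t _ => Ex_nonneg hw.nonneg (fun ω => sq_nonneg _))
  have h1 : X = Ex w (fun ω => h ω * ∑ t ∈ range m, et w c t ω * M t ω) := by
    have e : Ex w (fun ω => h ω * ∑ t ∈ range m, et w c t ω * M t ω) =
        ∑ t ∈ range m, Ex w (fun ω => M t ω * (et w c t ω * h ω)) := by
      rw [← Ex_sum]
      refine Ex_congr _ (fun ω => ?_)
      rw [Finset.mul_sum]
      exact Finset.sum_congr rfl (fun t _ => by ring)
    rw [e]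
    refine Finset.sum_congr rfl (fun t _ => ?_)
    rw [← Ex_mul_CE hw.pos (meas_CE w (vc L c t) (fun ω => et w c t ω * h ω))]
    exact Ex_congr _ (fun ω => by rw [sq])
  have h2 := Ex_mul_sq_le hw.nonneg h (fun ω => ∑ t ∈ range m, et w c t ω * M t ω)
  have h3 := bessel_sum hw c M m (fun t _ => meas_CE _ _ _)
  rw [← h1] at h2
  have ha : 0 ≤ Ex w (fun ω => h ω ^ 2) := Ex_nonneg hw.nonneg (fun ω => sq_nonneg _)
  have h4 : X ^ 2 ≤ Ex w (fun ω => h ω ^ 2) * X := h2.trans (mul_le_mul_of_nonneg_left h3 ha)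
  rcases hX0.eq_or_lt with h0 | h0
  · rw [← h0]; exact ha
  · rw [sq] at h4
    exact le_of_mul_le_mul_right h4 h0

/-- one variable, digits instead of centred digits -/
theorem one_var {w : Om ι L → ℝ} (hw : IsPr w) {K : ℝ} (hK1 : 1 ≤ K) (c : ι)
    (htail : Ex w (ind (fun ω => 20 * K < nbb w c ω)) ≤ Real.exp (-K))
    (Z : ℕ → Om ι L → ℝ) {m : ℕ} (hm : m ≤ L) (hZ : ∀ t, t < m → Meas (vc L c t) (Z t)) {B : ℝ}
    (hB : ∀ t, t < m → ∀ ω, |Z t ω| ≤ B) :
    Ex w (fun ω => (∑ t ∈ range m, dg c t ω * Z t ω) ^ 2) ≤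
      42 * K * ∑ t ∈ range m, Ex w (fun ω => Z t ω ^ 2) + 2 * L ^ 2 * B ^ 2 * Real.exp (-K) := by
  have h1 := bessel_sum hw c Z m hZ
  set W : Om ι L → ℝ := fun ω => ∑ t ∈ range m, Z t ω ^ 2 with hW
  have hW0 : ∀ ω, 0 ≤ W ω := fun ω => Finset.sum_nonneg (fun _ _ => sq_nonneg _)
  have hWB : ∀ ω, W ω ≤ L * B ^ 2 := by
    intro ω
    calc W ω ≤ ∑ _t ∈ range m, B ^ 2 := Finset.sum_le_sum (fun t ht => by
          rw [mem_range] at ht
          rw [← sq_abs]
          exact pow_le_pow_left₀ (abs_nonneg _) (hB t ht ω) 2)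
      _ = m * B ^ 2 := by simp
      _ ≤ L * B ^ 2 := mul_le_mul_of_nonneg_right (by exact_mod_cast hm) (sq_nonneg _)
  have hEW : Ex w W = ∑ t ∈ range m, Ex w (fun ω => Z t ω ^ 2) := Ex_sum _ _ _
  have hpt : ∀ ω, (∑ t ∈ range m, dg c t ω * Z t ω) ^ 2 ≤
      2 * (∑ t ∈ range m, et w c t ω * Z t ω) ^ 2 + 2 * (nbb w c ω * W ω) := by
    intro ω
    have e : ∑ t ∈ range m, dg c t ω * Z t ω =
        ∑ t ∈ range m, et w c t ω * Z t ω + ∑ t ∈ range m, bb w c t ω * Z t ω := by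
      rw [← Finset.sum_add_distrib]
      exact Finset.sum_congr rfl (fun t _ => by unfold et; ring)
    have cs := Finset.sum_mul_sq_le_sq_mul_sq (range m) (fun t => bb w c t ω) (fun t => Z t ω)
    have hn : ∑ t ∈ range m, bb w c t ω ^ 2 ≤ nbb w c ω :=
      Finset.sum_le_sum_of_subset_of_nonneg (fun t ht => by
        rw [mem_range] at ht ⊢; omega) (fun _ _ _ => sq_nonneg _)
    have h3 : (∑ t ∈ range m, bb w c t ω * Z t ω) ^ 2 ≤ nbb w c ω * W ω :=
      cs.trans (mul_le_mul_of_nonneg_right hn (hW0 ω))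
    rw [e]
    nlinarith [sq_nonneg (∑ t ∈ range m, et w c t ω * Z t ω - ∑ t ∈ range m, bb w c t ω * Z t ω)]
  have h2 : Ex w (fun ω => 2 * (nbb w c ω * W ω)) ≤
      Ex w (fun ω => 40 * K * W ω) + 2 * L ^ 2 * B ^ 2 * Ex w (ind (fun ω => 20 * K < nbb w c ω)) := by
    refine Ex_split hw.nonneg (by positivity) _ (fun ω h => ?_) (fun ω => ?_) (fun ω => ?_)
    · have h5 := not_lt.1 h
      nlinarith [hW0 ω, mul_le_mul_of_nonneg_right h5 (hW0 ω)]
    · have := hW0 ω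
      positivity
    · have h5 := nbb_le_L hw c ω
      have h6 := nbb_nonneg w c ω
      calc 2 * (nbb w c ω * W ω) ≤ 2 * (L * (L * B ^ 2)) := by
            gcongr
            exact hWB ω
        _ = 2 * L ^ 2 * B ^ 2 := by ring
  have h3 := mul_le_mul_of_nonneg_left htail (show (0 : ℝ) ≤ 2 * L ^ 2 * B ^ 2 by positivity)
  have h4 := Ex_mono hw.nonneg hpt
  rw [Ex_add, Ex_const_mul] at h4
  rw [Ex_const_mul (a := 40 * K), hEW] at h2
  have hS0 : 0 ≤ ∑ t ∈ range m, Ex w (fun ω => Z t ω ^ 2) :=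
    Finset.sum_nonneg (fun t _ => Ex_nonneg hw.nonneg (fun ω => sq_nonneg _))
  nlinarith

lemma abs_TT_le {n : ℕ} (C : Finset ι) {m : (ι → ℕ) → Om ι L → ℝ} {B : ℝ}
    (hB : ∀ s ω, |m s ω| ≤ B) (z : ι → ℕ) (ω : Om ι L) :
    |TT n C m z ω| ≤ (n + 1) ^ C.card * B := by
  unfold TT
  calc _ ≤ ∑ s ∈ Bx n C z, |xm C s ω • m s ω| := Finset.abs_sum_le_sum_abs _ _
    _ ≤ ∑ _s ∈ Bx n C z, B := Finset.sum_le_sum (fun s _ => by
        rw [smul_eq_mul, abs_mul, abs_xm, one_mul]; exact hB s ω)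
    _ = (n + 1) ^ C.card * B := by
        rw [Finset.sum_const, card_Bx, nsmul_eq_mul]; push_cast; ring

/-- iterated one-variable inequality -/
theorem io {w : Om ι L → ℝ} (hw : IsPr w) {K : ℝ} (hK1 : 1 ≤ K)
    (htail : ∀ c, Ex w (ind (fun ω => 20 * K < nbb w c ω)) ≤ Real.exp (-K)) {n : ℕ}
    (hn : n + 1 ≤ L) (hL : 2 ≤ L) (hKL : 42 * K ≤ L ^ 2) (m : (ι → ℕ) → Om ι L → ℝ) {B : ℝ}
    (hB0 : 0 ≤ B) (hB : ∀ s ω, |m s ω| ≤ B) (C : Finset ι) :
    ∀ z : ι → ℕ, (∀ c, z c ≤ L) → (∀ s ∈ Bx n C z, Meas (lv L C s) (m s)) →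
    Ex w (fun ω => (TT n C m z ω) ^ 2) ≤
      (42 * K) ^ C.card * ∑ s ∈ Bx n C z, Ex w (fun ω => m s ω ^ 2)
        + 2 * L ^ (4 * C.card) * B ^ 2 * Real.exp (-K) := by
  induction C using Finset.induction_on with
  | empty =>
    intro z hz hF
    simp only [TT_empty, sum_Bx_empty, Finset.card_empty, pow_zero, one_mul, mul_zero, mul_one]
    have : 0 ≤ 2 * B ^ 2 * Real.exp (-K) := by positivity
    linarith
  | insert c C hc ih =>
    intro z hz hF
    set zt : ℕ → ι → ℕ := fun t => Function.update z c t with hzt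
    have hsub : ∀ t, t < n + 1 → ∀ s ∈ Bx n C (zt t), s ∈ Bx n (insert c C) z := by
      intro t ht s hs
      rw [mem_Bx] at hs ⊢
      refine ⟨fun d hd => ?_, fun d hd => ?_⟩
      · rcases mem_insert.1 hd with rfl | hd
        · rw [hs.2 d hc]; simp [hzt]; omega
        · exact hs.1 d hd
      · rw [mem_insert, not_or] at hd
        rw [hs.2 d hd.2]; simp [hzt, hd.1]
    have hmeas : ∀ t, t < n + 1 → Meas (vc L c t) (TT n C m (zt t)) := fun t ht =>
      meas_TT hn hc hz ht (fun s hs => hF s (hsub t ht s hs))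
    have hzt' : ∀ t, t < n + 1 → ∀ d, zt t d ≤ L := fun t ht => update_le hz c (by omega)
    have hLr : (2 : ℝ) ≤ L := by exact_mod_cast hL
    have hnr : (n : ℝ) + 1 ≤ L := by exact_mod_cast hn
    have h1 := one_var hw hK1 c (htail c) (fun t => TT n C m (zt t)) hn hmeas
      (B := L ^ C.card * B) (fun t _ ω => (abs_TT_le C hB (zt t) ω).trans (by gcongr))
    have ih' : ∀ t ∈ range (n + 1), Ex w (fun ω => (TT n C m (zt t) ω) ^ 2) ≤
        (42 * K) ^ C.card * ∑ s ∈ Bx n C (zt t), Ex w (fun ω => m s ω ^ 2)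
        + 2 * L ^ (4 * C.card) * B ^ 2 * Real.exp (-K) := by
      intro t ht
      rw [mem_range] at ht
      refine ih (zt t) (hzt' t ht) (fun s hs => ?_)
      refine (hF s (hsub t ht s hs)).mono ?_
      exact lv_anti (Finset.subset_insert c C) (Bx_le hs (by omega) (hzt' t ht))
    have h2 := Finset.sum_le_sum ih'
    rw [Finset.sum_add_distrib, ← Finset.mul_sum, Finset.sum_const, Finset.card_range,
      nsmul_eq_mul, ← sum_Bx_insert n hc] at h2
    push_cast at h2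
    have e1 : Ex w (fun ω => (TT n (insert c C) m z ω) ^ 2) =
        Ex w (fun ω => (∑ t ∈ range (n + 1), dg c t ω * TT n C m (zt t) ω) ^ 2) := by
      refine Ex_congr _ (fun ω => ?_)
      rw [TT_insert n hc]
      rfl
    rw [e1, Finset.card_insert_of_notMem hc]
    refine h1.trans ?_
    have hK0 : (0 : ℝ) ≤ 42 * K := by linarith
    have h3 := mul_le_mul_of_nonneg_left h2 hK0
    set S := ∑ s ∈ Bx n (insert c C) z, Ex w (fun ω => m s ω ^ 2) with hS
    set E := B ^ 2 * Real.exp (-K) with hE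
    have hE0 : 0 ≤ E := by positivity
    have hLc : (0 : ℝ) ≤ (L : ℝ) ^ (4 * C.card) := by positivity
    -- the error terms
    have h4 : 42 * K * ((n + 1) * (2 * L ^ (4 * C.card) * B ^ 2 * Real.exp (-K))) ≤
        L ^ 2 * (L * (2 * L ^ (4 * C.card) * B ^ 2 * Real.exp (-K))) := by
      have : (0 : ℝ) ≤ 2 * L ^ (4 * C.card) * B ^ 2 * Real.exp (-K) := by positivity
      gcongr
    have h5 : (L : ℝ) ^ 2 * (L * (2 * L ^ (4 * C.card) * B ^ 2 * Real.exp (-K)))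
        + 2 * L ^ 2 * (L ^ C.card * B) ^ 2 * Real.exp (-K) ≤
        2 * L ^ (4 * (C.card + 1)) * B ^ 2 * Real.exp (-K) := by
      have e2 : (L : ℝ) ^ 2 * (L * (2 * L ^ (4 * C.card) * B ^ 2 * Real.exp (-K))) =
          2 * L ^ (4 * C.card + 3) * E := by rw [hE]; ring
      have e3 : 2 * (L : ℝ) ^ 2 * (L ^ C.card * B) ^ 2 * Real.exp (-K) =
          2 * L ^ (2 * C.card + 2) * E := by rw [hE]; ring
      have e4 : 2 * (L : ℝ) ^ (4 * (C.card + 1)) * B ^ 2 * Real.exp (-K) =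
          2 * L ^ (4 * C.card + 3) * L * E := by rw [hE]; ring
      rw [e2, e3, e4]
      have h6 : (L : ℝ) ^ (2 * C.card + 2) ≤ L ^ (4 * C.card + 3) :=
        pow_le_pow_right₀ (by linarith) (by omega)
      have h7 : (0 : ℝ) ≤ (L : ℝ) ^ (4 * C.card + 3) := by positivity
      nlinarith [mul_le_mul_of_nonneg_right h6 hE0, mul_nonneg h7 hE0]
    have e5 : 42 * K * ((42 * K) ^ C.card * S + (n + 1) *
        (2 * L ^ (4 * C.card) * B ^ 2 * Real.exp (-K))) =
        (42 * K) ^ (C.card + 1) * S + 42 * K * ((n + 1) *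
        (2 * L ^ (4 * C.card) * B ^ 2 * Real.exp (-K))) := by ring
    rw [e5] at h3
    linarith

/-- multi-parameter Bessel inequality -/
theorem mb {w : Om ι L → ℝ} (hw : IsPr w) {K : ℝ} (hK1 : 1 ≤ K)
    (htail : ∀ c, Ex w (ind (fun ω => 20 * K < nbb w c ω)) ≤ Real.exp (-K)) {n : ℕ}
    (hn : n + 1 ≤ L) (hL : 2 ≤ L) (hKL : 42 * K ≤ L ^ 2) {h : Om ι L → ℝ} {B : ℝ}
    (hB : ∀ ω, |h ω| ≤ B) (C : Finset ι) (z : ι → ℕ) (hz : ∀ c, z c ≤ L) :
    ∑ s ∈ Bx n C z, Ex w (fun ω => CE w (lv L C s) (fun ω => xm C s ω * h ω) ω ^ 2) ≤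
      (42 * K) ^ C.card * Ex w (fun ω => h ω ^ 2)
        + 2 * L ^ (2 * C.card) * B ^ 2 * Real.exp (-K / 2) := by
  set M : (ι → ℕ) → Om ι L → ℝ := fun s => CE w (lv L C s) (fun ω => xm C s ω * h ω) with hM
  set X := ∑ s ∈ Bx n C z, Ex w (fun ω => M s ω ^ 2) with hX
  have hX0 : 0 ≤ X := Finset.sum_nonneg (fun t _ => Ex_nonneg hw.nonneg (fun ω => sq_nonneg _))
  have hB0 : 0 ≤ B := (abs_nonneg _).trans (hB (fun _ _ => false))
  have hMB : ∀ s ω, |M s ω| ≤ B := fun s ω =>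
    abs_CE_le hw.pos _ (fun ω => by rw [abs_mul, abs_xm, one_mul]; exact hB ω) ω
  have h1 : X = Ex w (fun ω => h ω * TT n C M z ω) := by
    have e : Ex w (fun ω => h ω * TT n C M z ω) =
        ∑ s ∈ Bx n C z, Ex w (fun ω => M s ω * (xm C s ω * h ω)) := by
      rw [← Ex_sum]
      refine Ex_congr _ (fun ω => ?_)
      unfold TT
      rw [Finset.mul_sum]
      exact Finset.sum_congr rfl (fun t _ => by rw [smul_eq_mul]; ring)
    rw [e]
    refine Finset.sum_congr rfl (fun t _ => ?_)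
    rw [← Ex_mul_CE hw.pos (meas_CE w (lv L C t) (fun ω => xm C t ω * h ω))]
    exact Ex_congr _ (fun ω => by rw [sq])
  have h2 := Ex_mul_sq_le hw.nonneg h (TT n C M z)
  have h3 := io hw hK1 htail hn hL hKL M hB0 hMB C z hz (fun s _ => meas_CE _ _ _)
  rw [← h1] at h2
  rw [← hX] at h3
  set a := Ex w (fun ω => h ω ^ 2) with ha
  have ha0 : 0 ≤ a := Ex_nonneg hw.nonneg (fun ω => sq_nonneg _)
  have haB : a ≤ B ^ 2 := Ex_le_of_le hw (fun ω => by
    rw [← sq_abs]; exact pow_le_pow_left₀ (abs_nonneg _) (hB ω) 2)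
  have h4 : X ^ 2 ≤ a * ((42 * K) ^ C.card * X + 2 * L ^ (4 * C.card) * B ^ 2 * Real.exp (-K)) :=
    h2.trans (mul_le_mul_of_nonneg_left h3 ha0)
  set r : ℝ := 2 * L ^ (2 * C.card) * B ^ 2 * Real.exp (-K / 2) with hr
  have hr0 : 0 ≤ r := by positivity
  have hr2 : a * (2 * L ^ (4 * C.card) * B ^ 2 * Real.exp (-K)) ≤ r ^ 2 := by
    have e1 : r ^ 2 = B ^ 2 * (4 * L ^ (4 * C.card) * B ^ 2 * Real.exp (-K)) := by
      have : Real.exp (-K) = Real.exp (-K / 2) * Real.exp (-K / 2) := by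
        rw [← Real.exp_add]; congr 1; ring
      rw [hr, this]; ring
    rw [e1]
    have h5 : (0 : ℝ) ≤ L ^ (4 * C.card) * B ^ 2 * Real.exp (-K) := by positivity
    calc a * (2 * L ^ (4 * C.card) * B ^ 2 * Real.exp (-K)) ≤
          B ^ 2 * (2 * L ^ (4 * C.card) * B ^ 2 * Real.exp (-K)) :=
          mul_le_mul_of_nonneg_right haB (by positivity)
      _ ≤ _ := mul_le_mul_of_nonneg_left (by nlinarith) (sq_nonneg _)
  set q : ℝ := (42 * K) ^ C.card * a with hq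
  have hq0 : 0 ≤ q := by positivity
  by_contra hcon
  push Not at hcon
  have h6 : X ^ 2 ≤ q * X + r ^ 2 := by
    have e : a * ((42 * K) ^ C.card * X + 2 * L ^ (4 * C.card) * B ^ 2 * Real.exp (-K)) =
      q * X + a * (2 * L ^ (4 * C.card) * B ^ 2 * Real.exp (-K)) := by rw [hq]; ring
    rw [e] at h4
    linarith
  nlinarith

end DK
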