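import Pool.Agent.Work.MP_d500f7_co.K.Lv

/-!
# Dyadic boxes and their points (general dimension)

Port of `Pool/Agent/Work/MP_d500f7_co/Boxes.lean` (case `ι = Fin 3`).  `box_count`: write the
indicator of `inBox v ω p` as `∏ c, (chi (p c) (a c + h c) - chi (p c) (a c))`, expand both this and
`∏ c, ((a c + h c) - a c)` by `Finset.prod_add` into `2^k` corners, each `|Dm| ≤ M`.
-/

namespace DK

open Finset

variable {ι : Type} [Fintype ι] [DecidableEq ι] {L : ℕ}

lemma av_nonneg (c : ι) (s : ℕ) (ω : Om ι L) : 0 ≤ av c s ω := by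
  unfold av
  refine Finset.sum_nonneg (fun i _ => mul_nonneg ?_ (by positivity))
  have := (abs_le.1 (abs_dg c i ω).le).1
  linarith

lemma av_succ (c : ι) (s : ℕ) (ω : Om ι L) :
    av c (s + 1) ω = av c s ω + (1 + dg c s ω) * (1 / 2 : ℝ) ^ (s + 2) := by
  unfold av; rw [Finset.sum_range_succ]

lemma av_add_le (c : ι) (s : ℕ) (ω : Om ι L) : av c s ω + (1 / 2 : ℝ) ^ s ≤ 1 := by
  induction s with
  | zero => simp [av]
  | succ s ih =>
    have h2 := (abs_le.1 (abs_dg c s ω).le).2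
    have h3 : (0 : ℝ) < (1 / 2 : ℝ) ^ (s + 2) := by positivity
    have h4 : (1 + dg c s ω) * (1 / 2 : ℝ) ^ (s + 2) ≤ 2 * (1 / 2 : ℝ) ^ (s + 2) :=
      mul_le_mul_of_nonneg_right (by linarith) h3.le
    have h5 : (1 / 2 : ℝ) ^ (s + 1) = 2 * (1 / 2 : ℝ) ^ (s + 2) := by
      rw [pow_succ _ (s + 1)]; ring
    have h6 : (1 / 2 : ℝ) ^ s = 4 * (1 / 2 : ℝ) ^ (s + 2) := by
      rw [pow_succ _ (s + 1), pow_succ _ s]; ring
    rw [av_succ, h5]
    linarith

lemma av_le_one (c : ι) (s : ℕ) (ω : Om ι L) : av c s ω ≤ 1 := by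
  have h1 := av_add_le c s ω
  have h2 : (0 : ℝ) < (1 / 2 : ℝ) ^ s := by positivity
  linarith

lemma meas_av {v : ι → ℕ} {c : ι} {s : ℕ} (h : s ≤ v c) :
    Meas v (av (L := L) c s) := by
  unfold av
  refine Meas.sum _ (fun i hi => ?_)
  have hi' := mem_range.1 hi
  exact (((meas_const v 1).add (meas_dg (lt_of_lt_of_le hi' h))).mul (meas_const v _))

theorem fD_bound {N : ℕ} {u : Fin N → ι → ℝ} {M : ℝ}
    (hM : ∀ α : ι → ℝ, (∀ c, 0 ≤ α c ∧ α c ≤ 1) → |Dm u α| ≤ M) (ω : Om ι L) :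
    |fD u ω| ≤ M :=
  hM _ (fun c => ⟨av_nonneg c L ω, av_le_one c L ω⟩)

lemma inBox_congr {v : ι → ℕ} {ω ω' : Om ι L} (h : rel v ω ω') (p : ι → ℝ) :
    inBox v ω p ↔ inBox v ω' p := by
  unfold inBox
  have : ∀ c, av c (v c) ω = av c (v c) ω' := fun c => meas_av le_rfl ω ω' h
  simp only [this]

theorem ee_meas {N : ℕ} (u : Fin N → ι → ℝ) (s : ι → ℕ) : Meas s (ee (L := L) u s) := by
  intro ω ω' h
  have he : (∃ i, inBox s ω (u i)) ↔ (∃ i, inBox s ω' (u i)) :=
    exists_congr (fun i => inBox_congr h _)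
  unfold ee
  by_cases h1 : ∃ i, inBox s ω (u i)
  · rw [if_pos h1, if_pos (he.1 h1)]
  · rw [if_neg h1, if_neg (fun h2 => h1 (he.2 h2))]

/-- indicator of `p < x` -/
noncomputable def chi (p x : ℝ) : ℝ := open Classical in if p < x then 1 else 0

lemma Dm_eq {N : ℕ} (u : Fin N → ι → ℝ) (α : ι → ℝ) :
    Dm u α = (∑ i, ∏ c, chi (u i c) (α c)) - N * ∏ c, α c := by
  classical
  unfold Dm
  rw [Finset.card_filter]
  push_cast
  congr 1
  refine Finset.sum_congr rfl (fun i _ => ?_)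
  unfold chi
  by_cases h : ∀ c, u i c < α c
  · rw [if_pos h, Finset.prod_eq_one (fun c _ => by rw [if_pos (h c)])]
  · rw [if_neg h]
    push Not at h
    obtain ⟨c, hc⟩ := h
    rw [Finset.prod_eq_zero (mem_univ c) (by rw [if_neg (not_lt.2 hc)])]

lemma chi_sub {p a h : ℝ} (hh : 0 < h) :
    chi p (a + h) - chi p a = open Classical in if a ≤ p ∧ p < a + h then 1 else 0 := by
  unfold chi
  by_cases h1 : p < a
  · have h2 : p < a + h := by linarith
    simp [h1, h2, not_le.2 h1]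
  · have h1' := not_lt.1 h1
    by_cases h2 : p < a + h
    · simp [h1, h2, h1']
    · simp [h1, h2]

lemma ind_inBox (v : ι → ℕ) (ω : Om ι L) (p : ι → ℝ) :
    (open Classical in if inBox v ω p then (1 : ℝ) else 0) =
      ∏ c, (chi (p c) (av c (v c) ω + (1 / 2) ^ (v c)) - chi (p c) (av c (v c) ω)) := by
  classical
  by_cases h : inBox v ω p
  · rw [if_pos h, Finset.prod_eq_one]
    intro c _
    rw [chi_sub (by positivity), if_pos (h c)]
  · rw [if_neg h]
    unfold inBox at h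
    push Not at h
    obtain ⟨c, hc⟩ := h
    symm
    refine Finset.prod_eq_zero (mem_univ c) ?_
    rw [chi_sub (by positivity), if_neg]
    rintro ⟨h1, h2⟩
    exact absurd (hc h1) (not_le.2 h2)

/-- expansion of a product of differences into corners -/
lemma corners (f g : ι → ℝ) :
    ∏ c, (f c - g c) = ∑ A : Finset ι, (-1) ^ A.card * ∏ c, (if c ∈ A then g c else f c) := by
  have h1 : ∏ c, (f c - g c) = ∏ c, (-g c + f c) :=
    Finset.prod_congr rfl (fun c _ => by ring)
  rw [h1, Finset.prod_add, Finset.powerset_univ]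
  refine Finset.sum_congr rfl (fun A _ => ?_)
  rw [Finset.prod_neg, mul_assoc]
  congr 1
  rw [← Finset.prod_filter_mul_prod_filter_not univ (fun c => c ∈ A)]
  congr 1
  · rw [Finset.filter_mem_eq_inter, Finset.univ_inter]
    exact Finset.prod_congr rfl (fun c hc => by rw [if_pos hc])
  · have : univ.filter (fun c => ¬ c ∈ A) = univ \ A := by
      ext c; simp
    rw [this]
    exact Finset.prod_congr rfl (fun c hc => by rw [if_neg (mem_sdiff.1 hc).2])

theorem box_count {N : ℕ} {u : Fin N → ι → ℝ} {M : ℝ}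
    (hM : ∀ α : ι → ℝ, (∀ c, 0 ≤ α c ∧ α c ≤ 1) → |Dm u α| ≤ M)
    (v : ι → ℕ) (hv : ∀ c, v c ≤ L) (ω : Om ι L) :
    open Classical in
    ((univ.filter (fun i : Fin N => inBox v ω (u i))).card : ℝ) ≤
      N * ∏ c, (1 / 2 : ℝ) ^ (v c) + 2 ^ (Fintype.card ι) * M := by
  classical
  rw [Finset.card_filter]
  push_cast
  set a : ι → ℝ := fun c => av c (v c) ω with ha
  set h : ι → ℝ := fun c => (1 / 2 : ℝ) ^ (v c) with hh
  have hsum : (∑ i : Fin N, if inBox v ω (u i) then (1 : ℝ) else 0) = ∑ i : Fin N,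
      ∏ c, (chi (u i c) (a c + h c) - chi (u i c) (a c)) := by
    refine Finset.sum_congr rfl (fun i _ => ?_)
    rw [← ind_inBox]
  have hprod : ∏ c, (1 / 2 : ℝ) ^ (v c) = ∏ c, ((a c + h c) - a c) :=
    Finset.prod_congr rfl (fun c _ => by simp only [hh]; ring)
  -- the corners
  set al : Finset ι → ι → ℝ := fun A c => if c ∈ A then a c else a c + h c with hal
  have hchi : ∀ (i : Fin N) (A : Finset ι),
      ∏ c, (if c ∈ A then chi (u i c) (a c) else chi (u i c) (a c + h c)) =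
      ∏ c, chi (u i c) (al A c) := by
    intro i A
    refine Finset.prod_congr rfl (fun c _ => ?_)
    simp only [hal]
    split_ifs <;> rfl
  have key : (∑ i : Fin N, ∏ c, (chi (u i c) (a c + h c) - chi (u i c) (a c))) -
      N * ∏ c, (1 / 2 : ℝ) ^ (v c) = ∑ A : Finset ι, (-1) ^ A.card * Dm u (al A) := by
    rw [hprod]
    simp only [corners, hchi]
    rw [Finset.sum_comm, Finset.mul_sum, ← Finset.sum_sub_distrib]
    refine Finset.sum_congr rfl (fun A _ => ?_)
    rw [Dm_eq, ← Finset.mul_sum]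
    ring
  have hbd : ∀ A : Finset ι, (-1) ^ A.card * Dm u (al A) ≤ M := by
    intro A
    have h1 : |Dm u (al A)| ≤ M := by
      refine hM _ (fun c => ?_)
      simp only [hal, ha, hh]
      have b0 := av_nonneg c (v c) ω
      have b1 := av_le_one c (v c) ω
      have b2 := av_add_le c (v c) ω
      have b3 : (0 : ℝ) ≤ (1 / 2 : ℝ) ^ (v c) := by positivity
      split_ifs
      · exact ⟨b0, b1⟩
      · exact ⟨by linarith, b2⟩
    calc (-1) ^ A.card * Dm u (al A) ≤ |(-1) ^ A.card * Dm u (al A)| := le_abs_self _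
      _ = |Dm u (al A)| := by rw [abs_mul, abs_pow, abs_neg, abs_one, one_pow, one_mul]
      _ ≤ M := h1
  have hcard : ∑ A : Finset ι, (-1) ^ A.card * Dm u (al A) ≤ 2 ^ (Fintype.card ι) * M := by
    calc ∑ A : Finset ι, (-1) ^ A.card * Dm u (al A) ≤ ∑ _A : Finset ι, M :=
          Finset.sum_le_sum (fun A _ => hbd A)
      _ = 2 ^ (Fintype.card ι) * M := by
          rw [Finset.sum_const, Finset.card_univ, Fintype.card_finset, nsmul_eq_mul]
          push_cast
          ring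
  rw [hsum]
  linarith

/-! ### averaging the digits of one coordinate -/

/-- indicator that the level `s` dyadic interval of `ω` in coordinate `o` contains `p` -/
noncomputable def qx (o : ι) (p : ℝ) (s : ℕ) (ω : Om ι L) : ℝ :=
  open Classical in if av o s ω ≤ p ∧ p < av o s ω + (1 / 2 : ℝ) ^ s then 1 else 0

lemma meas_qx (o : ι) (p : ℝ) (s : ℕ) : Meas (vc L o s) (qx (L := L) o p s) := by
  intro ω ω' h
  have : av o s ω = av o s ω' := meas_av (v := vc L o s) (c := o) (vc_self o s).ge ω ω' h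
  simp only [qx, this]

lemma CE_dg_zero {v : ι → ℕ} {c : ι} {i : ℕ} (hi : i < L) (hv : v c ≤ i) (ω : Om ι L) :
    CE (Pw ι L) v (dg c i) ω = 0 := by
  refine CE_unique (k := fun _ => 0) Pw_pos (meas_const v 0) (fun h hh => ?_) ω
  have := Ex_dg_mul_eq_zero hi hv hh
  simp only [mul_zero]
  rw [Ex_congr (Pw ι L) (fun ω => mul_comm (h ω) (dg c i ω)), this]
  simp [Ex]

lemma qx_succ (o : ι) (p : ℝ) (s : ℕ) (ω : Om ι L) :
    qx o p (s + 1) ω = qx o p s ω * (1 / 2) + (qx o p s ω * (1 / 2) *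
      (open Classical in if p < av o s ω + (1 / 2 : ℝ) ^ (s + 1) then -1 else 1)) * dg o s ω := by
  have h1 := av_succ o s ω
  have h5 : (1 / 2 : ℝ) ^ (s + 1) = 2 * (1 / 2 : ℝ) ^ (s + 2) := by
    rw [pow_succ _ (s + 1)]; ring
  have h6 : (1 / 2 : ℝ) ^ s = 4 * (1 / 2 : ℝ) ^ (s + 2) := by
    rw [pow_succ _ (s + 1), pow_succ _ s]; ring
  have h3 : (0 : ℝ) < (1 / 2 : ℝ) ^ (s + 2) := by positivity
  unfold qx
  rw [h1, h5, h6]
  generalize av o s ω = a at *
  generalize (1 / 2 : ℝ) ^ (s + 2) = h at *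
  rcases dg_eq_or o s ω with hd | hd <;> rw [hd]
  · by_cases c1 : a ≤ p ∧ p < a + 4 * h
    · by_cases c2 : p < a + 2 * h
      · have c3 : ¬ (a + (1 + 1) * h ≤ p ∧ p < a + (1 + 1) * h + 2 * h) := by
          rintro ⟨q1, -⟩; linarith
        rw [if_neg c3, if_pos c1, if_pos c2]; norm_num
      · have c2' := not_lt.1 c2
        have c3 : (a + (1 + 1) * h ≤ p ∧ p < a + (1 + 1) * h + 2 * h) := by
          constructor
          · linarith
          · linarith [c1.2]
        rw [if_pos c3, if_pos c1, if_neg c2]; norm_num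
    · have c3 : ¬ (a + (1 + 1) * h ≤ p ∧ p < a + (1 + 1) * h + 2 * h) := by
        rintro ⟨q1, q2⟩
        exact c1 ⟨by linarith, by linarith⟩
      rw [if_neg c3, if_neg c1]; norm_num
  · by_cases c1 : a ≤ p ∧ p < a + 4 * h
    · by_cases c2 : p < a + 2 * h
      · have c3 : (a + (1 + -1) * h ≤ p ∧ p < a + (1 + -1) * h + 2 * h) := by
          constructor
          · linarith [c1.1]
          · linarith
        rw [if_pos c3, if_pos c1, if_pos c2]; norm_num
      · have c2' := not_lt.1 c2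
        have c3 : ¬ (a + (1 + -1) * h ≤ p ∧ p < a + (1 + -1) * h + 2 * h) := by
          rintro ⟨-, q2⟩; linarith
        rw [if_neg c3, if_pos c1, if_neg c2]; norm_num
    · have c3 : ¬ (a + (1 + -1) * h ≤ p ∧ p < a + (1 + -1) * h + 2 * h) := by
        rintro ⟨q1, q2⟩
        exact c1 ⟨by linarith, by linarith⟩
      rw [if_neg c3, if_neg c1]; norm_num

lemma CE_qx_succ (o : ι) (p : ℝ) {s : ℕ} (hs : s < L) (ω : Om ι L) :
    CE (Pw ι L) (vc L o s) (qx o p (s + 1)) ω = 1 / 2 * qx o p s ω := by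
  have hm : Meas (vc L o s) (fun ω : Om ι L => qx o p s ω * (1 / 2) *
      (open Classical in if p < av o s ω + (1 / 2 : ℝ) ^ (s + 1) then (-1 : ℝ) else 1)) := by
    refine ((meas_qx o p s).mul (meas_const _ _)).mul ?_
    have : Meas (vc L o s) (av (L := L) o s) :=
      meas_av (v := vc L o s) (c := o) (vc_self o s).ge
    exact this.comp (fun x => open Classical in if p < x + (1 / 2 : ℝ) ^ (s + 1) then (-1 : ℝ) else 1)
  rw [CE_congr (Pw ι L) _ (qx_succ o p s), CE_add, CE_mul_left Pw_pos hm,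
    CE_dg_zero (v := vc L o s) (c := o) hs (vc_self o s).le, mul_zero, add_zero,
    CE_of_meas Pw_pos ((meas_qx o p s).mul (meas_const _ _))]
  ring

lemma CE_qx (o : ι) (p : ℝ) {s j : ℕ} (hj : j ≤ s) (hs : s ≤ L) (ω : Om ι L) :
    CE (Pw ι L) (vc L o (s - j)) (qx o p s) ω = (1 / 2) ^ j * qx o p (s - j) ω := by
  induction j generalizing ω with
  | zero =>
    rw [Nat.sub_zero, CE_of_meas Pw_pos (meas_qx o p s), pow_zero, one_mul]
  | succ j ih =>
    obtain ⟨i, hi⟩ : ∃ i, i = s - (j + 1) := ⟨_, rfl⟩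
    have hi1 : s - j = i + 1 := by omega
    have ih' := fun ω => ih (by omega) ω
    rw [hi1] at ih'
    rw [← hi]
    have ht : ∀ c, vc L o i c ≤ vc L o (i + 1) c := vc_mono o (Nat.le_succ i)
    rw [← CE_tower Pw_pos ht, CE_congr (Pw ι L) _ ih', CE_const_mul, CE_qx_succ o p (by omega)]
    ring

/-- averaging the last `j` digits of coordinate `c1` of the box -/
theorem ee_avg {N : ℕ} {u : Fin N → ι → ℝ} (hu : ∀ i c, 0 ≤ u i c ∧ u i c < 1) (c1 : ι)
    {s : ι → ℕ} {j : ℕ} (hj : j ≤ s c1) (hs : s c1 ≤ L) (ω : Om ι L) :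
    open Classical in
    CE (Pw ι L) (vc L c1 (s c1 - j)) (fun ω => 1 - ee u s ω) ω ≤
      (1 / 2 : ℝ) ^ j *
        ((univ.filter (fun i : Fin N => inBox (Function.update s c1 (s c1 - j)) ω (u i))).card : ℝ) := by
  classical
  rw [Finset.card_filter]
  push_cast
  -- indicator of the conditions in the other coordinates
  set r : Fin N → Om ι L → ℝ := fun i ω => if ∀ c, c ≠ c1 →
    (av c (s c) ω ≤ u i c ∧ u i c < av c (s c) ω + (1 / 2) ^ (s c)) then 1 else 0 with hr
  have hrm : ∀ (k : ℕ) (i : Fin N), Meas (vc L c1 k) (r i) := by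
    intro k i ω ω' h
    have h1 : ∀ (c : ι), c ≠ c1 → ∀ m, av c m ω = av c m ω' := by
      intro c hc m
      unfold av
      refine Finset.sum_congr rfl (fun q _ => ?_)
      have : dg c q ω = dg c q ω' :=
        meas_dg_full (v := vc L c1 k) (vc_of_ne hc k).ge q ω ω' h
      rw [this]
    have h2 : (∀ c, c ≠ c1 → (av c (s c) ω ≤ u i c ∧ u i c < av c (s c) ω + (1 / 2) ^ (s c))) ↔
        (∀ c, c ≠ c1 → (av c (s c) ω' ≤ u i c ∧ u i c < av c (s c) ω' + (1 / 2) ^ (s c))) :=
      forall_congr' fun c => forall_congr' fun hc => by rw [h1 c hc]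
    simp only [hr]
    by_cases h3 : ∀ c, c ≠ c1 → (av c (s c) ω ≤ u i c ∧ u i c < av c (s c) ω + (1 / 2) ^ (s c))
    · rw [if_pos h3, if_pos (h2.1 h3)]
    · rw [if_neg h3, if_neg (fun h4 => h3 (h2.2 h4))]
  have hbox : ∀ (k : ℕ) (i : Fin N) (ω : Om ι L),
      (if inBox (Function.update s c1 k) ω (u i) then (1 : ℝ) else 0) =
        r i ω * qx c1 (u i c1) k ω := by
    intro k i ω
    have : inBox (Function.update s c1 k) ω (u i) ↔
        (∀ c, c ≠ c1 → (av c (s c) ω ≤ u i c ∧ u i c < av c (s c) ω + (1 / 2) ^ (s c))) ∧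
        (av c1 k ω ≤ u i c1 ∧ u i c1 < av c1 k ω + (1 / 2) ^ k) := by
      unfold inBox
      constructor
      · intro h
        refine ⟨fun c hc => ?_, ?_⟩
        · have := h c
          rwa [Function.update_of_ne hc] at this
        · have := h c1
          rwa [Function.update_self] at this
      · rintro ⟨h1, h2⟩ c
        by_cases hc : c = c1
        · subst hc
          rwa [Function.update_self]
        · rw [Function.update_of_ne hc]
          exact h1 c hc
    simp only [hr, qx]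
    by_cases h0 : ∀ c, c ≠ c1 → (av c (s c) ω ≤ u i c ∧ u i c < av c (s c) ω + (1 / 2) ^ (s c))
    · by_cases h1 : av c1 k ω ≤ u i c1 ∧ u i c1 < av c1 k ω + (1 / 2) ^ k
      · rw [if_pos (this.2 ⟨h0, h1⟩), if_pos h0, if_pos h1, one_mul]
      · rw [if_neg (fun h => h1 (this.1 h).2), if_neg h1, mul_zero]
    · rw [if_neg (fun h => h0 (this.1 h).1), if_neg h0, zero_mul]
  have hpt : ∀ ω : Om ι L, 1 - ee u s ω ≤ ∑ i : Fin N, r i ω * qx c1 (u i c1) (s c1) ω := by
    intro ω
    have h0 : ∀ i ∈ (univ : Finset (Fin N)), 0 ≤ r i ω * qx c1 (u i c1) (s c1) ω := by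
      intro i _
      rw [← hbox (s c1) i ω]
      split_ifs <;> norm_num
    unfold ee
    split_ifs with h
    · obtain ⟨i, hi⟩ := h
      have h1 := Finset.single_le_sum h0 (mem_univ i)
      rw [← hbox (s c1) i ω, Function.update_eq_self, if_pos hi] at h1
      linarith
    · have := Finset.sum_nonneg h0
      linarith
  refine (CE_mono Pw_pos _ hpt ω).trans (le_of_eq ?_)
  rw [CE_sum, Finset.mul_sum]
  refine Finset.sum_congr rfl (fun i _ => ?_)
  rw [CE_mul_left Pw_pos (hrm (s c1 - j) i), CE_qx _ _ hj hs, hbox (s c1 - j) i ω]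
  ring

end DK
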