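import Pool.Agent.Work.MP_d500f7_co.K.Sig3

/-! # The main inequality -/

namespace DK

open Finset

variable {ι : Type} [Fintype ι] [DecidableEq ι] {L : ℕ}

/-- right side of the main inequality -/
noncomputable def Rhs (ι : Type) [Fintype ι] [DecidableEq ι] (K : ℝ) (n : ℕ) (o : ι)
    (M lam th : ℝ) : ℝ :=
  2 * th * M + (2 * (2 ^ Fintype.card ι * ((n + 1) ^ (univ.erase o).card +
        Fintype.card ι * (Th K n o + 1))) + 2 * (16 ^ Fintype.card ι * (Th K n o + 1))) /
        (2 * th * lam)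
      + 2 * (Real.sqrt (4 * 16 ^ Fintype.card ι * (Th K n o + 1)) *
        Real.sqrt (8 * M ^ 2 + 4 * M / lam)) +
    2 ^ Fintype.card ι * (4 ^ Fintype.card ι * (M * (2 * Real.sqrt (Th K n o) + 1)))

theorem core_ineq [Nonempty ι] {N : ℕ} {u : Fin N → ι → ℝ} (hu : ∀ i c, 0 ≤ u i c ∧ u i c < 1)
    {M : ℝ} (hM0 : 0 < M) (hM : ∀ α : ι → ℝ, (∀ c, 0 ≤ α c ∧ α c ≤ 1) → |Dm u α| ≤ M)
    {o c1 : ι} (hc1 : c1 ≠ o) {lam th K : ℝ} {n : ℕ} (hlam : 0 < lam) (hth : 0 < th)
    (h : Ctx (Psi (L := L) lam (fD u) o) K n)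
    {j0 : ℕ} (hN : (16 : ℝ) * N ≤ 2 ^ n) (hj0 : 16 * (2 ^ Fintype.card ι * M) ≤ 2 ^ j0) :
    N * (1 / 2 : ℝ) ^ (n + 2) * ((1 / 8 : ℝ) ^ (univ.erase o).card * (7 / 8 * Sc n j0 c1 (fun _ => 0))
      - (j0 + 2 * 4 ^ Fintype.card ι) * Er K n o) ≤ Rhs ι K n o M lam th := by
  classical
  set w := Psi (L := L) lam (fD u) o with hw
  set J := univ.erase o with hJ
  set z : ι → ℕ := fun _ => 0 with hz
  set a := aw (L := L) u n j0 c1 with ha
  have hwt : Wt a n := wt_aw u n j0 c1
  have hzL : ∀ c, z c ≤ L := fun c => Nat.zero_le _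
  have hf : ∀ ω : Om ι L, |fD u ω| ≤ M := fun ω => fD_bound hM ω
  have hJne : J.Nonempty := ⟨c1, by rw [hJ, mem_erase]; exact ⟨hc1, mem_univ _⟩⟩
  -- the identity at one position
  have hid : ∀ s ∈ Bx n univ z, ∑ A ∈ J.powerset, (-1 : ℝ) ^ A.card *
      Ex w (fun ω => Gv (fD u) o (lv L A s) (s o) ω * (a s ω * phi w J s ω)) =
      N * (1 / 2 : ℝ) ^ (n + 2) * Ex w (fun ω => - a s ω * phi w J s ω *
        ∏ c ∈ J, uu c (s c) ω) := by
    intro s hs
    have hsn : ∀ c, s c ≤ n := fun c => (mem_Bx.1 hs).1 c (mem_univ c)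
    have e1 : ∑ A ∈ J.powerset, (-1 : ℝ) ^ A.card *
        Ex w (fun ω => Gv (fD u) o (lv L A s) (s o) ω * (a s ω * phi w J s ω)) =
        Ex w (fun ω => ∑ A ∈ J.powerset, (-1 : ℝ) ^ A.card *
          (Gv (fD u) o (lv L A s) (s o) ω * (a s ω * phi w J s ω))) := by
      rw [Ex_sum]
      exact Finset.sum_congr rfl (fun A _ => (Ex_const_mul _ _ _).symm)
    rw [e1, ← Ex_const_mul]
    refine Ex_congr w (fun ω => ?_)
    by_cases h0 : a s ω = 0
    · simp [h0]
    · have hcond : (∑ c, s c = n ∧ j0 ≤ s c1) ∧ ∀ i, ¬ inBox s ω (u i) := by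
        by_cases hcd : ∑ c, s c = n ∧ j0 ≤ s c1
        · refine ⟨hcd, ?_⟩
          rcases ee_cases u s ω with h1 | h1
          · exfalso; apply h0; simp only [ha]; unfold aw; rw [if_pos hcd, h1, neg_zero]
          · exact h1.2
        · exfalso; apply h0; simp only [ha]; unfold aw; rw [if_neg hcd]
      have hY := Y_identity hu o (s := s) (L := L)
        (fun c => by have := hsn c; have := h.hn; omega)
        (by have := hsn o; have := h.hn; omega) ω hcond.2
      rw [hcond.1.1] at hY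
      have e2 : ∑ A ∈ J.powerset, (-1 : ℝ) ^ A.card *
          (Gv (fD u) o (lv L A s) (s o) ω * (a s ω * phi w J s ω)) =
          (∑ A ∈ J.powerset, (-1 : ℝ) ^ A.card * Gv (fD u) o (lv L A s) (s o) ω) *
            (a s ω * phi w J s ω) := by
        rw [Finset.sum_mul]
        exact Finset.sum_congr rfl (fun A _ => by ring)
      rw [e2, hY]
      ring
  have hsig := sig_total h hu hM hc1 hN hj0 hzL
  have hNN : (0 : ℝ) ≤ N * (1 / 2 : ℝ) ^ (n + 2) := by positivity
  have h1 := mul_le_mul_of_nonneg_left hsig hNN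
  refine h1.trans ?_
  rw [Finset.mul_sum, ← Finset.sum_congr rfl hid, Finset.sum_comm]
  rw [← Finset.add_sum_erase J.powerset _ (Finset.empty_mem_powerset J)]
  have hup := upper hM0 hf hlam hth h hwt hJne hzL
  have e3 : ∑ s ∈ Bx n univ z, (-1 : ℝ) ^ (∅ : Finset ι).card *
      Ex w (fun ω => Gv (fD u) o (lv L ∅ s) (s o) ω * (a s ω * phi w J s ω)) =
      ∑ s ∈ Bx n univ z, Ex w (fun ω => Gf (fD u) o (s o) ω * (a s ω * phi w J s ω)) := by
    refine Finset.sum_congr rfl (fun s _ => ?_)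
    rw [Finset.card_empty, pow_zero, one_mul, lv_empty]
    rfl
  rw [e3]
  have hcr : ∑ A ∈ J.powerset.erase ∅, ∑ s ∈ Bx n univ z, (-1 : ℝ) ^ A.card *
      Ex w (fun ω => Gv (fD u) o (lv L A s) (s o) ω * (a s ω * phi w J s ω)) ≤
      2 ^ Fintype.card ι * (4 ^ Fintype.card ι * (M * (2 * Real.sqrt (Th K n o) + 1))) := by
    have hb : ∀ A ∈ J.powerset.erase ∅, ∑ s ∈ Bx n univ z, (-1 : ℝ) ^ A.card *
      Ex w (fun ω => Gv (fD u) o (lv L A s) (s o) ω * (a s ω * phi w J s ω)) ≤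
      4 ^ Fintype.card ι * (M * (2 * Real.sqrt (Th K n o) + 1)) := by
      intro A hA
      have hA1 : A ⊆ J := Finset.mem_powerset.1 (Finset.mem_of_mem_erase hA)
      have hA2 : A.Nonempty := Finset.nonempty_iff_ne_empty.2 (Finset.ne_of_mem_erase hA)
      have h2 := cross h hwt hM0 hf hA2 hA1 hzL
      rw [← Finset.mul_sum]
      refine (le_abs_self _).trans ?_
      rw [abs_mul, abs_pow, abs_neg, abs_one, one_pow, one_mul]
      exact h2
    refine (Finset.sum_le_sum hb).trans ?_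
    rw [Finset.sum_const, nsmul_eq_mul]
    refine mul_le_mul_of_nonneg_right ?_ (by positivity)
    have h3 : (J.powerset.erase ∅).card ≤ 2 ^ Fintype.card ι := by
      refine (Finset.card_le_card (Finset.erase_subset _ _)).trans ?_
      rw [Finset.card_powerset]
      exact Nat.pow_le_pow_right (by norm_num) (Finset.card_le_univ J)
    exact_mod_cast h3
  unfold Rhs
  linarith

/-- lower bound of the number of positions -/
theorem Sc_ge {n j0 m : ℕ} {o c1 : ι} (hc1 : c1 ≠ o) (hm : j0 + (univ.erase o).card * m ≤ n) :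
    (m : ℝ) ^ (univ.erase o).card ≤ Sc n j0 c1 (fun _ => 0) := by
  classical
  set J := univ.erase o with hJ
  have hoJ : o ∉ J := Finset.notMem_erase o univ
  have hc1J : c1 ∈ J := by rw [hJ, mem_erase]; exact ⟨hc1, mem_univ _⟩
  have e1 : Sc n j0 c1 (fun _ => 0) =
      (((Bx n univ (fun _ => 0)).filter (fun s => ∑ c, s c = n ∧ j0 ≤ s c1)).card : ℝ) := by
    unfold Sc
    rw [Finset.sum_boole]
  rw [e1]
  -- the source: functions with values `< m` on `J`, and `0` at `o`
  set S : Finset (ι → ℕ) := Fintype.piFinset (fun c => if c ∈ J then range m else {0}) with hS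
  have hScard : S.card = m ^ J.card := by
    rw [hS, Fintype.card_piFinset]
    have : ∀ c, (if c ∈ J then range m else ({0} : Finset ℕ)).card = if c ∈ J then m else 1 := by
      intro c; split_ifs <;> simp
    simp only [this]
    rw [Finset.prod_ite_mem, Finset.univ_inter, Finset.prod_const]
  have hmem : ∀ g ∈ S, (∀ c ∈ J, g c < m) ∧ g o = 0 := by
    intro g hg
    rw [hS, Fintype.mem_piFinset] at hg
    refine ⟨fun c hc => ?_, ?_⟩
    · have := hg c; rw [if_pos hc, mem_range] at this; exact this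
    · have := hg o; rw [if_neg hoJ, mem_singleton] at this; exact this
  have hsumle : ∀ g ∈ S, ∑ c ∈ J, g c + j0 ≤ n := by
    intro g hg
    have h1 : ∑ c ∈ J, g c ≤ ∑ _c ∈ J, m := Finset.sum_le_sum (fun c hc => ((hmem g hg).1 c hc).le)
    rw [Finset.sum_const, smul_eq_mul] at h1
    omega
  set Φ : (ι → ℕ) → (ι → ℕ) := fun g c =>
    if c = o then n - j0 - ∑ c ∈ J, g c else if c = c1 then g c + j0 else g c with hΦ
  have hsumΦ : ∀ g ∈ S, ∑ c, Φ g c = n := by
    intro g hg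
    rw [← Finset.add_sum_erase univ _ (mem_univ o), ← hJ, ← Finset.add_sum_erase J _ hc1J]
    have h2 := Finset.add_sum_erase J g hc1J
    have h3 : ∑ c ∈ J.erase c1, Φ g c = ∑ c ∈ J.erase c1, g c := by
      refine Finset.sum_congr rfl (fun c hc => ?_)
      have hcc1 := Finset.ne_of_mem_erase hc
      have hco : c ≠ o := fun e => hoJ (e ▸ Finset.mem_of_mem_erase hc)
      simp [hΦ, hcc1, hco]
    have h4 : Φ g o = n - j0 - ∑ c ∈ J, g c := by simp [hΦ]
    have h5 : Φ g c1 = g c1 + j0 := by simp [hΦ, hc1]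
    rw [h3, h4, h5]
    have := hsumle g hg
    omega
  have hinj : Set.InjOn Φ S := by
    intro g hg g' hg' hEq
    have hg1 := hmem g hg
    have hg2 := hmem g' hg'
    funext c
    by_cases hco : c = o
    · rw [hco, hg1.2, hg2.2]
    · have h6 := congrFun hEq c
      by_cases hcc : c = c1
      · simp only [hΦ, if_neg hco, if_pos hcc] at h6
        omega
      · simp only [hΦ, if_neg hco, if_neg hcc] at h6
        exact h6
  have hmaps : ∀ g ∈ S, Φ g ∈ (Bx n univ (fun _ => 0)).filter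
      (fun s => ∑ c, s c = n ∧ j0 ≤ s c1) := by
    intro g hg
    have hs := hsumΦ g hg
    rw [mem_filter]
    refine ⟨?_, hs, ?_⟩
    · rw [mem_Bx]
      refine ⟨fun c _ => ?_, fun c hc => absurd (mem_univ c) hc⟩
      have : Φ g c ≤ ∑ c, Φ g c := Finset.single_le_sum (fun _ _ => Nat.zero_le _) (mem_univ c)
      omega
    · simp [hΦ, hc1]
  have h7 := Finset.card_le_card_of_injOn Φ hmaps hinj
  rw [hScard] at h7
  exact_mod_cast h7

end DK
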