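import Pool.Agent.Work.MP_d500f7_co.K.Lv

/-! # The energy bound, tail form -/

namespace DK

open Finset

variable {ι : Type} [Fintype ι] [DecidableEq ι] {L : ℕ}

lemma meas_Gv (f : Om ι L → ℝ) (o : ι) (v : ι → ℕ) (l : ℕ) :
    Meas (Function.update v o l) (Gv f o v l) := meas_CE _ _ _

lemma abs_Gv_le {f : Om ι L → ℝ} {M : ℝ} (hf : ∀ ω, |f ω| ≤ M) (o : ι) (v : ι → ℕ) (l : ℕ)
    (ω : Om ι L) : |Gv f o v l ω| ≤ M :=
  abs_CE_le Pw_pos _ (fun ω => by rw [abs_mul, abs_dg, one_mul]; exact hf ω) ω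

lemma energy_step_ineq {a x : ℝ} (ha : a ≤ 1) (hx : 0 ≤ x) : Real.exp x * (a - x) ≤ a := by
  have h1 : 1 - x ≤ Real.exp (-x) := by
    have := Real.add_one_le_exp (-x)
    linarith
  rcases le_total a 0 with h | h
  · have h2 : 1 ≤ Real.exp x := Real.one_le_exp hx
    nlinarith [Real.exp_pos x]
  · have h3 : a - x ≤ a * Real.exp (-x) := by nlinarith
    calc Real.exp x * (a - x) ≤ Real.exp x * (a * Real.exp (-x)) :=
          mul_le_mul_of_nonneg_left h3 (Real.exp_pos x).le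
      _ = a * (Real.exp x * Real.exp (-x)) := by ring
      _ = a := by rw [← Real.exp_add, add_neg_cancel, Real.exp_zero, mul_one]

lemma update_mono_last (v : ι → ℕ) (o : ι) {j l : ℕ} (h : j ≤ l) :
    ∀ c, Function.update v o j c ≤ Function.update v o l c := by
  intro c
  by_cases hc : c = o
  · subst hc; simpa using h
  · simp [Function.update_of_ne hc]

/-- exponential moment of the energy under the uniform weight -/
theorem energy_exp {f : Om ι L → ℝ} {M : ℝ} (hM : 0 < M) (hf : ∀ ω, |f ω| ≤ M) (o : ι)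
    (v : ι → ℕ) :
    Ex (Pw ι L) (fun ω => Real.exp ((∑ l ∈ range L, (Gv f o v l ω) ^ 2) / (2 * M ^ 2))) ≤ 2 := by
  set th : ℝ := 1 / (2 * M ^ 2) with hth
  have hth0 : 0 < th := by positivity
  set g : ℕ → Om ι L → ℝ := fun l => CE (Pw ι L) (Function.update v o l) f with hg
  set A : ℕ → Om ι L → ℝ := fun l ω => ∑ j ∈ range l, (Gv f o v j ω) ^ 2 with hA
  have hgM : ∀ l ω, |g l ω| ≤ M := fun l ω => abs_CE_le Pw_pos _ hf ω
  have hgsq : ∀ l ω, g l ω ^ 2 ≤ M ^ 2 := fun l ω => sq_le_sq' (abs_le.1 (hgM l ω)).1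
    (abs_le.1 (hgM l ω)).2
  have hthg : ∀ l ω, th * g l ω ^ 2 ≤ 1 / 2 := by
    intro l ω
    have : th * g l ω ^ 2 ≤ th * M ^ 2 := mul_le_mul_of_nonneg_left (hgsq l ω) hth0.le
    have h2 : th * M ^ 2 = 1 / 2 := by rw [hth]; field_simp
    linarith
  have hAmeas : ∀ l, Meas (Function.update v o l) (A (l + 1)) := by
    intro l
    refine Meas.sum _ fun j hj => ?_
    have hj' : j ≤ l := Nat.lt_succ_iff.1 (Finset.mem_range.1 hj)
    exact ((meas_Gv f o v j).mono (update_mono_last v o hj')).pow 2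
  have hhaar : ∀ l, l < L → ∀ ω, g (l + 1) ω = g l ω + dg o l ω * Gv f o v l ω := by
    intro l hl ω
    have h := haar_step (v := Function.update v o l) (c := o) (by simpa using hl) f ω
    simp only [Function.update_self, Function.update_idem] at h
    exact h
  have hstep : ∀ l, l < L → Ex (Pw ι L) (fun ω => Real.exp (th * A (l + 1) ω) * (1 - th * g (l + 1) ω ^ 2))
      ≤ Ex (Pw ι L) (fun ω => Real.exp (th * A l ω) * (1 - th * g l ω ^ 2)) := by
    intro l hl
    have hz := Ex_dg_mul_eq_zero (v := Function.update v o l) (c := o) hl (by simp)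
      ((((hAmeas l).comp (fun x => Real.exp (th * x) * (2 * th))).mul
        (meas_CE (Pw ι L) (Function.update v o l) f)).mul (meas_Gv f o v l))
    have e1 : Ex (Pw ι L) (fun ω => Real.exp (th * A (l + 1) ω) * (1 - th * g (l + 1) ω ^ 2)) =
        Ex (Pw ι L) (fun ω => Real.exp (th * A (l + 1) ω) *
          (1 - th * g l ω ^ 2 - th * Gv f o v l ω ^ 2)) := by
      rw [← sub_eq_zero, ← Ex_sub, ← neg_eq_zero, ← Ex_neg, ← hz]
      refine Ex_congr _ fun ω => ?_
      have h1 : g (l + 1) ω = g l ω + dg o l ω * Gv f o v l ω := hhaar l hl ω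
      have h2 := dg_mul_self o l ω
      rw [h1]
      simp only [hg]
      linear_combination (Real.exp (th * A (l + 1) ω) * th * Gv f o v l ω ^ 2) * h2
    rw [e1]
    refine Ex_mono (fun ω => (Pw_pos ω).le) fun ω => ?_
    have h3 : A (l + 1) ω = A l ω + Gv f o v l ω ^ 2 := by
      simp only [hA]
      rw [Finset.sum_range_succ]
    have h4 := energy_step_ineq (a := 1 - th * g l ω ^ 2) (x := th * Gv f o v l ω ^ 2)
      (by nlinarith [sq_nonneg (g l ω)]) (by positivity)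
    rw [h3, mul_add, Real.exp_add, mul_assoc]
    exact mul_le_mul_of_nonneg_left h4 (Real.exp_pos _).le
  have hmono : ∀ l, l ≤ L → Ex (Pw ι L) (fun ω => Real.exp (th * A l ω) * (1 - th * g l ω ^ 2)) ≤ 1 := by
    intro l
    induction l with
    | zero =>
      intro _
      refine Ex_le_of_le isPr_Pw fun ω => ?_
      have h0 : A 0 ω = 0 := by simp [hA]
      rw [h0, mul_zero, Real.exp_zero, one_mul]
      nlinarith [sq_nonneg (g 0 ω)]
    | succ l ih => exact fun hl => (hstep l hl).trans (ih (Nat.le_of_succ_le hl))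
  have h3 : Ex (Pw ι L) (fun ω => Real.exp (th * A L ω) * (1 / 2)) ≤
      Ex (Pw ι L) (fun ω => Real.exp (th * A L ω) * (1 - th * g L ω ^ 2)) := by
    refine Ex_mono (fun ω => (Pw_pos ω).le) fun ω => ?_
    exact mul_le_mul_of_nonneg_left (by linarith [hthg L ω]) (Real.exp_pos _).le
  rw [Ex_mul_const] at h3
  have h5 : Ex (Pw ι L) (fun ω => Real.exp ((∑ l ∈ range L, (Gv f o v l ω) ^ 2) / (2 * M ^ 2))) =
      Ex (Pw ι L) (fun ω => Real.exp (th * A L ω)) := by
    refine Ex_congr _ (fun ω => ?_)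
    simp only [hA, hth]
    congr 1
    ring
  rw [h5]
  linarith [hmono L le_rfl]

/-- tail of the energy under the weight `w ≤ e^K P` -/
theorem energy_tail {f : Om ι L → ℝ} {M : ℝ} (hM : 0 < M) (hf : ∀ ω, |f ω| ≤ M)
    {w : Om ι L → ℝ} {K : ℝ} (hw : ∀ ω, 0 ≤ w ω) (hK : ∀ ω, w ω ≤ Real.exp K * Pw ι L ω)
    (o : ι) (v : ι → ℕ) :
    Ex w (ind (fun ω => 4 * M ^ 2 * K < ∑ l ∈ range L, (Gv f o v l ω) ^ 2)) ≤
      2 * Real.exp (-K) := by
  set g : Om ι L → ℝ := fun ω => Real.exp ((∑ l ∈ range L, (Gv f o v l ω) ^ 2) / (2 * M ^ 2))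
    with hg
  have h1 : Ex w g ≤ Real.exp K * 2 :=
    (Ex_le_exp_mul hK (fun ω => (Real.exp_pos _).le)).trans
      (mul_le_mul_of_nonneg_left (energy_exp hM hf o v) (Real.exp_pos K).le)
  have h2 := markov hw (g := g) (fun ω => (Real.exp_pos _).le) (Real.exp_pos (2 * K))
    (fun ω => 4 * M ^ 2 * K < ∑ l ∈ range L, (Gv f o v l ω) ^ 2) (by
      intro ω h
      apply Real.exp_le_exp.2
      rw [le_div_iff₀ (by positivity)]
      nlinarith)
  refine h2.trans ?_
  rw [div_le_iff₀ (Real.exp_pos _)]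
  calc Ex w g ≤ Real.exp K * 2 := h1
    _ = 2 * Real.exp (-K) * Real.exp (2 * K) := by
        rw [mul_assoc, ← Real.exp_add, mul_comm]; congr 2; ring

end DK
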