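import Pool.Agent.Work.MP_d500f7_co.K.Wick3

/-! # Wick corrections: final bounds -/

namespace DK

open Finset

variable {ι : Type} [Fintype ι] [DecidableEq ι] {L : ℕ}

noncomputable def Yc (ι : Type) [Fintype ι] : ℝ :=
  16 ^ Fintype.card ι * (42 ^ Fintype.card ι + 2)

noncomputable def Cc (ι : Type) [Fintype ι] : ℝ :=
  4 ^ Fintype.card ι * (42 ^ Fintype.card ι * Yc ι ^ Fintype.card ι + 2)

lemma Yc_ge : 1 ≤ Yc ι := by
  unfold Yc
  have h1 : (1 : ℝ) ≤ 16 ^ Fintype.card ι := one_le_pow₀ (by norm_num)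
  have h2 : (1 : ℝ) ≤ 42 ^ Fintype.card ι := one_le_pow₀ (by norm_num)
  nlinarith

lemma Cc_pos : 0 < Cc ι := by
  have := Yc_ge (ι := ι)
  unfold Cc
  positivity

/-- second moments of the Wick corrections -/
theorem nw {w : Om ι L → ℝ} {K : ℝ} {n : ℕ} (h : Ctx w K n) (I : Finset ι) (z : ι → ℕ)
    (hz : ∀ c, z c ≤ L) : NI w n I z ≤ Yc ι ^ I.card * K ^ (I.card - 1) := by
  have hK1 := h.hK1
  have hK0 : 0 ≤ K := by linarith
  have hY := Yc_ge (ι := ι)
  have hw0 := h.hw.nonneg
  induction I using Finset.strongInduction with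
  | H I ih =>
    by_cases hI : I = ∅
    · subst hI
      unfold NI
      rw [sum_Bx_empty]
      simp only [cw_empty, one_pow]
      rw [Ex_const h.hw.one]
      simp
    · have hcard : 1 ≤ I.card := Finset.card_pos.2 (Finset.nonempty_iff_ne_empty.2 hI)
      have hcardP : (I.ssubsets.card : ℝ) ≤ 2 ^ Fintype.card ι := by
        have h2 : I.ssubsets ⊆ I.powerset := fun x hx =>
          Finset.mem_powerset.2 (Finset.mem_ssubsets.1 hx).1
        have h3 := Finset.card_le_card h2
        rw [Finset.card_powerset] at h3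
        have h4 : (2 : ℕ) ^ I.card ≤ 2 ^ Fintype.card ι :=
          Nat.pow_le_pow_right (by norm_num) (Finset.card_le_univ _)
        exact_mod_cast h3.trans h4
      have hbm : ∀ I' s ω, hh w ∅ I' s ω = cw w s I' ω := by
        intro I' s ω
        unfold hh bm
        rw [Finset.prod_empty, one_mul]
      have hpt : ∀ s, Ex w (fun ω => cw w s I ω ^ 2) ≤
          2 ^ Fintype.card ι * ∑ I' ∈ I.ssubsets, Ex w (fun ω => CE w (lv L I s)
            (fun ω => em w (I \ I') s ω * hh w ∅ I' s ω) ω ^ 2) := by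
        intro s
        rw [← Ex_sum, ← Ex_const_mul]
        refine Ex_mono hw0 (fun ω => ?_)
        rw [cw_ne w s hI, CE_sum, neg_sq]
        refine (sq_sum_le_card_mul_sum_sq).trans ?_
        simp only [hbm]
        exact mul_le_mul_of_nonneg_right hcardP (Finset.sum_nonneg (fun _ _ => sq_nonneg _))
      have hterm : ∀ I' ∈ I.ssubsets, ∑ s ∈ Bx n I z, Ex w (fun ω => CE w (lv L I s)
            (fun ω => em w (I \ I') s ω * hh w ∅ I' s ω) ω ^ 2) ≤
          4 ^ Fintype.card ι * ((42 ^ Fintype.card ι + 2) *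
            (Yc ι ^ (I.card - 1) * K ^ (I.card - 1))) := by
        intro I' hI'
        rw [Finset.mem_ssubsets] at hI'
        have hne : (I \ I').Nonempty := Finset.sdiff_nonempty.2 hI'.2
        have g := emc h (A := I) (R := I \ I') (D := ∅) (I := I') hne Finset.sdiff_subset
          (Finset.disjoint_empty_right _) Finset.sdiff_disjoint (Finset.disjoint_empty_left _) z hz
        rw [Finset.union_empty, Finset.sdiff_union_of_subset hI'.1, Finset.card_empty,
          add_zero] at g
        refine g.trans (mul_le_mul_of_nonneg_left ?_ (by positivity))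
        have hN := ih I' hI'
        have hlt := Finset.card_lt_card hI'
        have hc : (I \ I').card = I.card - I'.card := Finset.card_sdiff_of_subset hI'.1
        have hN' : NI w n I' z ≤ Yc ι ^ (I.card - 1) * K ^ (I'.card - 1) :=
          hN.trans (mul_le_mul_of_nonneg_right (pow_le_pow_right₀ hY (by omega))
            (by positivity))
        have h1 : (42 * K) ^ ((I \ I').card - 1) * NI w n I' z ≤
            42 ^ Fintype.card ι * (Yc ι ^ (I.card - 1) * K ^ (I.card - 1)) := by
          calc _ ≤ (42 * K) ^ ((I \ I').card - 1) *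
                (Yc ι ^ (I.card - 1) * K ^ (I'.card - 1)) :=
                mul_le_mul_of_nonneg_left hN' (by positivity)
            _ = 42 ^ ((I \ I').card - 1) * (Yc ι ^ (I.card - 1) *
                K ^ ((I \ I').card - 1 + (I'.card - 1))) := by
                rw [mul_pow, pow_add]; ring
            _ ≤ _ := by
                have e1 : (42 : ℝ) ^ ((I \ I').card - 1) ≤ 42 ^ Fintype.card ι :=
                  pow_le_pow_right₀ (by norm_num) (by
                    have := Finset.card_le_univ (I \ I'); omega)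
                have e2 : K ^ ((I \ I').card - 1 + (I'.card - 1)) ≤ K ^ (I.card - 1) :=
                  pow_le_pow_right₀ hK1 (by omega)
                gcongr
        have h2 : (1 : ℝ) ≤ Yc ι ^ (I.card - 1) * K ^ (I.card - 1) :=
          one_le_mul_of_one_le_of_one_le (one_le_pow₀ hY) (one_le_pow₀ hK1)
        nlinarith
      calc NI w n I z ≤ ∑ s ∈ Bx n I z, 2 ^ Fintype.card ι * ∑ I' ∈ I.ssubsets,
            Ex w (fun ω => CE w (lv L I s)
            (fun ω => em w (I \ I') s ω * hh w ∅ I' s ω) ω ^ 2) :=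
            Finset.sum_le_sum (fun s _ => hpt s)
        _ = 2 ^ Fintype.card ι * ∑ I' ∈ I.ssubsets, ∑ s ∈ Bx n I z,
            Ex w (fun ω => CE w (lv L I s)
            (fun ω => em w (I \ I') s ω * hh w ∅ I' s ω) ω ^ 2) := by
            rw [← Finset.mul_sum, Finset.sum_comm]
        _ ≤ 2 ^ Fintype.card ι * ∑ _I' ∈ I.ssubsets, 4 ^ Fintype.card ι *
            ((42 ^ Fintype.card ι + 2) * (Yc ι ^ (I.card - 1) * K ^ (I.card - 1))) :=
            mul_le_mul_of_nonneg_left (Finset.sum_le_sum hterm) (by positivity)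
        _ ≤ 2 ^ Fintype.card ι * (2 ^ Fintype.card ι * (4 ^ Fintype.card ι *
            ((42 ^ Fintype.card ι + 2) * (Yc ι ^ (I.card - 1) * K ^ (I.card - 1))))) := by
            rw [Finset.sum_const, nsmul_eq_mul]
            refine mul_le_mul_of_nonneg_left (mul_le_mul_of_nonneg_right hcardP ?_)
              (by positivity)
            positivity
        _ = Yc ι ^ I.card * K ^ (I.card - 1) := by
            have e : Yc ι ^ I.card = Yc ι ^ (I.card - 1) * Yc ι := by
              rw [← pow_succ]; congr 1; omega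
            rw [e]
            have e2 : Yc ι = 16 ^ Fintype.card ι * (42 ^ Fintype.card ι + 2) := rfl
            have e3 : (16 : ℝ) ^ Fintype.card ι =
              2 ^ Fintype.card ι * 2 ^ Fintype.card ι * 4 ^ Fintype.card ι := by
              rw [← mul_pow, ← mul_pow]; norm_num
            rw [show Yc ι ^ (I.card - 1) * Yc ι = Yc ι ^ (I.card - 1) *
              (16 ^ Fintype.card ι * (42 ^ Fintype.card ι + 2)) from by rw [← e2], e3]
            ring

lemma nw' {w : Om ι L → ℝ} {K : ℝ} {n : ℕ} (h : Ctx w K n) (I : Finset ι) (z : ι → ℕ)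
    (hz : ∀ c, z c ≤ L) : NI w n I z ≤ Yc ι ^ Fintype.card ι * K ^ (I.card - 1) := by
  have hK0 : 0 ≤ K := by linarith [h.hK1]
  exact (nw h I z hz).trans (mul_le_mul_of_nonneg_right
    (pow_le_pow_right₀ Yc_ge (Finset.card_le_univ _)) (by positivity))

/-- the products `b_D c_I` -/
theorem hh_bound {w : Om ι L → ℝ} {K : ℝ} {n : ℕ} (h : Ctx w K n) {D I : Finset ι}
    (hDI : Disjoint D I) (z : ι → ℕ) (hz : ∀ c, z c ≤ L) :
    ∑ s ∈ Bx n (D ∪ I) z, Ex w (fun ω => hh w D I s ω ^ 2) ≤
      Cc ι * K ^ (D.card + (I.card - 1)) := by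
  have hK1 := h.hK1
  have hK0 : 0 ≤ K := by linarith
  have h2 := mul_bound h (E := D) (I := I) hDI.symm (F := fun s => cw w s I) (dep_cw w I)
    (B := Bc ι) (fun s ω => abs_cw_le' h.hw s I ω) z
  rw [Finset.union_comm] at h2
  have hN := nw' h I z hz
  have hN0 := NI_nonneg h.hw n I z
  have e1 : D.card * (L : ℝ) ^ D.card * (n + 1) ^ I.card * Bc ι ^ 2 * Real.exp (-K) ≤ 1 := by
    have hE : (D.card : ℝ) ≤ L := by
      have : D.card ≤ Fintype.card ι := Finset.card_le_univ _
      exact_mod_cast this.trans h.hkL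
    have hcard : D.card + I.card ≤ Fintype.card ι := by
      rw [← Finset.card_union_of_disjoint hDI]; exact Finset.card_le_univ _
    calc _ ≤ (L : ℝ) * L ^ D.card * L ^ I.card * Bc ι ^ 2 * Real.exp (-K / 2) := by
          have := h.hexp
          have := h.hnr
          have := h.hL1
          gcongr
      _ = 4 ^ (2 * (Fintype.card ι * Fintype.card ι)) *
          L ^ (1 + D.card + I.card) * Real.exp (-K / 2) := by
          rw [Bc_sq, pow_add, pow_add]; ring
      _ ≤ 1 := h.err (by omega) (by omega)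
  have h3 : (20 * K) ^ D.card * NI w n I z ≤
      42 ^ Fintype.card ι * Yc ι ^ Fintype.card ι * K ^ (D.card + (I.card - 1)) := by
    calc _ ≤ (42 * K) ^ D.card * (Yc ι ^ Fintype.card ι * K ^ (I.card - 1)) := by
          have : 20 * K ≤ 42 * K := by linarith
          gcongr
      _ = 42 ^ D.card * Yc ι ^ Fintype.card ι * K ^ (D.card + (I.card - 1)) := by
          rw [mul_pow, pow_add]; ring
      _ ≤ _ := by
          have : (42 : ℝ) ^ D.card ≤ 42 ^ Fintype.card ι :=
            pow_le_pow_right₀ (by norm_num) (Finset.card_le_univ _)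
          have := Yc_ge (ι := ι)
          gcongr
  have h4 : (1 : ℝ) ≤ K ^ (D.card + (I.card - 1)) := one_le_pow₀ hK1
  have h5 : (1 : ℝ) ≤ 4 ^ Fintype.card ι := one_le_pow₀ (by norm_num)
  have h6 : 42 ^ Fintype.card ι * Yc ι ^ Fintype.card ι * K ^ (D.card + (I.card - 1)) + 1 ≤
      Cc ι * K ^ (D.card + (I.card - 1)) := by
    unfold Cc
    have h7 : (0 : ℝ) ≤ 42 ^ Fintype.card ι * Yc ι ^ Fintype.card ι := by
      have := Yc_ge (ι := ι); positivity
    nlinarith [mul_nonneg h7 (by positivity : 0 ≤ K ^ (D.card + (I.card - 1))),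
      mul_nonneg (mul_nonneg h7 (by positivity : 0 ≤ K ^ (D.card + (I.card - 1))))
        (sub_nonneg.2 h5)]
  refine le_trans ?_ h6
  have h8 : ∑ s ∈ Bx n (D ∪ I) z, Ex w (fun ω => hh w D I s ω ^ 2) ≤
    (20 * K) ^ D.card * NI w n I z +
      D.card * (L : ℝ) ^ D.card * (n + 1) ^ I.card * Bc ι ^ 2 * Real.exp (-K) := h2
  linarith

/-- the projections that occur in the cross terms -/
theorem psi_bound {w : Om ι L → ℝ} {K : ℝ} {n : ℕ} (h : Ctx w K n) {A D I : Finset ι}
    (hA : A.Nonempty) (hAD : Disjoint A D) (hDI : Disjoint D I) (z : ι → ℕ)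
    (hz : ∀ c, z c ≤ L) :
    ∑ s ∈ Bx n (A ∪ D ∪ I) z, Ex w (fun ω => CE w (lv L A s)
      (fun ω => em w (A \ I) s ω * hh w D I s ω) ω ^ 2) ≤
      Cc ι * K ^ ((A ∪ D ∪ I).card - 1) := by
  have hK1 := h.hK1
  have hK0 : 0 ≤ K := by linarith
  have hY := Yc_ge (ι := ι)
  have hset : A ∪ D ∪ I = (A \ I) ∪ D ∪ I := by
    ext x
    simp only [mem_union, mem_sdiff]
    tauto
  by_cases hAI : (A \ I).Nonempty
  · have g := emc h (A := A) (R := A \ I) (D := D) (I := I) hAI Finset.sdiff_subset
      (Finset.disjoint_of_subset_left Finset.sdiff_subset hAD) Finset.sdiff_disjoint hDI z hz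
    rw [hset]
    refine g.trans ?_
    have hcard : ((A \ I) ∪ D ∪ I).card = (A \ I).card + D.card + I.card := by
      rw [Finset.card_union_of_disjoint, Finset.card_union_of_disjoint]
      · exact Finset.disjoint_of_subset_left Finset.sdiff_subset hAD
      · rw [Finset.disjoint_union_left]
        exact ⟨Finset.sdiff_disjoint, hDI⟩
    have hR1 : 1 ≤ (A \ I).card := Finset.card_pos.2 hAI
    have hcu : (A \ I).card + D.card + I.card ≤ Fintype.card ι := by
      rw [← hcard]; exact Finset.card_le_univ _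
    have hN := nw' h I z hz
    have h1 : (42 * K) ^ ((A \ I).card - 1 + D.card) * NI w n I z ≤
        42 ^ Fintype.card ι * Yc ι ^ Fintype.card ι *
          K ^ (((A \ I) ∪ D ∪ I).card - 1) := by
      calc _ ≤ (42 * K) ^ ((A \ I).card - 1 + D.card) *
            (Yc ι ^ Fintype.card ι * K ^ (I.card - 1)) :=
            mul_le_mul_of_nonneg_left hN (by positivity)
        _ = 42 ^ ((A \ I).card - 1 + D.card) * Yc ι ^ Fintype.card ι *
            K ^ ((A \ I).card - 1 + D.card + (I.card - 1)) := by
            rw [mul_pow, pow_add K]; ring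
        _ ≤ _ := by
            have e1 : (42 : ℝ) ^ ((A \ I).card - 1 + D.card) ≤ 42 ^ Fintype.card ι :=
              pow_le_pow_right₀ (by norm_num) (by omega)
            have e2 : K ^ ((A \ I).card - 1 + D.card + (I.card - 1)) ≤
                K ^ (((A \ I) ∪ D ∪ I).card - 1) := pow_le_pow_right₀ hK1 (by omega)
            gcongr
    have h2 : (1 : ℝ) ≤ K ^ (((A \ I) ∪ D ∪ I).card - 1) := one_le_pow₀ hK1
    unfold Cc
    rw [mul_assoc]
    refine mul_le_mul_of_nonneg_left ?_ (by positivity)
    nlinarith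
  · rw [Finset.not_nonempty_iff_eq_empty] at hAI
    have hAsub : A ⊆ I := Finset.sdiff_eq_empty_iff_subset.1 hAI
    have hI : 1 ≤ I.card := Finset.card_pos.2 (hA.mono hAsub)
    have hset2 : A ∪ D ∪ I = D ∪ I := by
      rw [hset, hAI, Finset.empty_union]
    rw [hset2, hAI]
    have hcard : (D ∪ I).card = D.card + I.card := Finset.card_union_of_disjoint hDI
    have g := hh_bound h hDI z hz
    have e : D.card + (I.card - 1) = (D ∪ I).card - 1 := by omega
    rw [e] at g
    refine le_trans (Finset.sum_le_sum (fun s _ => ?_)) g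
    have e2 : Ex w (fun ω => CE w (lv L A s) (fun ω => em w ∅ s ω * hh w D I s ω) ω ^ 2) =
        Ex w (fun ω => CE w (lv L A s) (hh w D I s) ω ^ 2) := by
      refine Ex_congr w (fun ω => ?_)
      congr 1
      refine CE_congr w _ (fun ω => ?_) ω
      unfold em
      rw [Finset.prod_empty, one_mul]
    rw [e2]
    exact Ex_CE_sq_le h.hw.pos _ _

end DK
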