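import Pool.Agent.Work.MP_d500f7_co.K.OpC
import Pool.Agent.Work.MP_d500f7_co.K.Wick4
import Pool.Agent.Work.MP_d500f7_co.K.Energy

/-! # Cross terms: the Cauchy-Schwarz step -/

namespace DK

open Finset

variable {ι : Type} [Fintype ι] [DecidableEq ι] {L : ℕ}

lemma sum_sqrt_le {κ : Type*} (S : Finset κ) (f : κ → ℝ) (hf : ∀ i ∈ S, 0 ≤ f i) :
    ∑ i ∈ S, Real.sqrt (f i) ≤ Real.sqrt (S.card * ∑ i ∈ S, f i) := by
  apply Real.le_sqrt_of_sq_le
  refine (sq_sum_le_card_mul_sum_sq).trans (le_of_eq ?_)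
  congr 1
  exact Finset.sum_congr rfl (fun i hi => Real.sq_sqrt (hf i hi))

/-- Cauchy-Schwarz for the cross terms -/
theorem cross_cs {w : Om ι L → ℝ} {K : ℝ} {n : ℕ} (h : Ctx w K n)
    {a : (ι → ℕ) → Om ι L → ℝ} (ha : Wt a n) {o : ι} {A B C : Finset ι} (hB : B.Nonempty)
    (hoA : o ∉ A) (hoB : o ∉ B) (hoC : o ∉ C) (hAB : Disjoint A B) (hAC : Disjoint A C)
    (hBC : Disjoint B C) {M : ℝ} (hM : 0 ≤ M)
    {g : (ι → ℕ) → Om ι L → ℝ} (hg : Dep (insert o A) g) (hgM : ∀ s ω, |g s ω| ≤ M)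
    (hgE : ∀ z : ι → ℕ, Ex w (ind (fun ω => 4 * M ^ 2 * K < ∑ s ∈ Bx n {o} z, g s ω ^ 2)) ≤
      2 * Real.exp (-K))
    {ρ : (ι → ℕ) → Om ι L → ℝ} (hρ : Dep (A ∪ B) ρ)
    (hρB : ∀ s ω, |ρ s ω| ≤ 4 ^ (Fintype.card ι * Fintype.card ι + Fintype.card ι))
    {N : ℝ} {z : ι → ℕ} (hz : ∀ c, z c ≤ L)
    (hN : ∑ s ∈ Bx n (A ∪ B) z, Ex w (fun ω => ρ s ω ^ 2) ≤ N) :
    |∑ s ∈ Bx n (A ∪ ({o} ∪ (B ∪ C))) z, Ex w (fun ω => g s ω * (xm C s ω * a s ω) * ρ s ω)| ≤
      M * (2 * Real.sqrt (K * ((30 * K) ^ C.card * (n + 1) ^ (C.card + B.card - 1)) *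
        ((n + 1) ^ A.card * N)) + 1) := by
  have hw := h.hw
  have hw0 := hw.nonneg
  have hK1 := h.hK1
  have hK0 : 0 ≤ K := by linarith
  set b : ℝ := (30 * K) ^ C.card * (n + 1) ^ (C.card + B.card - 1) with hb
  have hb0 : 0 ≤ b := by positivity
  set R0 : ℝ := 4 ^ (Fintype.card ι * Fintype.card ι + Fintype.card ι) with hR0
  have hR00 : 0 ≤ R0 := by positivity
  have hd1 : Disjoint A ({o} ∪ (B ∪ C)) := by
    rw [Finset.disjoint_union_right, Finset.disjoint_union_right,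
      Finset.disjoint_singleton_right]
    exact ⟨hoA, hAB, hAC⟩
  set S : (ι → ℕ) → Om ι L → ℝ := fun u ω =>
    ∑ s ∈ Bx n ({o} ∪ (B ∪ C)) u, g s ω * (xm C s ω * a s ω) * ρ s ω with hS
  set Q : (ι → ℕ) → Om ι L → ℝ := fun u ω => ∑ s ∈ Bx n B u, ρ s ω ^ 2 with hQ
  have hQ0 : ∀ u ω, 0 ≤ Q u ω := fun u ω => Finset.sum_nonneg (fun _ _ => sq_nonneg _)
  have hcard : ({o} ∪ (B ∪ C)).card = 1 + (B.card + C.card) := by
    rw [Finset.card_union_of_disjoint, Finset.card_union_of_disjoint hBC, Finset.card_singleton]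
    rw [Finset.disjoint_singleton_left, mem_union, not_or]
    exact ⟨hoB, hoC⟩
  have hcard2 : A.card + (1 + (B.card + C.card)) ≤ Fintype.card ι := by
    rw [← hcard, ← Finset.card_union_of_disjoint hd1]
    exact Finset.card_le_univ _
  -- pointwise bound on the good event
  have hgood : ∀ u ω, ¬ (4 * M ^ 2 * K < ∑ s ∈ Bx n {o} u, g s ω ^ 2) →
      OpLe (TT n C (Df n o B a) u ω) b → |S u ω| ≤ Real.sqrt (b * (4 * M ^ 2 * K)) *
        Real.sqrt (Q u ω) := by
    intro u ω h1 h2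
    have hg' : Dep (univ \ (B ∪ C)) (fun s => g s ω) := by
      intro s s' hs
      have := hg s s' (fun c hc => hs c (by
        rw [mem_sdiff, mem_union, not_or]
        refine ⟨mem_univ _, ?_, ?_⟩
        · intro hcB
          rcases mem_insert.1 hc with rfl | hc
          · exact hoB hcB
          · exact Finset.disjoint_left.1 hAB hc hcB
        · intro hcC
          rcases mem_insert.1 hc with rfl | hc
          · exact hoC hcC
          · exact Finset.disjoint_left.1 hAC hc hcC))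
      simp only [this]
    have hr' : Dep (univ \ insert o C) (fun s => ρ s ω) := by
      intro s s' hs
      have := hρ s s' (fun c hc => hs c (by
        rw [mem_sdiff, mem_insert, not_or]
        refine ⟨mem_univ _, ?_, ?_⟩
        · rintro rfl
          rcases mem_union.1 hc with hc | hc
          · exact hoA hc
          · exact hoB hc
        · intro hcC
          rcases mem_union.1 hc with hc | hc
          · exact Finset.disjoint_left.1 hAC hc hcC
          · exact Finset.disjoint_left.1 hBC hc hcC))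
      simp only [this]
    have h3 := bilin hoB hoC hBC h2 hg' hr'
    rw [← Real.sqrt_mul (by positivity)]
    apply Real.abs_le_sqrt
    have h4 := not_lt.1 h1
    calc S u ω ^ 2 ≤ b * (∑ s ∈ Bx n {o} u, g s ω ^ 2) * (∑ s ∈ Bx n B u, ρ s ω ^ 2) := h3
      _ ≤ b * (4 * M ^ 2 * K) * (∑ s ∈ Bx n B u, ρ s ω ^ 2) :=
          mul_le_mul_of_nonneg_right (mul_le_mul_of_nonneg_left h4 hb0) (hQ0 u ω)
  have hSB : ∀ u ω, |S u ω| ≤ L ^ (1 + (B.card + C.card)) * (M * R0) := by
    intro u ω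
    calc |S u ω| ≤ ∑ s ∈ Bx n ({o} ∪ (B ∪ C)) u, |g s ω * (xm C s ω * a s ω) * ρ s ω| :=
          Finset.abs_sum_le_sum_abs _ _
      _ ≤ ∑ _s ∈ Bx n ({o} ∪ (B ∪ C)) u, M * R0 := by
          refine Finset.sum_le_sum (fun s _ => ?_)
          rw [abs_mul, abs_mul, abs_mul, abs_xm, one_mul]
          have h1 := hgM s ω
          have h2 := ha.le1 s ω
          have h3 := hρB s ω
          calc |g s ω| * |a s ω| * |ρ s ω| ≤ M * 1 * R0 := by gcongr
            _ = _ := by ring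
      _ = (n + 1) ^ (1 + (B.card + C.card)) * (M * R0) := by
          rw [Finset.sum_const, card_Bx, nsmul_eq_mul, hcard]; push_cast; ring
      _ ≤ _ := by
          have := h.hnr
          have : (0 : ℝ) ≤ M * R0 := by positivity
          gcongr
  have hu : ∀ u ∈ Bx n A z, |Ex w (S u)| ≤
      Real.sqrt (b * (4 * M ^ 2 * K)) * Real.sqrt (Ex w (Q u)) +
        L ^ (1 + (B.card + C.card)) * (M * R0) * (3 * Real.exp (-K)) := by
    intro u hu
    have huL : ∀ c, u c ≤ L := Bx_le hu (by rw [h.hn]; omega) hz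
    have h1 := hgE u
    have h2 := opb h ha hB hoB hoC hBC u huL
    have h3 : Ex w (ind (fun ω => (4 * M ^ 2 * K < ∑ s ∈ Bx n {o} u, g s ω ^ 2) ∨
        ¬ OpLe (TT n C (Df n o B a) u ω) b)) ≤ 3 * Real.exp (-K) := by
      calc _ ≤ Ex w (fun ω => ind (fun ω => 4 * M ^ 2 * K < ∑ s ∈ Bx n {o} u, g s ω ^ 2) ω +
            ind (fun ω => ¬ OpLe (TT n C (Df n o B a) u ω) b) ω) :=
            Ex_mono hw0 (fun ω => ind_or_le _ _ ω)
        _ ≤ 2 * Real.exp (-K) + Real.exp (-2 * K) := by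
            rw [Ex_add]; exact add_le_add h1 h2
        _ ≤ _ := by
            have : Real.exp (-2 * K) ≤ Real.exp (-K) := Real.exp_le_exp.2 (by linarith)
            linarith
    have h4 := Ex_split (w := w) hw0 (g := fun ω => |S u ω|)
      (h := fun ω => Real.sqrt (b * (4 * M ^ 2 * K)) * Real.sqrt (Q u ω))
      (B := L ^ (1 + (B.card + C.card)) * (M * R0)) (by positivity)
      (fun ω => (4 * M ^ 2 * K < ∑ s ∈ Bx n {o} u, g s ω ^ 2) ∨
        ¬ OpLe (TT n C (Df n o B a) u ω) b)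
      (fun ω hω => by
        rw [not_or, not_not] at hω
        exact hgood u ω hω.1 hω.2)
      (fun ω => by positivity) (hSB u)
    have h5 : Ex w (fun ω => Real.sqrt (Q u ω)) ≤ Real.sqrt (Ex w (Q u)) := by
      have := Ex_abs_le_sqrt hw (fun ω => Real.sqrt (Q u ω))
      have e1 : Ex w (fun ω => |Real.sqrt (Q u ω)|) = Ex w (fun ω => Real.sqrt (Q u ω)) :=
        Ex_congr w (fun ω => abs_of_nonneg (Real.sqrt_nonneg _))
      have e2 : Ex w (fun ω => Real.sqrt (Q u ω) ^ 2) = Ex w (Q u) :=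
        Ex_congr w (fun ω => Real.sq_sqrt (hQ0 u ω))
      rwa [e1, e2] at this
    rw [Ex_const_mul] at h4
    calc |Ex w (S u)| ≤ Ex w (fun ω => |S u ω|) := abs_Ex_le hw0
      _ ≤ _ := h4
      _ ≤ _ := by
          refine add_le_add (mul_le_mul_of_nonneg_left h5 (Real.sqrt_nonneg _)) ?_
          exact mul_le_mul_of_nonneg_left h3 (by positivity)
  have hsum : ∑ s ∈ Bx n (A ∪ ({o} ∪ (B ∪ C))) z,
      Ex w (fun ω => g s ω * (xm C s ω * a s ω) * ρ s ω) = ∑ u ∈ Bx n A z, Ex w (S u) := by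
    rw [sum_Bx_union n hd1]
    exact Finset.sum_congr rfl (fun u _ => (Ex_sum _ _ _).symm)
  have hQN : ∑ u ∈ Bx n A z, Ex w (Q u) ≤ N := by
    refine le_trans (le_of_eq ?_) hN
    rw [sum_Bx_union n hAB]
    exact Finset.sum_congr rfl (fun u _ => Ex_sum _ _ _)
  rw [hsum]
  have hErr : ((n : ℝ) + 1) ^ A.card *
      (L ^ (1 + (B.card + C.card)) * (M * R0) * (3 * Real.exp (-K))) ≤ M * 1 := by
    have hL := h.hL1
    have hnr := h.hnr
    have hexp := h.hexp
    calc _ ≤ (L : ℝ) ^ A.card *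
          (L ^ (1 + (B.card + C.card)) * (M * R0) * (4 ^ 1 * Real.exp (-K / 2))) := by
          have : (3 : ℝ) ≤ 4 ^ 1 := by norm_num
          gcongr
      _ = M * (4 ^ (Fintype.card ι * Fintype.card ι + Fintype.card ι + 1) *
          L ^ (A.card + (1 + (B.card + C.card))) * Real.exp (-K / 2)) := by
          rw [hR0, pow_add (4 : ℝ) _ 1, pow_add (L : ℝ) A.card]; ring
      _ ≤ M * 1 := by
          refine mul_le_mul_of_nonneg_left (h.err ?_ (by omega)) hM
          have : Fintype.card ι ≤ Fintype.card ι * Fintype.card ι + 1 := by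
            rcases Nat.eq_zero_or_pos (Fintype.card ι) with h0 | h0
            · rw [h0]; omega
            · nlinarith
          omega
  calc |∑ u ∈ Bx n A z, Ex w (S u)| ≤ ∑ u ∈ Bx n A z, |Ex w (S u)| :=
        Finset.abs_sum_le_sum_abs _ _
    _ ≤ ∑ u ∈ Bx n A z, (Real.sqrt (b * (4 * M ^ 2 * K)) * Real.sqrt (Ex w (Q u)) +
        L ^ (1 + (B.card + C.card)) * (M * R0) * (3 * Real.exp (-K))) := Finset.sum_le_sum hu
    _ = Real.sqrt (b * (4 * M ^ 2 * K)) * ∑ u ∈ Bx n A z, Real.sqrt (Ex w (Q u)) +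
        (n + 1) ^ A.card * (L ^ (1 + (B.card + C.card)) * (M * R0) * (3 * Real.exp (-K))) := by
        rw [Finset.sum_add_distrib, ← Finset.mul_sum, Finset.sum_const, card_Bx, nsmul_eq_mul]
        push_cast; ring
    _ ≤ Real.sqrt (b * (4 * M ^ 2 * K)) * Real.sqrt ((n + 1) ^ A.card * N) + M * 1 := by
        refine add_le_add (mul_le_mul_of_nonneg_left ?_ (Real.sqrt_nonneg _)) hErr
        refine (sum_sqrt_le _ _ (fun u _ => Ex_nonneg hw0 (hQ0 u))).trans ?_
        rw [card_Bx]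
        push_cast
        exact Real.sqrt_le_sqrt (mul_le_mul_of_nonneg_left hQN (by positivity))
    _ = _ := by
        have e1 : Real.sqrt (b * (4 * M ^ 2 * K)) = 2 * M * Real.sqrt (K * b) := by
          rw [show b * (4 * M ^ 2 * K) = (2 * M) ^ 2 * (K * b) by ring,
            Real.sqrt_mul (by positivity), Real.sqrt_sq (by positivity)]
        rw [e1, Real.sqrt_mul (show 0 ≤ K * b by positivity)]
        ring

end DK
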