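import Pool.Agent.Work.MP_d500f7_co.K.CrossA

/-! # Cross terms: expansion of the test function and the final bound -/

namespace DK

open Finset

variable {ι : Type} [Fintype ι] [DecidableEq ι] {L : ℕ}

/-- expansion of the test function relative to a set `A` -/
lemma phi_expand (w : Om ι L → ℝ) {A J : Finset ι} (hAJ : A ⊆ J) (s : ι → ℕ) (ω : Om ι L) :
    phi w J s ω = ∑ p ∈ J.powerset.sigma (fun I => ((J \ A) \ I).powerset),
      (-1) ^ p.2.card * (xm (((J \ A) \ p.1) \ p.2) s ω *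
        (em w (A \ p.1) s ω * hh w p.2 p.1 s ω)) := by
  unfold phi
  rw [Finset.sum_sigma]
  refine Finset.sum_congr rfl (fun I hI => ?_)
  have hset : J \ I = (A \ I) ∪ ((J \ A) \ I) := by
    ext x
    simp only [mem_union, mem_sdiff]
    constructor
    · rintro ⟨h1, h2⟩
      by_cases hx : x ∈ A <;> tauto
    · rintro (⟨h1, h2⟩ | ⟨⟨h1, h2⟩, h3⟩)
      · exact ⟨hAJ h1, h2⟩
      · exact ⟨h1, h3⟩
  have hdis : Disjoint (A \ I) ((J \ A) \ I) := by
    rw [Finset.disjoint_left]
    intro x hx hx'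
    simp only [mem_sdiff] at hx hx'
    exact hx'.1.2 hx.1
  have e1 : em w (J \ I) s ω = em w (A \ I) s ω * em w ((J \ A) \ I) s ω := by
    unfold em
    rw [hset, Finset.prod_union hdis]
  rw [e1, em_expand w ((J \ A) \ I), Finset.mul_sum, Finset.sum_mul]
  refine Finset.sum_congr rfl (fun D _ => ?_)
  unfold hh
  ring

/-- the part of the expansion with `D = ∅`, `I ⊆ A` -/
lemma phi_null (w : Om ι L → ℝ) {A J : Finset ι} (hAJ : A ⊆ J) (s : ι → ℕ) (ω : Om ι L) :
    ∑ p ∈ (J.powerset.sigma (fun I => ((J \ A) \ I).powerset)).filter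
        (fun p => p.2 = ∅ ∧ p.1 ⊆ A),
      (-1) ^ p.2.card * (xm (((J \ A) \ p.1) \ p.2) s ω *
        (em w (A \ p.1) s ω * hh w p.2 p.1 s ω)) = xm (J \ A) s ω * phi w A s ω := by
  unfold phi
  rw [Finset.mul_sum]
  refine Finset.sum_nbij' (fun p => p.1) (fun I => ⟨I, ∅⟩) ?_ ?_ ?_ ?_ ?_
  · intro p hp
    rw [mem_filter] at hp
    exact Finset.mem_powerset.2 hp.2.2
  · intro I hI
    rw [Finset.mem_powerset] at hI
    rw [mem_filter, mem_sigma]
    exact ⟨⟨Finset.mem_powerset.2 (hI.trans hAJ), Finset.empty_mem_powerset _⟩, rfl, hI⟩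
  · rintro ⟨I, D⟩ hp
    rw [mem_filter] at hp
    simp only at hp ⊢
    rw [hp.2.1]
  · intro I hI; rfl
  · rintro ⟨I, D⟩ hp
    rw [mem_filter, mem_sigma] at hp
    obtain ⟨_, hD, hIA⟩ := hp
    simp only at hD hIA ⊢
    subst hD
    have e : ((J \ A) \ I) \ ∅ = J \ A := by
      ext x
      simp only [mem_sdiff, Finset.notMem_empty, not_false_eq_true, and_true]
      constructor
      · exact fun h => h.1
      · exact fun h => ⟨h, fun hx => h.2 (hIA hx)⟩
    rw [e]
    unfold hh bm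
    rw [Finset.card_empty, pow_zero, one_mul, Finset.prod_empty, one_mul]

lemma card_pairs (J A : Finset ι) :
    ((J.powerset.sigma (fun I => ((J \ A) \ I).powerset)).card : ℝ) ≤ 4 ^ Fintype.card ι := by
  rw [Finset.card_sigma]
  have h1 : ∑ I ∈ J.powerset, ((J \ A) \ I).powerset.card ≤
      ∑ _I ∈ J.powerset, 2 ^ Fintype.card ι := by
    refine Finset.sum_le_sum (fun I _ => ?_)
    rw [Finset.card_powerset]
    exact Nat.pow_le_pow_right (by norm_num) (Finset.card_le_univ _)
  rw [Finset.sum_const, Finset.card_powerset, smul_eq_mul] at h1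
  have h2 : 2 ^ J.card ≤ 2 ^ Fintype.card ι :=
    Nat.pow_le_pow_right (by norm_num) (Finset.card_le_univ _)
  have h3 : 2 ^ J.card * 2 ^ Fintype.card ι ≤ 4 ^ Fintype.card ι := by
    calc 2 ^ J.card * 2 ^ Fintype.card ι ≤ 2 ^ Fintype.card ι * 2 ^ Fintype.card ι :=
          Nat.mul_le_mul_right _ h2
      _ = 4 ^ Fintype.card ι := by rw [← Nat.mul_pow]
  exact_mod_cast h1.trans h3

/-- the common size of the error terms -/
noncomputable def Th (K : ℝ) (n : ℕ) (o : ι) : ℝ :=
  30 ^ Fintype.card ι * Cc ι *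
    (K ^ (univ.erase o).card * (n + 1) ^ ((univ.erase o).card - 1))

lemma pow_count {K : ℝ} (hK1 : 1 ≤ K) {n : ℕ} {o : ι} {A B C : Finset ι}
    (hB : B.Nonempty) (hAB : Disjoint A B) (hcard : A.card + B.card + C.card = (univ.erase o).card)
    (hc30 : C.card ≤ Fintype.card ι) :
    K * ((30 * K) ^ C.card * (n + 1) ^ (C.card + B.card - 1)) *
      ((n + 1) ^ A.card * (Cc ι * K ^ ((A ∪ B).card - 1))) ≤ Th K n o := by
  have hB1 : 1 ≤ B.card := Finset.card_pos.2 hB
  have hAB' : (A ∪ B).card = A.card + B.card := Finset.card_union_of_disjoint hAB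
  unfold Th
  rw [← hcard, hAB']
  have e : K * ((30 * K) ^ C.card * ((n : ℝ) + 1) ^ (C.card + B.card - 1)) *
      (((n : ℝ) + 1) ^ A.card * (Cc ι * K ^ (A.card + B.card - 1))) =
      30 ^ C.card * Cc ι * (K ^ (1 + C.card + (A.card + B.card - 1)) *
        ((n : ℝ) + 1) ^ (C.card + B.card - 1 + A.card)) := by
    rw [mul_pow, pow_add, pow_add, pow_add]
    ring
  rw [e, show 1 + C.card + (A.card + B.card - 1) = A.card + B.card + C.card by omega,
    show C.card + B.card - 1 + A.card = A.card + B.card + C.card - 1 by omega]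
  have h1 : (30 : ℝ) ^ C.card ≤ 30 ^ Fintype.card ι := pow_le_pow_right₀ (by norm_num) hc30
  have := Cc_pos (ι := ι)
  have hK0 : 0 ≤ K := by linarith
  gcongr

/-- bound of the cross terms -/
theorem cross {w : Om ι L → ℝ} {K : ℝ} {n : ℕ} (h : Ctx w K n)
    {a : (ι → ℕ) → Om ι L → ℝ} (ha : Wt a n) {o : ι} {f : Om ι L → ℝ} {M : ℝ} (hM : 0 < M)
    (hf : ∀ ω, |f ω| ≤ M) {A : Finset ι} (hA : A.Nonempty) (hAJ : A ⊆ univ.erase o)
    {z : ι → ℕ} (hz : ∀ c, z c ≤ L) :
    |∑ s ∈ Bx n univ z, Ex w (fun ω => Gv f o (lv L A s) (s o) ω *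
      (a s ω * phi w (univ.erase o) s ω))| ≤
      4 ^ Fintype.card ι * (M * (2 * Real.sqrt (Th K n o) + 1)) := by
  have hw := h.hw
  have hw0 := hw.nonneg
  have hK1 := h.hK1
  have hoA : o ∉ A := fun ho => Finset.notMem_erase o univ (hAJ ho)
  set J := univ.erase o with hJ
  set P := J.powerset.sigma (fun I => ((J \ A) \ I).powerset) with hP
  set g : (ι → ℕ) → Om ι L → ℝ := fun s => Gv f o (lv L A s) (s o) with hg
  set Y : (Σ _ : Finset ι, Finset ι) → (ι → ℕ) → Om ι L → ℝ := fun p s ω =>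
    em w (A \ p.1) s ω * hh w p.2 p.1 s ω with hY
  set Xp : (Σ _ : Finset ι, Finset ι) → (ι → ℕ) → Om ι L → ℝ := fun p s ω =>
    (-1) ^ p.2.card * (xm (((J \ A) \ p.1) \ p.2) s ω * Y p s ω) with hXp
  have hsL : ∀ s ∈ Bx n univ z, ∀ c, s c ≤ L := fun s hs => Bx_le hs (by rw [h.hn]; omega) hz
  have hgmeas : ∀ s ∈ Bx n univ z, Meas (lv L A s) (g s) := by
    intro s hs
    refine (meas_Gv f o (lv L A s) (s o)).mono (fun c => ?_)
    by_cases hc : c = o
    · subst hc
      rw [Function.update_self, lv_of_not_mem hoA]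
      exact hsL s hs c
    · rw [Function.update_of_ne hc]
  -- pointwise identity
  have hid : ∀ s ∈ Bx n univ z, Ex w (fun ω => g s ω * (a s ω * phi w J s ω)) =
      ∑ p ∈ P.filter (fun p => ¬ (p.2 = ∅ ∧ p.1 ⊆ A)),
        Ex w (fun ω => g s ω * (a s ω * Xp p s ω)) := by
    intro s hs
    have e1 : ∀ ω, phi w J s ω = xm (J \ A) s ω * phi w A s ω +
        ∑ p ∈ P.filter (fun p => ¬ (p.2 = ∅ ∧ p.1 ⊆ A)), Xp p s ω := by
      intro ω
      rw [phi_expand w hAJ s ω, ← phi_null w hAJ s ω,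
        Finset.sum_filter_add_sum_filter_not P (fun p => p.2 = ∅ ∧ p.1 ⊆ A)]
    have hmz : Meas (lv L A s) (fun ω => g s ω * a s ω * xm (J \ A) s ω) := by
      refine ((hgmeas s hs).mul (ha.meas_lv A (hsL s hs))).mul (meas_xm (fun c hc => ?_) s)
      rw [mem_sdiff] at hc
      rw [lv_of_not_mem hc.2]
    have e2 : Ex w (fun ω => g s ω * a s ω * xm (J \ A) s ω * phi w A s ω) = 0 := by
      rw [← Ex_mul_CE hw.pos hmz]
      have : ∀ ω, g s ω * a s ω * xm (J \ A) s ω * CE w (lv L A s) (phi w A s) ω = 0 := by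
        intro ω
        rw [CE_phi hw s (Finset.nonempty_iff_ne_empty.1 hA), mul_zero]
      rw [Ex_congr w this]
      simp [Ex]
    have e3 : Ex w (fun ω => g s ω * (a s ω * phi w J s ω)) =
        Ex w (fun ω => g s ω * a s ω * xm (J \ A) s ω * phi w A s ω) +
        Ex w (fun ω => ∑ p ∈ P.filter (fun p => ¬ (p.2 = ∅ ∧ p.1 ⊆ A)),
          g s ω * (a s ω * Xp p s ω)) := by
      rw [← Ex_add]
      refine Ex_congr w (fun ω => ?_)
      rw [e1 ω, ← Finset.mul_sum, ← Finset.mul_sum]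
      ring
    rw [e3, e2, zero_add, Ex_sum]
  rw [Finset.sum_congr rfl hid, Finset.sum_comm]
  -- bound for each pair
  have hterm : ∀ p ∈ P.filter (fun p => ¬ (p.2 = ∅ ∧ p.1 ⊆ A)),
      |∑ s ∈ Bx n univ z, Ex w (fun ω => g s ω * (a s ω * Xp p s ω))| ≤
        M * (2 * Real.sqrt (Th K n o) + 1) := by
    rintro ⟨I, D⟩ hp
    rw [mem_filter, mem_sigma, Finset.mem_powerset, Finset.mem_powerset] at hp
    obtain ⟨⟨hIJ, hDJ⟩, hne⟩ := hp
    simp only at hIJ hDJ hne
    set C := ((J \ A) \ I) \ D with hC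
    set B := D ∪ (I \ A) with hB
    have hBne : B.Nonempty := by
      rw [Finset.nonempty_iff_ne_empty]
      intro hcon
      rw [hB, Finset.union_eq_empty] at hcon
      exact hne ⟨hcon.1, Finset.sdiff_eq_empty_iff_subset.1 hcon.2⟩
    have hDA : ∀ x ∈ D, x ∉ A := fun x hx => (mem_sdiff.1 (mem_sdiff.1 (hDJ hx)).1).2
    have hDI : ∀ x ∈ D, x ∉ I := fun x hx => (mem_sdiff.1 (hDJ hx)).2
    have hDJ' : ∀ x ∈ D, x ∈ J := fun x hx => (mem_sdiff.1 (mem_sdiff.1 (hDJ hx)).1).1
    have hoJ : o ∉ J := Finset.notMem_erase o univ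
    have hBmem : ∀ x, x ∈ B ↔ x ∈ D ∨ (x ∈ I ∧ x ∉ A) := by
      intro x; rw [hB, mem_union, mem_sdiff]
    have hCmem : ∀ x, x ∈ C ↔ ((x ∈ J ∧ x ∉ A) ∧ x ∉ I) ∧ x ∉ D := by
      intro x; rw [hC, mem_sdiff, mem_sdiff, mem_sdiff]
    have hoB : o ∉ B := by
      rw [hBmem]
      rintro (hx | hx)
      · exact hoJ (hDJ' _ hx)
      · exact hoJ (hIJ hx.1)
    have hoC : o ∉ C := by
      rw [hCmem]; tauto
    have hAB : Disjoint A B := by
      rw [Finset.disjoint_left]
      intro x hx hx'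
      rw [hBmem] at hx'
      rcases hx' with hx' | hx'
      · exact hDA x hx' hx
      · exact hx'.2 hx
    have hAC : Disjoint A C := by
      rw [Finset.disjoint_left]
      intro x hx hx'
      rw [hCmem] at hx'
      exact hx'.1.1.2 hx
    have hBC : Disjoint B C := by
      rw [Finset.disjoint_left]
      intro x hx hx'
      rw [hBmem] at hx
      rw [hCmem] at hx'
      tauto
    have hABset : A ∪ B = A ∪ D ∪ I := by
      ext x
      rw [mem_union, hBmem, mem_union, mem_union]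
      tauto
    have hJset : A ∪ B ∪ C = J := by
      ext x
      rw [mem_union, mem_union, hBmem, hCmem]
      constructor
      · rintro ((hx | hx | hx) | hx)
        · exact hAJ hx
        · exact hDJ' x hx
        · exact hIJ hx.1
        · exact hx.1.1.1
      · intro hx; tauto
    have huniv : A ∪ ({o} ∪ (B ∪ C)) = univ := by
      ext x
      simp only [mem_univ, iff_true]
      by_cases hx : x = o
      · subst hx; simp
      · have : x ∈ A ∪ B ∪ C := by rw [hJset, hJ]; simp [hx]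
        simp only [mem_union, mem_singleton] at this ⊢
        tauto
    have hcardJ : A.card + B.card + C.card = J.card := by
      have hd : Disjoint (A ∪ B) C := by
        rw [Finset.disjoint_union_left]
        exact ⟨hAC, hBC⟩
      rw [← hJset, Finset.card_union_of_disjoint hd, Finset.card_union_of_disjoint hAB]
    set ρ : (ι → ℕ) → Om ι L → ℝ := fun s => CE w (lv L A s) (Y ⟨I, D⟩ s) with hρ
    have hY_congr : ∀ s s', (∀ c ∈ A ∪ B, s c = s' c) → Y ⟨I, D⟩ s = Y ⟨I, D⟩ s' := by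
      intro s s' hss
      funext ω
      simp only [hY]
      rw [hABset] at hss
      rw [em_congr (fun c hc => hss c (mem_union_left _ (mem_union_left _
        (Finset.sdiff_subset hc)))), hh_congr w (fun c hc => hss c (by
          rcases mem_union.1 hc with hc | hc
          · exact mem_union_left _ (mem_union_right _ hc)
          · exact mem_union_right _ hc))]
    have hρdep : Dep (A ∪ B) ρ := by
      intro s s' hss
      simp only [hρ]
      rw [hY_congr s s' hss, lv_congr (fun c hc => hss c (mem_union_left _ hc))]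
    have hYB : ∀ s ω, |Y ⟨I, D⟩ s ω| ≤ 4 ^ (Fintype.card ι * Fintype.card ι + Fintype.card ι) := by
      intro s ω
      simp only [hY]
      rw [abs_mul]
      have h1 : |em w (A \ I) s ω| ≤ 4 ^ Fintype.card ι := by
        calc _ ≤ (2 : ℝ) ^ (A \ I).card := abs_em_le hw _ _ _
          _ ≤ 2 ^ Fintype.card ι := pow_le_pow_right₀ (by norm_num) (Finset.card_le_univ _)
          _ ≤ 4 ^ Fintype.card ι := pow_le_pow_left₀ (by norm_num) (by norm_num) _
      have h2 := abs_hh_le hw D I s ω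
      rw [pow_add, mul_comm ((4 : ℝ) ^ (Fintype.card ι * Fintype.card ι))]
      exact mul_le_mul h1 h2 (abs_nonneg _) (by positivity)
    have hgdep : Dep (insert o A) g := by
      intro s s' hss
      simp only [hg]
      rw [hss o (mem_insert_self o A), lv_congr (fun c hc => hss c (mem_insert_of_mem hc))]
    have hgE : ∀ z : ι → ℕ, Ex w (ind (fun ω => 4 * M ^ 2 * K <
        ∑ s ∈ Bx n {o} z, g s ω ^ 2)) ≤ 2 * Real.exp (-K) := by
      intro z
      refine (Ex_ind_mono hw0 (fun ω hω => ?_)).trans (energy_tail hM hf hw0 h.hKP o (lv L A z))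
      refine lt_of_lt_of_le hω ?_
      rw [sum_Bx_singleton]
      have e1 : ∀ t ∈ range (n + 1), g (Function.update z o t) ω ^ 2 =
          Gv f o (lv L A z) t ω ^ 2 := by
        intro t _
        simp only [hg, Function.update_self]
        rw [lv_congr (s' := z) (fun c hc => by
          rw [Function.update_of_ne (show c ≠ o from fun hco => hoA (hco ▸ hc))])]
      rw [Finset.sum_congr rfl e1]
      exact Finset.sum_le_sum_of_subset_of_nonneg (fun t ht => by
        rw [mem_range] at ht ⊢; have := h.hn; omega) (fun _ _ _ => sq_nonneg _)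
    have hN : ∑ s ∈ Bx n (A ∪ B) z, Ex w (fun ω => ρ s ω ^ 2) ≤
        Cc ι * K ^ ((A ∪ B).card - 1) := by
      have hAD : Disjoint A D := by
        rw [Finset.disjoint_left]; exact fun x hx hx' => hDA x hx' hx
      have hDI' : Disjoint D I := by
        rw [Finset.disjoint_left]; exact hDI
      have := psi_bound h hA hAD hDI' z hz
      rw [hABset]
      exact this
    have key := cross_cs h ha hBne hoA hoB hoC hAB hAC hBC hM.le hgdep
      (fun s ω => abs_Gv_le hf o _ _ ω) hgE hρdep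
      (fun s ω => abs_CE_le hw.pos _ (hYB s) ω) hz hN
    rw [huniv] at key
    have e4 : ∀ s ∈ Bx n univ z, Ex w (fun ω => g s ω * (a s ω * Xp ⟨I, D⟩ s ω)) =
        (-1) ^ D.card * Ex w (fun ω => g s ω * (xm C s ω * a s ω) * ρ s ω) := by
      intro s hs
      have hm2 : Meas (lv L A s) (fun ω => g s ω * (xm C s ω * a s ω)) := by
        refine (hgmeas s hs).mul ((meas_xm (fun c hc => ?_) s).mul (ha.meas_lv A (hsL s hs)))
        rw [lv_of_not_mem (Finset.disjoint_right.1 hAC hc)]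
      have e5 := Ex_mul_CE hw.pos hm2 (Y ⟨I, D⟩ s)
      rw [← Ex_const_mul]
      have e6 : Ex w (fun ω => (-1) ^ D.card * (g s ω * (xm C s ω * a s ω) * ρ s ω)) =
          (-1) ^ D.card * Ex w (fun ω => g s ω * (xm C s ω * a s ω) * Y ⟨I, D⟩ s ω) := by
        rw [Ex_const_mul, ← e5]
      rw [e6, ← Ex_const_mul]
      refine Ex_congr w (fun ω => ?_)
      simp only [hXp]
      ring
    rw [Finset.sum_congr rfl e4, ← Finset.mul_sum, abs_mul, abs_pow, abs_neg, abs_one, one_pow,
      one_mul]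
    refine key.trans ?_
    refine mul_le_mul_of_nonneg_left ?_ hM.le
    have hpc := pow_count (o := o) (n := n) hK1 hBne hAB hcardJ (Finset.card_le_univ C)
    have := Real.sqrt_le_sqrt hpc
    linarith
  calc |∑ p ∈ P.filter (fun p => ¬ (p.2 = ∅ ∧ p.1 ⊆ A)), ∑ s ∈ Bx n univ z,
        Ex w (fun ω => g s ω * (a s ω * Xp p s ω))| ≤
        ∑ p ∈ P.filter (fun p => ¬ (p.2 = ∅ ∧ p.1 ⊆ A)), |∑ s ∈ Bx n univ z,
        Ex w (fun ω => g s ω * (a s ω * Xp p s ω))| := Finset.abs_sum_le_sum_abs _ _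
    _ ≤ ∑ _p ∈ P.filter (fun p => ¬ (p.2 = ∅ ∧ p.1 ⊆ A)),
        M * (2 * Real.sqrt (Th K n o) + 1) := Finset.sum_le_sum hterm
    _ ≤ 4 ^ Fintype.card ι * (M * (2 * Real.sqrt (Th K n o) + 1)) := by
        rw [Finset.sum_const, nsmul_eq_mul]
        refine mul_le_mul_of_nonneg_right ?_ (by positivity)
        refine le_trans ?_ (card_pairs J A)
        exact_mod_cast Finset.card_filter_le _ _

end DK
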