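import Mathlib

/-!
# Box discrepancy in dimension `k`: definitions and the basic calculus

`Om ι L = ι → Fin L → Bool` : digits of the coordinates (one digit string for each `c : ι`).
`rel v` : agreement of the first `v c` digits in coordinate `c`.
`Ex w` : expectation for the weight `w`;  `CE w v` : conditional expectation given the first digits.
-/

namespace DK

open Finset

/-- the digit cube -/
abbrev Om (ι : Type) (L : ℕ) := ι → Fin L → Bool

variable {ι : Type} [Fintype ι] [DecidableEq ι] {L : ℕ}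

/-- the sign of digit `i` of coordinate `c` (value `1` when `i ≥ L`) -/
def dg (c : ι) (i : ℕ) (ω : Om ι L) : ℝ :=
  if h : i < L then (if ω c ⟨i, h⟩ then 1 else -1) else 1

/-- agreement of the first `v c` digits in coordinate `c`, for all `c` -/
def rel (v : ι → ℕ) (ω ω' : Om ι L) : Prop :=
  ∀ c, ∀ i : Fin L, (i : ℕ) < v c → ω c i = ω' c i

instance (v : ι → ℕ) (ω ω' : Om ι L) : Decidable (rel v ω ω') := by
  unfold rel; infer_instance

/-- `g` depends only on the first `v c` digits of coordinate `c` -/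
def Meas {X : Type} (v : ι → ℕ) (g : Om ι L → X) : Prop := ∀ ω ω', rel v ω ω' → g ω = g ω'

/-- expectation -/
def Ex (w g : Om ι L → ℝ) : ℝ := ∑ ω, w ω * g ω

/-- conditional expectation -/
noncomputable def CE (w : Om ι L → ℝ) (v : ι → ℕ) (g : Om ι L → ℝ) (ω : Om ι L) : ℝ :=
  (∑ ω' ∈ univ.filter (fun ω' => rel v ω ω'), w ω' * g ω') /
    (∑ ω' ∈ univ.filter (fun ω' => rel v ω ω'), w ω')

/-- the uniform weight -/
noncomputable def Pw (ι : Type) [Fintype ι] (L : ℕ) : Om ι L → ℝ :=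
  fun _ => ((2 : ℝ) ^ (Fintype.card ι * L))⁻¹

/-- a positive probability weight -/
structure IsPr (w : Om ι L → ℝ) : Prop where
  pos : ∀ ω, 0 < w ω
  one : ∑ ω, w ω = 1

/-- indicator of an event -/
noncomputable def ind (E : Om ι L → Prop) (ω : Om ι L) : ℝ := open Classical in if E ω then 1 else 0

/-- level vector: `s c` for `c ∈ A`, full (`L`) otherwise -/
def lv (L : ℕ) (A : Finset ι) (s : ι → ℕ) : ι → ℕ := fun c => if c ∈ A then s c else L

/-- level vector: full in all coordinates but `c`, where it is `t` -/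
def vc (L : ℕ) (c : ι) (t : ℕ) : ι → ℕ := Function.update (fun _ => L) c t

/-- bias of digit `t` of coordinate `c` -/
noncomputable def bb (w : Om ι L → ℝ) (c : ι) (t : ℕ) (ω : Om ι L) : ℝ :=
  CE w (vc L c t) (dg c t) ω

/-- sum of the squares of the biases -/
noncomputable def nbb (w : Om ι L → ℝ) (c : ι) (ω : Om ι L) : ℝ :=
  ∑ t ∈ range L, (bb w c t ω) ^ 2

/-- centred digit -/
noncomputable def et (w : Om ι L → ℝ) (c : ι) (t : ℕ) (ω : Om ι L) : ℝ := dg c t ω - bb w c t ω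

/-- products of digits, of biases and of centred digits at the positions `s` -/
noncomputable def xm (C : Finset ι) (s : ι → ℕ) (ω : Om ι L) : ℝ := ∏ c ∈ C, dg c (s c) ω
noncomputable def bm (w : Om ι L → ℝ) (C : Finset ι) (s : ι → ℕ) (ω : Om ι L) : ℝ :=
  ∏ c ∈ C, bb w c (s c) ω
noncomputable def em (w : Om ι L → ℝ) (C : Finset ι) (s : ι → ℕ) (ω : Om ι L) : ℝ :=
  ∏ c ∈ C, et w c (s c) ω

/-- the Wick corrections: `cw ∅ = 1`, `cw I = - CE_I (∑_{I' ⊊ I} em (I \ I') cw I')` -/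
noncomputable def cw (w : Om ι L → ℝ) (s : ι → ℕ) (I : Finset ι) (ω : Om ι L) : ℝ :=
  if I = ∅ then 1 else
    - CE w (lv L I s) (fun ω => ∑ I' ∈ I.ssubsets.attach, em w (I \ I'.1) s ω * cw w s I'.1 ω) ω
termination_by I.card
decreasing_by exact Finset.card_lt_card (Finset.mem_ssubsets.1 I'.2)

/-- the test functions -/
noncomputable def phi (w : Om ι L → ℝ) (J : Finset ι) (s : ι → ℕ) (ω : Om ι L) : ℝ :=
  ∑ I ∈ J.powerset, em w (J \ I) s ω * cw w s I ω

/-- positions equal to `z` outside `C` and at most `n` on `C` -/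
def Bx (n : ℕ) (C : Finset ι) (z : ι → ℕ) : Finset (ι → ℕ) :=
  Fintype.piFinset (fun c => if c ∈ C then range (n + 1) else {z c})

/-- `F` depends only on the coordinates in `Q` -/
def Dep {X : Type} (Q : Finset ι) (F : (ι → ℕ) → X) : Prop :=
  ∀ s s', (∀ c ∈ Q, s c = s' c) → F s = F s'

/-- bilinear form bound: operator norm squared at most `b` -/
def OpLe {α β : Type} [Fintype α] [Fintype β] (M : Matrix α β ℝ) (b : ℝ) : Prop :=
  ∀ (u : α → ℝ) (v : β → ℝ),
    (∑ i, ∑ j, u i * M i j * v j) ^ 2 ≤ b * (∑ i, u i ^ 2) * (∑ j, v j ^ 2)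

/-- `E_P[y_l f | levels v, y_{<l}]` for the tilt coordinate `o` -/
noncomputable def Gv (f : Om ι L → ℝ) (o : ι) (v : ι → ℕ) (l : ℕ) (ω : Om ι L) : ℝ :=
  CE (Pw ι L) (Function.update v o l) (fun ω' => dg o l ω' * f ω') ω

/-- `G_l` -/
noncomputable def Gf (f : Om ι L → ℝ) (o : ι) (l : ℕ) (ω : Om ι L) : ℝ := Gv f o (fun _ => L) l ω

/-- `T_l = tanh(λ G_l)` -/
noncomputable def Tt (lam : ℝ) (f : Om ι L → ℝ) (o : ι) (l : ℕ) (ω : Om ι L) : ℝ :=
  Real.tanh (lam * Gf f o l ω)

/-- partial products of the density -/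
noncomputable def rho (lam : ℝ) (f : Om ι L → ℝ) (o : ι) (k : ℕ) (ω : Om ι L) : ℝ :=
  ∏ l ∈ range k, (1 + Tt lam f o l ω * dg o l ω)

/-- the tilted probability weight -/
noncomputable def Psi (lam : ℝ) (f : Om ι L → ℝ) (o : ι) (ω : Om ι L) : ℝ :=
  Pw ι L ω * rho lam f o L ω

/-- `u_s` -/
noncomputable def uu (c : ι) (s : ℕ) (ω : Om ι L) : ℝ :=
  ∑ i ∈ Ico s L, dg c i ω * (1 / 2 : ℝ) ^ (i - s + 2)

/-- value of the first `s` digits of coordinate `c` (as a number in `[0,1)`) -/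
noncomputable def av (c : ι) (s : ℕ) (ω : Om ι L) : ℝ :=
  ∑ i ∈ range s, (1 + dg c i ω) * (1 / 2 : ℝ) ^ (i + 2)

/-- the point `p` lies in the dyadic box of `ω` at level `v` -/
def inBox (v : ι → ℕ) (ω : Om ι L) (p : ι → ℝ) : Prop :=
  ∀ c, av c (v c) ω ≤ p c ∧ p c < av c (v c) ω + (1 / 2 : ℝ) ^ (v c)

/-- half open discrepancy at `α` -/
noncomputable def Dm {N : ℕ} (u : Fin N → ι → ℝ) (α : ι → ℝ) : ℝ :=
  ((univ.filter (fun i : Fin N => ∀ c, u i c < α c)).card : ℝ) - N * ∏ c, α c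

/-- the discrepancy at the left endpoints -/
noncomputable def fD {N : ℕ} (u : Fin N → ι → ℝ) (ω : Om ι L) : ℝ :=
  Dm u (fun c => av c L ω)

/-- indicator that the box of `ω` at level `s` contains no point -/
noncomputable def ee {N : ℕ} (u : Fin N → ι → ℝ) (s : ι → ℕ) (ω : Om ι L) : ℝ :=
  open Classical in if ∃ i, inBox s ω (u i) then 0 else 1

end DK
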