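import Pool.Agent.Work.MP_d500f7_co.K.Defs

/-! J7: from the closed to the half-open discrepancy. -/

namespace DK

open Finset Filter Topology

variable {ι : Type} [Fintype ι] [DecidableEq ι] {L : ℕ}

theorem Dm_bound {N : ℕ} {u : Fin N → ι → ℝ} (hu : ∀ i c, 0 ≤ u i c ∧ u i c < 1) {M : ℝ}
    (hM : ∀ α : ι → ℝ, (∀ c, 0 ≤ α c ∧ α c < 1) →
      |((univ.filter (fun i : Fin N => ∀ c, u i c ≤ α c)).card : ℝ) - N * ∏ c, α c| ≤ M) :
    ∀ α : ι → ℝ, (∀ c, 0 ≤ α c ∧ α c ≤ 1) → |Dm u α| ≤ M := by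
  intro α hα
  have hM0 : 0 ≤ M := (abs_nonneg _).trans (hM (fun _ => 0) (fun _ => ⟨le_rfl, one_pos⟩))
  by_cases hz : ∃ c, α c = 0
  · obtain ⟨c, hc⟩ := hz
    have h1 : (univ.filter (fun i : Fin N => ∀ c, u i c < α c)) = ∅ := by
      rw [Finset.filter_eq_empty_iff]
      intro i _ h
      have := h c
      rw [hc] at this
      exact absurd (hu i c).1 (not_le.2 this)
    have h2 : ∏ c, α c = 0 := Finset.prod_eq_zero (mem_univ c) hc
    unfold Dm
    rw [h1, h2]
    simpa using hM0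
  · push Not at hz
    have hpos : ∀ c, 0 < α c := fun c => lt_of_le_of_ne (hα c).1 (Ne.symm (hz c))
    -- eventually the closed boxes at `(1 - ε) α` contain the same points
    have hev : ∀ᶠ ε : ℝ in 𝓝[>] (0 : ℝ), ∀ i : Fin N, ∀ c : ι,
        (u i c ≤ (1 - ε) * α c ↔ u i c < α c) := by
      rw [eventually_all]
      intro i
      rw [eventually_all]
      intro c
      by_cases h : u i c < α c
      · have h1 : Tendsto (fun ε : ℝ => (1 - ε) * α c) (𝓝[>] (0 : ℝ)) (𝓝 (α c)) := by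
          have : Tendsto (fun ε : ℝ => (1 - ε) * α c) (𝓝 (0 : ℝ)) (𝓝 ((1 - 0) * α c)) :=
            (Continuous.tendsto (by fun_prop) 0)
          rw [sub_zero, one_mul] at this
          exact this.mono_left nhdsWithin_le_nhds
        filter_upwards [h1.eventually (lt_mem_nhds h)] with ε hε
        exact ⟨fun _ => h, fun _ => hε.le⟩
      · filter_upwards [self_mem_nhdsWithin] with ε hε
        have hε' : (0 : ℝ) < ε := hε
        constructor
        · intro h2
          have h3 := hpos c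
          exfalso
          apply h
          nlinarith
        · intro h2
          exact absurd h2 h
    have hlt : ∀ᶠ ε : ℝ in 𝓝[>] (0 : ℝ), ε < 1 :=
      nhdsWithin_le_nhds (gt_mem_nhds one_pos)
    have hbd : ∀ᶠ ε : ℝ in 𝓝[>] (0 : ℝ),
        |((univ.filter (fun i : Fin N => ∀ c, u i c < α c)).card : ℝ)
          - N * ((1 - ε) ^ (univ : Finset ι).card * ∏ c, α c)| ≤ M := by
      filter_upwards [hev, hlt, self_mem_nhdsWithin] with ε h1 h2 h3
      have h3' : (0 : ℝ) < ε := h3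
      have h4 := hM (fun c => (1 - ε) * α c) (fun c => ⟨mul_nonneg (by linarith) (hα c).1, by
        have := hpos c
        have := (hα c).2
        nlinarith⟩)
      have h5 : (univ.filter (fun i : Fin N => ∀ c, u i c ≤ (1 - ε) * α c)) =
          (univ.filter (fun i : Fin N => ∀ c, u i c < α c)) := by
        ext i
        rw [mem_filter, mem_filter]
        exact ⟨fun h => ⟨h.1, fun c => (h1 i c).1 (h.2 c)⟩, fun h => ⟨h.1, fun c => (h1 i c).2 (h.2 c)⟩⟩
      have h6 : ∏ c, (1 - ε) * α c = (1 - ε) ^ (univ : Finset ι).card * ∏ c, α c := by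
        rw [Finset.prod_mul_distrib, Finset.prod_const]
      rw [h5, h6] at h4
      exact h4
    have hlim : Tendsto (fun ε : ℝ => |((univ.filter (fun i : Fin N => ∀ c, u i c < α c)).card : ℝ)
          - N * ((1 - ε) ^ (univ : Finset ι).card * ∏ c, α c)|) (𝓝[>] (0 : ℝ)) (𝓝 |Dm u α|) := by
      have h7 : Tendsto (fun ε : ℝ => |((univ.filter (fun i : Fin N => ∀ c, u i c < α c)).card : ℝ)
          - N * ((1 - ε) ^ (univ : Finset ι).card * ∏ c, α c)|) (𝓝 (0 : ℝ))
          (𝓝 |((univ.filter (fun i : Fin N => ∀ c, u i c < α c)).card : ℝ)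
          - N * ((1 - 0) ^ (univ : Finset ι).card * ∏ c, α c)|) := Continuous.tendsto (by fun_prop) 0
      rw [sub_zero, one_pow, one_mul] at h7
      exact h7.mono_left nhdsWithin_le_nhds
    exact le_of_tendsto hlim hbd

theorem half_le [Nonempty ι] {N : ℕ} (hN : 0 < N) {u : Fin N → ι → ℝ}
    (hu : ∀ i c, 0 ≤ u i c ∧ u i c < 1) {M : ℝ}
    (hM : ∀ α : ι → ℝ, (∀ c, 0 ≤ α c ∧ α c < 1) →
      |((univ.filter (fun i : Fin N => ∀ c, u i c ≤ α c)).card : ℝ) - N * ∏ c, α c| ≤ M) :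
    1 / 2 ≤ M := by
  set p : ι → ℝ := u ⟨0, hN⟩ with hp
  have h1 := hM p (fun c => hu _ c)
  have h2 := Dm_bound hu hM p (fun c => ⟨(hu _ c).1, (hu _ c).2.le⟩)
  unfold Dm at h2
  have h3 : (univ.filter (fun i : Fin N => ∀ c, u i c < p c)).card + 1 ≤
      (univ.filter (fun i : Fin N => ∀ c, u i c ≤ p c)).card := by
    apply Nat.succ_le_of_lt
    apply Finset.card_lt_card
    rw [Finset.ssubset_iff_of_subset]
    · refine ⟨⟨0, hN⟩, ?_, ?_⟩
      · rw [mem_filter]
        exact ⟨mem_univ _, fun c => le_rfl⟩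
      · rw [mem_filter]
        rintro ⟨_, h⟩
        exact lt_irrefl _ (h (Classical.arbitrary ι))
    · intro i hi
      rw [mem_filter] at hi ⊢
      exact ⟨hi.1, fun c => (hi.2 c).le⟩
  have h4 : (((univ.filter (fun i : Fin N => ∀ c, u i c < p c)).card : ℝ)) + 1 ≤
      ((univ.filter (fun i : Fin N => ∀ c, u i c ≤ p c)).card : ℝ) := by exact_mod_cast h3
  have h5 := (abs_le.1 h1).2
  have h6 := (abs_le.1 h2).1
  linarith

end DK
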