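import Pool.Agent.Work.MP_d500f7_co.K.Asm
import Pool.Agent.Work.MP_d500f7_co.K.Limit

/-! # Conclusion -/

namespace DK

open Finset Filter

variable {ι : Type} [Fintype ι] [DecidableEq ι]

/-- the error terms of the signal are negligible -/
lemma Er_small {o : ι} (hj : 1 ≤ (univ.erase o).card) {n : ℕ} (hn : 1 ≤ n) {K y ε J : ℝ}
    (hy : 0 ≤ y) (hyn : y ^ 8 = n) (hK0 : 0 ≤ K) (hK : K ≤ y ^ 4) (hε : 0 ≤ ε) (hJ0 : 0 ≤ J)
    (hJ : J ≤ y) (hbig : Cc ι * 4 ^ Fintype.card ι ≤ ε ^ 2 * y ^ 2) :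
    J * Er K n o ≤ ε * (n : ℝ) ^ (univ.erase o).card := by
  set j := (univ.erase o).card with hjdef
  have hk := card_erase_o o
  rw [← hjdef] at hk
  have hCc := Cc_pos (ι := ι)
  have h1 : ((n : ℝ) + 1) ^ (2 * j - 1) ≤ 2 ^ (2 * Fintype.card ι) * (n : ℝ) ^ (2 * j - 1) :=
    n_add_le hn _ _ (by omega)
  have h2 : (J * Er K n o) ^ 2 ≤ (ε * (n : ℝ) ^ j) ^ 2 := by
    unfold Er
    rw [mul_pow, Real.sq_sqrt (by positivity), ← hjdef]
    have e4 : (2 : ℝ) ^ (2 * Fintype.card ι) = 4 ^ Fintype.card ι := by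
      rw [pow_mul]; norm_num
    rw [e4] at h1
    have e1 : y ^ 2 * (Cc ι * (y ^ 4 * (4 ^ Fintype.card ι * (n : ℝ) ^ (2 * j - 1)))) =
        (Cc ι * 4 ^ Fintype.card ι) * (y ^ 6 * y ^ (8 * (2 * j - 1))) := by
      rw [← hyn, ← pow_mul]; ring
    have e2 : (ε * (n : ℝ) ^ j) ^ 2 = (ε ^ 2 * y ^ 2) * (y ^ 6 * y ^ (8 * (2 * j - 1))) := by
      rw [mul_pow, ← hyn, ← pow_mul, ← pow_mul]
      have : y ^ (8 * (j * 2)) = y ^ 2 * (y ^ 6 * y ^ (8 * (2 * j - 1))) := by
        rw [← pow_add, ← pow_add]; congr 1; omega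
      rw [this]; ring
    calc J ^ 2 * (Cc ι * (K * ((n : ℝ) + 1) ^ (2 * j - 1))) ≤
        y ^ 2 * (Cc ι * (y ^ 4 * (4 ^ Fintype.card ι * (n : ℝ) ^ (2 * j - 1)))) := by gcongr
      _ = (Cc ι * 4 ^ Fintype.card ι) * (y ^ 6 * y ^ (8 * (2 * j - 1))) := e1
      _ ≤ (ε ^ 2 * y ^ 2) * (y ^ 6 * y ^ (8 * (2 * j - 1))) := by gcongr
      _ = _ := e2.symm
  exact le_of_sq_le_sq h2 (by positivity)

/-- the parameters exist -/
theorem asm_main {o c1 : ι} (hc1 : c1 ≠ o) : ∃ c : ℝ, 0 < c ∧ ∃ n0 : ℕ, ∀ N n : ℕ, n0 ≤ n →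
    (16 : ℝ) * N ≤ 2 ^ n → (2 : ℝ) ^ n ≤ 32 * N → ∀ u : Fin N → ι → ℝ,
    (∀ i c, 0 ≤ u i c ∧ u i c < 1) → ∀ M' : ℝ,
    (∀ α : ι → ℝ, (∀ c, 0 ≤ α c ∧ α c ≤ 1) → |Dm u α| ≤ M') →
    c * Real.sqrt ((n : ℝ) ^ (univ.erase o).card * (n : ℝ) ^ (1 / (Fintype.card ι : ℝ))) < M' := by
  classical
  have : Nonempty ι := ⟨o⟩
  set k := Fintype.card ι with hkdef
  set j := (univ.erase o).card with hjdef
  have hk : j + 1 = k := card_erase_o o
  have hj : 1 ≤ j := Finset.card_pos.2 ⟨c1, by rw [mem_erase]; exact ⟨hc1, mem_univ _⟩⟩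
  have hk2 : 2 ≤ k := by omega
  have hk0 : k ≠ 0 := by omega
  have hjr : (1 : ℝ) ≤ j := by exact_mod_cast hj
  -- constants
  set β : ℝ := 7 / 8 * (1 / 8 : ℝ) ^ j * (1 / (4 * j)) ^ j with hβ
  have hβ0 : 0 < β := by positivity
  set τ : ℝ := β / 2048 with hτ
  have hτ0 : 0 < τ := by positivity
  set D : ℝ := CA ι * (42 / τ) + CB ι + 1 with hD
  have hCA := CA_nonneg (ι := ι)
  have hCB := CB_nonneg (ι := ι)
  have hD0 : 1 ≤ D := by
    rw [hD]
    have : 0 ≤ CA ι * (42 / τ) := by positivity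
    linarith
  set c : ℝ := min 1 (β / (1024 * D)) with hc
  have hc0 : 0 < c := lt_min one_pos (by positivity)
  have hc1' : c ≤ 1 := min_le_left _ _
  have hcD : c * D ≤ β / 1024 := by
    have : c ≤ β / (1024 * D) := min_le_right _ _
    calc c * D ≤ β / (1024 * D) * D := by gcongr
      _ = β / 1024 := by field_simp
  refine ⟨c, hc0, ?_⟩
  -- the eventual conditions
  have hCc := Cc_pos (ι := ι)
  have ev1 := (tendsto_root (show (0 : ℝ) < 1 / (k : ℝ) by positivity)).eventually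
    (eventually_ge_atTop (42 : ℝ))
  have ev2 := ev_hE hk0 (8 * (k * k) + 8) (20 * k + 20)
  have ev3 := ev_jz k (2 * 4 ^ k)
  have ev4 := (tendsto_root (show (0 : ℝ) < 1 / 8 by norm_num)).eventually
    (eventually_ge_atTop (1 + Cc ι * 4 ^ k / (β / 2) ^ 2))
  have ev5 := eventually_ge_atTop (4 * j + k + 4)
  obtain ⟨n0, hn0⟩ := eventually_atTop.1 (ev1.and (ev2.and (ev3.and (ev4.and ev5))))
  refine ⟨n0, ?_⟩
  intro N n hnn hN1 hN2 u hu M' hM'
  obtain ⟨h1, h2, h3, h4, h5⟩ := hn0 n hnn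
  by_contra hcon
  rw [not_lt] at hcon
  set X : ℝ := (n : ℝ) ^ (1 / (k : ℝ)) with hXdef
  set y : ℝ := (n : ℝ) ^ (1 / 8 : ℝ) with hydef
  have hn1 : 1 ≤ n := by omega
  have hnr : (1 : ℝ) ≤ n := by exact_mod_cast hn1
  have hX : X ^ k = n := by
    rw [hXdef, ← Real.rpow_natCast, ← Real.rpow_mul (Nat.cast_nonneg n), one_div,
      inv_mul_cancel₀ (by exact_mod_cast hk0), Real.rpow_one]
  have hy : y ^ 8 = n := by
    rw [hydef, ← Real.rpow_natCast, ← Real.rpow_mul (Nat.cast_nonneg n)]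
    norm_num
  have hy0 : 0 ≤ y := by positivity
  have hXy : X ≤ y ^ 4 := by
    rw [hXdef, hydef, ← Real.rpow_natCast, ← Real.rpow_mul (Nat.cast_nonneg n)]
    apply Real.rpow_le_rpow_of_exponent_le hnr
    have : (2 : ℝ) ≤ k := by exact_mod_cast hk2
    rw [div_le_iff₀ (by positivity)]
    push_cast
    linarith
  set P : ℝ := (n : ℝ) ^ j with hP
  have hP0 : 0 < P := by positivity
  set M : ℝ := c * Real.sqrt (P * X) with hMdef
  have hX0 : 0 < X := by linarith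
  have hM0 : 0 < M := by positivity
  have hM : ∀ α : ι → ℝ, (∀ c, 0 ≤ α c ∧ α c ≤ 1) → |Dm u α| ≤ M :=
    fun α hα => (hM' α hα).trans hcon
  set K : ℝ := X / 42 with hK
  have hK1 : 1 ≤ K := by rw [hK, le_div_iff₀ (by norm_num)]; linarith
  have hK0 : 0 ≤ K := by linarith
  have hKX : K ≤ X := by rw [hK, div_le_iff₀ (by norm_num)]; linarith
  have hXn : X ≤ n := by
    calc X = X ^ 1 := (pow_one X).symm
      _ ≤ X ^ k := pow_le_pow_right₀ (by linarith) (by omega)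
      _ = n := hX
  set lam : ℝ := K / (2 * M) with hlam
  have hlam0 : 0 < lam := by positivity
  set th : ℝ := τ * P / M with hth
  have hth0 : 0 < th := by positivity
  -- the context
  have hctx : Ctx (Psi (L := n + 2) lam (fD u) o) K n := by
    refine ⟨Psi_isPr lam _, hK1, fun ω => ?_, rfl, ?_, ?_, ?_⟩
    · have h6 := Psi_le (o := o) (f := fD (L := n + 2) u) (M := M) (lam := lam)
        (fun ω => fD_bound hM ω) hlam0.le ω
      have e : 2 * lam * M = K := by rw [hlam]; field_simp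
      rwa [e] at h6
    · rw [← hkdef]; omega
    · push_cast
      have : 42 * K = X := by rw [hK]; ring
      rw [this]; linarith
    · rw [← hkdef]; exact h2
  -- the level `j0`
  have hj0 : 16 * (2 ^ k * M) ≤ (2 : ℝ) ^ (jz k n) := by
    have h6 : M ≤ (n : ℝ) ^ k := by
      have h7 : Real.sqrt (P * X) ≤ (n : ℝ) ^ k := by
        apply Real.sqrt_le_iff.2
        refine ⟨by positivity, ?_⟩
        calc P * X ≤ (n : ℝ) ^ j * n := by gcongr
          _ = (n : ℝ) ^ k := by rw [← pow_succ, hk]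
          _ ≤ ((n : ℝ) ^ k) ^ 2 := by
            rw [← pow_mul]; exact pow_le_pow_right₀ hnr (by omega)
      calc M ≤ 1 * Real.sqrt (P * X) := by rw [hMdef]; gcongr
        _ ≤ _ := by rw [one_mul]; exact h7
    have h8 : (16 : ℝ) * (2 ^ k * (n : ℝ) ^ k) ≤ 2 ^ (jz k n) := by exact_mod_cast jz_pow k n
    refine le_trans ?_ h8
    gcongr
  have hmain := core_ineq hu hM0 hM hc1 hlam0 hth0 hctx hN1 hj0
  have hrhs := Rhs_le hj hn1 h1 hX hc0 hτ0 (M := M) rfl
  rw [← hjdef, ← hP, ← hK, ← hlam, ← hth] at hrhs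
  rw [← hjdef] at hmain
  -- the right side is small
  have hR : 2 * τ + CA ι * (42 * c ^ 2 / τ) + CB ι * c ≤ β / 512 := by
    have h6 : c ^ 2 ≤ c := by rw [pow_two]; exact mul_le_of_le_one_left hc0.le hc1'
    have h7 : CA ι * (42 * c ^ 2 / τ) ≤ CA ι * (42 / τ) * c := by
      calc CA ι * (42 * c ^ 2 / τ) = CA ι * (42 / τ) * c ^ 2 := by ring
        _ ≤ _ := by gcongr
    have h8 : CA ι * (42 / τ) * c + CB ι * c ≤ c * D := by
      have e : c * D = CA ι * (42 / τ) * c + CB ι * c + c := by rw [hD]; ring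
      linarith
    have h9 : 2 * τ = β / 1024 := by rw [hτ]; ring
    linarith
  -- the left side is large
  have hEr : (jz k n + 2 * 4 ^ k) * Er K n o ≤ β / 2 * P := by
    refine Er_small hj hn1 hy0 hy hK0 (hKX.trans hXy) (by positivity) (by positivity) h3 ?_
    have h6 : Cc ι * 4 ^ k / (β / 2) ^ 2 ≤ y ^ 2 := by
      have h7 : 0 ≤ Cc ι * 4 ^ k / (β / 2) ^ 2 := by positivity
      have h8 : 1 ≤ y := by linarith
      have h9 : 1 * y ≤ y * y := mul_le_mul_of_nonneg_right h8 hy0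
      have h10 : y ^ 2 = y * y := pow_two y
      linarith
    rw [div_le_iff₀ (by positivity)] at h6
    rw [← hkdef]
    linarith
  have hSc : (1 / (4 * (j : ℝ))) ^ j * P ≤ Sc n (jz k n) c1 (fun _ => 0) := by
    set m := n / (2 * j) with hm
    have h6 : j * m ≤ n / 2 := by
      rw [hm, mul_comm 2 j, ← Nat.div_div_eq_div_mul, Nat.le_div_iff_mul_le (by norm_num)]
      calc j * (n / j / 2) * 2 = j * (n / j / 2 * 2) := by ring
        _ ≤ j * (n / j) := Nat.mul_le_mul_left _ (Nat.div_mul_le_self _ _)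
        _ ≤ n := Nat.mul_div_le n j
    have h7 : (jz k n : ℝ) ≤ n / 2 := by
      have h8 : y ≤ y ^ 4 / 2 := by
        have h9 : (42 : ℝ) ≤ y ^ 4 := h1.trans hXy
        have h10 : 2 ≤ y := by
          by_contra hlt
          rw [not_le] at hlt
          have : y ^ 4 ≤ 2 ^ 4 := pow_le_pow_left₀ hy0 hlt.le 4
          norm_num at this
          linarith
        have h11 : (2 : ℝ) ≤ y ^ 3 := by
          calc (2 : ℝ) ≤ 2 ^ 3 := by norm_num
            _ ≤ y ^ 3 := pow_le_pow_left₀ (by norm_num) h10 3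
        have e : y ^ 4 = y ^ 3 * y := by ring
        have h12 := mul_le_mul_of_nonneg_right h11 hy0
        rw [e, le_div_iff₀ (by norm_num)]
        linarith
      have h12 : y ^ 4 ≤ n := by
        rw [← hy]
        exact pow_le_pow_right₀ (by
          by_contra hlt
          rw [not_le] at hlt
          have : y ^ 8 < 1 := pow_lt_one₀ hy0 hlt (by norm_num)
          rw [hy] at this
          linarith) (by norm_num)
      have h13 : (0 : ℝ) ≤ 2 * 4 ^ k := by positivity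
      linarith
    have h8 : jz k n ≤ n / 2 := by
      rw [Nat.le_div_iff_mul_le (by norm_num)]
      rw [le_div_iff₀ (by norm_num)] at h7
      exact_mod_cast h7
    have h9 : jz k n + j * m ≤ n := by omega
    have h10 := Sc_ge (ι := ι) hc1 (n := n) (j0 := jz k n) (m := m) h9
    rw [← hjdef] at h10
    refine le_trans ?_ h10
    rw [hP, ← mul_pow]
    apply pow_le_pow_left₀ (by positivity)
    have h11 : n < (m + 1) * (2 * j) := by
      rw [hm, mul_comm]; exact Nat.lt_mul_div_succ n (by omega)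
    have h12 : (n : ℝ) < (m + 1) * (2 * j) := by exact_mod_cast h11
    have h13 : (4 * j : ℝ) ≤ n := by exact_mod_cast (by omega : 4 * j ≤ n)
    rw [one_div_mul_eq_div, div_le_iff₀ (by positivity)]
    have e14 : ((m : ℝ) + 1) * (2 * j) = 2 * (m * j) + 2 * j := by ring
    have e15 : (m : ℝ) * (4 * j) = 4 * (m * j) := by ring
    rw [e14] at h12
    rw [e15]
    linarith
  have hL1 : β * P ≤ (1 / 8 : ℝ) ^ j * (7 / 8 * Sc n (jz k n) c1 (fun _ => 0)) := by
    calc β * P = (1 / 8 : ℝ) ^ j * (7 / 8 * ((1 / (4 * j)) ^ j * P)) := by rw [hβ]; ring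
      _ ≤ _ := by gcongr
  have hNN : (1 / 128 : ℝ) ≤ N * (1 / 2 : ℝ) ^ (n + 2) := by
    rw [pow_add, one_div_pow 2 n]
    have h2n : (0 : ℝ) < 2 ^ n := by positivity
    have : (N : ℝ) * (1 / 2 ^ n * (1 / 2) ^ 2) = N / 2 ^ n / 4 := by field_simp; norm_num
    rw [this, le_div_iff₀ (by norm_num), le_div_iff₀ h2n]
    linarith
  have hfin : (1 / 128 : ℝ) * (β / 2 * P) ≤ N * (1 / 2 : ℝ) ^ (n + 2) *
      ((1 / 8 : ℝ) ^ j * (7 / 8 * Sc n (jz k n) c1 (fun _ => 0)) -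
        (jz k n + 2 * 4 ^ k) * Er K n o) := by
    refine mul_le_mul hNN ?_ (by positivity) (by positivity)
    linarith
  have hcontra : (1 / 128 : ℝ) * (β / 2 * P) ≤ β / 512 * P :=
    (hfin.trans hmain).trans (hrhs.trans (mul_le_mul_of_nonneg_right hR hP0.le))
  have hfinal := mul_pos hβ0 hP0
  linarith

end DK
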