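import Pool.Agent.Work.MP_d500f7_co.K.Sums
import Pool.Agent.Work.MP_d500f7_co.K.Azuma

/-! # Iterated matrix Azuma inequality -/

namespace DK

open Finset

variable {ι : Type} [Fintype ι] [DecidableEq ι] {L : ℕ}

lemma OpLe.zero {α β : Type} [Fintype α] [Fintype β] {b : ℝ} (hb : 0 ≤ b) :
    OpLe (0 : Matrix α β ℝ) b := by
  intro u v
  simp only [Matrix.zero_apply, mul_zero, zero_mul, Finset.sum_const_zero]
  rw [zero_pow two_ne_zero]
  exact mul_nonneg (mul_nonneg hb (Finset.sum_nonneg fun _ _ => sq_nonneg _))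
    (Finset.sum_nonneg fun _ _ => sq_nonneg _)

lemma OpLe.mono {α β : Type} [Fintype α] [Fintype β] {M : Matrix α β ℝ} {b b' : ℝ}
    (h : OpLe M b) (hb : b ≤ b') : OpLe M b' := fun u v => (h u v).trans (by
  have h1 : 0 ≤ ∑ i, u i ^ 2 := Finset.sum_nonneg fun _ _ => sq_nonneg _
  have h2 : 0 ≤ ∑ i, v i ^ 2 := Finset.sum_nonneg fun _ _ => sq_nonneg _
  exact mul_le_mul_of_nonneg_right (mul_le_mul_of_nonneg_right hb h1) h2)

/-- the iterated sums `∑_{s_C} x_C(s) F(s)` -/
noncomputable def TT {V : Type} [AddCommMonoid V] [Module ℝ V] (n : ℕ) (C : Finset ι)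
    (F : (ι → ℕ) → Om ι L → V) (z : ι → ℕ) (ω : Om ι L) : V :=
  ∑ s ∈ Bx n C z, xm C s ω • F s ω

lemma TT_empty {V : Type} [AddCommMonoid V] [Module ℝ V] (n : ℕ)
    (F : (ι → ℕ) → Om ι L → V) (z : ι → ℕ) (ω : Om ι L) : TT n ∅ F z ω = F z ω := by
  unfold TT
  rw [sum_Bx_empty, xm_empty, one_smul]

lemma TT_insert {V : Type} [AddCommMonoid V] [Module ℝ V] (n : ℕ) {C : Finset ι} {c : ι}
    (hc : c ∉ C) (F : (ι → ℕ) → Om ι L → V) (z : ι → ℕ) (ω : Om ι L) :
    TT n (insert c C) F z ω =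
      ∑ t ∈ range (n + 1), dg c t ω • TT n C F (Function.update z c t) ω := by
  unfold TT
  rw [sum_Bx_insert n hc]
  refine Finset.sum_congr rfl (fun t _ => ?_)
  rw [Finset.smul_sum]
  refine Finset.sum_congr rfl (fun s hs => ?_)
  have h1 : s c = t := by rw [Bx_eq_off hs hc]; simp
  rw [xm_insert hc, h1, smul_smul]

lemma meas_TT {V : Type} [AddCommMonoid V] [Module ℝ V] {n : ℕ} (hn : n + 1 ≤ L) {C : Finset ι}
    {c : ι} (hc : c ∉ C) {F : (ι → ℕ) → Om ι L → V} {z : ι → ℕ} (hz : ∀ d, z d ≤ L) {t : ℕ}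
    (ht : t < n + 1)
    (hF : ∀ s ∈ Bx n C (Function.update z c t), Meas (lv L (insert c C) s) (F s)) :
    Meas (vc L c t) (TT n C F (Function.update z c t)) := by
  intro a b hab
  unfold TT
  refine Finset.sum_congr rfl (fun s hs => ?_)
  have h1 : s c = t := by rw [Bx_eq_off hs hc]; simp
  have hz' : ∀ d, Function.update z c t d ≤ L := by
    intro d
    by_cases hd : d = c
    · subst hd; simp; omega
    · simp [hd, hz d]
  have hs' : ∀ d, s d ≤ L := Bx_le hs (by omega) hz'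
  have h2 : F s a = F s b := by
    refine (hF s hs).mono ?_ a b hab
    have := lv_le_vc (A := insert c C) (c := c) (mem_insert_self c C) hs'
    rwa [h1] at this
  have h3 : xm C s a = xm C s b := by
    refine meas_xm (v := vc L c t) (C := C) (fun d hd => ?_) s a b hab
    rw [vc_of_ne (show d ≠ c from fun h => hc (h ▸ hd))]
  rw [h2, h3]

lemma update_le {z : ι → ℕ} (hz : ∀ d, z d ≤ L) (c : ι) {t : ℕ} (ht : t ≤ L) :
    ∀ d, Function.update z c t d ≤ L := by
  intro d
  by_cases hd : d = c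
  · subst hd; simp; omega
  · simp [hd, hz d]

theorem ima {α β : Type} [Fintype α] [Fintype β] {n : ℕ} (hn : n + 1 ≤ L) {p : ℕ} (hp : 1 ≤ p)
    (F : (ι → ℕ) → Om ι L → Matrix α β ℝ) (σ : (ι → ℕ) → ℝ) (hσ : ∀ s, 0 ≤ σ s)
    (hop : ∀ s ω, OpLe (F s ω) (σ s)) (C : Finset ι) :
    ∀ z : ι → ℕ, (∀ c, z c ≤ L) → (∀ s ∈ Bx n C z, Meas (lv L C s) (F s)) →
    Ex (Pw ι L) (ind (fun ω => ¬ OpLe (TT n C F z ω)
      ((6 * p) ^ C.card * ∑ s ∈ Bx n C z, σ s))) ≤
      C.card * (n + 1) ^ C.card *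
        ((Fintype.card α + Fintype.card β) * Real.exp (-(p : ℝ))) := by
  set δ : ℝ := (Fintype.card α + Fintype.card β) * Real.exp (-(p : ℝ)) with hδ
  have hδ0 : 0 ≤ δ := by positivity
  have hP : ∀ ω, 0 ≤ Pw ι L ω := fun ω => (Pw_pos ω).le
  induction C using Finset.induction_on with
  | empty =>
    intro z hz hF
    have : ∀ ω, ind (fun ω => ¬ OpLe (TT n ∅ F z ω)
      ((6 * p) ^ (∅ : Finset ι).card * ∑ s ∈ Bx n ∅ z, σ s)) ω = 0 := by
      intro ω
      apply ind_of_not
      rw [not_not, TT_empty, sum_Bx_empty, Finset.card_empty, pow_zero, one_mul]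
      exact hop z ω
    rw [Ex_congr _ this]
    simp [Ex]
  | insert c C hc ih =>
    intro z hz hF
    set zt : ℕ → ι → ℕ := fun t => Function.update z c t with hzt
    set B : ℕ → ℝ := fun t => (6 * p) ^ C.card * ∑ s ∈ Bx n C (zt t), σ s with hB
    have hB0 : ∀ t, 0 ≤ B t := fun t =>
      mul_nonneg (by positivity) (Finset.sum_nonneg fun _ _ => hσ _)
    classical
    set D' : ℕ → Om ι L → Matrix α β ℝ := fun t ω =>
      if OpLe (TT n C F (zt t) ω) (B t) then TT n C F (zt t) ω else 0 with hD'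
    have hsub : ∀ t, t < n + 1 → ∀ s ∈ Bx n C (zt t), s ∈ Bx n (insert c C) z := by
      intro t ht s hs
      rw [mem_Bx] at hs ⊢
      refine ⟨fun d hd => ?_, fun d hd => ?_⟩
      · rcases mem_insert.1 hd with rfl | hd
        · rw [hs.2 d hc]; simp [hzt]; omega
        · exact hs.1 d hd
      · rw [mem_insert, not_or] at hd
        rw [hs.2 d hd.2]; simp [hzt, hd.1]
    have hmeas : ∀ t, t < n + 1 → Meas (vc L c t) (TT n C F (zt t)) := fun t ht =>
      meas_TT hn hc hz ht (fun s hs => hF s (hsub t ht s hs))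
    have hmeas' : ∀ t, t < n + 1 → Meas (vc L c t) (D' t) := fun t ht =>
      (hmeas t ht).compX (fun X => if OpLe X (B t) then X else 0)
    have hop' : ∀ t, t < n + 1 → ∀ ω, OpLe (D' t ω) (B t) := by
      intro t _ ω
      simp only [hD']
      split_ifs with h
      · exact h
      · exact OpLe.zero (hB0 t)
    have key := matrix_azuma c hn D' hmeas' B hB0 hop' hp
    rw [← hδ] at key
    have hsum : 6 * p * ∑ t ∈ range (n + 1), B t =
        (6 * (p : ℝ)) ^ (insert c C).card * ∑ s ∈ Bx n (insert c C) z, σ s := by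
      rw [Finset.card_insert_of_notMem hc, sum_Bx_insert n hc, ← Finset.mul_sum]
      ring
    rw [hsum] at key
    have hzt' : ∀ t, t < n + 1 → ∀ d, zt t d ≤ L := fun t ht => update_le hz c (by omega)
    have ih' : ∀ t ∈ range (n + 1), Ex (Pw ι L) (ind (fun ω => ¬ OpLe (TT n C F (zt t) ω) (B t)))
        ≤ C.card * (n + 1) ^ C.card * δ := by
      intro t ht
      rw [mem_range] at ht
      refine ih (zt t) (hzt' t ht) (fun s hs => ?_)
      refine (hF s (hsub t ht s hs)).mono ?_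
      exact lv_anti (Finset.subset_insert c C) (Bx_le hs (by omega) (hzt' t ht))
    have hev : ∀ ω, ¬ OpLe (TT n (insert c C) F z ω)
        ((6 * (p : ℝ)) ^ (insert c C).card * ∑ s ∈ Bx n (insert c C) z, σ s) →
        (∃ t ∈ range (n + 1), ¬ OpLe (TT n C F (zt t) ω) (B t)) ∨
          ¬ OpLe (∑ t ∈ range (n + 1), dg c t ω • D' t ω)
          ((6 * (p : ℝ)) ^ (insert c C).card * ∑ s ∈ Bx n (insert c C) z, σ s) := by
      intro ω h
      by_contra hcon
      push Not at hcon
      obtain ⟨h1, h2⟩ := hcon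
      apply h
      have e : TT n (insert c C) F z ω = ∑ t ∈ range (n + 1), dg c t ω • D' t ω := by
        rw [TT_insert n hc]
        refine Finset.sum_congr rfl (fun t ht => ?_)
        simp only [hD']
        rw [if_pos (h1 t ht)]
      rw [e]
      exact h2
    calc _ ≤ Ex (Pw ι L) (ind (fun ω => (∃ t ∈ range (n + 1), ¬ OpLe (TT n C F (zt t) ω) (B t)) ∨
          ¬ OpLe (∑ t ∈ range (n + 1), dg c t ω • D' t ω)
          ((6 * (p : ℝ)) ^ (insert c C).card * ∑ s ∈ Bx n (insert c C) z, σ s))) :=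
          Ex_ind_mono hP hev
      _ ≤ Ex (Pw ι L) (fun ω => ∑ t ∈ range (n + 1),
            ind (fun ω => ¬ OpLe (TT n C F (zt t) ω) (B t)) ω +
          ind (fun ω => ¬ OpLe (∑ t ∈ range (n + 1), dg c t ω • D' t ω)
          ((6 * (p : ℝ)) ^ (insert c C).card * ∑ s ∈ Bx n (insert c C) z, σ s)) ω) := by
          refine Ex_mono hP (fun ω => ?_)
          refine (ind_or_le _ _ ω).trans ?_
          exact add_le_add_left (ind_exists_le _ _ ω) _
      _ ≤ ∑ _t ∈ range (n + 1), (C.card * (n + 1) ^ C.card * δ) + δ := by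
          rw [Ex_add, Ex_sum]
          exact add_le_add (Finset.sum_le_sum ih') key
      _ ≤ (insert c C).card * (n + 1) ^ (insert c C).card * δ := by
          rw [Finset.sum_const, Finset.card_range, nsmul_eq_mul,
            Finset.card_insert_of_notMem hc]
          push_cast
          have h1 : (1 : ℝ) ≤ (n + 1 : ℝ) ^ (C.card + 1) :=
            one_le_pow₀ (by linarith [Nat.cast_nonneg (α := ℝ) n])
          have e1 : ((n : ℝ) + 1) * (C.card * (n + 1) ^ C.card * δ) =
              C.card * (n + 1) ^ (C.card + 1) * δ := by ring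
          rw [e1]
          nlinarith [mul_le_mul_of_nonneg_right h1 hδ0]

end DK
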