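import Pool.Agent.Work.MP_d500f7_co.K.Fin

/-! # The lower bound in every dimension -/

namespace DK

open Finset Filter

lemma card_inst {α : Type} (s : Finset α) (p : α → Prop) (h1 h2 : DecidablePred p) :
    (@Finset.filter α p h1 s).card = (@Finset.filter α p h2 s).card := by
  have e : h1 = h2 := Subsingleton.elim _ _
  rw [e]

theorem main (k : ℕ) (hk : 2 ≤ k) : ∃ c : ℝ, 0 < c ∧ ∀ N : ℕ, 2 ≤ N →
    ∀ u : Fin N → Fin k → ℝ, (∀ i c, 0 ≤ u i c ∧ u i c < 1) →
    ∃ α : Fin k → ℝ, (∀ c, 0 ≤ α c ∧ α c < 1) ∧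
      c * (Real.log N) ^ (((k : ℝ) - 1) / 2 + 1 / (2 * k)) ≤
        |((univ.filter (fun i : Fin N => ∀ c, u i c ≤ α c)).card : ℝ) - N * ∏ c, α c| := by
  classical
  have hk0 : 0 < k := by omega
  have : Nonempty (Fin k) := ⟨⟨0, hk0⟩⟩
  set o : Fin k := ⟨0, hk0⟩ with ho
  set c1 : Fin k := ⟨1, by omega⟩ with hc1
  have hne : c1 ≠ o := by
    intro h
    have := congrArg Fin.val h
    simp [ho, hc1] at this
  obtain ⟨c', hc', n0, h0⟩ := asm_main (ι := Fin k) hne
  set e : ℝ := ((k : ℝ) - 1) / 2 + 1 / (2 * k) with he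
  have hkr : (2 : ℝ) ≤ k := by exact_mod_cast hk
  have he0 : 0 ≤ e := by
    rw [he]
    have : 0 ≤ (k : ℝ) - 1 := by linarith
    positivity
  set B : ℝ := (n0 : ℝ) ^ e with hB
  have hB0 : 0 ≤ B := by positivity
  refine ⟨min c' (1 / (4 * (B + 1))), lt_min hc' (by positivity), ?_⟩
  intro N hN u hu
  by_contra hcon
  push Not at hcon
  set c := min c' (1 / (4 * (B + 1))) with hc
  have hc0 : 0 < c := lt_min hc' (by positivity)
  have hNr : (2 : ℝ) ≤ N := by exact_mod_cast hN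
  have hlog : 0 ≤ Real.log N := Real.log_nonneg (by linarith)
  have hM : ∀ α : Fin k → ℝ, (∀ c, 0 ≤ α c ∧ α c < 1) →
      |((univ.filter (fun i : Fin N => ∀ c, u i c ≤ α c)).card : ℝ) - N * ∏ c, α c| ≤
        c * (Real.log N) ^ e := fun α hα => (hcon α hα).le
  have hM2 : ∀ α : Fin k → ℝ, (∀ c, 0 ≤ α c ∧ α c < 1) →
      |((@Finset.filter (Fin N) (fun i : Fin N => ∀ c, u i c ≤ α c)
        (fun i => Fintype.decidableForallFintype) univ).card : ℝ) - N * ∏ c, α c| ≤
        c * (Real.log N) ^ e := by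
    intro α hα
    have h := hM α hα
    rw [card_inst univ _ _ (fun i => Fintype.decidableForallFintype)] at h
    exact h
  set n : ℕ := Nat.log 2 (16 * N) + 1 with hn
  have h1 : 16 * N < 2 ^ n := Nat.lt_pow_succ_log_self (by norm_num) _
  have h2 : 2 ^ n ≤ 32 * N := by
    have := Nat.pow_log_le_self 2 (show 16 * N ≠ 0 by omega)
    rw [hn, pow_succ]
    omega
  have h1r : (16 : ℝ) * N ≤ 2 ^ n := by exact_mod_cast h1.le
  have h2r : (2 : ℝ) ^ n ≤ 32 * N := by exact_mod_cast h2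
  have hlogn : Real.log N ≤ n := by
    have h3 : Real.log N ≤ Real.log (2 ^ n) := Real.log_le_log (by linarith) (by linarith)
    rw [Real.log_pow] at h3
    have h4 : Real.log 2 ≤ 1 := by
      have := Real.log_two_lt_d9; linarith
    have h5 : (0 : ℝ) ≤ n := Nat.cast_nonneg n
    nlinarith
  rcases lt_or_ge n n0 with hsmall | hlarge
  · have h3 := half_le (by omega) hu hM2
    have h4 : (Real.log N) ^ e ≤ B :=
      Real.rpow_le_rpow hlog (hlogn.trans (by exact_mod_cast hsmall.le)) he0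
    have h5 : c * (Real.log N) ^ e ≤ 1 / (4 * (B + 1)) * B := by
      have : c ≤ 1 / (4 * (B + 1)) := min_le_right _ _
      have h6 : 0 ≤ (Real.log N) ^ e := Real.rpow_nonneg hlog e
      gcongr
    have h7 : 1 / (4 * (B + 1)) * B ≤ 1 / 4 := by
      rw [one_div_mul_eq_div, div_le_iff₀ (by positivity)]
      linarith
    linarith
  · have h3 := h0 N n hlarge h1r h2r u hu _ (Dm_bound hu hM2)
    have hcard : (univ.erase o).card = k - 1 := by
      rw [Finset.card_erase_of_mem (mem_univ o), Finset.card_univ, Fintype.card_fin]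
    rw [hcard, Fintype.card_fin] at h3
    have hn0 : (0 : ℝ) ≤ n := Nat.cast_nonneg n
    have h4 : Real.sqrt ((n : ℝ) ^ (k - 1) * (n : ℝ) ^ (1 / (k : ℝ))) = (n : ℝ) ^ e := by
      have h5 : (n : ℝ) ^ (k - 1) = (n : ℝ) ^ ((k : ℝ) - 1) := by
        rw [← Real.rpow_natCast]
        congr 1
        rw [Nat.cast_sub (by omega)]
        simp
      have hnpos : (0 : ℝ) < n := by rw [hn]; positivity
      rw [h5, ← Real.rpow_add hnpos, Real.sqrt_eq_rpow, ← Real.rpow_mul hn0]
      congr 1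
      rw [he]
      field_simp
    rw [h4] at h3
    have h6 : (Real.log N) ^ e ≤ (n : ℝ) ^ e := Real.rpow_le_rpow hlog hlogn he0
    have h7 : c * (Real.log N) ^ e ≤ c' * (n : ℝ) ^ e := by
      have : c ≤ c' := min_le_left _ _
      have h8 : 0 ≤ (Real.log N) ^ e := Real.rpow_nonneg hlog e
      gcongr
    linarith

end DK
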