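import Pool.Agent.Work.MP_d500f7_co.K.Flip

/-! level vectors, products of digits, indicators -/

namespace DK

open Finset

variable {ι : Type} [Fintype ι] [DecidableEq ι] {L : ℕ}

lemma vc_self (c : ι) (s : ℕ) : vc L c s c = s := by simp [vc]

lemma vc_of_ne {c d : ι} (h : d ≠ c) (s : ℕ) : vc L c s d = L := by simp [vc, h]

lemma vc_mono (c : ι) {s s' : ℕ} (h : s ≤ s') : ∀ d, vc L c s d ≤ vc L c s' d := by
  intro d
  unfold vc
  by_cases hd : d = c
  · subst hd; simpa using h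
  · simp [Function.update_of_ne hd]

lemma vc_succ (c : ι) (s : ℕ) :
    Function.update (vc L c s) c (vc L c s c + 1) = vc L c (s + 1) := by
  unfold vc; simp

lemma vc_full (c : ι) : ∀ d, L ≤ vc L c L d := by
  intro d
  unfold vc
  by_cases hd : d = c
  · subst hd; simp
  · simp [Function.update_of_ne hd]

lemma full_le : ∀ c : ι, L ≤ (fun _ => L : ι → ℕ) c := fun _ => le_rfl

lemma lv_of_mem {A : Finset ι} {c : ι} (h : c ∈ A) (s : ι → ℕ) : lv L A s c = s c := by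
  simp [lv, h]

lemma lv_of_not_mem {A : Finset ι} {c : ι} (h : c ∉ A) (s : ι → ℕ) : lv L A s c = L := by
  simp [lv, h]

lemma lv_empty (s : ι → ℕ) : lv L ∅ s = fun _ => L := by
  funext c; simp [lv]

lemma lv_singleton (c : ι) (s : ι → ℕ) : lv L {c} s = vc L c (s c) := by
  funext d
  by_cases h : d = c
  · subst h; simp [lv, vc]
  · simp [lv, vc, h]

lemma lv_anti {A B : Finset ι} (h : A ⊆ B) {s : ι → ℕ} (hs : ∀ c, s c ≤ L) :
    ∀ c, lv L B s c ≤ lv L A s c := by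
  intro c
  by_cases hA : c ∈ A
  · rw [lv_of_mem hA, lv_of_mem (h hA)]
  · rw [lv_of_not_mem hA]
    by_cases hB : c ∈ B
    · rw [lv_of_mem hB]; exact hs c
    · rw [lv_of_not_mem hB]

lemma lv_congr {A : Finset ι} {s s' : ι → ℕ} (h : ∀ c ∈ A, s c = s' c) : lv L A s = lv L A s' := by
  funext c
  by_cases hA : c ∈ A
  · rw [lv_of_mem hA, lv_of_mem hA, h c hA]
  · rw [lv_of_not_mem hA, lv_of_not_mem hA]

lemma lv_le_vc {A : Finset ι} {c : ι} (hc : c ∈ A) {s : ι → ℕ} (hs : ∀ d, s d ≤ L) :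
    ∀ d, lv L A s d ≤ vc L c (s c) d := by
  rw [← lv_singleton]
  exact lv_anti (Finset.singleton_subset_iff.2 hc) hs

lemma update_lv {A : Finset ι} {o : ι} (s : ι → ℕ) (l : ℕ) :
    Function.update (lv L A s) o l = lv L (insert o A) (Function.update s o l) := by
  funext c
  by_cases hc : c = o
  · subst hc; simp [lv]
  · simp [lv, hc]

/-! ### measurability -/

lemma meas_bb (w : Om ι L → ℝ) (c : ι) (t : ℕ) : Meas (vc L c t) (bb w c t) := meas_CE _ _ _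

lemma abs_bb_le {w : Om ι L → ℝ} (hw : IsPr w) (c : ι) (t : ℕ) (ω : Om ι L) :
    |bb w c t ω| ≤ 1 := abs_CE_le hw.pos _ (fun ω => (abs_dg c t ω).le) ω

lemma abs_et_le {w : Om ι L → ℝ} (hw : IsPr w) (c : ι) (t : ℕ) (ω : Om ι L) :
    |et w c t ω| ≤ 2 := by
  unfold et
  calc _ ≤ |dg c t ω| + |bb w c t ω| := abs_sub _ _
    _ ≤ 2 := by rw [abs_dg]; linarith [abs_bb_le hw c t ω]

/-- digits outside a position are measurable at any level vector that is full there -/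
lemma meas_dg_full {v : ι → ℕ} {c : ι} (hc : L ≤ v c) (i : ℕ) : Meas v (dg (L := L) c i) := by
  intro a b hab
  unfold dg
  split_ifs with h1 h2 h3 h3
  · rfl
  · exact absurd (hab c ⟨i, h1⟩ (lt_of_lt_of_le h1 hc) ▸ h2) h3
  · exact absurd ((hab c ⟨i, h1⟩ (lt_of_lt_of_le h1 hc)).symm ▸ h3) h2
  · rfl
  · rfl

lemma meas_xm {v : ι → ℕ} {C : Finset ι} (hC : ∀ c ∈ C, L ≤ v c) (s : ι → ℕ) :
    Meas v (xm (L := L) C s) :=
  Meas.prod C (fun c hc => meas_dg_full (hC c hc) _)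

lemma abs_xm (C : Finset ι) (s : ι → ℕ) (ω : Om ι L) : |xm C s ω| = 1 := by
  unfold xm
  rw [Finset.abs_prod]
  exact Finset.prod_eq_one (fun c _ => abs_dg _ _ _)

lemma xm_sq (C : Finset ι) (s : ι → ℕ) (ω : Om ι L) : xm C s ω ^ 2 = 1 := by
  rw [← sq_abs, abs_xm, one_pow]

lemma xm_empty (s : ι → ℕ) (ω : Om ι L) : xm ∅ s ω = 1 := by simp [xm]

lemma xm_congr {C : Finset ι} {s s' : ι → ℕ} (h : ∀ c ∈ C, s c = s' c) (ω : Om ι L) :
    xm C s ω = xm C s' ω := Finset.prod_congr rfl (fun c hc => by rw [h c hc])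

lemma xm_insert {C : Finset ι} {c : ι} (hc : c ∉ C) (s : ι → ℕ) (ω : Om ι L) :
    xm (insert c C) s ω = dg c (s c) ω * xm C s ω := Finset.prod_insert hc

lemma xm_union {C D : Finset ι} (h : Disjoint C D) (s : ι → ℕ) (ω : Om ι L) :
    xm (C ∪ D) s ω = xm C s ω * xm D s ω := Finset.prod_union h

lemma bm_congr {w : Om ι L → ℝ} {C : Finset ι} {s s' : ι → ℕ} (h : ∀ c ∈ C, s c = s' c)
    (ω : Om ι L) : bm w C s ω = bm w C s' ω := Finset.prod_congr rfl (fun c hc => by rw [h c hc])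

lemma em_congr {w : Om ι L → ℝ} {C : Finset ι} {s s' : ι → ℕ} (h : ∀ c ∈ C, s c = s' c)
    (ω : Om ι L) : em w C s ω = em w C s' ω := Finset.prod_congr rfl (fun c hc => by rw [h c hc])

lemma abs_bm_le {w : Om ι L → ℝ} (hw : IsPr w) (C : Finset ι) (s : ι → ℕ) (ω : Om ι L) :
    |bm w C s ω| ≤ 1 := by
  unfold bm
  rw [Finset.abs_prod]
  exact Finset.prod_le_one (fun c _ => abs_nonneg _) (fun c _ => abs_bb_le hw _ _ _)

lemma abs_em_le {w : Om ι L → ℝ} (hw : IsPr w) (C : Finset ι) (s : ι → ℕ) (ω : Om ι L) :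
    |em w C s ω| ≤ 2 ^ C.card := by
  unfold em
  rw [Finset.abs_prod]
  calc _ ≤ ∏ _c ∈ C, (2 : ℝ) :=
        Finset.prod_le_prod (fun c _ => abs_nonneg _) (fun c _ => abs_et_le hw _ _ _)
    _ = 2 ^ C.card := by rw [Finset.prod_const]

/-- expansion of a product of centred digits -/
lemma em_expand (w : Om ι L → ℝ) (E : Finset ι) (s : ι → ℕ) (ω : Om ι L) :
    em w E s ω = ∑ D ∈ E.powerset, (-1) ^ D.card * (xm (E \ D) s ω * bm w D s ω) := by
  unfold em et xm bm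
  have h : ∀ c ∈ E, dg c (s c) ω - bb w c (s c) ω = (- bb w c (s c) ω) + dg c (s c) ω :=
    fun c _ => by ring
  rw [Finset.prod_congr rfl h, Finset.prod_add]
  refine Finset.sum_congr rfl (fun D _ => ?_)
  rw [Finset.prod_neg]
  ring

/-! ### indicators and probabilities -/

lemma ind_nonneg (E : Om ι L → Prop) (ω : Om ι L) : 0 ≤ ind E ω := by
  unfold ind; split_ifs <;> norm_num

lemma ind_le_one (E : Om ι L → Prop) (ω : Om ι L) : ind E ω ≤ 1 := by
  unfold ind; split_ifs <;> norm_num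

lemma ind_of {E : Om ι L → Prop} {ω : Om ι L} (h : E ω) : ind E ω = 1 := by
  unfold ind; rw [if_pos h]

lemma ind_of_not {E : Om ι L → Prop} {ω : Om ι L} (h : ¬ E ω) : ind E ω = 0 := by
  unfold ind; rw [if_neg h]

lemma ind_mono {E F : Om ι L → Prop} {ω : Om ι L} (h : E ω → F ω) : ind E ω ≤ ind F ω := by
  by_cases hE : E ω
  · rw [ind_of hE, ind_of (h hE)]
  · rw [ind_of_not hE]; exact ind_nonneg _ _

lemma ind_or_le (E F : Om ι L → Prop) (ω : Om ι L) :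
    ind (fun ω => E ω ∨ F ω) ω ≤ ind E ω + ind F ω := by
  by_cases hE : E ω
  · rw [ind_of (E := fun ω => E ω ∨ F ω) (Or.inl hE), ind_of hE]
    linarith [ind_nonneg F ω]
  · by_cases hF : F ω
    · rw [ind_of (E := fun ω => E ω ∨ F ω) (Or.inr hF), ind_of hF]
      linarith [ind_nonneg E ω]
    · rw [ind_of_not (E := fun ω => E ω ∨ F ω) (by tauto)]
      linarith [ind_nonneg E ω, ind_nonneg F ω]

lemma ind_exists_le {κ : Type*} (S : Finset κ) (E : κ → Om ι L → Prop) (ω : Om ι L) :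
    ind (fun ω => ∃ i ∈ S, E i ω) ω ≤ ∑ i ∈ S, ind (E i) ω := by
  by_cases h : ∃ i ∈ S, E i ω
  · rw [ind_of (E := fun ω => ∃ i ∈ S, E i ω) h]
    obtain ⟨i, hi, hE⟩ := h
    calc (1 : ℝ) = ind (E i) ω := (ind_of hE).symm
      _ ≤ _ := Finset.single_le_sum (f := fun i => ind (E i) ω) (fun i _ => ind_nonneg _ _) hi
  · rw [ind_of_not (E := fun ω => ∃ i ∈ S, E i ω) h]
    exact Finset.sum_nonneg (fun i _ => ind_nonneg _ _)

/-- Markov -/
lemma markov {w : Om ι L → ℝ} (hw : ∀ ω, 0 ≤ w ω) {g : Om ι L → ℝ} (hg : ∀ ω, 0 ≤ g ω)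
    {a : ℝ} (ha : 0 < a) (E : Om ι L → Prop) (hE : ∀ ω, E ω → a ≤ g ω) :
    Ex w (ind E) ≤ Ex w g / a := by
  rw [le_div_iff₀ ha, ← Ex_mul_const]
  refine Ex_mono hw (fun ω => ?_)
  by_cases h : E ω
  · rw [ind_of h, one_mul]; exact hE ω h
  · rw [ind_of_not h, zero_mul]; exact hg ω

lemma Ex_ind_mono {w : Om ι L → ℝ} (hw : ∀ ω, 0 ≤ w ω) {E F : Om ι L → Prop}
    (h : ∀ ω, E ω → F ω) : Ex w (ind E) ≤ Ex w (ind F) :=
  Ex_mono hw (fun ω => ind_mono (h ω))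

/-- change of measure -/
lemma Ex_le_exp_mul {w : Om ι L → ℝ} {K : ℝ} (hK : ∀ ω, w ω ≤ Real.exp K * Pw ι L ω)
    {g : Om ι L → ℝ} (hg : ∀ ω, 0 ≤ g ω) : Ex w g ≤ Real.exp K * Ex (Pw ι L) g := by
  unfold Ex
  rw [Finset.mul_sum]
  refine Finset.sum_le_sum fun ω _ => ?_
  rw [← mul_assoc]
  exact mul_le_mul_of_nonneg_right (hK ω) (hg ω)

/-- splitting an expectation on an event -/
lemma Ex_split {w : Om ι L → ℝ} (hw : ∀ ω, 0 ≤ w ω) {g h : Om ι L → ℝ} {B : ℝ} (hB : 0 ≤ B)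
    (E : Om ι L → Prop) (h1 : ∀ ω, ¬ E ω → g ω ≤ h ω) (h0 : ∀ ω, 0 ≤ h ω)
    (h2 : ∀ ω, g ω ≤ B) :
    Ex w g ≤ Ex w h + B * Ex w (ind E) := by
  rw [← Ex_const_mul, ← Ex_add]
  refine Ex_mono hw (fun ω => ?_)
  by_cases hE : E ω
  · rw [ind_of hE]; linarith [h2 ω, h0 ω]
  · rw [ind_of_not hE, mul_zero, add_zero]; exact h1 ω hE

/-- one Haar step in coordinate `c` from the level `vc L c t` -/
lemma haar_step_vc {c : ι} {t : ℕ} (ht : t < L) (f : Om ι L → ℝ) (ω : Om ι L) :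
    CE (Pw ι L) (vc L c (t + 1)) f ω =
      CE (Pw ι L) (vc L c t) f ω +
        dg c t ω * CE (Pw ι L) (vc L c t) (fun ω => dg c t ω * f ω) ω := by
  have h := haar_step (v := vc L c t) (c := c) (by rw [vc_self]; exact ht) f ω
  rw [vc_succ, vc_self] at h
  exact h

end DK
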