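import Pool.Agent.Work.MP_d500f7_co.K.Wick2

/-! # Operator norm of the matrices `∑_{s_C} x_C(s) a(s)` -/

namespace DK

open Finset

variable {ι : Type} [Fintype ι] [DecidableEq ι] {L : ℕ}

/-- admissible sign weights -/
structure Wt (a : (ι → ℕ) → Om ι L → ℝ) (n : ℕ) : Prop where
  le1 : ∀ s ω, |a s ω| ≤ 1
  meas : ∀ s, Meas s (a s)
  supp : ∀ s, ∑ c, s c ≠ n → ∀ ω, a s ω = 0

lemma Wt.meas_lv {a : (ι → ℕ) → Om ι L → ℝ} {n : ℕ} (ha : Wt a n) (C : Finset ι) {s : ι → ℕ}
    (hs : ∀ c, s c ≤ L) : Meas (lv L C s) (a s) := by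
  refine (ha.meas s).mono (fun c => ?_)
  by_cases hc : c ∈ C
  · rw [lv_of_mem hc]
  · rw [lv_of_not_mem hc]; exact hs c

/-- Schur test -/
lemma schur {α β : Type} [Fintype α] [Fintype β] (M : Matrix α β ℝ) {R : ℝ}
    (h1 : ∀ i j, |M i j| ≤ 1) (hcol : ∀ i i' j, M i j ≠ 0 → M i' j ≠ 0 → i = i')
    (hrow : ∀ i, ∑ j, (open Classical in if M i j ≠ 0 then (1 : ℝ) else 0) ≤ R) : OpLe M R := by
  classical
  intro u v
  have hR : ∀ _ : α, 0 ≤ R := fun i => (Finset.sum_nonneg (fun j _ => by
    split_ifs <;> norm_num)).trans (hrow i)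
  set χ : α → β → ℝ := fun i j => if M i j ≠ 0 then 1 else 0 with hχ
  have hχ0 : ∀ i j, 0 ≤ χ i j := fun i j => by simp only [hχ]; split_ifs <;> norm_num
  have hMχ : ∀ i j, |M i j| ≤ χ i j := by
    intro i j
    simp only [hχ]
    split_ifs with h
    · exact h1 i j
    · rw [not_not] at h; rw [h]; simp
  have hχ2 : ∀ i j, χ i j * χ i j = χ i j := by
    intro i j
    simp only [hχ]
    split_ifs <;> norm_num
  have e1 : |∑ i, ∑ j, u i * M i j * v j| ≤ ∑ p : α × β, (χ p.1 p.2 * |u p.1|) * (χ p.1 p.2 * |v p.2|) := by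
    rw [Fintype.sum_prod_type]
    refine (Finset.abs_sum_le_sum_abs _ _).trans (Finset.sum_le_sum (fun i _ => ?_))
    refine (Finset.abs_sum_le_sum_abs _ _).trans (Finset.sum_le_sum (fun j _ => ?_))
    rw [abs_mul, abs_mul]
    have := hMχ i j
    calc |u i| * |M i j| * |v j| ≤ |u i| * χ i j * |v j| := by gcongr
      _ = (χ i j * χ i j) * |u i| * |v j| := by rw [hχ2]; ring
      _ = _ := by ring
  have e2 : (∑ i, ∑ j, u i * M i j * v j) ^ 2 ≤
      (∑ p : α × β, (χ p.1 p.2 * |u p.1|) ^ 2) * (∑ p : α × β, (χ p.1 p.2 * |v p.2|) ^ 2) := by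
    rw [← sq_abs]
    refine (pow_le_pow_left₀ (abs_nonneg _) e1 2).trans ?_
    exact Finset.sum_mul_sq_le_sq_mul_sq _ _ _
  have e3 : ∑ p : α × β, (χ p.1 p.2 * |u p.1|) ^ 2 ≤ R * ∑ i, u i ^ 2 := by
    rw [Fintype.sum_prod_type, Finset.mul_sum]
    refine Finset.sum_le_sum (fun i _ => ?_)
    have : ∀ j, (χ i j * |u i|) ^ 2 = χ i j * u i ^ 2 := by
      intro j
      rw [mul_pow, sq_abs, sq (χ i j), hχ2]
    simp only [this]
    rw [← Finset.sum_mul]
    exact mul_le_mul_of_nonneg_right (hrow i) (sq_nonneg _)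
  have e4 : ∑ p : α × β, (χ p.1 p.2 * |v p.2|) ^ 2 ≤ ∑ j, v j ^ 2 := by
    rw [Fintype.sum_prod_type, Finset.sum_comm]
    refine Finset.sum_le_sum (fun j _ => ?_)
    have : ∀ i, (χ i j * |v j|) ^ 2 = χ i j * v j ^ 2 := by
      intro i
      rw [mul_pow, sq_abs, sq (χ i j), hχ2]
    simp only [this]
    rw [← Finset.sum_mul]
    have h5 : ∑ i, χ i j ≤ 1 := by
      by_cases h : ∃ i, M i j ≠ 0
      · obtain ⟨i0, hi0⟩ := h
        rw [Finset.sum_eq_single i0]
        · simp only [hχ]; split_ifs <;> norm_num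
        · intro i _ hi
          simp only [hχ]
          rw [if_neg]
          intro hh
          exact hi (hcol i i0 j hh hi0)
        · intro h; exact absurd (mem_univ _) h
      · push Not at h
        have : ∀ i ∈ (univ : Finset α), χ i j = 0 := by
          intro i _
          simp only [hχ]
          rw [if_neg]
          rw [not_not]; exact h i
        rw [Finset.sum_eq_zero this]; norm_num
    calc (∑ i, χ i j) * v j ^ 2 ≤ 1 * v j ^ 2 := mul_le_mul_of_nonneg_right h5 (sq_nonneg _)
      _ = _ := one_mul _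
  refine e2.trans ?_
  refine mul_le_mul e3 e4 (Finset.sum_nonneg (fun _ _ => sq_nonneg _)) ?_
  rcases isEmpty_or_nonempty α with hα | ⟨⟨i⟩⟩
  · simp
  · exact mul_nonneg (hR i) (Finset.sum_nonneg (fun _ _ => sq_nonneg _))

/-- counting positions with a given sum -/
lemma cnt (n m : ℕ) {B : Finset ι} (hB : B.Nonempty) (z : ι → ℕ) :
    ∑ s ∈ Bx n B z, (if ∑ c, s c = m then (1 : ℝ) else 0) ≤ (n + 1) ^ (B.card - 1) := by
  obtain ⟨b, hb⟩ := hB
  have hset : B = B.erase b ∪ {b} := by
    rw [Finset.union_comm, ← Finset.insert_eq, Finset.insert_erase hb]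
  have hdis : Disjoint (B.erase b) {b} := by
    rw [Finset.disjoint_singleton_right]; exact Finset.notMem_erase b B
  have hcard : (B.erase b).card = B.card - 1 := Finset.card_erase_of_mem hb
  conv_lhs => rw [hset]
  rw [sum_Bx_union n hdis]
  calc _ ≤ ∑ _u ∈ Bx n (B.erase b) z, (1 : ℝ) := by
        refine Finset.sum_le_sum (fun u _ => ?_)
        rw [sum_Bx_singleton]
        have hsum : ∀ t, ∑ c, Function.update u b t c = t + ∑ c ∈ univ.erase b, u c := by
          intro t
          rw [← Finset.add_sum_erase univ _ (mem_univ b), Function.update_self]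
          congr 1
          refine Finset.sum_congr rfl (fun c hc => ?_)
          rw [Function.update_of_ne (Finset.ne_of_mem_erase hc)]
        simp only [hsum]
        by_cases h : ∃ t ∈ range (n + 1), t + ∑ c ∈ univ.erase b, u c = m
        · obtain ⟨t0, ht0, h0⟩ := h
          rw [Finset.sum_eq_single t0]
          · split_ifs <;> norm_num
          · intro t _ ht
            rw [if_neg]
            omega
          · intro h; exact absurd ht0 h
        · push Not at h
          rw [Finset.sum_eq_zero (fun t ht => by rw [if_neg (h t ht)])]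
          norm_num
    _ = (n + 1) ^ (B.card - 1) := by
        rw [Finset.sum_const, card_Bx, nsmul_eq_mul, mul_one, hcard]
        push_cast; ring

/-- positions: `l` at `o`, `q` on `B`, `s` elsewhere -/
def comb (o : ι) (B : Finset ι) (l : ℕ) (q s : ι → ℕ) : ι → ℕ :=
  fun c => if c = o then l else if c ∈ B then q c else s c

/-- the matrices -/
noncomputable def Df (n : ℕ) (o : ι) (B : Finset ι) (a : (ι → ℕ) → Om ι L → ℝ) (s : ι → ℕ)
    (ω : Om ι L) : Matrix (Fin (n + 1)) (ι → Fin (n + 1)) ℝ :=
  fun l q => if ∀ c, c ∉ B → q c = 0 then a (comb o B l (fun c => q c) s) ω else 0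

/-- sums over a box as sums over `ι → Fin (n+1)` -/
lemma sum_Bx_fin {V : Type*} [AddCommMonoid V] (n : ℕ) (B : Finset ι) (u : ι → ℕ)
    (F : (ι → ℕ) → V) :
    ∑ v ∈ Bx n B u, F v = ∑ q : ι → Fin (n + 1), if ∀ c, c ∉ B → q c = 0 then
      F (fun c => if c ∈ B then (q c : ℕ) else u c) else 0 := by
  rw [← Finset.sum_filter]
  refine Finset.sum_nbij' (fun v c => if h : c ∈ B ∧ v c < n + 1 then (⟨v c, h.2⟩ : Fin (n + 1))
    else 0) (fun q c => if c ∈ B then (q c : ℕ) else u c) ?_ ?_ ?_ ?_ ?_
  · intro v _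
    simp only [mem_filter, mem_univ, true_and]
    intro c hc
    rw [dif_neg (fun h => hc h.1)]
  · intro q _
    rw [mem_Bx]
    refine ⟨fun c hc => ?_, fun c hc => ?_⟩
    · simp only [hc, if_true]; have := (q c).2; omega
    · simp only [hc, if_false]
  · intro v hv
    rw [mem_Bx] at hv
    funext c
    by_cases hc : c ∈ B
    · have := hv.1 c hc
      simp only [hc, true_and, if_true]
      rw [dif_pos (by omega)]
    · simp only [hc, if_false]
      exact (hv.2 c hc).symm
  · intro q hq
    simp only [mem_filter, mem_univ, true_and] at hq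
    funext c
    by_cases hc : c ∈ B
    · simp only [hc, if_true, true_and]
      rw [dif_pos (q c).2]
    · simp only [hc, false_and]
      rw [dif_neg (by simp)]
      exact (hq c hc).symm
  · intro v hv
    rw [mem_Bx] at hv
    congr 1
    funext c
    by_cases hc : c ∈ B
    · have := hv.1 c hc
      simp only [hc, true_and, if_true]
      rw [dif_pos (by omega)]
    · simp only [hc, if_false]
      exact hv.2 c hc

lemma Df_op {n : ℕ} {a : (ι → ℕ) → Om ι L → ℝ} (ha : Wt a n) {o : ι} {B : Finset ι}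
    (hB : B.Nonempty) (hoB : o ∉ B) (s : ι → ℕ) (ω : Om ι L) :
    OpLe (Df n o B a s ω) ((n + 1) ^ (B.card - 1)) := by
  refine schur _ (fun l q => ?_) (fun l l' q h h' => ?_) (fun l => ?_)
  · unfold Df
    split_ifs
    · exact ha.le1 _ _
    · simp
  · unfold Df at h h'
    by_cases hq : ∀ c, c ∉ B → q c = 0
    · rw [if_pos hq] at h h'
      have hs : ∑ c, comb o B l (fun c => q c) s c = n := by
        by_contra hcon; exact h (ha.supp _ hcon ω)
      have hs' : ∑ c, comb o B l' (fun c => q c) s c = n := by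
        by_contra hcon; exact h' (ha.supp _ hcon ω)
      rw [← Finset.add_sum_erase univ _ (mem_univ o)] at hs hs'
      have e : ∑ c ∈ univ.erase o, comb o B l (fun c => q c) s c =
          ∑ c ∈ univ.erase o, comb o B l' (fun c => q c) s c := by
        refine Finset.sum_congr rfl (fun c hc => ?_)
        have := Finset.ne_of_mem_erase hc
        simp [comb, this]
      rw [e] at hs
      have h1 : comb o B l (fun c => q c) s o = l := by simp [comb]
      have h2 : comb o B l' (fun c => q c) s o = l' := by simp [comb]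
      rw [h1] at hs
      rw [h2] at hs'
      apply Fin.ext
      omega
    · rw [if_neg hq] at h
      exact absurd rfl h
  · classical
    have h1 := cnt n n hB (fun c => if c = o then (l : ℕ) else s c)
    rw [sum_Bx_fin] at h1
    refine le_trans (Finset.sum_le_sum (fun q _ => ?_)) h1
    unfold Df
    by_cases hq : ∀ c, c ∉ B → q c = 0
    · rw [if_pos hq, if_pos hq]
      split_ifs with h2 h3
      · exact le_rfl
      · exfalso
        apply h2
        apply ha.supp
        intro hcon
        apply h3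
        refine Eq.trans ?_ hcon
        refine Finset.sum_congr rfl (fun c _ => ?_)
        unfold comb
        by_cases hc : c = o
        · subst hc; simp [hoB]
        · simp [hc]
      · norm_num
      · norm_num
    · rw [if_neg hq, if_neg hq]
      simp

lemma meas_Df {n : ℕ} {a : (ι → ℕ) → Om ι L → ℝ} (ha : Wt a n) {o : ι} {B C : Finset ι}
    (hnL : n ≤ L) (hoC : o ∉ C) (hBC : Disjoint B C) {s : ι → ℕ} (hs : ∀ c, s c ≤ L) :
    Meas (lv L C s) (Df n o B a s) := by
  intro x y hxy
  funext l q
  unfold Df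
  split_ifs
  · refine (ha.meas _).mono ?_ x y hxy
    intro c
    unfold comb
    by_cases hc : c ∈ C
    · have h1 : c ≠ o := fun h => hoC (h ▸ hc)
      have h2 : c ∉ B := fun h => Finset.disjoint_left.1 hBC h hc
      simp [h1, h2, lv_of_mem hc]
    · rw [lv_of_not_mem hc]
      have := (q c).2
      have := l.2
      split_ifs
      · omega
      · show (q c : ℕ) ≤ L
        omega
      · exact hs c
  · rfl

end DK
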