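import Pool.Agent.Work.MP_d500f7_co.K.OpB

/-! # Probability and bilinear form of the operator norm bounds -/

namespace DK

open Finset

variable {ι : Type} [Fintype ι] [DecidableEq ι] {L : ℕ}

lemma sum_Bx_comb {V : Type*} [AddCommMonoid V] (n : ℕ) {B C : Finset ι} {o : ι} (hoC : o ∉ C)
    (hBC : Disjoint B C) (l : ℕ) (q z : ι → ℕ) (F : (ι → ℕ) → V) :
    ∑ s ∈ Bx n C (comb o B l q z), F s = ∑ s ∈ Bx n C z, F (comb o B l q s) := by
  have key : ∀ s ∈ Bx n C (comb o B l q z), comb o B l q (C.piecewise s z) = s := by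
    intro s hs
    rw [mem_Bx] at hs
    funext c
    by_cases hc : c ∈ C
    · have h1 : c ≠ o := fun h => hoC (h ▸ hc)
      have h2 : c ∉ B := fun h => Finset.disjoint_left.1 hBC h hc
      simp [comb, h1, h2, Finset.piecewise_eq_of_mem _ _ _ hc]
    · have := hs.2 c hc
      rw [this]
      simp [comb, Finset.piecewise_eq_of_notMem _ _ _ hc]
  refine Finset.sum_nbij' (fun s => C.piecewise s z) (fun s => comb o B l q s) ?_ ?_ ?_ ?_ ?_
  · intro s hs
    rw [mem_Bx] at hs ⊢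
    refine ⟨fun c hc => ?_, fun c hc => ?_⟩
    · rw [Finset.piecewise_eq_of_mem _ _ _ hc]; exact hs.1 c hc
    · rw [Finset.piecewise_eq_of_notMem _ _ _ hc]
  · intro s hs
    rw [mem_Bx] at hs ⊢
    refine ⟨fun c hc => ?_, fun c hc => ?_⟩
    · have h1 : c ≠ o := fun h => hoC (h ▸ hc)
      have h2 : c ∉ B := fun h => Finset.disjoint_left.1 hBC h hc
      simp only [comb, h1, h2, if_false]
      exact hs.1 c hc
    · have := hs.2 c hc
      simp only [comb, this]
  · intro s hs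
    exact key s hs
  · intro s hs
    rw [mem_Bx] at hs
    funext c
    by_cases hc : c ∈ C
    · have h1 : c ≠ o := fun h => hoC (h ▸ hc)
      have h2 : c ∉ B := fun h => Finset.disjoint_left.1 hBC h hc
      simp [comb, h1, h2, Finset.piecewise_eq_of_mem _ _ _ hc]
    · rw [Finset.piecewise_eq_of_notMem _ _ _ hc]
      exact (hs.2 c hc).symm
  · intro s hs
    rw [key s hs]

lemma xm_comb {B C : Finset ι} {o : ι} (hoC : o ∉ C) (hBC : Disjoint B C) (l : ℕ)
    (q s : ι → ℕ) (ω : Om ι L) : xm C (comb o B l q s) ω = xm C s ω := by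
  refine xm_congr (fun c hc => ?_) ω
  have h1 : c ≠ o := fun h => hoC (h ▸ hc)
  have h2 : c ∉ B := fun h => Finset.disjoint_left.1 hBC h hc
  simp [comb, h1, h2]

/-- bilinear form of the operator norm bound -/
theorem bilin {n : ℕ} {a : (ι → ℕ) → Om ι L → ℝ} {o : ι} {B C : Finset ι} (hoB : o ∉ B)
    (hoC : o ∉ C) (hBC : Disjoint B C) {z : ι → ℕ} {ω : Om ι L} {b : ℝ}
    (hop : OpLe (TT n C (Df n o B a) z ω) b) {g r : (ι → ℕ) → ℝ}
    (hg : Dep (univ \ (B ∪ C)) g) (hr : Dep (univ \ insert o C) r) :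
    (∑ s ∈ Bx n ({o} ∪ (B ∪ C)) z, g s * (xm C s ω * a s ω) * r s) ^ 2 ≤
      b * (∑ s ∈ Bx n {o} z, g s ^ 2) * (∑ s ∈ Bx n B z, r s ^ 2) := by
  classical
  set u' : Fin (n + 1) → ℝ := fun l => g (Function.update z o l) with hu'
  set v' : (ι → Fin (n + 1)) → ℝ := fun q => if ∀ c, c ∉ B → q c = 0 then
    r (fun c => if c ∈ B then (q c : ℕ) else z c) else 0 with hv'
  have h1 := hop u' v'
  have e1 : ∑ l, u' l ^ 2 = ∑ s ∈ Bx n {o} z, g s ^ 2 := by
    rw [sum_Bx_singleton, ← Fin.sum_univ_eq_sum_range (fun t => g (Function.update z o t) ^ 2)]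
  have e2 : ∑ q, v' q ^ 2 = ∑ s ∈ Bx n B z, r s ^ 2 := by
    rw [sum_Bx_fin]
    refine Finset.sum_congr rfl (fun q _ => ?_)
    simp only [hv']
    split_ifs
    · rfl
    · norm_num
  have e3 : ∑ s ∈ Bx n ({o} ∪ (B ∪ C)) z, g s * (xm C s ω * a s ω) * r s =
      ∑ l, ∑ q, u' l * (TT n C (Df n o B a) z ω) l q * v' q := by
    have hd1 : Disjoint ({o} : Finset ι) (B ∪ C) := by
      rw [Finset.disjoint_singleton_left, mem_union, not_or]
      exact ⟨hoB, hoC⟩
    rw [sum_Bx_union n hd1, sum_Bx_singleton,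
      ← Fin.sum_univ_eq_sum_range (fun t => ∑ s ∈ Bx n (B ∪ C) (Function.update z o t),
        g s * (xm C s ω * a s ω) * r s)]
    refine Finset.sum_congr rfl (fun l _ => ?_)
    rw [sum_Bx_union n hBC, sum_Bx_fin]
    refine Finset.sum_congr rfl (fun q _ => ?_)
    by_cases hq : ∀ c, c ∉ B → q c = 0
    · rw [if_pos hq]
      have ez : (fun c => if c ∈ B then (q c : ℕ) else Function.update z o (l : ℕ) c) =
          comb o B l (fun c => q c) z := by
        funext c
        unfold comb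
        by_cases hc : c = o
        · subst hc; simp [hoB]
        · simp [hc]
      rw [ez, sum_Bx_comb n hoC hBC]
      have eTT : (TT n C (Df n o B a) z ω) l q =
          ∑ s ∈ Bx n C z, xm C s ω * a (comb o B l (fun c => q c) s) ω := by
        unfold TT
        rw [Matrix.sum_apply]
        refine Finset.sum_congr rfl (fun s _ => ?_)
        rw [Matrix.smul_apply, smul_eq_mul]
        unfold Df
        rw [if_pos hq]
      rw [eTT, Finset.mul_sum, Finset.sum_mul]
      refine Finset.sum_congr rfl (fun s hs => ?_)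
      rw [xm_comb hoC hBC]
      have eg : g (comb o B l (fun c => q c) s) = u' l := by
        refine hg _ _ (fun c hc => ?_)
        rw [mem_sdiff, mem_union, not_or] at hc
        by_cases hco : c = o
        · subst hco; simp [comb]
        · simp only [comb, hco, hc.2.1, if_false, Function.update_of_ne, ne_eq, not_false_eq_true]
          exact Bx_eq_off hs hc.2.2
      have er : r (comb o B l (fun c => q c) s) = v' q := by
        simp only [hv']
        rw [if_pos hq]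
        refine hr _ _ (fun c hc => ?_)
        rw [mem_sdiff, mem_insert, not_or] at hc
        simp only [comb, hc.2.1, if_false]
        split_ifs
        · rfl
        · exact Bx_eq_off hs hc.2.2
      rw [eg, er]
    · rw [if_neg hq]
      have : v' q = 0 := by simp only [hv']; rw [if_neg hq]
      rw [this, mul_zero]
  rw [e3, ← e1, ← e2]
  exact h1

/-- the numerical part of the probability bounds -/
lemma prob_num {w : Om ι L → ℝ} {K : ℝ} {n : ℕ} (h : Ctx w K n) {c : ℕ}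
    (hc : c ≤ Fintype.card ι) {d : ℝ} (hd0 : 0 ≤ d) (hd : d ≤ (n + 1) + (n + 1) ^ Fintype.card ι) :
    Real.exp K * (c * (n + 1) ^ c * (d * Real.exp (-((⌈4 * K⌉₊ : ℕ) : ℝ)))) ≤
      Real.exp (-2 * K) := by
  have hK1 := h.hK1
  have hceil : 4 * K ≤ (⌈4 * K⌉₊ : ℕ) := Nat.le_ceil _
  have hL := h.hL1
  have hnr := h.hnr
  have h1 : (c : ℝ) ≤ L := by exact_mod_cast hc.trans h.hkL
  have h2 : ((n : ℝ) + 1) ^ c ≤ L ^ Fintype.card ι := by
    calc ((n : ℝ) + 1) ^ c ≤ (L : ℝ) ^ c := pow_le_pow_left₀ (by positivity) hnr _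
      _ ≤ _ := pow_le_pow_right₀ hL hc
  have h3 : d ≤ 2 * L ^ (Fintype.card ι + 1) := by
    have h4 : ((n : ℝ) + 1) ^ Fintype.card ι ≤ L ^ (Fintype.card ι + 1) := by
      calc ((n : ℝ) + 1) ^ Fintype.card ι ≤ (L : ℝ) ^ Fintype.card ι :=
            pow_le_pow_left₀ (by positivity) hnr _
        _ ≤ _ := pow_le_pow_right₀ hL (Nat.le_succ _)
    have h5 : ((n : ℝ) + 1) ≤ L ^ (Fintype.card ι + 1) := by
      calc ((n : ℝ) + 1) ≤ (L : ℝ) ^ 1 := by rw [pow_one]; exact hnr
        _ ≤ _ := pow_le_pow_right₀ hL (Nat.le_add_left _ _)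
    linarith
  have h6 : Real.exp (-((⌈4 * K⌉₊ : ℕ) : ℝ)) ≤ Real.exp (-(4 * K)) :=
    Real.exp_le_exp.2 (by linarith)
  calc _ ≤ Real.exp K * (L * L ^ Fintype.card ι * (2 * L ^ (Fintype.card ι + 1) *
        Real.exp (-(4 * K)))) := by gcongr
    _ = 2 * L ^ (2 * Fintype.card ι + 2) * (Real.exp K * Real.exp (-(4 * K))) := by
        rw [pow_add, pow_add, pow_mul']; ring
    _ ≤ (4 : ℝ) ^ 1 * L ^ (2 * Fintype.card ι + 2) *
        (Real.exp (-K / 2) * Real.exp (-2 * K)) := by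
        have e : Real.exp K * Real.exp (-(4 * K)) ≤ Real.exp (-K / 2) * Real.exp (-2 * K) := by
          rw [← Real.exp_add, ← Real.exp_add]
          apply Real.exp_le_exp.2
          linarith
        have e2 : (2 : ℝ) ≤ 4 ^ 1 := by norm_num
        gcongr
    _ = ((4 : ℝ) ^ 1 * L ^ (2 * Fintype.card ι + 2) * Real.exp (-K / 2)) *
        Real.exp (-2 * K) := by ring
    _ ≤ 1 * Real.exp (-2 * K) :=
        mul_le_mul_of_nonneg_right (h.err (by omega) (by omega)) (Real.exp_pos _).le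
    _ = _ := one_mul _

lemma six_p_le {K : ℝ} (hK1 : 1 ≤ K) : 6 * ((⌈4 * K⌉₊ : ℕ) : ℝ) ≤ 30 * K := by
  have := (Nat.ceil_lt_add_one (show 0 ≤ 4 * K by linarith)).le
  linarith

/-- operator norm bound outside an event of small probability -/
theorem opb {w : Om ι L → ℝ} {K : ℝ} {n : ℕ} (h : Ctx w K n) {a : (ι → ℕ) → Om ι L → ℝ}
    (ha : Wt a n) {o : ι} {B C : Finset ι} (hB : B.Nonempty) (hoB : o ∉ B) (hoC : o ∉ C)
    (hBC : Disjoint B C) (z : ι → ℕ) (hz : ∀ c, z c ≤ L) :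
    Ex w (ind (fun ω => ¬ OpLe (TT n C (Df n o B a) z ω)
      ((30 * K) ^ C.card * (n + 1) ^ (C.card + B.card - 1)))) ≤ Real.exp (-2 * K) := by
  have hK1 := h.hK1
  have hp : 1 ≤ ⌈4 * K⌉₊ := Nat.one_le_iff_ne_zero.2 (by
    have : 0 < ⌈4 * K⌉₊ := Nat.ceil_pos.2 (by linarith)
    omega)
  have h1 := ima (L := L) h.hn1 hp (Df n o B a) (fun _ => ((n : ℝ) + 1) ^ (B.card - 1))
    (fun _ => by positivity) (fun s ω => Df_op ha hB hoB s ω) C z hz
    (fun s hs => meas_Df ha (by rw [h.hn]; omega) hoC hBC (Bx_le hs (by rw [h.hn]; omega) hz))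
  rw [Finset.sum_const, card_Bx, nsmul_eq_mul] at h1
  push_cast at h1
  have hcardB : 1 ≤ B.card := Finset.card_pos.2 hB
  have hb : (6 * ((⌈4 * K⌉₊ : ℕ) : ℝ)) ^ C.card *
      (((n : ℝ) + 1) ^ C.card * ((n : ℝ) + 1) ^ (B.card - 1)) ≤
      (30 * K) ^ C.card * (n + 1) ^ (C.card + B.card - 1) := by
    rw [← pow_add, show C.card + (B.card - 1) = C.card + B.card - 1 by omega]
    exact mul_le_mul_of_nonneg_right (pow_le_pow_left₀ (by positivity) (six_p_le hK1) _)
      (by positivity)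
  refine (Ex_ind_mono h.hw.nonneg (F := fun ω => ¬ OpLe (TT n C (Df n o B a) z ω)
    ((6 * ((⌈4 * K⌉₊ : ℕ) : ℝ)) ^ C.card *
      (((n : ℝ) + 1) ^ C.card * ((n : ℝ) + 1) ^ (B.card - 1)))) (fun ω hω hcon =>
      hω (hcon.mono hb))).trans ?_
  refine (Ex_le_exp_mul h.hKP (fun ω => ind_nonneg _ _)).trans ?_
  refine (mul_le_mul_of_nonneg_left h1 (Real.exp_pos K).le).trans ?_
  refine prob_num h (Finset.card_le_univ _) (by positivity) (le_of_eq ?_)
  rw [Fintype.card_fin, Fintype.card_fun, Fintype.card_fin]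
  push_cast
  ring

/-- scalar version -/
theorem ops {w : Om ι L → ℝ} {K : ℝ} {n : ℕ} (h : Ctx w K n) {a : (ι → ℕ) → Om ι L → ℝ}
    (ha : Wt a n) {J : Finset ι} (hJ : J.Nonempty) (z : ι → ℕ) (hz : ∀ c, z c ≤ L) :
    Ex w (ind (fun ω => (30 * K) ^ J.card * (n + 1) ^ (J.card - 1) < (TT n J a z ω) ^ 2)) ≤
      Real.exp (-2 * K) := by
  have hK1 := h.hK1
  have hp : 1 ≤ ⌈4 * K⌉₊ := Nat.one_le_iff_ne_zero.2 (by
    have : 0 < ⌈4 * K⌉₊ := Nat.ceil_pos.2 (by linarith)
    omega)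
  set F : (ι → ℕ) → Om ι L → Matrix Unit Unit ℝ := fun s ω => fun _ _ => a s ω with hF
  have hop : ∀ s ω, OpLe (F s ω) (if ∑ c, s c = n then (1 : ℝ) else 0) := by
    intro s ω u v
    simp only [hF, Finset.univ_unique, Finset.sum_singleton]
    split_ifs with hs
    · have := ha.le1 s ω
      have h2 : a s ω ^ 2 ≤ 1 := by rw [← sq_abs]; exact pow_le_one₀ (abs_nonneg _) this
      have e : (u default * a s ω * v default) ^ 2 =
        a s ω ^ 2 * (u default ^ 2 * v default ^ 2) := by ring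
      rw [e, mul_assoc]
      exact mul_le_mul_of_nonneg_right h2 (by positivity)
    · rw [ha.supp s hs ω]
      simp
  have h1 := ima (L := L) h.hn1 hp F (fun s => if ∑ c, s c = n then (1 : ℝ) else 0)
    (fun s => by split_ifs <;> norm_num) hop J z hz
    (fun s hs => (ha.meas_lv J (Bx_le hs (by rw [h.hn]; omega) hz)).compX
      (fun x => (fun _ _ => x : Matrix Unit Unit ℝ)))
  have hTT : ∀ ω, (TT n J F z ω) () () = TT n J a z ω := by
    intro ω
    unfold TT
    rw [Matrix.sum_apply]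
    exact Finset.sum_congr rfl (fun s _ => by rw [Matrix.smul_apply])
  have hb : (6 * ((⌈4 * K⌉₊ : ℕ) : ℝ)) ^ J.card *
      (∑ s ∈ Bx n J z, if ∑ c, s c = n then (1 : ℝ) else 0) ≤
      (30 * K) ^ J.card * (n + 1) ^ (J.card - 1) := by
    refine mul_le_mul (pow_le_pow_left₀ (by positivity) (six_p_le hK1) _) (cnt n n hJ z)
      (Finset.sum_nonneg (fun _ _ => by split_ifs <;> norm_num)) (by positivity)
  refine (Ex_ind_mono h.hw.nonneg (F := fun ω => ¬ OpLe (TT n J F z ω)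
    ((6 * ((⌈4 * K⌉₊ : ℕ) : ℝ)) ^ J.card *
      (∑ s ∈ Bx n J z, if ∑ c, s c = n then (1 : ℝ) else 0))) (fun ω hω hcon => ?_)).trans ?_
  · have h2 := (hcon.mono hb) (fun _ => 1) (fun _ => 1)
    simp only [Finset.univ_unique, Finset.sum_singleton, one_mul, mul_one, one_pow] at h2
    have h3 := hTT ω
    have h4 : (TT n J F z ω) default default = TT n J a z ω := h3
    rw [h4] at h2
    linarith
  refine (Ex_le_exp_mul h.hKP (fun ω => ind_nonneg _ _)).trans ?_
  refine (mul_le_mul_of_nonneg_left h1 (Real.exp_pos K).le).trans ?_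
  refine prob_num h (Finset.card_le_univ _) (by positivity) ?_
  rw [Fintype.card_unit]
  push_cast
  have h5 : (0 : ℝ) ≤ n := Nat.cast_nonneg n
  have h6 : (1 : ℝ) ≤ ((n : ℝ) + 1) ^ Fintype.card ι := one_le_pow₀ (by linarith)
  linarith

end DK
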