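import Pool.Agent.Work.MP_d500f7_co.K.Lv

/-!
# The inclusion-exclusion identity on an empty box (general dimension)

Port of `Pool/Agent/Work/MP_d500f7_co/YId.lean` (case `ι = Fin 3`, three coordinates).
`dg o l * fD u = ∑ i, ∏ c, F i c (ω c) - N ∏ c, F' c (ω c)` with product functions; the conditional
expectations are products of one-dimensional averages (`CE_prod`), and
`∑_A (-1)^{|A|} ∏_{c ∈ A} Av ∏_{c ∉ A} id = ∏_c (id - Av)`.
-/

namespace DK

open Finset

namespace OneD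

section one

variable {L : ℕ}

/-- sign of digit `i` of a digit string -/
def d1 (i : ℕ) (x : Fin L → Bool) : ℝ :=
  if h : i < L then (if x ⟨i, h⟩ then 1 else -1) else 1

/-- value of the first `k` digits -/
noncomputable def a1 (k : ℕ) (x : Fin L → Bool) : ℝ :=
  ∑ i ∈ range k, (1 + d1 i x) * (1 / 2 : ℝ) ^ (i + 2)

/-- strings agreeing with `x` in the first `k` digits -/
def S1 (k : ℕ) (x : Fin L → Bool) : Finset (Fin L → Bool) :=
  univ.filter (fun y => ∀ i : Fin L, (i : ℕ) < k → x i = y i)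

/-- average over `S1` -/
noncomputable def Av (k : ℕ) (F : (Fin L → Bool) → ℝ) (x : Fin L → Bool) : ℝ :=
  (∑ y ∈ S1 k x, F y) / (∑ _y ∈ S1 k x, (1 : ℝ))

lemma mem_S1 {k : ℕ} {x y : Fin L → Bool} :
    y ∈ S1 k x ↔ ∀ i : Fin L, (i : ℕ) < k → x i = y i := by simp [S1]

lemma self_mem (k : ℕ) (x : Fin L → Bool) : x ∈ S1 k x := mem_S1.2 (fun _ _ => rfl)

lemma den_pos (k : ℕ) (x : Fin L → Bool) : 0 < ∑ _y ∈ S1 k x, (1 : ℝ) :=
  Finset.sum_pos (fun _ _ => one_pos) ⟨x, self_mem k x⟩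

lemma S1_full (x : Fin L → Bool) : S1 L x = {x} := by
  ext y
  rw [mem_S1, mem_singleton]
  constructor
  · intro h
    funext i
    exact (h i i.2).symm
  · rintro rfl i _
    rfl

lemma Av_full (F : (Fin L → Bool) → ℝ) (x : Fin L → Bool) : Av L F x = F x := by
  unfold Av
  rw [S1_full]
  simp

lemma Av_const {k : ℕ} {F : (Fin L → Bool) → ℝ} {x : Fin L → Bool} {a : ℝ}
    (h : ∀ y ∈ S1 k x, F y = a) : Av k F x = a := by
  unfold Av
  rw [Finset.sum_congr rfl h, Finset.sum_const, Finset.sum_const]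
  have : ((S1 k x).card : ℝ) ≠ 0 := by
    have := den_pos k x
    rw [Finset.sum_const, nsmul_eq_mul, mul_one] at this
    exact this.ne'
  rw [nsmul_eq_mul, nsmul_eq_mul, mul_one]
  field_simp

lemma Av_add (k : ℕ) (F G : (Fin L → Bool) → ℝ) (x : Fin L → Bool) :
    Av k (fun y => F y + G y) x = Av k F x + Av k G x := by
  unfold Av
  rw [Finset.sum_add_distrib, add_div]

lemma Av_mul_const (k : ℕ) (F : (Fin L → Bool) → ℝ) (a : ℝ) (x : Fin L → Bool) :
    Av k (fun y => F y * a) x = Av k F x * a := by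
  unfold Av
  rw [← Finset.sum_mul]
  ring

lemma Av_sum {κ : Type} (k : ℕ) (s : Finset κ) (F : κ → (Fin L → Bool) → ℝ) (x : Fin L → Bool) :
    Av k (fun y => ∑ i ∈ s, F i y) x = ∑ i ∈ s, Av k (F i) x := by
  unfold Av
  rw [Finset.sum_comm, Finset.sum_div]

/-- flip one digit -/
def fl (l : Fin L) (y : Fin L → Bool) : Fin L → Bool := Function.update y l (!y l)

lemma fl_same (l : Fin L) (y : Fin L → Bool) : fl l y l = !y l := by simp [fl]

lemma fl_other {l i : Fin L} (h : i ≠ l) (y : Fin L → Bool) : fl l y i = y i := by simp [fl, h]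

lemma fl_fl (l : Fin L) (y : Fin L → Bool) : fl l (fl l y) = y := by
  funext i
  by_cases h : i = l
  · subst h
    rw [fl_same, fl_same, Bool.not_not]
  · rw [fl_other h, fl_other h]

lemma fl_mem {k : ℕ} {l : Fin L} (hk : k ≤ l) {x y : Fin L → Bool} (hy : y ∈ S1 k x) :
    fl l y ∈ S1 k x := by
  rw [mem_S1] at hy ⊢
  intro i hi
  rw [fl_other]
  · exact hy i hi
  · rintro rfl
    omega

lemma d1_fl_same {l : ℕ} (hl : l < L) (y : Fin L → Bool) : d1 l (fl ⟨l, hl⟩ y) = - d1 l y := by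
  unfold d1
  rw [dif_pos hl, dif_pos hl, fl_same]
  cases y ⟨l, hl⟩ <;> simp

lemma d1_fl_other {l i : ℕ} (hl : l < L) (h : i ≠ l) (y : Fin L → Bool) :
    d1 i (fl ⟨l, hl⟩ y) = d1 i y := by
  unfold d1
  split_ifs with h1 h2 h3 h3
  · rfl
  · rw [fl_other (fun h4 => h (by simpa using congrArg Fin.val h4))] at h2
    exact absurd h2 h3
  · rw [fl_other (fun h4 => h (by simpa using congrArg Fin.val h4))] at h2
    exact absurd h3 h2
  · rfl
  · rfl

lemma Av_flip {k l : ℕ} (hl : l < L) (hk : k ≤ l) {G : (Fin L → Bool) → ℝ} {x : Fin L → Bool}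
    (hG : ∀ y ∈ S1 k x, G (fl ⟨l, hl⟩ y) = G y) : Av k (fun y => d1 l y * G y) x = 0 := by
  have h : ∑ y ∈ S1 k x, d1 l y * G y = - ∑ y ∈ S1 k x, d1 l y * G y := by
    conv_lhs => rw [← Finset.sum_nbij' (s := S1 k x) (t := S1 k x) (i := fl ⟨l, hl⟩)
      (j := fl ⟨l, hl⟩) (f := fun y => d1 l (fl ⟨l, hl⟩ y) * G (fl ⟨l, hl⟩ y))
      (g := fun y => d1 l y * G y) (fun y hy => fl_mem hk hy) (fun y hy => fl_mem hk hy)
      (fun y _ => fl_fl _ y) (fun y _ => fl_fl _ y) (fun y _ => rfl)]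
    rw [← Finset.sum_neg_distrib]
    refine Finset.sum_congr rfl (fun y hy => ?_)
    rw [d1_fl_same, hG y hy]
    ring
  have h0 : ∑ y ∈ S1 k x, d1 l y * G y = 0 := by linarith
  unfold Av
  rw [h0, zero_div]

lemma d1_sq (i : ℕ) (x : Fin L → Bool) : d1 i x * d1 i x = 1 := by
  unfold d1; split_ifs <;> norm_num

lemma d1_le (i : ℕ) (x : Fin L → Bool) : -1 ≤ d1 i x ∧ d1 i x ≤ 1 := by
  unfold d1; split_ifs <;> norm_num

lemma d1_of_mem {k i : ℕ} (hi : i < k) {x y : Fin L → Bool} (hy : y ∈ S1 k x) :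
    d1 i y = d1 i x := by
  unfold d1
  split_ifs with h1 h2 h3 h3
  · rfl
  · exact absurd ((mem_S1.1 hy ⟨i, h1⟩ hi).trans h2) h3
  · exact absurd ((mem_S1.1 hy ⟨i, h1⟩ hi).symm.trans h3) h2
  · rfl
  · rfl

lemma a1_of_mem {k : ℕ} {x y : Fin L → Bool} (hy : y ∈ S1 k x) : a1 k y = a1 k x := by
  unfold a1
  refine Finset.sum_congr rfl (fun i hi => ?_)
  rw [d1_of_mem (mem_range.1 hi) hy]

lemma geo (k m : ℕ) : ∑ i ∈ Ico k (k + m), (1 / 2 : ℝ) ^ (i + 1) = (1 / 2) ^ k - (1 / 2) ^ (k + m) := by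
  induction m with
  | zero => simp
  | succ m ih =>
    rw [← add_assoc, Finset.sum_Ico_succ_top (by omega), ih]
    ring

lemma a1_split {k : ℕ} (hk : k ≤ L) (y : Fin L → Bool) :
    a1 L y = a1 k y + ∑ i ∈ Ico k L, (1 + d1 i y) * (1 / 2 : ℝ) ^ (i + 2) := by
  unfold a1
  rw [Finset.sum_range_add_sum_Ico _ hk]

lemma a1_bounds {k : ℕ} (hk : k ≤ L) {x y : Fin L → Bool} (hy : y ∈ S1 k x) :
    a1 k x ≤ a1 L y ∧ a1 L y < a1 k x + (1 / 2) ^ k := by
  rw [a1_split hk y, a1_of_mem hy]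
  constructor
  · have : 0 ≤ ∑ i ∈ Ico k L, (1 + d1 i y) * (1 / 2 : ℝ) ^ (i + 2) := by
      refine Finset.sum_nonneg (fun i _ => ?_)
      have := (d1_le i y).1
      exact mul_nonneg (by linarith) (by positivity)
    linarith
  · have h1 : ∑ i ∈ Ico k L, (1 + d1 i y) * (1 / 2 : ℝ) ^ (i + 2) ≤
        ∑ i ∈ Ico k L, (1 / 2 : ℝ) ^ (i + 1) := by
      refine Finset.sum_le_sum (fun i _ => ?_)
      have h2 := (d1_le i y).2
      have h3 : (0 : ℝ) < (1 / 2) ^ (i + 1) := by positivity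
      have h4 : (1 / 2 : ℝ) ^ (i + 2) = (1 / 2) ^ (i + 1) / 2 := by ring
      rw [h4]
      nlinarith
    obtain ⟨m, rfl⟩ := Nat.exists_eq_add_of_le hk
    rw [geo] at h1
    have h5 : (0 : ℝ) < (1 / 2) ^ (k + m) := by positivity
    linarith

lemma Av_d1_low {k i : ℕ} (hi : i < k) (x : Fin L → Bool) : Av k (d1 i) x = d1 i x :=
  Av_const (fun _ hy => d1_of_mem hi hy)

lemma Av_d1_high {k i : ℕ} (hi : k ≤ i) (hL : i < L) (x : Fin L → Bool) : Av k (d1 i) x = 0 := by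
  have := Av_flip (k := k) (l := i) hL hi (G := fun _ => 1) (x := x) (fun _ _ => rfl)
  simpa using this

lemma Av_a1 {k : ℕ} (hk : k ≤ L) (x : Fin L → Bool) :
    a1 L x - Av k (a1 L) x = ∑ i ∈ Ico k L, d1 i x * (1 / 2 : ℝ) ^ (i + 2) := by
  have h1 : Av k (a1 L) x = ∑ i ∈ range L, (1 + Av k (d1 i) x) * (1 / 2 : ℝ) ^ (i + 2) := by
    have : (a1 L : (Fin L → Bool) → ℝ) =
        fun y => ∑ i ∈ range L, (fun y => (1 + d1 i y) * (1 / 2 : ℝ) ^ (i + 2)) y := rfl
    rw [this, Av_sum]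
    refine Finset.sum_congr rfl (fun i _ => ?_)
    rw [Av_mul_const, Av_add, Av_const (F := fun _ => (1 : ℝ)) (a := 1) (fun _ _ => rfl)]
  rw [h1]
  unfold a1
  rw [← Finset.sum_sub_distrib, ← Finset.sum_range_add_sum_Ico _ hk]
  have h2 : ∑ i ∈ range k, ((1 + d1 i x) * (1 / 2 : ℝ) ^ (i + 2)
      - (1 + Av k (d1 i) x) * (1 / 2 : ℝ) ^ (i + 2)) = 0 := by
    refine Finset.sum_eq_zero (fun i hi => ?_)
    rw [Av_d1_low (mem_range.1 hi), sub_self]
  rw [h2, zero_add]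
  refine Finset.sum_congr rfl (fun i hi => ?_)
  rw [Finset.mem_Ico] at hi
  rw [Av_d1_high hi.1 hi.2]
  ring

lemma Av_d1_a1 {l : ℕ} (hl : l < L) (x : Fin L → Bool) :
    Av l (fun y => d1 l y * a1 L y) x = (1 / 2) ^ (l + 2) := by
  have h0 : (fun y : Fin L → Bool => d1 l y * a1 L y) =
      fun y => ∑ i ∈ range L, (fun y => (d1 l y * (1 + d1 i y)) * (1 / 2 : ℝ) ^ (i + 2)) y := by
    funext y
    unfold a1
    rw [Finset.mul_sum]
    exact Finset.sum_congr rfl (fun i _ => by ring)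
  rw [h0, Av_sum, Finset.sum_eq_single_of_mem l (mem_range.2 hl)]
  · rw [Av_mul_const]
    have : Av l (fun y => d1 l y * (1 + d1 l y)) x = 1 := by
      have h1 : (fun y : Fin L → Bool => d1 l y * (1 + d1 l y)) = fun y => d1 l y + 1 := by
        funext y
        linear_combination d1_sq l y
      rw [h1, Av_add, Av_d1_high le_rfl hl, Av_const (F := fun _ => (1 : ℝ)) (a := 1) (fun _ _ => rfl)]
      ring
    rw [this, one_mul]
  · intro i _ hi
    rw [Av_mul_const, Av_flip hl le_rfl, zero_mul]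
    intro y _
    rw [d1_fl_other hl hi]

end one

variable {ι : Type} [Fintype ι] [DecidableEq ι] {L : ℕ}

/-- conditional expectations of product functions -/
lemma CE_prod (v : ι → ℕ) (F : ι → (Fin L → Bool) → ℝ) (ω : Om ι L) :
    CE (Pw ι L) v (fun ω' => ∏ c, F c (ω' c)) ω = ∏ c, Av (v c) (F c) (ω c) := by
  have hS : univ.filter (fun ω' : Om ι L => rel v ω ω') =
      Fintype.piFinset (fun c => S1 (v c) (ω c)) := by
    ext ω'
    rw [mem_filter, Fintype.mem_piFinset]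
    simp only [mem_univ, true_and, mem_S1]
    rfl
  have hp : ((2 : ℝ) ^ (Fintype.card ι * L))⁻¹ ≠ 0 := by positivity
  have h1 : ∑ ω' ∈ Fintype.piFinset (fun c => S1 (v c) (ω c)),
      ((2 : ℝ) ^ (Fintype.card ι * L))⁻¹ =
      ((2 : ℝ) ^ (Fintype.card ι * L))⁻¹ * ∏ c, ∑ _y ∈ S1 (v c) (ω c), (1 : ℝ) := by
    rw [Finset.prod_univ_sum, Finset.mul_sum]
    simp
  unfold CE Pw Av
  rw [hS, h1, ← Finset.mul_sum, Finset.prod_div_distrib, mul_div_mul_left _ _ hp,
    ← Finset.prod_univ_sum (fun c => S1 (v c) (ω c)) F]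

/-- indicator -/
noncomputable def Ind (p : ℝ) (y : Fin L → Bool) : ℝ := if p < a1 L y then 1 else 0

lemma dg_eq (c : ι) (i : ℕ) (ω : Om ι L) : dg c i ω = d1 i (ω c) := rfl

lemma av_eq (c : ι) (k : ℕ) (ω : Om ι L) : av c k ω = a1 k (ω c) := rfl

lemma Ind_const {k : ℕ} (hk : k ≤ L) {p : ℝ} {x : Fin L → Bool}
    (h : ¬ (a1 k x ≤ p ∧ p < a1 k x + (1 / 2) ^ k)) :
    ∀ y ∈ S1 k x, Ind (L := L) p y = Ind p x := by
  intro y hy
  have h1 := a1_bounds hk hy
  have h2 := a1_bounds hk (self_mem k x)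
  unfold Ind
  by_cases h3 : a1 k x ≤ p
  · have h4 : a1 k x + (1 / 2) ^ k ≤ p := by
      by_contra h5
      exact h ⟨h3, lt_of_not_ge h5⟩
    rw [if_neg (by linarith), if_neg (by linarith)]
  · have h3' : p < a1 k x := lt_of_not_ge h3
    rw [if_pos (by linarith), if_pos (by linarith)]

/-- a product function -/
def Pr (H : ι → (Fin L → Bool) → ℝ) (ω : Om ι L) : ℝ := ∏ c, H c (ω c)

/-- the discrepancy as a combination of product functions -/
lemma fD_expand {N : ℕ} (u : Fin N → ι → ℝ) (ω : Om ι L) :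
    fD u ω = ∑ i, Pr (fun c => Ind (u i c)) ω - N * Pr (fun _ => a1 L) ω := by
  have hcard : ((univ.filter (fun i : Fin N => ∀ c, u i c < av c L ω)).card : ℝ)
      = ∑ i, Pr (fun c => Ind (u i c)) ω := by
    rw [Finset.card_filter]
    push_cast
    refine Finset.sum_congr rfl (fun i _ => ?_)
    unfold Pr
    by_cases h : ∀ c, u i c < av c L ω
    · rw [if_pos h]
      symm
      refine Finset.prod_eq_one (fun c _ => ?_)
      show (if u i c < a1 L (ω c) then (1 : ℝ) else 0) = 1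
      exact if_pos (h c)
    · rw [if_neg h]
      obtain ⟨c, hc⟩ := not_forall.1 h
      symm
      refine Finset.prod_eq_zero (mem_univ c) ?_
      show (if u i c < a1 L (ω c) then (1 : ℝ) else 0) = 0
      exact if_neg hc
  unfold fD Dm
  rw [hcard]
  rfl

/-- `Gv` of a product function -/
lemma Gv_Pr (H : ι → (Fin L → Bool) → ℝ) (o : ι) (v : ι → ℕ) (l : ℕ) (ω : Om ι L) :
    Gv (Pr H) o v l ω = Av l (fun y => d1 l y * H o y) (ω o) *
      ∏ c ∈ univ.erase o, Av (v c) (H c) (ω c) := by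
  have h : ∀ ω' : Om ι L, dg o l ω' * Pr H ω' =
      ∏ c, (if c = o then (fun y => d1 l y * H o y) else H c) (ω' c) := by
    intro ω'
    unfold Pr
    rw [← Finset.mul_prod_erase univ _ (mem_univ o), ← Finset.mul_prod_erase univ _ (mem_univ o),
      if_pos rfl, dg_eq, mul_assoc]
    congr 2
    refine Finset.prod_congr rfl (fun c hc => ?_)
    rw [if_neg (Finset.ne_of_mem_erase hc)]
  unfold Gv
  rw [CE_congr _ _ h, CE_prod, ← Finset.mul_prod_erase univ _ (mem_univ o), if_pos rfl,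
    Function.update_self]
  congr 1
  refine Finset.prod_congr rfl (fun c hc => ?_)
  rw [if_neg (Finset.ne_of_mem_erase hc), Function.update_of_ne (Finset.ne_of_mem_erase hc)]

/-- the signed sum for a product function -/
lemma sum_Gv_Pr (H : ι → (Fin L → Bool) → ℝ) (o : ι) (s : ι → ℕ) (l : ℕ) (ω : Om ι L) :
    ∑ A ∈ (univ.erase o).powerset, (-1) ^ A.card * Gv (Pr H) o (lv L A s) l ω =
      Av l (fun y => d1 l y * H o y) (ω o) *
        ∏ c ∈ univ.erase o, (H c (ω c) - Av (s c) (H c) (ω c)) := by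
  have h : ∏ c ∈ univ.erase o, (H c (ω c) - Av (s c) (H c) (ω c)) =
      ∏ c ∈ univ.erase o, ((- Av (s c) (H c) (ω c)) + H c (ω c)) :=
    Finset.prod_congr rfl (fun c _ => by ring)
  rw [h, Finset.prod_add, Finset.mul_sum]
  refine Finset.sum_congr rfl (fun A hA => ?_)
  rw [Finset.mem_powerset] at hA
  rw [Gv_Pr, Finset.prod_neg, ← Finset.prod_sdiff hA]
  have h1 : ∏ c ∈ A, Av (lv L A s c) (H c) (ω c) = ∏ c ∈ A, Av (s c) (H c) (ω c) :=
    Finset.prod_congr rfl (fun c hc => by rw [lv_of_mem hc])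
  have h2 : ∏ c ∈ univ.erase o \ A, Av (lv L A s c) (H c) (ω c) =
      ∏ c ∈ univ.erase o \ A, H c (ω c) :=
    Finset.prod_congr rfl (fun c hc => by
      rw [lv_of_not_mem (Finset.mem_sdiff.1 hc).2, Av_full])
  rw [h1, h2]
  ring

lemma uu_eq (c : ι) {k : ℕ} (hk : k ≤ L) (ω : Om ι L) :
    a1 L (ω c) - Av k (a1 L) (ω c) = (1 / 2) ^ k * uu c k ω := by
  rw [Av_a1 hk]
  unfold uu
  rw [Finset.mul_sum]
  refine Finset.sum_congr rfl (fun i hi => ?_)
  rw [Finset.mem_Ico] at hi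
  rw [dg_eq]
  obtain ⟨m, rfl⟩ := Nat.exists_eq_add_of_le hi.1
  rw [Nat.add_sub_cancel_left]
  ring

end OneD

variable {ι : Type} [Fintype ι] [DecidableEq ι] {L : ℕ}

open OneD in
theorem Y_identity {N : ℕ} {u : Fin N → ι → ℝ} (hu : ∀ i c, 0 ≤ u i c ∧ u i c < 1) (o : ι)
    {s : ι → ℕ} (hs : ∀ c, s c ≤ L) (hl : s o < L) (ω : Om ι L)
    (hbox : ∀ i, ¬ inBox s ω (u i)) :
    ∑ A ∈ (univ.erase o).powerset, (-1) ^ A.card * Gv (fD u) o (lv L A s) (s o) ω =
      - (N * ((1 / 2 : ℝ) ^ ((∑ c, s c) + 2) * ∏ c ∈ univ.erase o, uu c (s c) ω)) := by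
  have hG : ∀ v : ι → ℕ, Gv (fD u) o v (s o) ω =
      ∑ i, Gv (Pr (fun c => Ind (u i c))) o v (s o) ω - N * Gv (Pr (fun _ => a1 L)) o v (s o) ω := by
    intro v
    unfold Gv
    have h : ∀ ω' : Om ι L, dg o (s o) ω' * fD u ω' =
        ∑ i, dg o (s o) ω' * Pr (fun c => Ind (u i c)) ω' -
          N * (dg o (s o) ω' * Pr (fun _ => a1 L) ω') := by
      intro ω'
      rw [fD_expand, mul_sub, Finset.mul_sum]
      ring
    rw [CE_congr _ _ h, CE_sub, CE_sum, CE_const_mul]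
  have h0 : ∀ i, Av (s o) (fun y => d1 (s o) y * Ind (u i o) y) (ω o) *
        ∏ c ∈ univ.erase o, (Ind (u i c) (ω c) - Av (s c) (Ind (u i c)) (ω c)) = 0 := by
    intro i
    by_cases h : ∃ c ∈ univ.erase o, ¬ (a1 (s c) (ω c) ≤ u i c ∧ u i c < a1 (s c) (ω c) +
        (1 / 2) ^ (s c))
    · obtain ⟨c, hc, h⟩ := h
      rw [Finset.prod_eq_zero hc, mul_zero]
      rw [Av_const (Ind_const (hs c) h), sub_self]
    · push Not at h
      have h2 : ¬ (a1 (s o) (ω o) ≤ u i o ∧ u i o < a1 (s o) (ω o) + (1 / 2) ^ (s o)) := by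
        intro h3
        apply hbox i
        intro c
        by_cases hc : c = o
        · subst hc; exact h3
        · exact h c (Finset.mem_erase.2 ⟨hc, mem_univ c⟩)
      rw [Av_flip hl le_rfl, zero_mul]
      intro y hy
      rw [Ind_const hl.le h2 _ (fl_mem (l := ⟨s o, hl⟩) le_rfl hy), Ind_const hl.le h2 y hy]
  have h1 : ∑ A ∈ (univ.erase o).powerset, (-1) ^ A.card * Gv (fD u) o (lv L A s) (s o) ω =
      ∑ i, ∑ A ∈ (univ.erase o).powerset, (-1) ^ A.card *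
          Gv (Pr (fun c => Ind (u i c))) o (lv L A s) (s o) ω
        - N * ∑ A ∈ (univ.erase o).powerset, (-1) ^ A.card *
          Gv (Pr (fun _ => a1 L)) o (lv L A s) (s o) ω := by
    rw [Finset.sum_comm, Finset.mul_sum, ← Finset.sum_sub_distrib]
    refine Finset.sum_congr rfl (fun A _ => ?_)
    rw [hG, mul_sub, Finset.mul_sum]
    ring
  rw [h1, Finset.sum_eq_zero (fun i _ => by rw [sum_Gv_Pr, h0 i]), sum_Gv_Pr, Av_d1_a1 hl]
  have h2 : ∏ c ∈ univ.erase o, (a1 L (ω c) - Av (s c) (a1 L) (ω c)) =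
      (1 / 2) ^ (∑ c ∈ univ.erase o, s c) * ∏ c ∈ univ.erase o, uu c (s c) ω := by
    rw [← Finset.prod_pow_eq_pow_sum, ← Finset.prod_mul_distrib]
    exact Finset.prod_congr rfl (fun c _ => uu_eq c (hs c) ω)
  rw [h2, ← Finset.add_sum_erase univ s (mem_univ o)]
  ring

end DK
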