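import Pool.Agent.Work.MP_d500f7_co.K.VB3
import Pool.Agent.Work.MP_d500f7_co.K.BoxesA
import Pool.Agent.Work.MP_d500f7_co.K.YId

/-! # The signal: pointwise facts and single positions -/

namespace DK

open Finset

variable {ι : Type} [Fintype ι] [DecidableEq ι] {L : ℕ}

/-- tails of the series defining `uu` -/
lemma uu_tail_le (c : ι) (s k : ℕ) (ω : Om ι L) :
    |∑ i ∈ Ico (s + k) L, dg c i ω * (1 / 2 : ℝ) ^ (i - s + 2)| ≤ (1 / 2 : ℝ) ^ (k + 1) := by
  have h1 : |∑ i ∈ Ico (s + k) L, dg c i ω * (1 / 2 : ℝ) ^ (i - s + 2)| ≤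
      ∑ i ∈ Ico (s + k) L, (1 / 2 : ℝ) ^ (i - s + 2) := by
    refine (Finset.abs_sum_le_sum_abs _ _).trans (le_of_eq ?_)
    refine Finset.sum_congr rfl (fun i _ => ?_)
    rw [abs_mul, abs_dg, one_mul, abs_of_nonneg (by positivity)]
  refine h1.trans ?_
  rw [Finset.sum_Ico_eq_sum_range]
  have h2 : ∀ x, (1 / 2 : ℝ) ^ (s + k + x - s + 2) = (1 / 2 : ℝ) ^ (k + 2) * (1 / 2 : ℝ) ^ x := by
    intro x
    rw [← pow_add]
    congr 1
    omega
  simp only [h2]
  rw [← Finset.mul_sum]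
  have h3 := sum_geometric_two_le (L - (s + k))
  calc (1 / 2 : ℝ) ^ (k + 2) * ∑ i ∈ range (L - (s + k)), (1 / 2 : ℝ) ^ i
      ≤ (1 / 2 : ℝ) ^ (k + 2) * 2 := mul_le_mul_of_nonneg_left h3 (by positivity)
    _ = (1 / 2 : ℝ) ^ (k + 1) := by rw [pow_succ _ (k + 1)]; ring

theorem uu_abs_le (c : ι) (s : ℕ) (ω : Om ι L) : |uu c s ω| ≤ 1 / 2 := by
  have := uu_tail_le c s 0 ω
  simpa [uu] using this

theorem uu_lower {c : ι} {s : ℕ} (hs : s + 1 < L) (ω : Om ι L) :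
    (1 + dg c s ω * dg c (s + 1) ω) / 8 ≤ dg c s ω * uu c s ω := by
  have h1 : uu c s ω = dg c s ω * (1 / 2 : ℝ) ^ 2 + (dg c (s + 1) ω * (1 / 2 : ℝ) ^ 3 +
      ∑ i ∈ Ico (s + 2) L, dg c i ω * (1 / 2 : ℝ) ^ (i - s + 2)) := by
    unfold uu
    rw [Finset.sum_eq_sum_Ico_succ_bot (by omega), Finset.sum_eq_sum_Ico_succ_bot (by omega)]
    have e1 : s - s + 2 = 2 := by omega
    have e2 : s + 1 - s + 2 = 3 := by omega
    rw [e1, e2]
  have h2 := uu_tail_le c s 2 ω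
  set T := ∑ i ∈ Ico (s + 2) L, dg c i ω * (1 / 2 : ℝ) ^ (i - s + 2) with hT
  rw [h1]
  have h3 := dg_mul_self c s ω
  have h4 : |dg c s ω * T| ≤ 1 / 8 := by
    rw [abs_mul, abs_dg, one_mul]
    refine h2.trans (by norm_num)
  have h5 := (abs_le.1 h4).1
  nlinarith

/-- averaging over the last `j` digits below `s` of coordinate `c` -/
theorem telescoping {w : Om ι L → ℝ} (hw : IsPr w) (c : ι) {s j : ℕ} (hj : j ≤ s) (hs : s ≤ L)
    {h : Om ι L → ℝ} (h0 : ∀ ω, 0 ≤ h ω) (h1 : ∀ ω, h ω ≤ 1) (hm : Meas (vc L c s) h) :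
    Ex w h ≤ Ex w (CE (Pw ι L) (vc L c (s - j)) h)
      + ∑ i ∈ Ico (s - j) s, Ex w (fun ω => |bb w c i ω|) := by
  induction j with
  | zero =>
    simp only [Nat.sub_zero, Finset.Ico_self, Finset.sum_empty, add_zero]
    refine le_of_eq (Ex_congr w (fun ω => ?_))
    exact (CE_of_meas Pw_pos hm ω).symm
  | succ j ih =>
    have ih' := ih (by omega)
    obtain ⟨i, hi⟩ : ∃ i, i = s - (j + 1) := ⟨_, rfl⟩
    have hi1 : s - j = i + 1 := by omega
    rw [← hi]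
    rw [hi1] at ih'
    have hiL : i < L := by omega
    have step : Ex w (CE (Pw ι L) (vc L c (i + 1)) h) ≤
        Ex w (CE (Pw ι L) (vc L c i) h) + Ex w (fun ω => |bb w c i ω|) := by
      have e1 : Ex w (CE (Pw ι L) (vc L c (i + 1)) h) = Ex w (CE (Pw ι L) (vc L c i) h)
          + Ex w (fun ω => CE (Pw ι L) (vc L c i) (fun ω => dg c i ω * h ω) ω * dg c i ω) := by
        rw [← Ex_add]
        refine Ex_congr w (fun ω => ?_)
        rw [haar_step_vc hiL]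
        ring
      rw [e1, ← Ex_mul_CE hw.pos (meas_CE (Pw ι L) (vc L c i) (fun ω => dg c i ω * h ω))]
      have hb : ∀ ω, |CE (Pw ι L) (vc L c i) (fun ω => dg c i ω * h ω) ω| ≤ 1 := by
        refine fun ω => abs_CE_le Pw_pos _ (fun ω => ?_) ω
        rw [abs_mul, abs_dg, one_mul, abs_of_nonneg (h0 ω)]
        exact h1 ω
      have : Ex w (fun ω => CE (Pw ι L) (vc L c i) (fun ω => dg c i ω * h ω) ω *
          CE w (vc L c i) (dg c i) ω) ≤ Ex w (fun ω => |bb w c i ω|) := by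
        refine Ex_mono hw.nonneg (fun ω => ?_)
        refine (le_abs_self _).trans ?_
        rw [abs_mul]
        calc _ ≤ 1 * |bb w c i ω| := mul_le_mul_of_nonneg_right (hb ω) (abs_nonneg _)
          _ = |bb w c i ω| := one_mul _
      linarith
    have hsplit : ∑ k ∈ Ico i s, Ex w (fun ω => |bb w c k ω|) =
        Ex w (fun ω => |bb w c i ω|) + ∑ k ∈ Ico (i + 1) s, Ex w (fun ω => |bb w c k ω|) :=
      Finset.sum_eq_sum_Ico_succ_bot (by omega) _
    rw [hsplit]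
    linarith

/-! ### the sign weights -/

/-- `a_s = - e_s` on the index set -/
noncomputable def aw {N : ℕ} (u : Fin N → ι → ℝ) (n j0 : ℕ) (c1 : ι) (s : ι → ℕ)
    (ω : Om ι L) : ℝ :=
  if ∑ c, s c = n ∧ j0 ≤ s c1 then - ee u s ω else 0

lemma ee_cases {N : ℕ} (u : Fin N → ι → ℝ) (s : ι → ℕ) (ω : Om ι L) :
    ee u s ω = 0 ∨ (ee u s ω = 1 ∧ ∀ i, ¬ inBox s ω (u i)) := by
  classical
  unfold ee
  by_cases h : ∃ i, inBox s ω (u i)
  · left; rw [if_pos h]
  · right; rw [if_neg h]; exact ⟨rfl, fun i hi => h ⟨i, hi⟩⟩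

lemma ee_nonneg {N : ℕ} (u : Fin N → ι → ℝ) (s : ι → ℕ) (ω : Om ι L) : 0 ≤ ee u s ω := by
  rcases ee_cases u s ω with h | h
  · rw [h]
  · rw [h.1]; norm_num

lemma ee_le_one {N : ℕ} (u : Fin N → ι → ℝ) (s : ι → ℕ) (ω : Om ι L) : ee u s ω ≤ 1 := by
  rcases ee_cases u s ω with h | h
  · rw [h]; norm_num
  · rw [h.1]

lemma wt_aw {N : ℕ} (u : Fin N → ι → ℝ) (n j0 : ℕ) (c1 : ι) :
    Wt (aw (L := L) u n j0 c1) n := by
  refine ⟨fun s ω => ?_, fun s => ?_, fun s hs ω => ?_⟩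
  · unfold aw
    split_ifs
    · rw [abs_neg, abs_of_nonneg (ee_nonneg _ _ _)]; exact ee_le_one _ _ _
    · simp
  · unfold aw
    split_ifs
    · exact (ee_meas u s).neg
    · exact meas_const _ 0
  · unfold aw
    rw [if_neg (fun h => hs h.1)]

/-- `E[a ∏_{c∈I} x_{s_c} x_{s_c+1}]` is small for `I ≠ ∅` -/
lemma corr_le {w : Om ι L → ℝ} (hw : IsPr w) {n : ℕ} {a : (ι → ℕ) → Om ι L → ℝ} (ha : Wt a n)
    {s : ι → ℕ} (hs : ∀ c, s c + 1 ≤ L) {I : Finset ι} {c : ι} (hc : c ∈ I) :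
    |Ex w (fun ω => a s ω * ∏ d ∈ I, (dg d (s d) ω * dg d (s d + 1) ω))| ≤
      (if ∑ c, s c = n then 1 else 0) * Ex w (fun ω => |bb w c (s c + 1) ω|) := by
  split_ifs with hsum
  · rw [one_mul]
    set X : Om ι L → ℝ := fun ω => a s ω * (∏ d ∈ I.erase c, (dg d (s d) ω * dg d (s d + 1) ω)) *
      dg c (s c) ω with hX
    have hm : Meas (vc L c (s c + 1)) X := by
      refine ((ha.meas s).mono (fun d => ?_)).mul (Meas.prod _ (fun d hd => ?_)) |>.mul ?_
      · by_cases hd : d = c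
        · subst hd; rw [vc_self]; omega
        · rw [vc_of_ne hd]; have := hs d; omega
      · have hdc := Finset.ne_of_mem_erase hd
        exact (meas_dg_full (by rw [vc_of_ne hdc]) _).mul (meas_dg_full (by rw [vc_of_ne hdc]) _)
      · exact meas_dg (by rw [vc_self]; omega)
    have e1 : Ex w (fun ω => a s ω * ∏ d ∈ I, (dg d (s d) ω * dg d (s d + 1) ω)) =
        Ex w (fun ω => X ω * dg c (s c + 1) ω) := by
      refine Ex_congr w (fun ω => ?_)
      rw [← Finset.mul_prod_erase I _ hc]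
      simp only [hX]
      ring
    rw [e1, ← Ex_mul_CE hw.pos hm]
    have hXb : ∀ ω, |X ω| ≤ 1 := by
      intro ω
      simp only [hX]
      rw [abs_mul, abs_mul, abs_dg, mul_one, Finset.abs_prod]
      have : ∏ d ∈ I.erase c, |dg d (s d) ω * dg d (s d + 1) ω| = 1 :=
        Finset.prod_eq_one (fun d _ => by rw [abs_mul, abs_dg, abs_dg, mul_one])
      rw [this, mul_one]
      exact ha.le1 s ω
    refine (abs_Ex_le hw.nonneg).trans (Ex_mono hw.nonneg (fun ω => ?_))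
    rw [abs_mul]
    calc _ ≤ 1 * |bb w c (s c + 1) ω| := mul_le_mul_of_nonneg_right (hXb ω) (abs_nonneg _)
      _ = _ := one_mul _
  · have : ∀ ω, a s ω * ∏ d ∈ I, (dg d (s d) ω * dg d (s d + 1) ω) = 0 := by
      intro ω; rw [ha.supp s hsum ω, zero_mul]
    rw [Ex_congr w this, zero_mul]
    simp [Ex]

/-- lower bound at one position -/
theorem sig_pos {w : Om ι L → ℝ} (hw : IsPr w) {n : ℕ} {a : (ι → ℕ) → Om ι L → ℝ} (ha : Wt a n)
    (haneg : ∀ s ω, a s ω ≤ 0) {s : ι → ℕ} (hs : ∀ c, s c + 1 < L) (J : Finset ι) :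
    (1 / 8 : ℝ) ^ J.card * (Ex w (fun ω => - a s ω) -
        (if ∑ c, s c = n then 1 else 0) * ∑ I ∈ J.powerset.erase ∅, ∑ c ∈ I,
          Ex w (fun ω => |bb w c (s c + 1) ω|)) -
      (if ∑ c, s c = n then 1 else 0) * ∑ p ∈ Pn J, Ex w (fun ω => |hh w p.2 p.1 s ω|) ≤
    Ex w (fun ω => - a s ω * phi w J s ω * ∏ c ∈ J, uu c (s c) ω) := by
  classical
  set χ : ℝ := if ∑ c, s c = n then 1 else 0 with hχ
  have hχ0 : 0 ≤ χ := by simp only [hχ]; split_ifs <;> norm_num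
  have haχ : ∀ ω, |a s ω| ≤ χ := by
    intro ω
    simp only [hχ]
    split_ifs with h
    · exact ha.le1 s ω
    · rw [ha.supp s h ω]; simp
  have habs : ∀ ω, |a s ω| = - a s ω := fun ω => abs_of_nonpos (haneg s ω)
  have huJ : ∀ ω : Om ι L, |∏ c ∈ J, uu c (s c) ω| ≤ 1 := by
    intro ω
    rw [Finset.abs_prod]
    exact Finset.prod_le_one (fun c _ => abs_nonneg _)
      (fun c _ => (uu_abs_le c _ ω).trans (by norm_num))
  set Q : Om ι L → ℝ := fun ω => ∏ c ∈ J, (1 + dg c (s c) ω * dg c (s c + 1) ω) with hQ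
  -- pointwise
  have hpt : ∀ ω, (1 / 8 : ℝ) ^ J.card * (- a s ω * Q ω) -
      χ * ∑ p ∈ Pn J, |hh w p.2 p.1 s ω| ≤
      - a s ω * phi w J s ω * ∏ c ∈ J, uu c (s c) ω := by
    intro ω
    have h1 : (1 / 8 : ℝ) ^ J.card * Q ω ≤ xm J s ω * ∏ c ∈ J, uu c (s c) ω := by
      simp only [hQ]
      unfold xm
      rw [← Finset.prod_mul_distrib, ← Finset.prod_const, ← Finset.prod_mul_distrib]
      refine Finset.prod_le_prod (fun c _ => ?_) (fun c _ => ?_)
      · have h2 : -1 ≤ dg c (s c) ω * dg c (s c + 1) ω := by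
          have : |dg c (s c) ω * dg c (s c + 1) ω| ≤ 1 := by
            rw [abs_mul, abs_dg, abs_dg, mul_one]
          exact (abs_le.1 this).1
        linarith
      · have := uu_lower (c := c) (hs c) ω
        linarith
    have h3 : |∑ p ∈ Pn J, (-1) ^ p.2.card * (xm ((J \ p.1) \ p.2) s ω * hh w p.2 p.1 s ω)| ≤
        ∑ p ∈ Pn J, |hh w p.2 p.1 s ω| := by
      refine (Finset.abs_sum_le_sum_abs _ _).trans (le_of_eq ?_)
      refine Finset.sum_congr rfl (fun p _ => ?_)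
      rw [abs_mul, abs_mul, abs_xm, one_mul, abs_pow, abs_neg, abs_one, one_pow, one_mul]
    rw [phi_expand0]
    set R := ∑ p ∈ Pn J, (-1) ^ p.2.card * (xm ((J \ p.1) \ p.2) s ω * hh w p.2 p.1 s ω) with hR
    have hRn : 0 ≤ ∑ p ∈ Pn J, |hh w p.2 p.1 s ω| :=
      Finset.sum_nonneg (fun _ _ => abs_nonneg _)
    have h4 : |- a s ω * R * ∏ c ∈ J, uu c (s c) ω| ≤ χ * ∑ p ∈ Pn J, |hh w p.2 p.1 s ω| := by
      rw [abs_mul, abs_mul, abs_neg]
      calc |a s ω| * |R| * |∏ c ∈ J, uu c (s c) ω| ≤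
            χ * (∑ p ∈ Pn J, |hh w p.2 p.1 s ω|) * 1 :=
            mul_le_mul (mul_le_mul (haχ ω) h3 (abs_nonneg _) hχ0) (huJ ω) (abs_nonneg _)
              (mul_nonneg hχ0 hRn)
        _ = _ := mul_one _
    have h5 := (abs_le.1 h4).1
    have h6 : 0 ≤ - a s ω := by linarith [haneg s ω]
    have h7 := mul_le_mul_of_nonneg_left h1 h6
    have e : - a s ω * (xm J s ω + R) * ∏ c ∈ J, uu c (s c) ω =
        - a s ω * (xm J s ω * ∏ c ∈ J, uu c (s c) ω) + - a s ω * R * ∏ c ∈ J, uu c (s c) ω := by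
      ring
    rw [e]
    linarith
  have hE := Ex_mono hw.nonneg hpt
  refine le_trans ?_ hE
  rw [Ex_sub, Ex_const_mul, Ex_const_mul, Ex_sum]
  refine sub_le_sub_right (mul_le_mul_of_nonneg_left ?_ (by positivity)) _
  -- expansion of the product
  have hexp : ∀ ω, - a s ω * Q ω = - a s ω + ∑ I ∈ J.powerset.erase ∅,
      (-(a s ω * ∏ d ∈ I, (dg d (s d) ω * dg d (s d + 1) ω))) := by
    intro ω
    simp only [hQ]
    rw [Finset.prod_one_add, ← Finset.add_sum_erase J.powerset _ (Finset.empty_mem_powerset J),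
      Finset.prod_empty, mul_add, mul_one, Finset.mul_sum]
    congr 1
    exact Finset.sum_congr rfl (fun I _ => by ring)
  rw [Ex_congr w hexp, Ex_add, Ex_sum]
  have hI : ∀ I ∈ J.powerset.erase ∅, - (χ * ∑ c ∈ I, Ex w (fun ω => |bb w c (s c + 1) ω|)) ≤
      Ex w (fun ω => -(a s ω * ∏ d ∈ I, (dg d (s d) ω * dg d (s d + 1) ω))) := by
    intro I hI
    have hne : I.Nonempty := Finset.nonempty_iff_ne_empty.2 (Finset.ne_of_mem_erase hI)
    obtain ⟨c, hc⟩ := hne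
    have h1 := corr_le hw ha (s := s) (fun c => (hs c).le) hc
    rw [Ex_neg]
    have h2 := (abs_le.1 h1).2
    have h3 : Ex w (fun ω => |bb w c (s c + 1) ω|) ≤
        ∑ c ∈ I, Ex w (fun ω => |bb w c (s c + 1) ω|) :=
      Finset.single_le_sum (f := fun c => Ex w (fun ω => |bb w c (s c + 1) ω|))
        (fun c _ => Ex_nonneg hw.nonneg (fun _ => abs_nonneg _)) hc
    have h4 := mul_le_mul_of_nonneg_left h3 hχ0
    linarith
  have h5 := Finset.sum_le_sum hI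
  rw [Finset.sum_neg_distrib, ← Finset.mul_sum] at h5
  linarith

end DK
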