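import Pool.Agent.Work.MP_d500f7_co.K.Sig1

/-! # The signal: sums over the positions -/

namespace DK

open Finset

variable {ι : Type} [Fintype ι] [DecidableEq ι] {L : ℕ}

/-- windows: `∑_s ∑_{i ∈ [s-j, s)} b i ≤ j ∑ b i` -/
lemma window_sum {n j : ℕ} {b : ℕ → ℝ} (hb : ∀ i, 0 ≤ b i) :
    ∑ s ∈ range (n + 1), ∑ i ∈ Ico (s - j) s, b i ≤ j * ∑ i ∈ range (n + 2), b i := by
  have h1 : ∑ s ∈ range (n + 1), ∑ i ∈ Ico (s - j) s, b i =
      ∑ i ∈ range (n + 2), ∑ s ∈ (range (n + 1)).filter (fun s => s - j ≤ i ∧ i < s), b i := by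
    refine Finset.sum_comm' (fun s i => ?_)
    simp only [mem_range, mem_Ico, mem_filter]
    omega
  rw [h1, Finset.mul_sum]
  refine Finset.sum_le_sum (fun i _ => ?_)
  rw [Finset.sum_const, nsmul_eq_mul]
  refine mul_le_mul_of_nonneg_right ?_ (hb i)
  have h2 : (range (n + 1)).filter (fun s => s - j ≤ i ∧ i < s) ⊆ Ioc i (i + j) := by
    intro s hs
    simp only [mem_filter, mem_range] at hs
    simp only [mem_Ioc]
    omega
  have h3 := Finset.card_le_card h2
  rw [Nat.card_Ioc] at h3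
  exact_mod_cast (by omega : _ ≤ j)

/-- the size of the error terms of the signal -/
noncomputable def Er (K : ℝ) (n : ℕ) (o : ι) : ℝ :=
  Real.sqrt (Cc ι * (K * (n + 1) ^ (2 * (univ.erase o).card - 1)))

lemma Er_nonneg (K : ℝ) (n : ℕ) (o : ι) : 0 ≤ Er K n o := Real.sqrt_nonneg _

lemma Ex_nbb {w : Om ι L → ℝ} {K : ℝ} {n : ℕ} (h : Ctx w K n) (c : ι) :
    Ex w (nbb w c) ≤ 21 * K := by
  have hw0 := h.hw.nonneg
  have hK1 := h.hK1
  have h1 := Ex_split (w := w) hw0 (g := nbb w c) (h := fun _ => 20 * K) (B := L)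
    (by positivity) (fun ω => 20 * K < nbb w c ω) (fun ω hω => not_lt.1 hω)
    (fun _ => by linarith) (fun ω => nbb_le_L h.hw c ω)
  rw [Ex_const h.hw.one] at h1
  have h2 : (L : ℝ) * Ex w (ind (fun ω => 20 * K < nbb w c ω)) ≤ 1 := by
    calc _ ≤ (L : ℝ) * Real.exp (-K / 2) :=
          mul_le_mul_of_nonneg_left ((h.htail c).trans h.hexp) (by positivity)
      _ = 4 ^ 0 * (L : ℝ) ^ 1 * Real.exp (-K / 2) := by rw [pow_zero, pow_one, one_mul]
      _ ≤ 1 := h.err (by omega) (by omega)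
  linarith

lemma sum_abs_bb {w : Om ι L → ℝ} {K : ℝ} {n : ℕ} (h : Ctx w K n) (c : ι) :
    ∑ t ∈ range L, Ex w (fun ω => |bb w c t ω|) ≤ Real.sqrt (42 * K * (n + 1)) := by
  have hw := h.hw
  have hw0 := hw.nonneg
  have hK1 := h.hK1
  calc _ ≤ ∑ t ∈ range L, Real.sqrt (Ex w (fun ω => bb w c t ω ^ 2)) :=
        Finset.sum_le_sum (fun t _ => Ex_abs_le_sqrt hw _)
    _ ≤ Real.sqrt ((range L).card * ∑ t ∈ range L, Ex w (fun ω => bb w c t ω ^ 2)) :=
        sum_sqrt_le _ _ (fun t _ => Ex_nonneg hw0 (fun _ => sq_nonneg _))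
    _ ≤ _ := by
        apply Real.sqrt_le_sqrt
        have e : ∑ t ∈ range L, Ex w (fun ω => bb w c t ω ^ 2) = Ex w (nbb w c) :=
          (Ex_sum _ _ _).symm
        rw [e, Finset.card_range]
        have h1 := Ex_nbb h c
        have h2 : (L : ℝ) ≤ 2 * (n + 1) := by
          rw [h.hn]; push_cast; linarith [Nat.cast_nonneg (α := ℝ) n]
        have h3 : 0 ≤ Ex w (nbb w c) := Ex_nonneg hw0 (nbb_nonneg w c)
        calc (L : ℝ) * Ex w (nbb w c) ≤ (2 * (n + 1)) * (21 * K) :=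
              mul_le_mul h2 h1 h3 (by positivity)
          _ = _ := by ring

/-- sums over positions of total `n` of a function of few coordinates -/
lemma sum_chi_le {n : ℕ} {B : Finset ι} (hB : (univ \ B).Nonempty) {F : (ι → ℕ) → ℝ}
    (hF : Dep B F) (hF0 : ∀ s, 0 ≤ F s) (z : ι → ℕ) :
    ∑ s ∈ Bx n univ z, (if ∑ c, s c = n then (1 : ℝ) else 0) * F s ≤
      (n + 1) ^ ((univ \ B).card - 1) * ∑ v ∈ Bx n B z, F v := by
  have huniv : (univ : Finset ι) = B ∪ (univ \ B) := by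
    rw [Finset.union_sdiff_of_subset (Finset.subset_univ B)]
  have hsum := sum_Bx_union n (C := B) (D := univ \ B) Finset.disjoint_sdiff z
    (fun s => (if ∑ c, s c = n then (1 : ℝ) else 0) * F s)
  rw [← huniv] at hsum
  rw [hsum, Finset.mul_sum]
  refine Finset.sum_le_sum (fun v _ => ?_)
  have h1 : ∀ s ∈ Bx n (univ \ B) v, (if ∑ c, s c = n then (1 : ℝ) else 0) * F s =
      (if ∑ c, s c = n then (1 : ℝ) else 0) * F v := by
    intro s hs
    rw [hF s v (fun c hc => Bx_eq_off hs (by rw [mem_sdiff]; tauto))]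
  rw [Finset.sum_congr rfl h1, ← Finset.sum_mul]
  exact mul_le_mul_of_nonneg_right (cnt n n hB v) (hF0 v)

lemma K_le_n {w : Om ι L → ℝ} {K : ℝ} {n : ℕ} (h : Ctx w K n) : K ≤ (n : ℝ) + 1 := by
  have h1 := h.hKL
  have h2 : (L : ℝ) = n + 2 := by rw [h.hn]; push_cast; ring
  have h3 := h.hK1
  have : (0 : ℝ) ≤ n := Nat.cast_nonneg n
  rw [h2] at h1
  nlinarith

/-- error terms with Wick corrections -/
lemma sum_hh_le {w : Om ι L → ℝ} {K : ℝ} {n : ℕ} (h : Ctx w K n) {o : ι} {D I : Finset ι}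
    (hne : (D ∪ I).Nonempty) (hDI : Disjoint D I) (hJ : D ∪ I ⊆ univ.erase o) {z : ι → ℕ}
    (hz : ∀ c, z c ≤ L) :
    ∑ s ∈ Bx n univ z, (if ∑ c, s c = n then (1 : ℝ) else 0) *
      Ex w (fun ω => |hh w D I s ω|) ≤ Er K n o := by
  have hw := h.hw
  have hw0 := hw.nonneg
  have hK1 := h.hK1
  have hK0 : 0 ≤ K := by linarith
  set B := D ∪ I with hB
  have hoB : o ∉ B := fun ho => Finset.notMem_erase o univ (hJ ho)
  have hcardU : (univ \ B).card = (univ.erase o).card + 1 - B.card := by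
    rw [Finset.card_sdiff_of_subset (Finset.subset_univ B), Finset.card_erase_of_mem (mem_univ o)]
    have : 1 ≤ (univ : Finset ι).card := Finset.card_pos.2 ⟨o, mem_univ o⟩
    omega
  have hBle : B.card ≤ (univ.erase o).card := Finset.card_le_card hJ
  have hB1 : 1 ≤ B.card := Finset.card_pos.2 hne
  have h1 := sum_chi_le (n := n) (B := B) (F := fun s => Ex w (fun ω => |hh w D I s ω|))
    ⟨o, by rw [mem_sdiff]; exact ⟨mem_univ _, hoB⟩⟩
    (fun s s' hs => by simp only [hh_congr w (E := D) (I := I) hs])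
    (fun s => Ex_nonneg hw0 (fun _ => abs_nonneg _)) z
  refine h1.trans ?_
  have h2 : ∑ v ∈ Bx n B z, Ex w (fun ω => |hh w D I v ω|) ≤
      Real.sqrt ((n + 1) ^ B.card * (Cc ι * K ^ B.card)) := by
    calc _ ≤ ∑ v ∈ Bx n B z, Real.sqrt (Ex w (fun ω => hh w D I v ω ^ 2)) :=
          Finset.sum_le_sum (fun v _ => Ex_abs_le_sqrt hw _)
      _ ≤ Real.sqrt ((Bx n B z).card * ∑ v ∈ Bx n B z, Ex w (fun ω => hh w D I v ω ^ 2)) :=
          sum_sqrt_le _ _ (fun t _ => Ex_nonneg hw0 (fun _ => sq_nonneg _))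
      _ ≤ _ := by
          apply Real.sqrt_le_sqrt
          rw [card_Bx]
          push_cast
          refine mul_le_mul_of_nonneg_left ?_ (by positivity)
          refine (hh_bound h hDI z hz).trans ?_
          refine mul_le_mul_of_nonneg_left (pow_le_pow_right₀ hK1 ?_) Cc_pos.le
          rw [hB, Finset.card_union_of_disjoint hDI]
          omega
  refine (mul_le_mul_of_nonneg_left h2 (by positivity)).trans ?_
  unfold Er
  apply Real.le_sqrt_of_sq_le
  have hCc := Cc_pos (ι := ι)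
  rw [mul_pow, Real.sq_sqrt (by positivity), hcardU]
  have hKn := K_le_n h
  have e1 : (((n : ℝ) + 1) ^ ((univ.erase o).card + 1 - B.card - 1)) ^ 2 *
      ((n + 1) ^ B.card * (Cc ι * K ^ B.card)) =
      Cc ι * (K * ((n + 1) ^ (2 * (univ.erase o).card - B.card) * K ^ (B.card - 1))) := by
    have e2 : K ^ B.card = K * K ^ (B.card - 1) := by
      rw [← pow_succ']; congr 1; omega
    rw [← pow_mul, e2]
    have e3 : ((n : ℝ) + 1) ^ (((univ.erase o).card + 1 - B.card - 1) * 2) * (n + 1) ^ B.card =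
        (n + 1) ^ (2 * (univ.erase o).card - B.card) := by
      rw [← pow_add]; congr 1; omega
    rw [← e3]; ring
  rw [e1]
  refine mul_le_mul_of_nonneg_left (mul_le_mul_of_nonneg_left ?_ hK0) hCc.le
  calc ((n : ℝ) + 1) ^ (2 * (univ.erase o).card - B.card) * K ^ (B.card - 1) ≤
        (n + 1) ^ (2 * (univ.erase o).card - B.card) * (n + 1) ^ (B.card - 1) := by gcongr
    _ = (n + 1) ^ (2 * (univ.erase o).card - 1) := by
        rw [← pow_add]; congr 1; omega

lemma Cc_ge42 [Nonempty ι] : 42 ≤ Cc ι := by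
  unfold Cc
  have hk : 1 ≤ Fintype.card ι := Fintype.card_pos
  have h1 : (1 : ℝ) ≤ 4 ^ Fintype.card ι := one_le_pow₀ (by norm_num)
  have h2 : (42 : ℝ) ^ 1 ≤ 42 ^ Fintype.card ι := pow_le_pow_right₀ (by norm_num) hk
  have h3 : (1 : ℝ) ≤ Yc ι ^ Fintype.card ι := one_le_pow₀ Yc_ge
  rw [pow_one] at h2
  have h4 : (42 : ℝ) ≤ 42 ^ Fintype.card ι * Yc ι ^ Fintype.card ι := by nlinarith
  nlinarith

/-- one power of the biases: common bound -/
lemma bb_Er [Nonempty ι] {w : Om ι L → ℝ} {K : ℝ} {n : ℕ} (h : Ctx w K n) {o : ι}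
    (hJ : (univ.erase o).Nonempty) (c : ι) :
    ((n : ℝ) + 1) ^ ((univ.erase o).card - 1) * ∑ t ∈ range L, Ex w (fun ω => |bb w c t ω|) ≤
      Er K n o := by
  have hK1 := h.hK1
  have hK0 : 0 ≤ K := by linarith
  have hj : 1 ≤ (univ.erase o).card := Finset.card_pos.2 hJ
  refine (mul_le_mul_of_nonneg_left (sum_abs_bb h c) (by positivity)).trans ?_
  unfold Er
  apply Real.le_sqrt_of_sq_le
  rw [mul_pow, Real.sq_sqrt (by positivity), ← pow_mul]
  have e : ((n : ℝ) + 1) ^ (((univ.erase o).card - 1) * 2) * (42 * K * (n + 1)) =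
      42 * (K * (n + 1) ^ (2 * (univ.erase o).card - 1)) := by
    have e2 : ((n : ℝ) + 1) ^ (2 * (univ.erase o).card - 1) =
        (n + 1) ^ (((univ.erase o).card - 1) * 2) * (n + 1) := by
      rw [← pow_succ]; congr 1; omega
    rw [e2]; ring
  rw [e]
  exact mul_le_mul_of_nonneg_right Cc_ge42 (by positivity)

/-- error terms with one bias -/
lemma sum_bb_le [Nonempty ι] {w : Om ι L → ℝ} {K : ℝ} {n : ℕ} (h : Ctx w K n) {o c : ι}
    (hco : c ≠ o) {F : ℕ → ℝ} (hF0 : ∀ t, 0 ≤ F t) {R : ℝ}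
    (hF : ∑ t ∈ range (n + 1), F t ≤ R * ∑ t ∈ range L, Ex w (fun ω => |bb w c t ω|))
    (hR : 0 ≤ R) (z : ι → ℕ) :
    ∑ s ∈ Bx n univ z, (if ∑ c, s c = n then (1 : ℝ) else 0) * F (s c) ≤ R * Er K n o := by
  have hcard : (univ \ {c} : Finset ι).card = (univ.erase o).card := by
    rw [Finset.card_sdiff_of_subset (Finset.subset_univ _), Finset.card_singleton,
      Finset.card_erase_of_mem (mem_univ o)]
  have h1 := sum_chi_le (n := n) (B := {c}) (F := fun s => F (s c))
    ⟨o, by rw [mem_sdiff, mem_singleton]; exact ⟨mem_univ _, hco.symm⟩⟩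
    (fun s s' hs => by simp only [hs c (mem_singleton_self c)]) (fun s => hF0 _) z
  refine h1.trans ?_
  rw [sum_Bx_singleton, hcard]
  simp only [Function.update_self]
  have h2 := mul_le_mul_of_nonneg_left hF
    (show (0 : ℝ) ≤ ((n : ℝ) + 1) ^ ((univ.erase o).card - 1) by positivity)
  refine h2.trans ?_
  have h3 := mul_le_mul_of_nonneg_left (bb_Er h (o := o) ⟨c, by simp [hco]⟩ c) hR
  linarith

/-- number of admissible positions -/
noncomputable def Sc (n j0 : ℕ) (c1 : ι) (z : ι → ℕ) : ℝ :=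
  ∑ s ∈ Bx n univ z, (if ∑ c, s c = n ∧ j0 ≤ s c1 then (1 : ℝ) else 0)

/-- total weight -/
theorem sum_aw [Nonempty ι] {w : Om ι L → ℝ} {K : ℝ} {n : ℕ} (h : Ctx w K n) {N : ℕ}
    {u : Fin N → ι → ℝ} (hu : ∀ i c, 0 ≤ u i c ∧ u i c < 1) {M : ℝ}
    (hM : ∀ α : ι → ℝ, (∀ c, 0 ≤ α c ∧ α c ≤ 1) → |Dm u α| ≤ M) {o c1 : ι} (hc1 : c1 ≠ o)
    {j0 : ℕ} (hN : (16 : ℝ) * N ≤ 2 ^ n) (hj0 : 16 * (2 ^ Fintype.card ι * M) ≤ 2 ^ j0)
    {z : ι → ℕ} (hz : ∀ c, z c ≤ L) :
    7 / 8 * Sc n j0 c1 z - j0 * Er K n o ≤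
      ∑ s ∈ Bx n univ z, Ex w (fun ω => - aw u n j0 c1 s ω) := by
  classical
  have hw := h.hw
  have hw0 := hw.nonneg
  have hstep : ∀ s ∈ Bx n univ z, 7 / 8 * (if ∑ c, s c = n ∧ j0 ≤ s c1 then (1 : ℝ) else 0) -
      (if ∑ c, s c = n then (1 : ℝ) else 0) *
        (∑ i ∈ Ico (s c1 - j0) (s c1), Ex w (fun ω => |bb w c1 i ω|)) ≤
      Ex w (fun ω => - aw u n j0 c1 s ω) := by
    intro s hs
    have hsn : ∀ c, s c ≤ n := fun c => (mem_Bx.1 hs).1 c (mem_univ c)
    have hF0 : 0 ≤ ∑ i ∈ Ico (s c1 - j0) (s c1), Ex w (fun ω => |bb w c1 i ω|) :=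
      Finset.sum_nonneg (fun _ _ => Ex_nonneg hw0 (fun _ => abs_nonneg _))
    by_cases hcond : ∑ c, s c = n ∧ j0 ≤ s c1
    · rw [if_pos hcond, if_pos hcond.1, mul_one, one_mul]
      have e1 : Ex w (fun ω => - aw u n j0 c1 s ω) = 1 - Ex w (fun ω => 1 - ee u s ω) := by
        rw [Ex_sub, Ex_const hw.one]
        have : ∀ ω : Om ι L, - aw u n j0 c1 s ω = ee u s ω := by
          intro ω
          unfold aw
          rw [if_pos hcond, neg_neg]
        rw [Ex_congr w this]
        ring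
      rw [e1]
      have hL : s c1 ≤ L := by have := hsn c1; have := h.hn; omega
      have hm : Meas (vc L c1 (s c1)) (fun ω : Om ι L => 1 - ee u s ω) := by
        refine (meas_const _ 1).sub ((ee_meas u s).mono (fun d => ?_))
        by_cases hd : d = c1
        · subst hd; rw [vc_self]
        · rw [vc_of_ne hd]; have := hsn d; have := h.hn; omega
      have h1 := telescoping hw c1 hcond.2 hL (h := fun ω => 1 - ee u s ω)
        (fun ω => by linarith [ee_le_one u s ω]) (fun ω => by linarith [ee_nonneg u s ω]) hm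
      have h2 : Ex w (CE (Pw ι L) (vc L c1 (s c1 - j0)) (fun ω => 1 - ee u s ω)) ≤ 1 / 8 := by
        refine Ex_le_of_le hw (fun ω => ?_)
        refine (ee_avg hu c1 hcond.2 hL ω).trans ?_
        set v := Function.update s c1 (s c1 - j0) with hv
        have hvL : ∀ c, v c ≤ L := by
          intro c
          by_cases hc : c = c1
          · subst hc; simp [hv]; omega
          · simp [hv, hc]; have := hsn c; have := h.hn; omega
        have h3 := box_count hM v hvL ω
        have h4 : ∏ c, (1 / 2 : ℝ) ^ (v c) = (1 / 2 : ℝ) ^ (n - j0) := by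
          rw [Finset.prod_pow_eq_pow_sum]
          congr 1
          have e2 := Finset.add_sum_erase univ s (mem_univ c1)
          have e3 := Finset.add_sum_erase univ v (mem_univ c1)
          have e4 : ∑ c ∈ univ.erase c1, v c = ∑ c ∈ univ.erase c1, s c :=
            Finset.sum_congr rfl (fun c hc => by
              simp [hv, Finset.ne_of_mem_erase hc])
          have e5 : v c1 = s c1 - j0 := by simp [hv]
          rw [e4, e5] at e3
          have := hcond.1
          have := hcond.2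
          omega
        rw [h4] at h3
        have hjn : j0 ≤ n := hcond.2.trans (hsn c1)
        have h5 := mul_le_mul_of_nonneg_left h3 (show (0 : ℝ) ≤ (1 / 2) ^ j0 by positivity)
        refine h5.trans ?_
        rw [mul_add]
        have h6 : (1 / 2 : ℝ) ^ j0 * (N * (1 / 2) ^ (n - j0)) ≤ 1 / 16 := by
          have e6 : (1 / 2 : ℝ) ^ j0 * (N * (1 / 2) ^ (n - j0)) = N * (1 / 2) ^ n := by
            have : (1 / 2 : ℝ) ^ n = (1 / 2) ^ j0 * (1 / 2) ^ (n - j0) := by
              rw [← pow_add]; congr 1; omega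
            rw [this]; ring
          rw [e6, one_div_pow, mul_one_div, div_le_iff₀ (by positivity)]
          linarith
        have h7 : (1 / 2 : ℝ) ^ j0 * (2 ^ Fintype.card ι * M) ≤ 1 / 16 := by
          rw [one_div_pow, one_div_mul_eq_div, div_le_iff₀ (by positivity)]
          linarith
        linarith
      linarith
    · rw [if_neg hcond, mul_zero, zero_sub]
      have e1 : ∀ ω : Om ι L, - aw u n j0 c1 s ω = 0 := by
        intro ω
        unfold aw
        rw [if_neg hcond, neg_zero]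
      rw [Ex_congr w e1]
      have e2 : Ex w (fun _ => (0 : ℝ)) = 0 := by simp [Ex]
      rw [e2]
      have : 0 ≤ (if ∑ c, s c = n then (1 : ℝ) else 0) := by split_ifs <;> norm_num
      have := mul_nonneg this hF0
      linarith
  have h1 := Finset.sum_le_sum hstep
  rw [Finset.sum_sub_distrib, ← Finset.mul_sum] at h1
  have h2 : ∑ s ∈ Bx n univ z, (if ∑ c, s c = n then (1 : ℝ) else 0) *
        (∑ i ∈ Ico (s c1 - j0) (s c1), Ex w (fun ω => |bb w c1 i ω|)) ≤ j0 * Er K n o := by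
    refine sum_bb_le h hc1 (F := fun t => ∑ i ∈ Ico (t - j0) t, Ex w (fun ω => |bb w c1 i ω|))
      (fun t => Finset.sum_nonneg (fun _ _ => Ex_nonneg hw0 (fun _ => abs_nonneg _))) ?_
      (by positivity) z
    have := window_sum (n := n) (j := j0) (b := fun i => Ex w (fun ω => |bb w c1 i ω|))
      (fun i => Ex_nonneg hw0 (fun _ => abs_nonneg _))
    have e7 : range (n + 2) = range L := by rw [h.hn]
    rw [e7] at this
    exact this
  unfold Sc
  linarith

end DK
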