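import Pool.Agent.Work.MP_d500f7_co.K.Sig2

/-! # The signal: total lower bound and the main inequality -/

namespace DK

open Finset

variable {ι : Type} [Fintype ι] [DecidableEq ι] {L : ℕ}

lemma ex_zero (w : Om ι L → ℝ) : Ex w (fun _ => (0 : ℝ)) = 0 := by simp [Ex]

lemma aw_nonpos {N : ℕ} (u : Fin N → ι → ℝ) (n j0 : ℕ) (c1 : ι) (s : ι → ℕ) (ω : Om ι L) :
    aw u n j0 c1 s ω ≤ 0 := by
  unfold aw
  split_ifs
  · linarith [ee_nonneg u s ω]
  · exact le_rfl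

theorem sig_total [Nonempty ι] {w : Om ι L → ℝ} {K : ℝ} {n : ℕ} (h : Ctx w K n) {N : ℕ}
    {u : Fin N → ι → ℝ} (hu : ∀ i c, 0 ≤ u i c ∧ u i c < 1) {M : ℝ}
    (hM : ∀ α : ι → ℝ, (∀ c, 0 ≤ α c ∧ α c ≤ 1) → |Dm u α| ≤ M) {o c1 : ι} (hc1 : c1 ≠ o)
    {j0 : ℕ} (hN : (16 : ℝ) * N ≤ 2 ^ n) (hj0 : 16 * (2 ^ Fintype.card ι * M) ≤ 2 ^ j0)
    {z : ι → ℕ} (hz : ∀ c, z c ≤ L) :
    (1 / 8 : ℝ) ^ (univ.erase o).card * (7 / 8 * Sc n j0 c1 z) -
      (j0 + 2 * 4 ^ Fintype.card ι) * Er K n o ≤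
      ∑ s ∈ Bx n univ z, Ex w (fun ω => - aw u n j0 c1 s ω * phi w (univ.erase o) s ω *
        ∏ c ∈ univ.erase o, uu c (s c) ω) := by
  classical
  have hw := h.hw
  have hw0 := hw.nonneg
  have ha := wt_aw (L := L) u n j0 c1
  set J := univ.erase o with hJ
  have hoJ : o ∉ J := Finset.notMem_erase o univ
  have hEr := Er_nonneg K n o
  have hpos : ∀ s ∈ Bx n univ z, _ := fun s hs =>
    sig_pos hw ha (aw_nonpos u n j0 c1) (s := s) (fun c => by
      have := (mem_Bx.1 hs).1 c (mem_univ c); have := h.hn; omega) J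
  have h1 := Finset.sum_le_sum hpos
  refine le_trans ?_ h1
  -- rewrite the left side
  have e1 : ∑ s ∈ Bx n univ z, ((1 / 8 : ℝ) ^ J.card * (Ex w (fun ω => - aw u n j0 c1 s ω) -
        (if ∑ c, s c = n then 1 else 0) * ∑ I ∈ J.powerset.erase ∅, ∑ c ∈ I,
          Ex w (fun ω => |bb w c (s c + 1) ω|)) -
      (if ∑ c, s c = n then 1 else 0) * ∑ p ∈ Pn J, Ex w (fun ω => |hh w p.2 p.1 s ω|)) =
      (1 / 8 : ℝ) ^ J.card * (∑ s ∈ Bx n univ z, Ex w (fun ω => - aw u n j0 c1 s ω) -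
        ∑ I ∈ J.powerset.erase ∅, ∑ c ∈ I, ∑ s ∈ Bx n univ z,
          (if ∑ c, s c = n then (1 : ℝ) else 0) * Ex w (fun ω => |bb w c (s c + 1) ω|)) -
      ∑ p ∈ Pn J, ∑ s ∈ Bx n univ z, (if ∑ c, s c = n then (1 : ℝ) else 0) *
        Ex w (fun ω => |hh w p.2 p.1 s ω|) := by
    rw [Finset.sum_sub_distrib, ← Finset.mul_sum, Finset.sum_sub_distrib]
    congr 1
    · congr 2
      have e2 : ∀ I ∈ J.powerset.erase ∅, ∑ c ∈ I, ∑ s ∈ Bx n univ z,
          (if ∑ c, s c = n then (1 : ℝ) else 0) * Ex w (fun ω => |bb w c (s c + 1) ω|) =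
          ∑ s ∈ Bx n univ z, ∑ c ∈ I, (if ∑ c, s c = n then (1 : ℝ) else 0) *
            Ex w (fun ω => |bb w c (s c + 1) ω|) := fun I _ => Finset.sum_comm
      rw [Finset.sum_congr rfl e2, Finset.sum_comm]
      refine Finset.sum_congr rfl (fun s _ => ?_)
      rw [Finset.mul_sum]
      refine Finset.sum_congr rfl (fun I _ => ?_)
      rw [Finset.mul_sum]
    · rw [Finset.sum_comm]
      refine Finset.sum_congr rfl (fun s _ => ?_)
      rw [Finset.mul_sum]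
  rw [e1]
  -- bounds
  have hsumaw := sum_aw h hu hM hc1 hN hj0 hz
  have b1 : ∀ I ∈ J.powerset.erase ∅, ∑ c ∈ I, ∑ s ∈ Bx n univ z,
      (if ∑ c, s c = n then (1 : ℝ) else 0) * Ex w (fun ω => |bb w c (s c + 1) ω|) ≤
      Fintype.card ι * Er K n o := by
    intro I hI
    have hIJ : I ⊆ J := Finset.mem_powerset.1 (Finset.mem_of_mem_erase hI)
    have hb : ∀ c ∈ I, ∑ s ∈ Bx n univ z,
      (if ∑ c, s c = n then (1 : ℝ) else 0) * Ex w (fun ω => |bb w c (s c + 1) ω|) ≤ Er K n o := by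
      intro c hc
      have hco : c ≠ o := fun e => hoJ (e ▸ hIJ hc)
      have := sum_bb_le h hco (F := fun t => Ex w (fun ω => |bb w c (t + 1) ω|)) (R := 1)
        (fun t => Ex_nonneg hw0 (fun _ => abs_nonneg _)) (by
          rw [one_mul]
          have e3 : range L = range ((n + 1) + 1) := by rw [h.hn]
          rw [e3, Finset.sum_range_succ' _ (n + 1)]
          have : 0 ≤ Ex w (fun ω => |bb w c 0 ω|) := Ex_nonneg hw0 (fun _ => abs_nonneg _)
          linarith) (by norm_num) z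
      rwa [one_mul] at this
    refine (Finset.sum_le_sum hb).trans ?_
    rw [Finset.sum_const, nsmul_eq_mul]
    refine mul_le_mul_of_nonneg_right ?_ hEr
    exact_mod_cast Finset.card_le_univ I
  have b2 : ∑ I ∈ J.powerset.erase ∅, ∑ c ∈ I, ∑ s ∈ Bx n univ z,
      (if ∑ c, s c = n then (1 : ℝ) else 0) * Ex w (fun ω => |bb w c (s c + 1) ω|) ≤
      4 ^ Fintype.card ι * Er K n o := by
    refine (Finset.sum_le_sum b1).trans ?_
    rw [Finset.sum_const, nsmul_eq_mul, ← mul_assoc]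
    refine mul_le_mul_of_nonneg_right ?_ hEr
    have h2 : ((J.powerset.erase ∅).card : ℝ) ≤ 2 ^ Fintype.card ι := by
      have h3 : (J.powerset.erase ∅).card ≤ 2 ^ Fintype.card ι := by
        refine (Finset.card_le_card (Finset.erase_subset _ _)).trans ?_
        rw [Finset.card_powerset]
        exact Nat.pow_le_pow_right (by norm_num) (Finset.card_le_univ J)
      exact_mod_cast h3
    have h4 : (Fintype.card ι : ℝ) ≤ 2 ^ Fintype.card ι := by
      exact_mod_cast (Nat.lt_two_pow_self (n := Fintype.card ι)).le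
    calc _ ≤ (2 : ℝ) ^ Fintype.card ι * 2 ^ Fintype.card ι :=
          mul_le_mul h2 h4 (by positivity) (by positivity)
      _ = 4 ^ Fintype.card ι := by rw [← mul_pow]; norm_num
  have b3 : ∑ p ∈ Pn J, ∑ s ∈ Bx n univ z, (if ∑ c, s c = n then (1 : ℝ) else 0) *
        Ex w (fun ω => |hh w p.2 p.1 s ω|) ≤ 4 ^ Fintype.card ι * Er K n o := by
    have hb : ∀ p ∈ Pn J, ∑ s ∈ Bx n univ z, (if ∑ c, s c = n then (1 : ℝ) else 0) *
        Ex w (fun ω => |hh w p.2 p.1 s ω|) ≤ Er K n o := by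
      rintro ⟨I, D⟩ hp
      obtain ⟨hI, hD, hne⟩ := mem_Pn hp
      exact sum_hh_le h hne (Finset.disjoint_left.2 (fun x hx => (mem_sdiff.1 (hD hx)).2))
        (Finset.union_subset (fun x hx => (mem_sdiff.1 (hD hx)).1) hI) hz
    refine (Finset.sum_le_sum hb).trans ?_
    rw [Finset.sum_const, nsmul_eq_mul]
    refine mul_le_mul_of_nonneg_right ?_ hEr
    exact card_Pn J
  have hp : (0 : ℝ) ≤ (1 / 8 : ℝ) ^ J.card := by positivity
  have hp1 : (1 / 8 : ℝ) ^ J.card ≤ 1 := pow_le_one₀ (by norm_num) (by norm_num)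
  set B1 := ∑ I ∈ J.powerset.erase ∅, ∑ c ∈ I, ∑ s ∈ Bx n univ z,
      (if ∑ c, s c = n then (1 : ℝ) else 0) * Ex w (fun ω => |bb w c (s c + 1) ω|) with hB1
  set A1 := ∑ s ∈ Bx n univ z, Ex w (fun ω => - aw u n j0 c1 s ω) with hA1
  have h5 : (1 / 8 : ℝ) ^ J.card * (7 / 8 * Sc n j0 c1 z - (j0 + 4 ^ Fintype.card ι) * Er K n o) ≤
      (1 / 8 : ℝ) ^ J.card * (A1 - B1) := mul_le_mul_of_nonneg_left (by linarith) hp
  have h6 : (1 / 8 : ℝ) ^ J.card * ((j0 + 4 ^ Fintype.card ι) * Er K n o) ≤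
      1 * ((j0 + 4 ^ Fintype.card ι) * Er K n o) :=
    mul_le_mul_of_nonneg_right hp1 (by positivity)
  linarith

end DK
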