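import Pool.Agent.Work.MP_d500f7_co.K.Lv

/-! partial sums over positions -/

namespace DK

open Finset

variable {ι : Type} [Fintype ι] [DecidableEq ι] {L : ℕ}

lemma mem_Bx {n : ℕ} {C : Finset ι} {z s : ι → ℕ} :
    s ∈ Bx n C z ↔ (∀ c ∈ C, s c ≤ n) ∧ (∀ c ∉ C, s c = z c) := by
  unfold Bx
  rw [Fintype.mem_piFinset]
  constructor
  · intro h
    refine ⟨fun c hc => ?_, fun c hc => ?_⟩
    · have := h c
      rw [if_pos hc, mem_range] at this
      omega
    · have := h c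
      rw [if_neg hc, mem_singleton] at this
      exact this
  · rintro ⟨h1, h2⟩ c
    by_cases hc : c ∈ C
    · rw [if_pos hc, mem_range]
      have := h1 c hc
      omega
    · rw [if_neg hc, mem_singleton]
      exact h2 c hc

lemma Bx_congr {n : ℕ} {C : Finset ι} {z z' : ι → ℕ} (h : ∀ c ∉ C, z c = z' c) :
    Bx n C z = Bx n C z' := by
  ext s
  rw [mem_Bx, mem_Bx]
  constructor
  · rintro ⟨h1, h2⟩
    exact ⟨h1, fun c hc => (h2 c hc).trans (h c hc)⟩
  · rintro ⟨h1, h2⟩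
    exact ⟨h1, fun c hc => (h2 c hc).trans (h c hc).symm⟩

lemma sum_Bx_empty {V : Type*} [AddCommMonoid V] (n : ℕ) (z : ι → ℕ) (F : (ι → ℕ) → V) :
    ∑ s ∈ Bx n ∅ z, F s = F z := by
  have : Bx n ∅ z = {z} := by
    ext s
    rw [mem_Bx, mem_singleton]
    constructor
    · rintro ⟨_, h⟩
      funext c
      exact h c (Finset.notMem_empty c)
    · rintro rfl
      exact ⟨fun c hc => absurd hc (Finset.notMem_empty c), fun _ _ => rfl⟩
  rw [this, Finset.sum_singleton]

lemma sum_Bx_union {V : Type*} [AddCommMonoid V] (n : ℕ) {C D : Finset ι} (h : Disjoint C D)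
    (z : ι → ℕ) (F : (ι → ℕ) → V) :
    ∑ s ∈ Bx n (C ∪ D) z, F s = ∑ u ∈ Bx n C z, ∑ s ∈ Bx n D u, F s := by
  rw [Finset.sum_sigma']
  refine Finset.sum_nbij' (fun s => ⟨C.piecewise s z, s⟩) (fun p => p.2) ?_ ?_ ?_ ?_ ?_
  · intro s hs
    rw [mem_Bx] at hs
    rw [mem_sigma, mem_Bx, mem_Bx]
    refine ⟨⟨fun c hc => ?_, fun c hc => ?_⟩, fun c hc => hs.1 c (mem_union_right _ hc),
      fun c hc => ?_⟩
    · simp only [Finset.piecewise_eq_of_mem _ _ _ hc]
      exact hs.1 c (mem_union_left _ hc)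
    · simp only [Finset.piecewise_eq_of_notMem _ _ _ hc]
    · by_cases hcC : c ∈ C
      · simp only [Finset.piecewise_eq_of_mem _ _ _ hcC]
      · simp only [Finset.piecewise_eq_of_notMem _ _ _ hcC]
        exact hs.2 c (by simp [hcC, hc])
  · rintro ⟨u, s⟩ hp
    rw [mem_sigma, mem_Bx, mem_Bx] at hp
    obtain ⟨⟨h1, h2⟩, h3, h4⟩ := hp
    simp only at h1 h2 h3 h4 ⊢
    rw [mem_Bx]
    refine ⟨fun c hc => ?_, fun c hc => ?_⟩
    · rcases mem_union.1 hc with hc | hc
      · rw [h4 c (Finset.disjoint_left.1 h hc)]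
        exact h1 c hc
      · exact h3 c hc
    · rw [mem_union, not_or] at hc
      rw [h4 c hc.2, h2 c hc.1]
  · intro s hs; rfl
  · rintro ⟨u, s⟩ hp
    rw [mem_sigma, mem_Bx, mem_Bx] at hp
    obtain ⟨⟨h1, h2⟩, h3, h4⟩ := hp
    simp only at h1 h2 h3 h4 ⊢
    have : C.piecewise s z = u := by
      funext c
      by_cases hc : c ∈ C
      · rw [Finset.piecewise_eq_of_mem _ _ _ hc, h4 c (Finset.disjoint_left.1 h hc)]
      · rw [Finset.piecewise_eq_of_notMem _ _ _ hc, h2 c hc]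
    rw [this]
  · intro s hs; rfl

lemma sum_Bx_singleton {V : Type*} [AddCommMonoid V] (n : ℕ) (c : ι) (z : ι → ℕ)
    (F : (ι → ℕ) → V) :
    ∑ s ∈ Bx n {c} z, F s = ∑ t ∈ range (n + 1), F (Function.update z c t) := by
  refine Finset.sum_nbij' (fun s => s c) (fun t => Function.update z c t) ?_ ?_ ?_ ?_ ?_
  · intro s hs
    rw [mem_Bx] at hs
    have := hs.1 c (mem_singleton_self c)
    rw [mem_range]; omega
  · intro t ht
    rw [mem_range] at ht
    rw [mem_Bx]
    refine ⟨fun d hd => ?_, fun d hd => ?_⟩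
    · rw [mem_singleton] at hd
      subst hd
      simp; omega
    · rw [mem_singleton] at hd
      simp [hd]
  · intro s hs
    rw [mem_Bx] at hs
    funext d
    by_cases hd : d = c
    · subst hd; simp
    · simp only [Function.update_of_ne hd]
      exact (hs.2 d (by simpa using hd)).symm
  · intro t ht; simp
  · intro s hs
    rw [mem_Bx] at hs
    congr 1
    funext d
    by_cases hd : d = c
    · subst hd; simp
    · simp only [Function.update_of_ne hd]
      exact hs.2 d (by simpa using hd)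

lemma sum_Bx_insert {V : Type*} [AddCommMonoid V] (n : ℕ) {C : Finset ι} {c : ι} (hc : c ∉ C)
    (z : ι → ℕ) (F : (ι → ℕ) → V) :
    ∑ s ∈ Bx n (insert c C) z, F s =
      ∑ t ∈ range (n + 1), ∑ s ∈ Bx n C (Function.update z c t), F s := by
  rw [Finset.insert_eq, sum_Bx_union n (by simpa using hc), sum_Bx_singleton]

lemma card_Bx (n : ℕ) (C : Finset ι) (z : ι → ℕ) : (Bx n C z).card = (n + 1) ^ C.card := by
  unfold Bx
  rw [Fintype.card_piFinset]
  have : ∀ c : ι, (if c ∈ C then range (n + 1) else {z c}).card = if c ∈ C then (n + 1) else 1 := by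
    intro c
    split_ifs <;> simp
  rw [Finset.prod_congr rfl (fun c _ => this c)]
  rw [Finset.prod_ite_mem, Finset.univ_inter, Finset.prod_const]

lemma Bx_le {n : ℕ} {C : Finset ι} {z s : ι → ℕ} (hs : s ∈ Bx n C z) {m : ℕ} (hn : n ≤ m)
    (hz : ∀ c, z c ≤ m) : ∀ c, s c ≤ m := by
  intro c
  rw [mem_Bx] at hs
  by_cases hc : c ∈ C
  · exact (hs.1 c hc).trans hn
  · rw [hs.2 c hc]; exact hz c

lemma Bx_eq_off {n : ℕ} {C : Finset ι} {z s : ι → ℕ} (hs : s ∈ Bx n C z) {c : ι} (hc : c ∉ C) :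
    s c = z c := (mem_Bx.1 hs).2 c hc

lemma sum_Bx_update {V : Type*} [AddCommMonoid V] (n : ℕ) {C : Finset ι} {c : ι} (hc : c ∈ C)
    (z : ι → ℕ) (t : ℕ) (F : (ι → ℕ) → V) :
    ∑ s ∈ Bx n C (Function.update z c t), F s = ∑ s ∈ Bx n C z, F s := by
  rw [Bx_congr]
  intro d hd
  have : d ≠ c := fun h => hd (h ▸ hc)
  simp [this]

/-- sums over a box of a function that depends only on some of the coordinates -/
lemma sum_Bx_dep {V : Type} [AddCommMonoid V] (n : ℕ) {C D : Finset ι} (h : Disjoint C D)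
    (z : ι → ℕ) {F : (ι → ℕ) → V} {Q : Finset ι} (hF : Dep Q F) (hQ : Disjoint Q D) :
    ∑ s ∈ Bx n (C ∪ D) z, F s = (n + 1) ^ D.card • ∑ s ∈ Bx n C z, F s := by
  rw [sum_Bx_union n h, ← Finset.sum_nsmul]
  refine Finset.sum_congr rfl (fun u hu => ?_)
  rw [← card_Bx n D u, ← Finset.sum_const]
  refine Finset.sum_congr rfl (fun s hs => hF _ _ (fun c hc => ?_))
  exact Bx_eq_off hs (Finset.disjoint_left.1 hQ hc)

lemma Dep.mono {X : Type} {Q Q' : Finset ι} {F : (ι → ℕ) → X} (h : Dep Q F) (hQ : Q ⊆ Q') :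
    Dep Q' F := fun s s' hs => h s s' (fun c hc => hs c (hQ hc))

lemma dep_xm (C : Finset ι) : Dep C (fun s => xm (L := L) C s) := by
  intro s s' h
  funext ω
  exact xm_congr h ω

lemma dep_bm (w : Om ι L → ℝ) (C : Finset ι) : Dep C (fun s => bm w C s) := by
  intro s s' h
  funext ω
  exact bm_congr h ω

lemma dep_em (w : Om ι L → ℝ) (C : Finset ι) : Dep C (fun s => em w C s) := by
  intro s s' h
  funext ω
  exact em_congr h ω

end DK
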