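import Pool.Agent.Work.MP_d500f7_co.K.CrossB

/-! # Row sums of the matrices -/

namespace DK

open Finset

variable {ι : Type} [Fintype ι] [DecidableEq ι] {L : ℕ}

/-- row sums -/
noncomputable def Ur (n : ℕ) (o : ι) (B C : Finset ι) (a r : (ι → ℕ) → Om ι L → ℝ) (z : ι → ℕ)
    (l : ℕ) (ω : Om ι L) : ℝ :=
  ∑ s ∈ Bx n (B ∪ C) (Function.update z o l), xm C s ω * a s ω * r s ω

lemma row_le {n : ℕ} {a r : (ι → ℕ) → Om ι L → ℝ} {o : ι} {B C : Finset ι} (hoB : o ∉ B)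
    (hoC : o ∉ C) (hBC : Disjoint B C) {z : ι → ℕ} {ω : Om ι L} {b : ℝ} (hb : 0 ≤ b)
    (hop : OpLe (TT n C (Df n o B a) z ω) b)
    (hr : Dep (univ \ insert o C) (fun s => r s ω)) :
    ∑ l ∈ range (n + 1), Ur n o B C a r z l ω ^ 2 ≤ b * ∑ s ∈ Bx n B z, r s ω ^ 2 := by
  have hBCo : o ∉ B ∪ C := by rw [mem_union, not_or]; exact ⟨hoB, hoC⟩
  set g : (ι → ℕ) → ℝ := fun s =>
    ∑ s' ∈ Bx n (B ∪ C) s, xm C s' ω * a s' ω * r s' ω with hg
  have hgd : Dep (univ \ (B ∪ C)) g := by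
    intro s s' hs
    simp only [hg]
    rw [Bx_congr (fun c hc => hs c (by rw [mem_sdiff]; exact ⟨mem_univ _, hc⟩))]
  have h1 := bilin hoB hoC hBC hop hgd hr
  have e1 : ∑ s ∈ Bx n {o} z, g s ^ 2 = ∑ l ∈ range (n + 1), Ur n o B C a r z l ω ^ 2 := by
    rw [sum_Bx_singleton]
    rfl
  have e2 : ∑ s ∈ Bx n ({o} ∪ (B ∪ C)) z, g s * (xm C s ω * a s ω) * r s ω =
      ∑ l ∈ range (n + 1), Ur n o B C a r z l ω ^ 2 := by
    rw [sum_Bx_union n (by rw [Finset.disjoint_singleton_left]; exact hBCo), sum_Bx_singleton]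
    refine Finset.sum_congr rfl (fun l _ => ?_)
    have e3 : ∀ s ∈ Bx n (B ∪ C) (Function.update z o l),
        g s * (xm C s ω * a s ω) * r s ω =
        Ur n o B C a r z l ω * (xm C s ω * a s ω * r s ω) := by
      intro s hs
      have : g s = Ur n o B C a r z l ω := by
        have h3 := hgd s (Function.update z o l) (fun c hc => by
          rw [mem_sdiff] at hc
          exact Bx_eq_off hs hc.2)
        rw [h3]
        rfl
      rw [this]; ring
    rw [Finset.sum_congr rfl e3, ← Finset.mul_sum, sq]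
    rfl
  rw [e1, e2] at h1
  set X := ∑ l ∈ range (n + 1), Ur n o B C a r z l ω ^ 2 with hX
  have hX0 : 0 ≤ X := Finset.sum_nonneg (fun _ _ => sq_nonneg _)
  have hR0 : 0 ≤ ∑ s ∈ Bx n B z, r s ω ^ 2 := Finset.sum_nonneg (fun _ _ => sq_nonneg _)
  rcases hX0.eq_or_lt with h0 | h0
  · rw [← h0]; exact mul_nonneg hb hR0
  · have h2 : X * X ≤ (b * ∑ s ∈ Bx n B z, r s ω ^ 2) * X := by nlinarith
    exact le_of_mul_le_mul_right h2 h0

lemma abs_Ur_le {n : ℕ} {a r : (ι → ℕ) → Om ι L → ℝ} (ha : Wt a n) {o : ι} {B C : Finset ι}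
    {R : ℝ} (hR0 : 0 ≤ R) (hr : ∀ s ω, |r s ω| ≤ R) (z : ι → ℕ) (l : ℕ) (ω : Om ι L) :
    |Ur n o B C a r z l ω| ≤ (n + 1) ^ (B ∪ C).card * R := by
  unfold Ur
  calc _ ≤ ∑ s ∈ Bx n (B ∪ C) (Function.update z o l), |xm C s ω * a s ω * r s ω| :=
        Finset.abs_sum_le_sum_abs _ _
    _ ≤ ∑ _s ∈ Bx n (B ∪ C) (Function.update z o l), R := by
        refine Finset.sum_le_sum (fun s _ => ?_)
        rw [abs_mul, abs_mul, abs_xm, one_mul]
        calc |a s ω| * |r s ω| ≤ 1 * R :=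
              mul_le_mul (ha.le1 s ω) (hr s ω) (abs_nonneg _) zero_le_one
          _ = R := one_mul R
    _ = _ := by rw [Finset.sum_const, card_Bx, nsmul_eq_mul]; push_cast; ring

/-- expectation of the squares of the row sums -/
theorem rowE {w : Om ι L → ℝ} {K : ℝ} {n : ℕ} (h : Ctx w K n) {a : (ι → ℕ) → Om ι L → ℝ}
    (ha : Wt a n) {o : ι} {D I C : Finset ι} (hne : (D ∪ I).Nonempty) (hDI : Disjoint D I)
    (hoB : o ∉ D ∪ I) (hoC : o ∉ C) (hBC : Disjoint (D ∪ I) C) (z : ι → ℕ)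
    (hz : ∀ c, z c ≤ L) :
    Ex w (fun ω => ∑ l ∈ range (n + 1), Ur n o (D ∪ I) C a (hh w D I) z l ω ^ 2) ≤
      (30 * K) ^ C.card * (n + 1) ^ (C.card + (D ∪ I).card - 1) *
        (Cc ι * K ^ (D ∪ I).card) + Real.exp (-K) := by
  have hw := h.hw
  have hw0 := hw.nonneg
  have hK1 := h.hK1
  have hK0 : 0 ≤ K := by linarith
  set b : ℝ := (30 * K) ^ C.card * (n + 1) ^ (C.card + (D ∪ I).card - 1) with hb
  have hb0 : 0 ≤ b := by positivity
  have hBc := Bc_pos (ι := ι)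
  have hcardDI : (D ∪ I).card + C.card + 1 ≤ Fintype.card ι := by
    have h1 : (insert o ((D ∪ I) ∪ C)).card = (D ∪ I).card + C.card + 1 := by
      rw [Finset.card_insert_of_notMem, Finset.card_union_of_disjoint hBC]
      rw [mem_union, not_or]; exact ⟨hoB, hoC⟩
    rw [← h1]; exact Finset.card_le_univ _
  have h1 := opb h ha hne hoB hoC hBC z hz
  set Bm : ℝ := L * ((L : ℝ) ^ ((D ∪ I) ∪ C).card * Bc ι) ^ 2 with hBm
  have h2 := Ex_split (w := w) hw0
    (g := fun ω => ∑ l ∈ range (n + 1), Ur n o (D ∪ I) C a (hh w D I) z l ω ^ 2)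
    (h := fun ω => b * ∑ s ∈ Bx n (D ∪ I) z, hh w D I s ω ^ 2) (B := Bm) (by positivity)
    (fun ω => ¬ OpLe (TT n C (Df n o (D ∪ I) a) z ω) b)
    (fun ω hω => by
      rw [not_not] at hω
      refine row_le hoB hoC hBC hb0 hω (fun s s' hs => ?_)
      have := hh_congr w (E := D) (I := I) (s := s) (s' := s') (fun c hc => hs c (by
        rw [mem_sdiff, mem_insert, not_or]
        exact ⟨mem_univ _, fun hco => hoB (hco ▸ hc), Finset.disjoint_left.1 hBC hc⟩))
      simp only [this])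
    (fun ω => mul_nonneg hb0 (Finset.sum_nonneg fun _ _ => sq_nonneg _))
    (fun ω => by
      calc _ ≤ ∑ _l ∈ range (n + 1), ((L : ℝ) ^ ((D ∪ I) ∪ C).card * Bc ι) ^ 2 := by
            refine Finset.sum_le_sum (fun l _ => ?_)
            rw [← sq_abs]
            refine pow_le_pow_left₀ (abs_nonneg _) ?_ 2
            refine (abs_Ur_le ha hBc.le (fun s ω => abs_hh_le hw D I s ω) z l ω).trans ?_
            have := h.hnr
            gcongr
        _ = (n + 1) * ((L : ℝ) ^ ((D ∪ I) ∪ C).card * Bc ι) ^ 2 := by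
            rw [Finset.sum_const, Finset.card_range, nsmul_eq_mul]; push_cast; ring
        _ ≤ Bm := by
            have := h.hnr
            rw [hBm]
            gcongr)
  have e5 : Ex w (fun ω => ∑ s ∈ Bx n (D ∪ I) z, hh w D I s ω ^ 2) =
      ∑ s ∈ Bx n (D ∪ I) z, Ex w (fun ω => hh w D I s ω ^ 2) := Ex_sum _ _ _
  rw [Ex_const_mul, e5] at h2
  have h3 := hh_bound h hDI z hz
  have h4 : Cc ι * K ^ (D.card + (I.card - 1)) ≤ Cc ι * K ^ (D ∪ I).card := by
    refine mul_le_mul_of_nonneg_left (pow_le_pow_right₀ hK1 ?_) Cc_pos.le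
    rw [Finset.card_union_of_disjoint hDI]
    omega
  refine h2.trans (add_le_add (mul_le_mul_of_nonneg_left (h3.trans h4) hb0) ?_)
  calc Bm * Ex w (ind (fun ω => ¬ OpLe (TT n C (Df n o (D ∪ I) a) z ω) b)) ≤
        Bm * Real.exp (-2 * K) := mul_le_mul_of_nonneg_left h1 (by positivity)
    _ ≤ Bm * (Real.exp (-K / 2) * Real.exp (-K)) := by
        refine mul_le_mul_of_nonneg_left ?_ (by positivity)
        rw [← Real.exp_add]
        exact Real.exp_le_exp.2 (by linarith)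
    _ = (4 ^ (2 * (Fintype.card ι * Fintype.card ι)) *
          L ^ (1 + 2 * ((D ∪ I) ∪ C).card) * Real.exp (-K / 2)) * Real.exp (-K) := by
        rw [hBm, mul_pow, Bc_sq, pow_add (L : ℝ) 1, pow_mul' (L : ℝ) 2]; ring
    _ ≤ 1 * Real.exp (-K) := by
        refine mul_le_mul_of_nonneg_right (h.err (by omega) ?_) (Real.exp_pos _).le
        have : ((D ∪ I) ∪ C).card ≤ Fintype.card ι := Finset.card_le_univ _
        omega
    _ = _ := one_mul _

end DK
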