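import Pool.Agent.Work.MP_d500f7_co.K.VB1

/-! # Second moment of the main part -/

namespace DK

open Finset

variable {ι : Type} [Fintype ι] [DecidableEq ι] {L : ℕ}

lemma Th_nonneg {K : ℝ} (hK : 0 ≤ K) (n : ℕ) (o : ι) : 0 ≤ Th K n o := by
  unfold Th
  have := Cc_pos (ι := ι)
  positivity

/-- the intermediate second moments -/
noncomputable def Wd (w : Om ι L → ℝ) (n : ℕ) (o : ι) (a : (ι → ℕ) → Om ι L → ℝ)
    (C : Finset ι) (z : ι → ℕ) : ℝ :=
  ∑ s ∈ Bx n ({o} ∪ (univ.erase o \ C)) z, Ex w (fun ω => (TT n C a s ω) ^ 2)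

lemma Ur_single {n : ℕ} (o : ι) {c : ι} {C : Finset ι} (hc : c ∉ C)
    (w : Om ι L → ℝ) (a : (ι → ℕ) → Om ι L → ℝ) (u : ι → ℕ) (l : ℕ) (ω : Om ι L) :
    Ur n o {c} C a (hh w {c} ∅) u l ω = ∑ t ∈ range (n + 1), bb w c t ω *
      TT n C a (Function.update (Function.update u o l) c t) ω := by
  unfold Ur
  rw [← Finset.insert_eq, sum_Bx_insert n hc]
  refine Finset.sum_congr rfl (fun t _ => ?_)
  unfold TT
  rw [Finset.mul_sum]
  refine Finset.sum_congr rfl (fun s hs => ?_)
  have h1 : s c = t := by rw [Bx_eq_off hs hc]; simp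
  unfold hh bm
  rw [Finset.prod_singleton, cw_empty, h1, smul_eq_mul]
  ring

theorem wrec {w : Om ι L → ℝ} {K : ℝ} {n : ℕ} (h : Ctx w K n) {a : (ι → ℕ) → Om ι L → ℝ}
    (ha : Wt a n) (o : ι) {z : ι → ℕ} (hz : ∀ c, z c ≤ L) (C : Finset ι) :
    C ⊆ univ.erase o → Wd w n o a C z ≤
      2 ^ C.card * ((n + 1) ^ (univ.erase o).card + C.card * (Th K n o + 1)) := by
  have hw := h.hw
  have hw0 := hw.nonneg
  have hK1 := h.hK1
  have hK0 : 0 ≤ K := by linarith
  have hTh := Th_nonneg hK0 n o
  induction C using Finset.induction_on with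
  | empty =>
    intro _
    unfold Wd
    have hset : {o} ∪ (univ.erase o \ ∅) = (univ : Finset ι) := by
      ext x
      simp only [mem_union, mem_singleton, mem_sdiff, mem_erase, mem_univ, and_true,
        Finset.notMem_empty, not_false_eq_true, iff_true]
      tauto
    rw [hset, Finset.card_empty, pow_zero, one_mul, Nat.cast_zero, zero_mul, add_zero]
    have h1 := cnt n n (B := (univ : Finset ι)) ⟨o, mem_univ o⟩ z
    have hcard : (univ : Finset ι).card - 1 = (univ.erase o).card :=
      (Finset.card_erase_of_mem (mem_univ o)).symm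
    rw [hcard] at h1
    refine le_trans (Finset.sum_le_sum (fun s _ => ?_)) h1
    simp only [TT_empty]
    split_ifs with hs
    · refine Ex_le_of_le hw (fun ω => ?_)
      rw [← sq_abs]
      exact pow_le_one₀ (abs_nonneg _) (ha.le1 s ω)
    · refine le_of_eq ?_
      have : ∀ ω, a s ω ^ 2 = 0 := fun ω => by rw [ha.supp s hs ω]; norm_num
      rw [Ex_congr w this]
      simp [Ex]
  | insert c C hc ih =>
    intro hCJ
    have hCJ' : C ⊆ univ.erase o := (Finset.subset_insert c C).trans hCJ
    have ih' := ih hCJ'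
    have hco : c ≠ o := Finset.ne_of_mem_erase (hCJ (mem_insert_self c C))
    have hoC : o ∉ C := fun ho => Finset.notMem_erase o univ (hCJ' ho)
    set A := univ.erase o \ insert c C with hA
    have hcA : c ∉ A := fun hx => (mem_sdiff.1 hx).2 (mem_insert_self c C)
    have hoA : o ∉ A := fun hx => Finset.notMem_erase o univ (mem_sdiff.1 hx).1
    have hcoA : c ∉ ({o} : Finset ι) ∪ A := by
      rw [mem_union, mem_singleton, not_or]; exact ⟨hco, hcA⟩
    have hset : ({o} ∪ A) ∪ {c} = {o} ∪ (univ.erase o \ C) := by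
      ext x
      simp only [mem_union, mem_singleton, hA, mem_sdiff, mem_insert, mem_erase, mem_univ,
        and_true]
      constructor
      · rintro ((rfl | ⟨h1, h2⟩) | rfl)
        · tauto
        · tauto
        · right; exact ⟨hco, hc⟩
      · rintro (rfl | ⟨h1, h2⟩)
        · tauto
        · by_cases hx : x = c
          · tauto
          · left; right; exact ⟨h1, by tauto⟩
    have hcards : A.card + (C.card + 1) = (univ.erase o).card := by
      rw [hA, Finset.card_sdiff_of_subset hCJ, Finset.card_insert_of_notMem hc]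
      have := Finset.card_le_card hCJ
      rw [Finset.card_insert_of_notMem hc] at this
      omega
    have hsL : ∀ s ∈ Bx n ({o} ∪ A) z, ∀ d, s d ≤ L := fun s hs =>
      Bx_le hs (by rw [h.hn]; omega) hz
    -- pointwise in s
    have hs1 : ∀ s ∈ Bx n ({o} ∪ A) z, Ex w (fun ω => (TT n (insert c C) a s ω) ^ 2) ≤
        2 * ∑ t ∈ range (n + 1), Ex w (fun ω => (TT n C a (Function.update s c t) ω) ^ 2) +
        2 * Ex w (fun ω => (∑ t ∈ range (n + 1), bb w c t ω *
          TT n C a (Function.update s c t) ω) ^ 2) := by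
      intro s hs
      have hm : ∀ t, t < n + 1 → Meas (vc L c t) (TT n C a (Function.update s c t)) := by
        intro t ht
        refine meas_TT h.hn1 hc (hsL s hs) ht (fun s' hs' => ha.meas_lv _ ?_)
        exact Bx_le hs' (by rw [h.hn]; omega) (update_le (hsL s hs) c (by rw [h.hn]; omega))
      have hbs := bessel_sum hw c (fun t => TT n C a (Function.update s c t)) (n + 1) hm
      have hpt : ∀ ω, (TT n (insert c C) a s ω) ^ 2 ≤
          2 * (∑ t ∈ range (n + 1), et w c t ω * TT n C a (Function.update s c t) ω) ^ 2 +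
          2 * (∑ t ∈ range (n + 1), bb w c t ω * TT n C a (Function.update s c t) ω) ^ 2 := by
        intro ω
        have e : TT n (insert c C) a s ω =
            ∑ t ∈ range (n + 1), et w c t ω * TT n C a (Function.update s c t) ω +
            ∑ t ∈ range (n + 1), bb w c t ω * TT n C a (Function.update s c t) ω := by
          rw [TT_insert n hc, ← Finset.sum_add_distrib]
          refine Finset.sum_congr rfl (fun t _ => ?_)
          rw [smul_eq_mul]; unfold et; ring
        rw [e]
        nlinarith [sq_nonneg (∑ t ∈ range (n + 1), et w c t ω *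
          TT n C a (Function.update s c t) ω - ∑ t ∈ range (n + 1), bb w c t ω *
          TT n C a (Function.update s c t) ω)]
      have h1 := Ex_mono hw0 hpt
      rw [Ex_add, Ex_const_mul, Ex_const_mul] at h1
      linarith
    -- first part
    have hfirst : ∑ s ∈ Bx n ({o} ∪ A) z, ∑ t ∈ range (n + 1),
        Ex w (fun ω => (TT n C a (Function.update s c t) ω) ^ 2) = Wd w n o a C z := by
      unfold Wd
      have e := sum_Bx_union n (C := {o} ∪ A) (D := {c})
        (by rw [Finset.disjoint_singleton_right]; exact hcoA) z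
        (fun s => Ex w (fun ω => (TT n C a s ω) ^ 2))
      rw [← hset, e]
      refine Finset.sum_congr rfl (fun s _ => ?_)
      rw [sum_Bx_singleton]
    -- second part
    have hsecond : ∑ s ∈ Bx n ({o} ∪ A) z, Ex w (fun ω => (∑ t ∈ range (n + 1), bb w c t ω *
          TT n C a (Function.update s c t) ω) ^ 2) ≤ Th K n o + 1 := by
      rw [Finset.union_comm, sum_Bx_union n (by
        rw [Finset.disjoint_singleton_right]; exact hoA)]
      have hu : ∀ u ∈ Bx n A z, ∑ s ∈ Bx n {o} u, Ex w (fun ω => (∑ t ∈ range (n + 1),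
          bb w c t ω * TT n C a (Function.update s c t) ω) ^ 2) ≤
          (30 * K) ^ C.card * (n + 1) ^ C.card * (Cc ι * K ^ 1) + Real.exp (-K) := by
        intro u hu
        have huL : ∀ d, u d ≤ L := Bx_le hu (by rw [h.hn]; omega) hz
        have key := rowE h ha (o := o) (D := {c}) (I := ∅) (C := C) (by simp) (by simp)
          (by simp [hco.symm]) hoC (by simpa using hc) u huL
        rw [Finset.union_empty, Finset.card_singleton, Nat.add_sub_cancel] at key
        refine le_trans (le_of_eq ?_) key
        rw [sum_Bx_singleton, Ex_sum]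
        refine Finset.sum_congr rfl (fun l _ => Ex_congr w (fun ω => ?_))
        rw [Ur_single o hc]
      refine (Finset.sum_le_sum hu).trans ?_
      rw [Finset.sum_const, card_Bx, nsmul_eq_mul, mul_add]
      push_cast
      have hL := h.hL1
      have hnr := h.hnr
      have herr := h.hexp
      have h1 : ((n : ℝ) + 1) ^ A.card * Real.exp (-K) ≤ 1 := by
        calc _ ≤ (L : ℝ) ^ A.card * Real.exp (-K / 2) := by gcongr
          _ = 4 ^ 0 * (L : ℝ) ^ A.card * Real.exp (-K / 2) := by rw [pow_zero, one_mul]
          _ ≤ 1 := h.err (by omega) (by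
            have : A.card ≤ Fintype.card ι := Finset.card_le_univ _
            omega)
      have h2 : ((n : ℝ) + 1) ^ A.card * ((30 * K) ^ C.card * (n + 1) ^ C.card *
          (Cc ι * K ^ 1)) ≤ Th K n o := by
        unfold Th
        have e : ((n : ℝ) + 1) ^ A.card * ((30 * K) ^ C.card * (n + 1) ^ C.card *
          (Cc ι * K ^ 1)) = 30 ^ C.card * Cc ι * (K ^ (C.card + 1) *
            ((n : ℝ) + 1) ^ (A.card + C.card)) := by
          rw [mul_pow, pow_add K, pow_add ((n : ℝ) + 1)]; ring
        rw [e, show A.card + C.card = (univ.erase o).card - 1 by omega]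
        have h3 : (30 : ℝ) ^ C.card ≤ 30 ^ Fintype.card ι :=
          pow_le_pow_right₀ (by norm_num) (Finset.card_le_univ _)
        have h4 : K ^ (C.card + 1) ≤ K ^ (univ.erase o).card :=
          pow_le_pow_right₀ hK1 (by omega)
        have := Cc_pos (ι := ι)
        gcongr
      linarith
    have htot : Wd w n o a (insert c C) z ≤ 2 * Wd w n o a C z + 2 * (Th K n o + 1) := by
      have h1 := Finset.sum_le_sum hs1
      rw [Finset.sum_add_distrib, ← Finset.mul_sum, ← Finset.mul_sum, hfirst] at h1
      have h2 : Wd w n o a (insert c C) z =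
        ∑ s ∈ Bx n ({o} ∪ A) z, Ex w (fun ω => (TT n (insert c C) a s ω) ^ 2) := rfl
      rw [h2]
      linarith
    refine htot.trans ?_
    rw [Finset.card_insert_of_notMem hc, pow_succ]
    push_cast
    have h5 : (1 : ℝ) ≤ 2 ^ C.card := one_le_pow₀ (by norm_num)
    have h6 : 0 ≤ Th K n o + 1 := by linarith
    nlinarith [mul_le_mul_of_nonneg_right h5 h6]

end DK
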