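import Pool.Agent.Work.MP_d500f7_co.K.VB2
import Pool.Agent.Work.MP_d500f7_co.K.Tilt2

/-! # Upper bound for `∑ E G_l V_l` -/

namespace DK

open Finset

variable {ι : Type} [Fintype ι] [DecidableEq ι] {L : ℕ}

/-- index set of the non-trivial terms -/
def Pn (J : Finset ι) : Finset (Σ _ : Finset ι, Finset ι) :=
  (J.powerset.sigma (fun I => (J \ I).powerset)).filter (fun p => ¬ (p.2 = ∅ ∧ p.1 = ∅))

lemma phi_expand0 (w : Om ι L → ℝ) (J : Finset ι) (s : ι → ℕ) (ω : Om ι L) :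
    phi w J s ω = xm J s ω + ∑ p ∈ Pn J,
      (-1) ^ p.2.card * (xm ((J \ p.1) \ p.2) s ω * hh w p.2 p.1 s ω) := by
  have h1 : phi w J s ω = ∑ p ∈ J.powerset.sigma (fun I => (J \ I).powerset),
      (-1) ^ p.2.card * (xm ((J \ p.1) \ p.2) s ω * hh w p.2 p.1 s ω) := by
    unfold phi
    rw [Finset.sum_sigma]
    refine Finset.sum_congr rfl (fun I hI => ?_)
    rw [em_expand, Finset.sum_mul]
    refine Finset.sum_congr rfl (fun D _ => ?_)
    unfold hh
    ring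
  rw [h1, ← Finset.sum_filter_add_sum_filter_not _ (fun p => p.2 = ∅ ∧ p.1 = ∅)]
  congr 1
  rw [Finset.sum_eq_single_of_mem (⟨∅, ∅⟩ : Σ _ : Finset ι, Finset ι)]
  · unfold hh bm
    simp [cw_empty]
  · rw [mem_filter, mem_sigma]
    exact ⟨⟨Finset.empty_mem_powerset _, Finset.empty_mem_powerset _⟩, rfl, rfl⟩
  · rintro ⟨I, D⟩ hp hne
    rw [mem_filter] at hp
    exfalso
    apply hne
    obtain ⟨_, hD, hI⟩ := hp
    simp only at hD hI
    subst hD hI
    rfl

lemma card_Pn (J : Finset ι) : ((Pn J).card : ℝ) ≤ 4 ^ Fintype.card ι := by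
  have h1 := card_pairs J (∅ : Finset ι)
  simp only [Finset.sdiff_empty] at h1
  refine le_trans ?_ h1
  exact_mod_cast Finset.card_filter_le _ _

/-- `V_l` -/
noncomputable def Vv (w : Om ι L → ℝ) (n : ℕ) (o : ι) (a : (ι → ℕ) → Om ι L → ℝ) (z : ι → ℕ)
    (l : ℕ) (ω : Om ι L) : ℝ :=
  ∑ s ∈ Bx n (univ.erase o) (Function.update z o l), a s ω * phi w (univ.erase o) s ω

/-- the non-trivial part of `V_l` -/
noncomputable def Vp (w : Om ι L → ℝ) (n : ℕ) (o : ι) (a : (ι → ℕ) → Om ι L → ℝ) (z : ι → ℕ)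
    (l : ℕ) (ω : Om ι L) : ℝ :=
  ∑ p ∈ Pn (univ.erase o), (-1) ^ p.2.card *
    Ur n o (p.2 ∪ p.1) (((univ.erase o) \ p.1) \ p.2) a (hh w p.2 p.1) z l ω

lemma union_pn {J I D : Finset ι} (hI : I ⊆ J) (hD : D ⊆ J \ I) :
    (D ∪ I) ∪ ((J \ I) \ D) = J := by
  ext x
  simp only [mem_union, mem_sdiff]
  constructor
  · rintro ((hx | hx) | hx)
    · exact (mem_sdiff.1 (hD hx)).1
    · exact hI hx
    · exact hx.1.1
  · intro hx; tauto

lemma mem_Pn {J I D : Finset ι} (h : (⟨I, D⟩ : Σ _ : Finset ι, Finset ι) ∈ Pn J) :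
    I ⊆ J ∧ D ⊆ J \ I ∧ (D ∪ I).Nonempty := by
  unfold Pn at h
  rw [mem_filter, mem_sigma, Finset.mem_powerset, Finset.mem_powerset] at h
  refine ⟨h.1.1, h.1.2, ?_⟩
  rw [Finset.nonempty_iff_ne_empty]
  intro hcon
  rw [Finset.union_eq_empty] at hcon
  exact h.2 hcon

lemma Vv_eq (w : Om ι L → ℝ) (n : ℕ) (o : ι) (a : (ι → ℕ) → Om ι L → ℝ) (z : ι → ℕ)
    (l : ℕ) (ω : Om ι L) :
    Vv w n o a z l ω = TT n (univ.erase o) a (Function.update z o l) ω + Vp w n o a z l ω := by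
  unfold Vv Vp TT
  have h1 : ∀ s ∈ Bx n (univ.erase o) (Function.update z o l),
      a s ω * phi w (univ.erase o) s ω = xm (univ.erase o) s ω • a s ω +
      ∑ p ∈ Pn (univ.erase o), (-1) ^ p.2.card *
        (xm (((univ.erase o) \ p.1) \ p.2) s ω * a s ω * hh w p.2 p.1 s ω) := by
    intro s _
    rw [phi_expand0, mul_add, smul_eq_mul, mul_comm (a s ω) (xm _ s ω), Finset.mul_sum]
    congr 1
    exact Finset.sum_congr rfl (fun p _ => by ring)
  rw [Finset.sum_congr rfl h1, Finset.sum_add_distrib, Finset.sum_comm]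
  congr 1
  refine Finset.sum_congr rfl ?_
  rintro ⟨I, D⟩ hp
  obtain ⟨hI, hD, _⟩ := mem_Pn hp
  simp only
  rw [← Finset.mul_sum]
  unfold Ur
  rw [union_pn hI hD]

lemma Cc_ge : 1 ≤ Cc ι := by
  unfold Cc
  have h1 : (1 : ℝ) ≤ 4 ^ Fintype.card ι := one_le_pow₀ (by norm_num)
  have h2 : (0 : ℝ) ≤ 42 ^ Fintype.card ι * Yc ι ^ Fintype.card ι := by
    have := Yc_ge (ι := ι); positivity
  nlinarith

/-- second moment of the non-trivial part -/
theorem Vp_sq {w : Om ι L → ℝ} {K : ℝ} {n : ℕ} (h : Ctx w K n) {a : (ι → ℕ) → Om ι L → ℝ}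
    (ha : Wt a n) (o : ι) {z : ι → ℕ} (hz : ∀ c, z c ≤ L) :
    Ex w (fun ω => ∑ l ∈ range (n + 1), Vp w n o a z l ω ^ 2) ≤
      16 ^ Fintype.card ι * (Th K n o + 1) := by
  have hw := h.hw
  have hw0 := hw.nonneg
  have hK1 := h.hK1
  have hK0 : 0 ≤ K := by linarith
  have hTh := Th_nonneg hK0 n o
  set J := univ.erase o with hJ
  have hoJ : o ∉ J := Finset.notMem_erase o univ
  have hterm : ∀ p ∈ Pn J, Ex w (fun ω => ∑ l ∈ range (n + 1),
      Ur n o (p.2 ∪ p.1) ((J \ p.1) \ p.2) a (hh w p.2 p.1) z l ω ^ 2) ≤ Th K n o + 1 := by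
    rintro ⟨I, D⟩ hp
    obtain ⟨hI, hD, hne⟩ := mem_Pn hp
    simp only
    have hDI : Disjoint D I := by
      rw [Finset.disjoint_left]; exact fun x hx => (mem_sdiff.1 (hD hx)).2
    have hBC : Disjoint (D ∪ I) ((J \ I) \ D) := by
      rw [Finset.disjoint_left]
      intro x hx hx'
      rw [mem_sdiff, mem_sdiff] at hx'
      rcases mem_union.1 hx with hx | hx
      · exact hx'.2 hx
      · exact hx'.1.2 hx
    have hoB : o ∉ D ∪ I := by
      intro ho
      rcases mem_union.1 ho with ho | ho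
      · exact hoJ (mem_sdiff.1 (hD ho)).1
      · exact hoJ (hI ho)
    have hoC : o ∉ (J \ I) \ D := fun ho => hoJ (mem_sdiff.1 (mem_sdiff.1 ho).1).1
    have key := rowE h ha hne hDI hoB hoC hBC z hz
    refine key.trans ?_
    have hcard : (D ∪ I).card + ((J \ I) \ D).card = J.card := by
      rw [← Finset.card_union_of_disjoint hBC, union_pn hI hD]
    have hB1 : 1 ≤ (D ∪ I).card := Finset.card_pos.2 hne
    have e1 : Real.exp (-K) ≤ 1 := Real.exp_le_one_iff.2 (by linarith)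
    refine add_le_add ?_ e1
    unfold Th
    rw [← hJ, ← hcard]
    have e : (30 * K) ^ ((J \ I) \ D).card * ((n : ℝ) + 1) ^ (((J \ I) \ D).card + (D ∪ I).card - 1) *
        (Cc ι * K ^ (D ∪ I).card) = 30 ^ ((J \ I) \ D).card * Cc ι *
        (K ^ ((D ∪ I).card + ((J \ I) \ D).card) *
          ((n : ℝ) + 1) ^ ((D ∪ I).card + ((J \ I) \ D).card - 1)) := by
      rw [mul_pow, pow_add K, Nat.add_comm ((J \ I) \ D).card]; ring
    rw [e]
    have h3 : (30 : ℝ) ^ ((J \ I) \ D).card ≤ 30 ^ Fintype.card ι :=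
      pow_le_pow_right₀ (by norm_num) (Finset.card_le_univ _)
    have := Cc_pos (ι := ι)
    gcongr
  have hpt : ∀ ω, ∑ l ∈ range (n + 1), Vp w n o a z l ω ^ 2 ≤
      4 ^ Fintype.card ι * ∑ p ∈ Pn J, ∑ l ∈ range (n + 1),
      Ur n o (p.2 ∪ p.1) ((J \ p.1) \ p.2) a (hh w p.2 p.1) z l ω ^ 2 := by
    intro ω
    rw [Finset.sum_comm, Finset.mul_sum]
    refine Finset.sum_le_sum (fun l _ => ?_)
    unfold Vp
    refine (sq_sum_le_card_mul_sum_sq).trans ?_
    have e3 : ∀ p ∈ Pn J, ((-1) ^ p.2.card *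
        Ur n o (p.2 ∪ p.1) ((J \ p.1) \ p.2) a (hh w p.2 p.1) z l ω) ^ 2 =
        Ur n o (p.2 ∪ p.1) ((J \ p.1) \ p.2) a (hh w p.2 p.1) z l ω ^ 2 := by
      intro p _
      rw [mul_pow, ← pow_mul, mul_comm p.2.card 2, pow_mul]
      norm_num
    rw [Finset.sum_congr rfl e3]
    exact mul_le_mul_of_nonneg_right (card_Pn J) (Finset.sum_nonneg (fun _ _ => sq_nonneg _))
  calc _ ≤ Ex w (fun ω => 4 ^ Fintype.card ι * ∑ p ∈ Pn J, ∑ l ∈ range (n + 1),
      Ur n o (p.2 ∪ p.1) ((J \ p.1) \ p.2) a (hh w p.2 p.1) z l ω ^ 2) := Ex_mono hw0 hpt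
    _ = 4 ^ Fintype.card ι * ∑ p ∈ Pn J, Ex w (fun ω => ∑ l ∈ range (n + 1),
      Ur n o (p.2 ∪ p.1) ((J \ p.1) \ p.2) a (hh w p.2 p.1) z l ω ^ 2) := by
        rw [Ex_const_mul]; congr 1; exact Ex_sum _ _ _
    _ ≤ 4 ^ Fintype.card ι * ∑ _p ∈ Pn J, (Th K n o + 1) :=
        mul_le_mul_of_nonneg_left (Finset.sum_le_sum hterm) (by positivity)
    _ ≤ 4 ^ Fintype.card ι * (4 ^ Fintype.card ι * (Th K n o + 1)) := by
        rw [Finset.sum_const, nsmul_eq_mul]
        exact mul_le_mul_of_nonneg_left (mul_le_mul_of_nonneg_right (card_Pn J) (by linarith))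
          (by positivity)
    _ = _ := by rw [← mul_assoc, ← mul_pow]; norm_num

lemma abs_TT_le' {n : ℕ} {a : (ι → ℕ) → Om ι L → ℝ} (ha : Wt a n) (C : Finset ι) (z : ι → ℕ)
    (ω : Om ι L) : |TT n C a z ω| ≤ (n + 1) ^ C.card := by
  have := abs_TT_le (n := n) C (m := a) (B := 1) ha.le1 z ω
  rwa [mul_one] at this

/-- pointwise domination of all the `V_l²` -/
noncomputable def Y2 (w : Om ι L → ℝ) (K : ℝ) (n : ℕ) (o : ι) (a : (ι → ℕ) → Om ι L → ℝ)
    (z : ι → ℕ) (ω : Om ι L) : ℝ :=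
  2 * ∑ l ∈ range (n + 1), Vp w n o a z l ω ^ 2 +
    2 * (Th K n o + ((n + 1) ^ (univ.erase o).card) ^ 2 *
      ind (fun ω => ∃ l ∈ range (n + 1), (30 * K) ^ (univ.erase o).card *
        (n + 1) ^ ((univ.erase o).card - 1) <
        (TT n (univ.erase o) a (Function.update z o l) ω) ^ 2) ω)

lemma Vv_sq_le {w : Om ι L → ℝ} {K : ℝ} {n : ℕ} (hK0 : 0 ≤ K) {a : (ι → ℕ) → Om ι L → ℝ}
    (ha : Wt a n) (o : ι) (z : ι → ℕ) {l : ℕ} (hl : l ∈ range (n + 1)) (ω : Om ι L) :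
    Vv w n o a z l ω ^ 2 ≤ Y2 w K n o a z ω := by
  have hTh := Th_nonneg hK0 n o
  set E0 : Om ι L → Prop := fun ω => ∃ l ∈ range (n + 1), (30 * K) ^ (univ.erase o).card *
        (n + 1) ^ ((univ.erase o).card - 1) <
        (TT n (univ.erase o) a (Function.update z o l) ω) ^ 2 with hE0
  set V0 := TT n (univ.erase o) a (Function.update z o l) ω with hV0
  have h1 : Vv w n o a z l ω ^ 2 ≤ 2 * V0 ^ 2 + 2 * Vp w n o a z l ω ^ 2 := by
    rw [Vv_eq]
    nlinarith [sq_nonneg (V0 - Vp w n o a z l ω)]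
  have h2 : Vp w n o a z l ω ^ 2 ≤ ∑ l ∈ range (n + 1), Vp w n o a z l ω ^ 2 :=
    Finset.single_le_sum (f := fun l => Vp w n o a z l ω ^ 2) (fun _ _ => sq_nonneg _) hl
  have h3 : V0 ^ 2 ≤ Th K n o + ((n + 1) ^ (univ.erase o).card) ^ 2 * ind E0 ω := by
    by_cases hE : E0 ω
    · rw [ind_of hE, mul_one]
      have h4 : V0 ^ 2 ≤ (((n : ℝ) + 1) ^ (univ.erase o).card) ^ 2 := by
        rw [← sq_abs]
        exact pow_le_pow_left₀ (abs_nonneg _) (abs_TT_le' ha _ _ _) 2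
      linarith
    · rw [ind_of_not hE, mul_zero, add_zero]
      simp only [hE0] at hE
      push Not at hE
      refine (hE l hl).trans ?_
      unfold Th
      have h5 : (30 : ℝ) ^ (univ.erase o).card ≤ 30 ^ Fintype.card ι :=
        pow_le_pow_right₀ (by norm_num) (Finset.card_le_univ _)
      have h6 := Cc_ge (ι := ι)
      rw [mul_pow, mul_assoc]
      have h7 : (0 : ℝ) ≤ K ^ (univ.erase o).card * ((n : ℝ) + 1) ^ ((univ.erase o).card - 1) := by
        positivity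
      refine mul_le_mul_of_nonneg_right ?_ h7
      have h8 : (0 : ℝ) ≤ 30 ^ Fintype.card ι := by positivity
      nlinarith
  unfold Y2
  linarith

theorem Y2_nonneg {w : Om ι L → ℝ} {K : ℝ} {n : ℕ} (hK0 : 0 ≤ K) {a : (ι → ℕ) → Om ι L → ℝ}
    (o : ι) (z : ι → ℕ) (ω : Om ι L) : 0 ≤ Y2 w K n o a z ω := by
  unfold Y2
  have hTh := Th_nonneg hK0 n o
  have h1 : 0 ≤ ∑ l ∈ range (n + 1), Vp w n o a z l ω ^ 2 :=
    Finset.sum_nonneg (fun _ _ => sq_nonneg _)
  have h2 := ind_nonneg (fun ω => ∃ l ∈ range (n + 1), (30 * K) ^ (univ.erase o).card *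
        (n + 1) ^ ((univ.erase o).card - 1) <
        (TT n (univ.erase o) a (Function.update z o l) ω) ^ 2) ω
  positivity

theorem Y2_le {w : Om ι L → ℝ} {K : ℝ} {n : ℕ} (h : Ctx w K n) {a : (ι → ℕ) → Om ι L → ℝ}
    (ha : Wt a n) {o : ι} (hJ : (univ.erase o).Nonempty) {z : ι → ℕ} (hz : ∀ c, z c ≤ L) :
    Ex w (Y2 w K n o a z) ≤ 4 * 16 ^ Fintype.card ι * (Th K n o + 1) := by
  have hw := h.hw
  have hw0 := hw.nonneg
  have hK1 := h.hK1
  have hK0 : 0 ≤ K := by linarith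
  have hTh := Th_nonneg hK0 n o
  have h1 := Vp_sq h ha o hz
  have h2 : Ex w (ind (fun ω => ∃ l ∈ range (n + 1), (30 * K) ^ (univ.erase o).card *
        (n + 1) ^ ((univ.erase o).card - 1) <
        (TT n (univ.erase o) a (Function.update z o l) ω) ^ 2)) ≤
      (n + 1) * Real.exp (-2 * K) := by
    calc _ ≤ Ex w (fun ω => ∑ l ∈ range (n + 1), ind (fun ω => (30 * K) ^ (univ.erase o).card *
        (n + 1) ^ ((univ.erase o).card - 1) <
        (TT n (univ.erase o) a (Function.update z o l) ω) ^ 2) ω) :=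
          Ex_mono hw0 (fun ω => ind_exists_le _ _ ω)
      _ = ∑ l ∈ range (n + 1), Ex w (ind (fun ω => (30 * K) ^ (univ.erase o).card *
        (n + 1) ^ ((univ.erase o).card - 1) <
        (TT n (univ.erase o) a (Function.update z o l) ω) ^ 2)) := Ex_sum _ _ _
      _ ≤ ∑ _l ∈ range (n + 1), Real.exp (-2 * K) := by
          refine Finset.sum_le_sum (fun l hl => ?_)
          rw [mem_range] at hl
          exact ops h ha hJ _ (update_le hz o (by rw [h.hn]; omega))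
      _ = _ := by rw [Finset.sum_const, Finset.card_range, nsmul_eq_mul]; push_cast; ring
  have h3 : (((n : ℝ) + 1) ^ (univ.erase o).card) ^ 2 * ((n + 1) * Real.exp (-2 * K)) ≤ 1 := by
    have hL := h.hL1
    have hnr := h.hnr
    calc _ ≤ ((L : ℝ) ^ (univ.erase o).card) ^ 2 * (L * Real.exp (-K / 2)) := by
          have : Real.exp (-2 * K) ≤ Real.exp (-K / 2) := Real.exp_le_exp.2 (by linarith)
          gcongr
      _ = 4 ^ 0 * L ^ (2 * (univ.erase o).card + 1) * Real.exp (-K / 2) := by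
          rw [pow_zero, one_mul, pow_add, pow_one, pow_mul']; ring
      _ ≤ 1 := h.err (by omega) (by
          have : (univ.erase o).card ≤ Fintype.card ι := Finset.card_le_univ _
          omega)
  unfold Y2
  rw [Ex_add, Ex_const_mul, Ex_const_mul, Ex_add, Ex_const hw.one, Ex_const_mul]
  have h4 := mul_le_mul_of_nonneg_left h2
    (show (0 : ℝ) ≤ (((n : ℝ) + 1) ^ (univ.erase o).card) ^ 2 by positivity)
  have h5 : (1 : ℝ) ≤ 16 ^ Fintype.card ι := one_le_pow₀ (by norm_num)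
  have h6 := mul_le_mul_of_nonneg_right h5 (show 0 ≤ Th K n o + 1 by linarith)
  linarith

/-- total second moment -/
theorem Vv_sq_sum {w : Om ι L → ℝ} {K : ℝ} {n : ℕ} (h : Ctx w K n)
    {a : (ι → ℕ) → Om ι L → ℝ} (ha : Wt a n) (o : ι) {z : ι → ℕ} (hz : ∀ c, z c ≤ L) :
    Ex w (fun ω => ∑ l ∈ range (n + 1), Vv w n o a z l ω ^ 2) ≤
      2 * (2 ^ Fintype.card ι * ((n + 1) ^ (univ.erase o).card +
        Fintype.card ι * (Th K n o + 1))) + 2 * (16 ^ Fintype.card ι * (Th K n o + 1)) := by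
  have hw := h.hw
  have hw0 := hw.nonneg
  have hK1 := h.hK1
  have hK0 : 0 ≤ K := by linarith
  have hTh := Th_nonneg hK0 n o
  have h1 := Vp_sq h ha o hz
  have h2 := wrec h ha o hz (univ.erase o) (Finset.Subset.refl _)
  have h3 : Wd w n o a (univ.erase o) z = Ex w (fun ω => ∑ l ∈ range (n + 1),
      (TT n (univ.erase o) a (Function.update z o l) ω) ^ 2) := by
    unfold Wd
    rw [Finset.sdiff_self, Finset.union_empty, sum_Bx_singleton]
    exact (Ex_sum _ _ _).symm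
  have h4 : ∀ ω, ∑ l ∈ range (n + 1), Vv w n o a z l ω ^ 2 ≤
      2 * ∑ l ∈ range (n + 1), (TT n (univ.erase o) a (Function.update z o l) ω) ^ 2 +
      2 * ∑ l ∈ range (n + 1), Vp w n o a z l ω ^ 2 := by
    intro ω
    rw [Finset.mul_sum, Finset.mul_sum, ← Finset.sum_add_distrib]
    refine Finset.sum_le_sum (fun l _ => ?_)
    rw [Vv_eq]
    nlinarith [sq_nonneg (TT n (univ.erase o) a (Function.update z o l) ω -
      Vp w n o a z l ω)]
  have h5 := Ex_mono hw0 h4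
  rw [Ex_add, Ex_const_mul, Ex_const_mul, ← h3] at h5
  have h6 : (2 : ℝ) ^ (univ.erase o).card * ((n + 1) ^ (univ.erase o).card +
      (univ.erase o).card * (Th K n o + 1)) ≤
      2 ^ Fintype.card ι * ((n + 1) ^ (univ.erase o).card +
        Fintype.card ι * (Th K n o + 1)) := by
    have h7 : (univ.erase o).card ≤ Fintype.card ι := Finset.card_le_univ _
    have h8 : ((univ.erase o).card : ℝ) ≤ Fintype.card ι := by exact_mod_cast h7
    have h9 : (2 : ℝ) ^ (univ.erase o).card ≤ 2 ^ Fintype.card ι :=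
      pow_le_pow_right₀ (by norm_num) h7
    have : 0 ≤ Th K n o + 1 := by linarith
    gcongr
  linarith

/-- the upper bound -/
theorem upper {f : Om ι L → ℝ} {M lam th : ℝ} {o : ι} (hM : 0 < M) (hf : ∀ ω, |f ω| ≤ M)
    (hlam : 0 < lam) (hth : 0 < th) {K : ℝ} {n : ℕ} (h : Ctx (Psi lam f o) K n)
    {a : (ι → ℕ) → Om ι L → ℝ} (ha : Wt a n) (hJ : (univ.erase o).Nonempty) {z : ι → ℕ}
    (hz : ∀ c, z c ≤ L) :
    ∑ s ∈ Bx n univ z, Ex (Psi lam f o) (fun ω => Gf f o (s o) ω *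
      (a s ω * phi (Psi lam f o) (univ.erase o) s ω)) ≤
      2 * th * M + (2 * (2 ^ Fintype.card ι * ((n + 1) ^ (univ.erase o).card +
        Fintype.card ι * (Th K n o + 1))) + 2 * (16 ^ Fintype.card ι * (Th K n o + 1))) /
        (2 * th * lam)
      + 2 * (Real.sqrt (4 * 16 ^ Fintype.card ι * (Th K n o + 1)) *
        Real.sqrt (8 * M ^ 2 + 4 * M / lam)) := by
  set w := Psi lam f o with hwdef
  have hw := h.hw
  have hw0 := hw.nonneg
  have hK1 := h.hK1
  have hK0 : 0 ≤ K := by linarith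
  have hTh := Th_nonneg hK0 n o
  have hsplit : ∑ s ∈ Bx n univ z, Ex w (fun ω => Gf f o (s o) ω *
      (a s ω * phi w (univ.erase o) s ω)) =
      Ex w (fun ω => ∑ l ∈ range (n + 1), Gf f o l ω * Vv w n o a z l ω) := by
    have huniv : (univ : Finset ι) = {o} ∪ univ.erase o := by
      rw [← Finset.insert_eq, Finset.insert_erase (mem_univ o)]
    conv_lhs => rw [huniv]
    rw [sum_Bx_union n (by
      rw [Finset.disjoint_singleton_left]; exact Finset.notMem_erase o univ),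
      sum_Bx_singleton, Ex_sum]
    refine Finset.sum_congr rfl (fun l _ => ?_)
    rw [← Ex_sum]
    refine Ex_congr w (fun ω => ?_)
    unfold Vv
    rw [Finset.mul_sum]
    refine Finset.sum_congr rfl (fun s hs => ?_)
    have : s o = l := by
      rw [Bx_eq_off hs (Finset.notMem_erase o univ)]; simp
    rw [this]
    have e2 : (({o} : Finset ι) ∪ univ.erase o).erase o = univ.erase o := by
      rw [← huniv]
    first
      | rfl
      | rw [e2]
  rw [hsplit]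
  set S : Om ι L → ℝ := fun ω => ∑ l ∈ range L, Tt lam f o l ω * Gf f o l ω with hS
  have hTG : ∀ l ω, 0 ≤ Tt lam f o l ω * Gf f o l ω := fun l ω => tilt_nonneg hlam.le f l ω
  have hS1 : ∀ ω, ∑ l ∈ range (n + 1), Tt lam f o l ω * Gf f o l ω ≤ S ω := fun ω =>
    Finset.sum_le_sum_of_subset_of_nonneg (fun t ht => by
      rw [mem_range] at ht ⊢; have := h.hn; omega) (fun l _ _ => hTG l ω)
  have hS0 : ∀ ω, 0 ≤ S ω := fun ω => Finset.sum_nonneg (fun l _ => hTG l ω)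
  have hpt : ∀ ω, ∑ l ∈ range (n + 1), Gf f o l ω * Vv w n o a z l ω ≤
      th * S ω + (∑ l ∈ range (n + 1), Vv w n o a z l ω ^ 2) * (1 / (2 * th * lam)) +
      2 * (Real.sqrt (Y2 w K n o a z ω) * S ω) := by
    intro ω
    have h1 : ∀ l ∈ range (n + 1), Gf f o l ω * Vv w n o a z l ω ≤
        th * (Tt lam f o l ω * Gf f o l ω) + Vv w n o a z l ω ^ 2 * (1 / (2 * th * lam)) +
        2 * (Real.sqrt (Y2 w K n o a z ω) * (Tt lam f o l ω * Gf f o l ω)) := by
      intro l hl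
      have hy := young hlam hth (Gf f o l ω) (Vv w n o a z l ω)
      have h2 : |Vv w n o a z l ω| ≤ Real.sqrt (Y2 w K n o a z ω) :=
        Real.abs_le_sqrt (Vv_sq_le hK0 ha o z hl ω)
      have h3 := mul_le_mul_of_nonneg_right h2 (hTG l ω)
      have h4 : Tt lam f o l ω * Gf f o l ω = Real.tanh (lam * Gf f o l ω) * Gf f o l ω := rfl
      rw [h4] at h3 ⊢
      have h5 : Gf f o l ω * Vv w n o a z l ω ≤ |Gf f o l ω| * |Vv w n o a z l ω| := by
        rw [← abs_mul]; exact le_abs_self _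
      have h6 : Vv w n o a z l ω ^ 2 / (2 * th * lam) =
        Vv w n o a z l ω ^ 2 * (1 / (2 * th * lam)) := by ring
      rw [h6] at hy
      linarith
    refine (Finset.sum_le_sum h1).trans ?_
    rw [Finset.sum_add_distrib, Finset.sum_add_distrib, ← Finset.mul_sum, ← Finset.sum_mul,
      ← Finset.mul_sum, ← Finset.mul_sum]
    have h7 := hS1 ω
    have h8 := mul_le_mul_of_nonneg_left h7 hth.le
    have h9 := mul_le_mul_of_nonneg_left h7 (Real.sqrt_nonneg (Y2 w K n o a z ω))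
    linarith
  have hE := Ex_mono hw0 hpt
  rw [Ex_add, Ex_add, Ex_const_mul, Ex_mul_const, Ex_const_mul] at hE
  have t1 : Ex w S ≤ 2 * M := tilt1 hf
  have t2 : Ex w (fun ω => S ω ^ 2) ≤ 8 * M ^ 2 + 4 * M / lam := tilt2 hf hlam
  have v2 := Vv_sq_sum h ha o hz
  have y2 := Y2_le h ha hJ hz
  have hcs : Ex w (fun ω => Real.sqrt (Y2 w K n o a z ω) * S ω) ≤
      Real.sqrt (4 * 16 ^ Fintype.card ι * (Th K n o + 1)) *
        Real.sqrt (8 * M ^ 2 + 4 * M / lam) := by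
    have h1 := (le_abs_self _).trans
      (abs_Ex_mul_le hw0 (fun ω => Real.sqrt (Y2 w K n o a z ω)) S)
    have e : Ex w (fun ω => Real.sqrt (Y2 w K n o a z ω) ^ 2) = Ex w (Y2 w K n o a z) :=
      Ex_congr w (fun ω => Real.sq_sqrt (Y2_nonneg hK0 o z ω))
    rw [e] at h1
    exact h1.trans (mul_le_mul (Real.sqrt_le_sqrt y2) (Real.sqrt_le_sqrt t2)
      (Real.sqrt_nonneg _) (Real.sqrt_nonneg _))
  have h10 : 0 ≤ 1 / (2 * th * lam) := by positivity
  have h11 := mul_le_mul_of_nonneg_right v2 h10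
  have h12 := mul_le_mul_of_nonneg_left t1 hth.le
  have e11 : ∀ X : ℝ, X / (2 * th * lam) = X * (1 / (2 * th * lam)) := fun X => by ring
  rw [e11]
  linarith

end DK
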