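import Pool.Agent.Work.MP_d500f7_co.K.Sums

/-! # Wick corrections: basic properties -/

namespace DK

open Finset

variable {ι : Type} [Fintype ι] [DecidableEq ι] {L : ℕ}

lemma cw_empty (w : Om ι L → ℝ) (s : ι → ℕ) (ω : Om ι L) : cw w s ∅ ω = 1 := by
  rw [cw, if_pos rfl]

lemma cw_ne (w : Om ι L → ℝ) (s : ι → ℕ) {I : Finset ι} (hI : I ≠ ∅) (ω : Om ι L) :
    cw w s I ω = - CE w (lv L I s)
      (fun ω => ∑ I' ∈ I.ssubsets, em w (I \ I') s ω * cw w s I' ω) ω := by
  rw [cw, if_neg hI]
  congr 1
  refine CE_congr _ _ (fun ω => ?_) ω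
  exact Finset.sum_attach I.ssubsets (fun I' => em w (I \ I') s ω * cw w s I' ω)

lemma meas_cw (w : Om ι L → ℝ) (s : ι → ℕ) (I : Finset ι) : Meas (lv L I s) (cw w s I) := by
  by_cases hI : I = ∅
  · subst hI
    intro a b _
    rw [cw_empty, cw_empty]
  · have h : cw w s I = fun ω => - CE w (lv L I s)
      (fun ω => ∑ I' ∈ I.ssubsets, em w (I \ I') s ω * cw w s I' ω) ω :=
      funext (fun ω => cw_ne w s hI ω)
    rw [h]
    exact (meas_CE _ _ _).neg

lemma dep_cw (w : Om ι L → ℝ) (I : Finset ι) : Dep I (fun s => cw w s I) := by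
  induction I using Finset.strongInduction with
  | H I ih =>
    intro s s' h
    funext ω
    show cw w s I ω = cw w s' I ω
    by_cases hI : I = ∅
    · subst hI
      rw [cw_empty, cw_empty]
    · rw [cw_ne w s hI, cw_ne w s' hI, lv_congr h]
      congr 1
      refine CE_congr _ _ (fun ω => ?_) ω
      refine Finset.sum_congr rfl (fun I' hI' => ?_)
      rw [Finset.mem_ssubsets] at hI'
      have h1 : cw w s I' = cw w s' I' := ih I' hI' s s' (fun c hc => h c (hI'.1 hc))
      rw [em_congr (fun c hc => h c (Finset.sdiff_subset hc)), h1]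

lemma abs_cw_le {w : Om ι L → ℝ} (hw : IsPr w) (s : ι → ℕ) (I : Finset ι) (ω : Om ι L) :
    |cw w s I ω| ≤ (4 : ℝ) ^ (Fintype.card ι * I.card) := by
  induction I using Finset.strongInduction generalizing ω with
  | H I ih =>
    by_cases hI : I = ∅
    · subst hI
      rw [cw_empty]; simp
    · rw [cw_ne w s hI, abs_neg]
      refine abs_CE_le hw.pos _ (fun ω => ?_) ω
      have hk : (1 : ℝ) ≤ 4 ^ (Fintype.card ι) := one_le_pow₀ (by norm_num)
      have hcard : 1 ≤ I.card := Finset.card_pos.2 (Finset.nonempty_iff_ne_empty.2 hI)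
      calc |∑ I' ∈ I.ssubsets, em w (I \ I') s ω * cw w s I' ω| ≤
            ∑ I' ∈ I.ssubsets, |em w (I \ I') s ω * cw w s I' ω| := Finset.abs_sum_le_sum_abs _ _
        _ ≤ ∑ _I' ∈ I.ssubsets, (2 : ℝ) ^ (Fintype.card ι) *
              4 ^ (Fintype.card ι * (I.card - 1)) := by
            refine Finset.sum_le_sum (fun I' hI' => ?_)
            rw [Finset.mem_ssubsets] at hI'
            rw [abs_mul]
            have h1 : |em w (I \ I') s ω| ≤ 2 ^ (Fintype.card ι) :=
              (abs_em_le hw _ _ _).trans (pow_le_pow_right₀ (by norm_num) (Finset.card_le_univ _))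
            have h2 : |cw w s I' ω| ≤ 4 ^ (Fintype.card ι * (I.card - 1)) := by
              refine (ih I' hI' ω).trans (pow_le_pow_right₀ (by norm_num) ?_)
              have := Finset.card_lt_card hI'
              exact Nat.mul_le_mul_left _ (by omega)
            exact mul_le_mul h1 h2 (abs_nonneg _) (by positivity)
        _ ≤ 2 ^ (Fintype.card ι) * ((2 : ℝ) ^ (Fintype.card ι) *
              4 ^ (Fintype.card ι * (I.card - 1))) := by
            rw [Finset.sum_const, nsmul_eq_mul]
            refine mul_le_mul_of_nonneg_right ?_ (by positivity)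
            have h1 : I.ssubsets.card ≤ 2 ^ (Fintype.card ι) := by
              have h2 : I.ssubsets ⊆ I.powerset := fun x hx =>
                Finset.mem_powerset.2 (Finset.mem_ssubsets.1 hx).1
              refine (Finset.card_le_card h2).trans ?_
              rw [Finset.card_powerset]
              exact Nat.pow_le_pow_right (by norm_num) (Finset.card_le_univ _)
            exact_mod_cast h1
        _ = 4 ^ (Fintype.card ι * I.card) := by
            have e : Fintype.card ι * I.card =
                Fintype.card ι + Fintype.card ι * (I.card - 1) := by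
              have : I.card = 1 + (I.card - 1) := by omega
              conv_lhs => rw [this]
              ring
            rw [e, pow_add, ← mul_assoc, ← mul_pow]
            norm_num

/-- uniform bound -/
lemma abs_cw_le' {w : Om ι L → ℝ} (hw : IsPr w) (s : ι → ℕ) (I : Finset ι) (ω : Om ι L) :
    |cw w s I ω| ≤ (4 : ℝ) ^ (Fintype.card ι * Fintype.card ι) :=
  (abs_cw_le hw s I ω).trans (pow_le_pow_right₀ (by norm_num)
    (Nat.mul_le_mul_left _ (Finset.card_le_univ _)))

/-- the defining property -/
lemma CE_phi {w : Om ι L → ℝ} (hw : IsPr w) (s : ι → ℕ) {I : Finset ι} (hI : I ≠ ∅)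
    (ω : Om ι L) : CE w (lv L I s) (phi w I s) ω = 0 := by
  have h1 : ∀ ω, phi w I s ω =
      (∑ I' ∈ I.ssubsets, em w (I \ I') s ω * cw w s I' ω) + cw w s I ω := by
    intro ω
    unfold phi
    have h2 : I.powerset = insert I I.ssubsets := by
      ext x
      rw [Finset.mem_powerset, Finset.mem_insert, Finset.mem_ssubsets]
      constructor
      · intro h
        rcases eq_or_ssubset_of_subset h with h | h
        · exact Or.inl h
        · exact Or.inr h
      · rintro (rfl | h)
        · exact Finset.Subset.refl _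
        · exact h.1
    have h3 : I ∉ I.ssubsets := by
      rw [Finset.mem_ssubsets]; exact fun h => h.2 (Finset.Subset.refl _)
    rw [h2, Finset.sum_insert h3, Finset.sdiff_self]
    unfold em
    rw [Finset.prod_empty]
    ring
  rw [CE_congr w _ h1, CE_add, CE_of_meas hw.pos (meas_cw w s I), cw_ne w s hI]
  ring

end DK
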