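import Pool.Agent.Work.MP_d500f7_co.K.Bessel
import Pool.Agent.Work.MP_d500f7_co.K.Wick1

/-! # Wick corrections: second moment bounds -/

namespace DK

open Finset

variable {ι : Type} [Fintype ι] [DecidableEq ι] {L : ℕ}

/-- the standing assumptions on the measure `w` and the parameters -/
structure Ctx (w : Om ι L → ℝ) (K : ℝ) (n : ℕ) : Prop where
  hw : IsPr w
  hK1 : 1 ≤ K
  hKP : ∀ ω, w ω ≤ Real.exp K * Pw ι L ω
  hn : L = n + 2
  hkL : Fintype.card ι ≤ L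
  hKL : 42 * K ≤ L
  hE : (4 : ℝ) ^ (8 * (Fintype.card ι * Fintype.card ι) + 8) * L ^ (20 * Fintype.card ι + 20)
    * Real.exp (-K / 2) ≤ 1

namespace Ctx

variable {w : Om ι L → ℝ} {K : ℝ} {n : ℕ}

lemma htail (h : Ctx w K n) (c : ι) :
    Ex w (ind (fun ω => 20 * K < nbb w c ω)) ≤ Real.exp (-K) := nbb_tail c h.hw h.hKP

lemma hn1 (h : Ctx w K n) : n + 1 ≤ L := by rw [h.hn]; omega

lemma hL2 (h : Ctx w K n) : 2 ≤ L := by rw [h.hn]; omega

lemma hLr (h : Ctx w K n) : (2 : ℝ) ≤ L := by exact_mod_cast h.hL2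

lemma hL1 (h : Ctx w K n) : (1 : ℝ) ≤ L := by linarith [h.hLr]

lemma hnr (h : Ctx w K n) : (n : ℝ) + 1 ≤ L := by exact_mod_cast h.hn1

lemma hKL2 (h : Ctx w K n) : 42 * K ≤ (L : ℝ) ^ 2 := by
  nlinarith [h.hKL, h.hLr]

lemma hexp (h : Ctx w K n) : Real.exp (-K) ≤ Real.exp (-K / 2) := by
  apply Real.exp_le_exp.2
  linarith [h.hK1]

/-- all errors are at most `1` -/
lemma err (h : Ctx w K n) {a b : ℕ} (ha : a ≤ 8 * (Fintype.card ι * Fintype.card ι) + 8)
    (hb : b ≤ 20 * Fintype.card ι + 20) :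
    (4 : ℝ) ^ a * L ^ b * Real.exp (-K / 2) ≤ 1 := by
  refine le_trans ?_ h.hE
  have h1 : (4 : ℝ) ^ a ≤ 4 ^ (8 * (Fintype.card ι * Fintype.card ι) + 8) :=
    pow_le_pow_right₀ (by norm_num) ha
  have h2 : (L : ℝ) ^ b ≤ L ^ (20 * Fintype.card ι + 20) := pow_le_pow_right₀ h.hL1 hb
  have h3 := h.hLr
  gcongr

end Ctx

/-- sum of squares of products of biases -/
lemma sum_bm_sq (w : Om ι L → ℝ) {n : ℕ} (hn : n + 1 ≤ L) (ω : Om ι L) (E : Finset ι) :
    ∀ u : ι → ℕ, ∑ s ∈ Bx n E u, bm w E s ω ^ 2 ≤ ∏ c ∈ E, nbb w c ω := by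
  induction E using Finset.induction_on with
  | empty => intro u; rw [sum_Bx_empty]; simp [bm]
  | insert c E hc ih =>
    intro u
    rw [sum_Bx_insert n hc, Finset.prod_insert hc]
    have h1 : ∀ t ∈ range (n + 1), ∑ s ∈ Bx n E (Function.update u c t),
        bm w (insert c E) s ω ^ 2 ≤ bb w c t ω ^ 2 * ∏ c ∈ E, nbb w c ω := by
      intro t _
      have e : ∀ s ∈ Bx n E (Function.update u c t), bm w (insert c E) s ω ^ 2 =
          bb w c t ω ^ 2 * bm w E s ω ^ 2 := by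
        intro s hs
        have h2 : s c = t := by rw [Bx_eq_off hs hc]; simp
        unfold bm
        rw [Finset.prod_insert hc, h2, mul_pow]
      rw [Finset.sum_congr rfl e, ← Finset.mul_sum]
      exact mul_le_mul_of_nonneg_left (ih _) (sq_nonneg _)
    refine (Finset.sum_le_sum h1).trans ?_
    rw [← Finset.sum_mul]
    refine mul_le_mul_of_nonneg_right ?_ (Finset.prod_nonneg (fun c _ => nbb_nonneg w c ω))
    unfold nbb
    exact Finset.sum_le_sum_of_subset_of_nonneg (fun t ht => by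
      rw [mem_range] at ht ⊢; omega) (fun _ _ _ => sq_nonneg _)

lemma prod_nbb_le {w : Om ι L → ℝ} (hw : IsPr w) (E : Finset ι) (ω : Om ι L) :
    ∏ c ∈ E, nbb w c ω ≤ (L : ℝ) ^ E.card := by
  calc _ ≤ ∏ _c ∈ E, (L : ℝ) :=
        Finset.prod_le_prod (fun c _ => nbb_nonneg w c ω) (fun c _ => nbb_le_L hw c ω)
    _ = _ := by rw [Finset.prod_const]

/-- multiplication by biases -/
theorem mul_bound {w : Om ι L → ℝ} {K : ℝ} {n : ℕ} (h : Ctx w K n) {E I : Finset ι}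
    (hEI : Disjoint I E) {F : (ι → ℕ) → Om ι L → ℝ} (hF : Dep I F) {B : ℝ}
    (hB : ∀ s ω, |F s ω| ≤ B) (z : ι → ℕ) :
    ∑ s ∈ Bx n (I ∪ E) z, Ex w (fun ω => (bm w E s ω * F s ω) ^ 2) ≤
      (20 * K) ^ E.card * ∑ s ∈ Bx n I z, Ex w (fun ω => F s ω ^ 2)
        + E.card * L ^ E.card * (n + 1) ^ I.card * B ^ 2 * Real.exp (-K) := by
  have hK0 : 0 ≤ K := by linarith [h.hK1]
  have hw0 := h.hw.nonneg
  rw [sum_Bx_union n hEI]
  have hstep : ∀ u ∈ Bx n I z, ∑ s ∈ Bx n E u, Ex w (fun ω => (bm w E s ω * F s ω) ^ 2) ≤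
      (20 * K) ^ E.card * Ex w (fun ω => F u ω ^ 2)
        + L ^ E.card * B ^ 2 * (E.card * Real.exp (-K)) := by
    intro u _
    have h1 : ∑ s ∈ Bx n E u, Ex w (fun ω => (bm w E s ω * F s ω) ^ 2) ≤
        Ex w (fun ω => (∏ c ∈ E, nbb w c ω) * F u ω ^ 2) := by
      rw [← Ex_sum]
      refine Ex_mono hw0 (fun ω => ?_)
      have e : ∀ s ∈ Bx n E u, (bm w E s ω * F s ω) ^ 2 = bm w E s ω ^ 2 * F u ω ^ 2 := by
        intro s hs
        rw [hF s u (fun c hc => Bx_eq_off hs (Finset.disjoint_left.1 hEI hc)), mul_pow]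
      rw [Finset.sum_congr rfl e, ← Finset.sum_mul]
      exact mul_le_mul_of_nonneg_right (sum_bm_sq w h.hn1 ω E u) (sq_nonneg _)
    have h2 : Ex w (ind (fun ω => ∃ c ∈ E, 20 * K < nbb w c ω)) ≤ E.card * Real.exp (-K) := by
      calc _ ≤ Ex w (fun ω => ∑ c ∈ E, ind (fun ω => 20 * K < nbb w c ω) ω) :=
            Ex_mono hw0 (fun ω => ind_exists_le _ _ ω)
        _ = ∑ c ∈ E, Ex w (ind (fun ω => 20 * K < nbb w c ω)) := Ex_sum _ _ _
        _ ≤ ∑ _c ∈ E, Real.exp (-K) := Finset.sum_le_sum (fun c _ => h.htail c)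
        _ = _ := by rw [Finset.sum_const, nsmul_eq_mul]
    have h3 : Ex w (fun ω => (∏ c ∈ E, nbb w c ω) * F u ω ^ 2) ≤
        Ex w (fun ω => (20 * K) ^ E.card * F u ω ^ 2) +
        L ^ E.card * B ^ 2 * Ex w (ind (fun ω => ∃ c ∈ E, 20 * K < nbb w c ω)) := by
      refine Ex_split hw0 (by positivity) _ (fun ω hω => ?_) (fun ω => by positivity) (fun ω => ?_)
      · push Not at hω
        refine mul_le_mul_of_nonneg_right ?_ (sq_nonneg _)
        calc _ ≤ ∏ _c ∈ E, (20 * K) :=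
              Finset.prod_le_prod (fun c _ => nbb_nonneg w c ω) (fun c hc => hω c hc)
          _ = _ := by rw [Finset.prod_const]
      · refine mul_le_mul (prod_nbb_le h.hw E ω) ?_ (sq_nonneg _) (by positivity)
        rw [← sq_abs]
        exact pow_le_pow_left₀ (abs_nonneg _) (hB u ω) 2
    rw [Ex_const_mul] at h3
    refine h1.trans (h3.trans ?_)
    have : (0 : ℝ) ≤ L ^ E.card * B ^ 2 := by positivity
    linarith [mul_le_mul_of_nonneg_left h2 this]
  refine (Finset.sum_le_sum hstep).trans (le_of_eq ?_)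
  rw [Finset.sum_add_distrib, ← Finset.mul_sum, Finset.sum_const, card_Bx, nsmul_eq_mul]
  push_cast
  ring

end DK
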