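import Pool.Agent.Work.MP_d500f7_co.K.Wick2

/-! # Wick corrections: the recursion step -/

namespace DK

open Finset

variable {ι : Type} [Fintype ι] [DecidableEq ι] {L : ℕ}

/-- the common sup bound -/
noncomputable def Bc (ι : Type) [Fintype ι] : ℝ := (4 : ℝ) ^ (Fintype.card ι * Fintype.card ι)

lemma Bc_pos : 0 < Bc ι := by unfold Bc; positivity

lemma Bc_sq : Bc ι ^ 2 = (4 : ℝ) ^ (2 * (Fintype.card ι * Fintype.card ι)) := by
  unfold Bc
  rw [← pow_mul, mul_comm]

/-- `h(s) = b_E(s) c_I(s)` -/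
noncomputable def hh (w : Om ι L → ℝ) (E I : Finset ι) (s : ι → ℕ) (ω : Om ι L) : ℝ :=
  bm w E s ω * cw w s I ω

lemma abs_hh_le {w : Om ι L → ℝ} (hw : IsPr w) (E I : Finset ι) (s : ι → ℕ) (ω : Om ι L) :
    |hh w E I s ω| ≤ Bc ι := by
  unfold hh
  rw [abs_mul]
  calc _ ≤ 1 * Bc ι := mul_le_mul (abs_bm_le hw E s ω) (abs_cw_le' hw s I ω) (abs_nonneg _)
        zero_le_one
    _ = _ := one_mul _

lemma hh_congr (w : Om ι L → ℝ) {E I : Finset ι} {s s' : ι → ℕ} (h : ∀ c ∈ E ∪ I, s c = s' c) :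
    hh w E I s = hh w E I s' := by
  funext ω
  unfold hh
  have h1 : cw w s I = cw w s' I := dep_cw w I s s' (fun c hc => h c (mem_union_right _ hc))
  rw [bm_congr (fun c hc => h c (mem_union_left _ hc)), h1]

/-- one conditional expectation with a centred digit in front -/
theorem gen {w : Om ι L → ℝ} {K : ℝ} {n : ℕ} (h : Ctx w K n) {A A1 E I : Finset ι} {c0 : ι}
    (hA1 : A1 ⊆ A) (hc0 : c0 ∈ A) (h01 : c0 ∉ A1) (h0E : c0 ∉ E ∪ I)
    (hd : Disjoint (E ∪ I) A1) (z : ι → ℕ) (hz : ∀ c, z c ≤ L) :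
    ∑ s ∈ Bx n ((E ∪ I) ∪ ({c0} ∪ A1)) z, Ex w (fun ω => CE w (lv L A s)
      (fun ω => xm A1 s ω * (et w c0 (s c0) ω * hh w E I s ω)) ω ^ 2) ≤
      (42 * K) ^ A1.card * ∑ s ∈ Bx n (E ∪ I) z, Ex w (fun ω => hh w E I s ω ^ 2)
      + (n + 1) ^ ((E ∪ I).card + 1) *
        (2 * L ^ (2 * A1.card) * (2 * Bc ι) ^ 2 * Real.exp (-K / 2)) := by
  have hw := h.hw
  set m : (ι → ℕ) → Om ι L → ℝ := fun v =>
    CE w (vc L c0 (v c0)) (fun ω => et w c0 (v c0) ω * hh w E I v ω) with hm
  set r : ℝ := 2 * L ^ (2 * A1.card) * (2 * Bc ι) ^ 2 * Real.exp (-K / 2) with hr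
  have hdj1 : Disjoint (E ∪ I) ({c0} ∪ A1) := by
    rw [Finset.disjoint_union_right]
    exact ⟨by rw [Finset.disjoint_singleton_right]; exact h0E, hd⟩
  have hdj2 : Disjoint ({c0} : Finset ι) A1 := by
    rw [Finset.disjoint_singleton_left]; exact h01
  rw [sum_Bx_union n hdj1]
  have hmB : ∀ v ω, |m v ω| ≤ 2 * Bc ι := by
    intro v ω
    refine abs_CE_le hw.pos _ (fun ω => ?_) ω
    rw [abs_mul]
    exact mul_le_mul (abs_et_le hw _ _ _) (abs_hh_le hw _ _ _ _) (abs_nonneg _) (by norm_num)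
  have key : ∀ u ∈ Bx n (E ∪ I) z, ∑ s ∈ Bx n ({c0} ∪ A1) u, Ex w (fun ω => CE w (lv L A s)
      (fun ω => xm A1 s ω * (et w c0 (s c0) ω * hh w E I s ω)) ω ^ 2) ≤
      (42 * K) ^ A1.card * Ex w (fun ω => hh w E I u ω ^ 2) + (n + 1) * r := by
    intro u hu
    have hu' : ∀ c, u c ≤ L := Bx_le hu (by rw [h.hn]; omega) hz
    rw [sum_Bx_union n hdj2]
    have hv : ∀ v ∈ Bx n {c0} u, ∑ s ∈ Bx n A1 v, Ex w (fun ω => CE w (lv L A s)
        (fun ω => xm A1 s ω * (et w c0 (s c0) ω * hh w E I s ω)) ω ^ 2) ≤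
        (42 * K) ^ A1.card * Ex w (fun ω => m v ω ^ 2) + r := by
      intro v hv
      have hv' : ∀ c, v c ≤ L := Bx_le hv (by rw [h.hn]; omega) hu'
      have h1 := mb hw h.hK1 h.htail h.hn1 h.hL2 h.hKL2 (hmB v) A1 v hv'
      refine le_trans ?_ h1
      refine Finset.sum_le_sum (fun s hs => ?_)
      have hs' : ∀ c, s c ≤ L := Bx_le hs (by rw [h.hn]; omega) hv'
      have hsv : ∀ c, c ∉ A1 → s c = v c := fun c hc => Bx_eq_off hs hc
      have hs0 : s c0 = v c0 := hsv c0 h01
      have hhsv : hh w E I s = hh w E I v := hh_congr w (fun c hc => hsv c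
        (Finset.disjoint_left.1 hd hc))
      have e1 : ∀ ω, CE w (lv L A s)
          (fun ω => xm A1 s ω * (et w c0 (s c0) ω * hh w E I s ω)) ω =
          CE w (lv L A s) (CE w (lv L A1 s) (fun ω => xm A1 s ω * m v ω)) ω := by
        intro ω
        rw [CE_tower hw.pos (lv_anti hA1 hs'), hs0, hhsv]
        have hle : ∀ d, lv L A s d ≤ vc L c0 (v c0) d := by
          rw [← hs0]; exact lv_le_vc hc0 hs'
        rw [← CE_tower hw.pos hle (fun ω => xm A1 s ω * (et w c0 (v c0) ω * hh w E I v ω))]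
        refine CE_congr w _ (fun ω => ?_) ω
        rw [CE_mul_left hw.pos]
        refine meas_xm (fun c hc => ?_) s
        rw [vc_of_ne (show c ≠ c0 from fun hcc => h01 (hcc ▸ hc))]
      calc _ = Ex w (fun ω => CE w (lv L A s)
            (CE w (lv L A1 s) (fun ω => xm A1 s ω * m v ω)) ω ^ 2) :=
            Ex_congr w (fun ω => by rw [e1 ω])
        _ ≤ _ := Ex_CE_sq_le hw.pos _ _
    refine (Finset.sum_le_sum hv).trans ?_
    rw [Finset.sum_add_distrib, ← Finset.mul_sum, Finset.sum_const, card_Bx,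
      Finset.card_singleton, pow_one, nsmul_eq_mul]
    push_cast
    refine add_le_add ?_ le_rfl
    refine mul_le_mul_of_nonneg_left ?_ (by have := h.hK1; positivity)
    rw [sum_Bx_singleton]
    have h2 := lb hw c0 (hh w E I u) (n + 1)
    refine le_trans (le_of_eq ?_) h2
    refine Finset.sum_congr rfl (fun t _ => ?_)
    have e2 : hh w E I (Function.update u c0 t) = hh w E I u := by
      refine hh_congr w (fun c hc => ?_)
      have : c ≠ c0 := fun hcc => h0E (hcc ▸ hc)
      simp [this]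
    simp only [hm, Function.update_self, e2]
  refine (Finset.sum_le_sum key).trans (le_of_eq ?_)
  rw [Finset.sum_add_distrib, ← Finset.mul_sum, Finset.sum_const, card_Bx, nsmul_eq_mul]
  push_cast
  ring

/-- sum of squares of the corrections -/
noncomputable def NI (w : Om ι L → ℝ) (n : ℕ) (I : Finset ι) (z : ι → ℕ) : ℝ :=
  ∑ s ∈ Bx n I z, Ex w (fun ω => cw w s I ω ^ 2)

lemma NI_nonneg {w : Om ι L → ℝ} (hw : IsPr w) (n : ℕ) (I : Finset ι) (z : ι → ℕ) :
    0 ≤ NI w n I z :=
  Finset.sum_nonneg (fun _ _ => Ex_nonneg hw.nonneg (fun _ => sq_nonneg _))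

lemma card3_le {E I A1 : Finset ι} {c0 : ι} (h01 : c0 ∉ A1) (h0E : c0 ∉ E ∪ I)
    (hd : Disjoint (E ∪ I) A1) : (E ∪ I).card + 1 + A1.card ≤ Fintype.card ι := by
  have h1 : ((E ∪ I) ∪ insert c0 A1).card = (E ∪ I).card + (A1.card + 1) := by
    rw [Finset.card_union_of_disjoint, Finset.card_insert_of_notMem h01]
    rw [Finset.disjoint_insert_right]
    exact ⟨h0E, hd⟩
  have := Finset.card_le_univ ((E ∪ I) ∪ insert c0 A1)
  omega

/-- `gen` and `mul_bound` together -/
theorem gen2 {w : Om ι L → ℝ} {K : ℝ} {n : ℕ} (h : Ctx w K n) {A A1 E I : Finset ι} {c0 : ι}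
    (hA1 : A1 ⊆ A) (hc0 : c0 ∈ A) (h01 : c0 ∉ A1) (h0E : c0 ∉ E ∪ I)
    (hd : Disjoint (E ∪ I) A1) (hEI : Disjoint E I) (z : ι → ℕ) (hz : ∀ c, z c ≤ L) :
    ∑ s ∈ Bx n ((E ∪ I) ∪ ({c0} ∪ A1)) z, Ex w (fun ω => CE w (lv L A s)
      (fun ω => xm A1 s ω * (et w c0 (s c0) ω * hh w E I s ω)) ω ^ 2) ≤
      (42 * K) ^ (A1.card + E.card) * NI w n I z + 2 := by
  have h1 := gen h hA1 hc0 h01 h0E hd z hz
  have h2 := mul_bound h (E := E) (I := I) hEI.symm (F := fun s => cw w s I) (dep_cw w I)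
    (B := Bc ι) (fun s ω => abs_cw_le' h.hw s I ω) z
  have hK0 : 0 ≤ K := by linarith [h.hK1]
  have h3 : ∑ s ∈ Bx n (E ∪ I) z, Ex w (fun ω => hh w E I s ω ^ 2) ≤
      (20 * K) ^ E.card * NI w n I z
        + E.card * L ^ E.card * (n + 1) ^ I.card * Bc ι ^ 2 * Real.exp (-K) := by
    rw [Finset.union_comm]; exact h2
  have h4 := mul_le_mul_of_nonneg_left h3 (show (0 : ℝ) ≤ (42 * K) ^ A1.card by positivity)
  have hN := NI_nonneg h.hw n I z
  have h5 : (42 * K) ^ A1.card * ((20 * K) ^ E.card * NI w n I z) ≤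
      (42 * K) ^ (A1.card + E.card) * NI w n I z := by
    rw [pow_add, ← mul_assoc]
    refine mul_le_mul_of_nonneg_right (mul_le_mul_of_nonneg_left ?_ (by positivity)) hN
    exact pow_le_pow_left₀ (by positivity) (by nlinarith) _
  have hcard := card3_le h01 h0E hd
  have hcEI : (E ∪ I).card = E.card + I.card := Finset.card_union_of_disjoint hEI
  have hL := h.hL1
  have hn := h.hnr
  have hexp := Real.exp_pos (-K / 2)
  -- the two errors
  have e1 : (42 * K) ^ A1.card *
      (E.card * L ^ E.card * (n + 1) ^ I.card * Bc ι ^ 2 * Real.exp (-K)) ≤ 1 := by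
    have hE : (E.card : ℝ) ≤ L := by
      have : E.card ≤ Fintype.card ι := Finset.card_le_univ _
      exact_mod_cast this.trans h.hkL
    calc _ ≤ (L : ℝ) ^ A1.card *
          (L * L ^ E.card * L ^ I.card * Bc ι ^ 2 * Real.exp (-K / 2)) := by
          have := h.hKL
          have := h.hexp
          gcongr
      _ = 4 ^ (2 * (Fintype.card ι * Fintype.card ι)) *
          L ^ (A1.card + 1 + E.card + I.card) * Real.exp (-K / 2) := by
          rw [Bc_sq, pow_add, pow_add, pow_add]; ring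
      _ ≤ 1 := h.err (by omega) (by omega)
  have e2 : (n + 1 : ℝ) ^ ((E ∪ I).card + 1) *
        (2 * L ^ (2 * A1.card) * (2 * Bc ι) ^ 2 * Real.exp (-K / 2)) ≤ 1 := by
    calc _ ≤ (L : ℝ) ^ ((E ∪ I).card + 1) *
          (2 * L ^ (2 * A1.card) * (2 * Bc ι) ^ 2 * Real.exp (-K / 2)) := by
          gcongr
      _ ≤ 4 ^ (2 * (Fintype.card ι * Fintype.card ι) + 2) *
          L ^ ((E ∪ I).card + 1 + 2 * A1.card) * Real.exp (-K / 2) := by
          have e : (L : ℝ) ^ ((E ∪ I).card + 1) *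
            (2 * L ^ (2 * A1.card) * (2 * Bc ι) ^ 2 * Real.exp (-K / 2)) =
            8 * (Bc ι ^ 2 * L ^ ((E ∪ I).card + 1 + 2 * A1.card) * Real.exp (-K / 2)) := by
            rw [pow_add (L : ℝ) ((E ∪ I).card + 1)]; ring
          rw [e, Bc_sq, pow_add (4 : ℝ)]
          have : (0 : ℝ) ≤ 4 ^ (2 * (Fintype.card ι * Fintype.card ι)) *
            L ^ ((E ∪ I).card + 1 + 2 * A1.card) * Real.exp (-K / 2) := by positivity
          nlinarith
      _ ≤ 1 := h.err (by omega) (by omega)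
  rw [mul_add] at h4
  linarith

/-- the product of several centred digits in front -/
theorem emc {w : Om ι L → ℝ} {K : ℝ} {n : ℕ} (h : Ctx w K n) {A R D I : Finset ι}
    (hR : R.Nonempty) (hRA : R ⊆ A) (hRD : Disjoint R D) (hRI : Disjoint R I)
    (hDI : Disjoint D I) (z : ι → ℕ) (hz : ∀ c, z c ≤ L) :
    ∑ s ∈ Bx n (R ∪ D ∪ I) z, Ex w (fun ω => CE w (lv L A s)
      (fun ω => em w R s ω * hh w D I s ω) ω ^ 2) ≤
      4 ^ Fintype.card ι * ((42 * K) ^ (R.card - 1 + D.card) * NI w n I z + 2) := by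
  obtain ⟨c0, hc0⟩ := hR
  set R' := R.erase c0 with hR'
  have hc0R' : c0 ∉ R' := Finset.notMem_erase c0 R
  have hRins : R = insert c0 R' := (Finset.insert_erase hc0).symm
  have hRcard : R'.card = R.card - 1 := Finset.card_erase_of_mem hc0
  have hK0 : 0 ≤ K := by linarith [h.hK1]
  have hw0 := h.hw.nonneg
  have hR'R : R' ⊆ R := Finset.erase_subset c0 R
  have hexpand : ∀ s, ∀ ω, CE w (lv L A s) (fun ω => em w R s ω * hh w D I s ω) ω =
      ∑ D' ∈ R'.powerset, (-1) ^ D'.card * CE w (lv L A s)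
        (fun ω => xm (R' \ D') s ω * (et w c0 (s c0) ω * hh w (D' ∪ D) I s ω)) ω := by
    intro s ω
    have e : ∀ ω, em w R s ω * hh w D I s ω = ∑ D' ∈ R'.powerset, (-1) ^ D'.card *
        (xm (R' \ D') s ω * (et w c0 (s c0) ω * hh w (D' ∪ D) I s ω)) := by
      intro ω
      have e1 : em w R s ω = et w c0 (s c0) ω * em w R' s ω := by
        unfold em
        rw [hRins, Finset.prod_insert hc0R']
      rw [e1, em_expand, Finset.mul_sum, Finset.sum_mul]
      refine Finset.sum_congr rfl (fun D' hD' => ?_)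
      rw [Finset.mem_powerset] at hD'
      have hdis : Disjoint D' D := Finset.disjoint_of_subset_left (hD'.trans hR'R) hRD
      have e2 : bm w (D' ∪ D) s ω = bm w D' s ω * bm w D s ω := by
        unfold bm
        rw [Finset.prod_union hdis]
      unfold hh
      rw [e2]
      ring
    rw [CE_congr w _ e, CE_sum]
    exact Finset.sum_congr rfl (fun D' _ => CE_const_mul _ _ _ _ _)
  have hcardP : (R'.powerset.card : ℝ) ≤ 2 ^ Fintype.card ι := by
    rw [Finset.card_powerset]
    push_cast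
    exact pow_le_pow_right₀ (by norm_num) (Finset.card_le_univ _)
  have hpt : ∀ s, Ex w (fun ω => CE w (lv L A s)
      (fun ω => em w R s ω * hh w D I s ω) ω ^ 2) ≤
      2 ^ Fintype.card ι * ∑ D' ∈ R'.powerset, Ex w (fun ω => CE w (lv L A s)
        (fun ω => xm (R' \ D') s ω * (et w c0 (s c0) ω * hh w (D' ∪ D) I s ω)) ω ^ 2) := by
    intro s
    rw [← Ex_sum, ← Ex_const_mul]
    refine Ex_mono hw0 (fun ω => ?_)
    rw [hexpand s ω]
    refine (sq_sum_le_card_mul_sum_sq).trans ?_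
    have e3 : ∀ D' ∈ R'.powerset, ((-1) ^ D'.card * CE w (lv L A s)
        (fun ω => xm (R' \ D') s ω * (et w c0 (s c0) ω * hh w (D' ∪ D) I s ω)) ω) ^ 2 =
        CE w (lv L A s)
        (fun ω => xm (R' \ D') s ω * (et w c0 (s c0) ω * hh w (D' ∪ D) I s ω)) ω ^ 2 := by
      intro D' _
      rw [mul_pow, ← pow_mul, mul_comm D'.card 2, pow_mul]
      norm_num
    rw [Finset.sum_congr rfl e3]
    exact mul_le_mul_of_nonneg_right hcardP (Finset.sum_nonneg (fun _ _ => sq_nonneg _))
  calc _ ≤ ∑ s ∈ Bx n (R ∪ D ∪ I) z, 2 ^ Fintype.card ι * ∑ D' ∈ R'.powerset,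
        Ex w (fun ω => CE w (lv L A s)
        (fun ω => xm (R' \ D') s ω * (et w c0 (s c0) ω * hh w (D' ∪ D) I s ω)) ω ^ 2) :=
        Finset.sum_le_sum (fun s _ => hpt s)
    _ = 2 ^ Fintype.card ι * ∑ D' ∈ R'.powerset, ∑ s ∈ Bx n (R ∪ D ∪ I) z,
        Ex w (fun ω => CE w (lv L A s)
        (fun ω => xm (R' \ D') s ω * (et w c0 (s c0) ω * hh w (D' ∪ D) I s ω)) ω ^ 2) := by
        rw [← Finset.mul_sum, Finset.sum_comm]
    _ ≤ 2 ^ Fintype.card ι * ∑ _D' ∈ R'.powerset,
        ((42 * K) ^ (R.card - 1 + D.card) * NI w n I z + 2) := by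
        refine mul_le_mul_of_nonneg_left (Finset.sum_le_sum (fun D' hD' => ?_)) (by positivity)
        rw [Finset.mem_powerset] at hD'
        have hD'R : D' ⊆ R := hD'.trans hR'R
        have hset : R ∪ D ∪ I = ((D' ∪ D) ∪ I) ∪ ({c0} ∪ (R' \ D')) := by
          ext x
          simp only [mem_union, mem_singleton, mem_sdiff, hRins, mem_insert]
          constructor
          · rintro (((rfl | hx) | hx) | hx)
            · tauto
            · by_cases hxD : x ∈ D' <;> tauto
            · tauto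
            · tauto
          · rintro ((((hx | hx) | hx)) | (hx | hx))
            · exact Or.inl (Or.inl (Or.inr (hD' hx)))
            · tauto
            · tauto
            · tauto
            · tauto
        rw [hset]
        have g := gen2 h (A := A) (A1 := R' \ D') (E := D' ∪ D) (I := I) (c0 := c0)
          ((Finset.sdiff_subset.trans hR'R).trans hRA) (hRA hc0)
          (fun hx => hc0R' (Finset.sdiff_subset hx))
          (by
            simp only [mem_union, not_or]
            exact ⟨⟨fun hx => hc0R' (hD' hx), Finset.disjoint_left.1 hRD hc0⟩,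
              Finset.disjoint_left.1 hRI hc0⟩)
          (by
            rw [Finset.disjoint_left]
            intro x hx hx'
            simp only [mem_union, mem_sdiff] at hx hx'
            have hxR : x ∈ R := hR'R hx'.1
            rcases hx with (hx | hx) | hx
            · exact hx'.2 hx
            · exact Finset.disjoint_left.1 hRD hxR hx
            · exact Finset.disjoint_left.1 hRI hxR hx)
          (by
            rw [Finset.disjoint_union_left]
            exact ⟨Finset.disjoint_of_subset_left hD'R hRI, hDI⟩)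
          z hz
        have hcard : (R' \ D').card + (D' ∪ D).card = R.card - 1 + D.card := by
          rw [Finset.card_sdiff_of_subset hD', Finset.card_union_of_disjoint
            (Finset.disjoint_of_subset_left hD'R hRD), hRcard]
          have := Finset.card_le_card hD'
          omega
        rw [hcard] at g
        exact g
    _ ≤ 2 ^ Fintype.card ι * (2 ^ Fintype.card ι *
        ((42 * K) ^ (R.card - 1 + D.card) * NI w n I z + 2)) := by
        rw [Finset.sum_const, nsmul_eq_mul]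
        have hN := NI_nonneg h.hw n I z
        refine mul_le_mul_of_nonneg_left (mul_le_mul_of_nonneg_right hcardP (by positivity))
          (by positivity)
    _ = _ := by
        rw [← mul_assoc, ← mul_pow]
        norm_num

end DK
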